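import Mathlib
import Pool.Agent.Helper35.YG.TA
import Pool.Agent.Helper35.YG.YE
import Pool.Agent.Helper35.YG.Triple
import Pool.Agent.Helper30.YGSchur

set_option autoImplicit false

open Polynomial Matrix

namespace Pool.Agent.Helper38.YG

open Pool.Agent.Helper35.YG

section basic

variable {n m : ℕ} (hn : Odd n) {E Γ : Type} [CommRing E] [Group Γ] {ε : P →+* E}
  (hε : Function.Surjective ε) (hPh : ε (Ph n) = 0) {bar : E →+* E}
  (hbar : bar (ε X) = ε X ^ (n - 1)) (D : YE n m E Γ ε)

include hn hε hPh in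
lemma E_induction {p : E → Prop} (h0 : p 0) (h1 : ∀ k : ℕ, p (1 + ε X ^ k))
    (hadd : ∀ a b, p a → p b → p (a + b)) (e : E) : p e := by
  obtain ⟨κ, hκ⟩ := exists_kappa hn
  have hκ2 : (Ph n + 1 : P) = (1 + X) * κ := by
    rw [← hκ]; linear_combination P_two
  have key : ∀ f : P, p (ε ((1 + X) * f)) := by
    intro f
    induction f using P_induction with
    | h0 => rw [mul_zero, map_zero]; exact h0
    | hX j =>
      have e2 := E_char2 ε hε (1 : E)
      have : ε ((1 + X) * X ^ j) = (1 + ε X ^ j) + (1 + ε X ^ (j + 1)) := by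
        rw [map_mul, map_add, map_one, map_pow]
        linear_combination -e2
      rw [this]
      exact hadd _ _ (h1 _) (h1 _)
    | hadd f g hf hg => rw [mul_add, map_add]; exact hadd _ _ hf hg
  obtain ⟨g, rfl⟩ := hε e
  have h2 : ε ((1 + X) * (κ * g)) = ε g := by
    rw [← mul_assoc, ← hκ2, map_mul, map_add, hPh, map_one, zero_add, one_mul]
  rw [← h2]
  exact key _

include hPh in
lemma zeta_pow : ε X ^ n = 1 := by
  have := ε_dvd (n := n) ε hPh (f := X ^ n) (g := 1) (Ph_dvd n)
  rwa [map_pow, map_one] at this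

include hn hε hPh hbar in
lemma bar_bar (z : E) : bar (bar z) = z := by
  have hN : 0 < n := hn.pos
  have h1 : (bar.comp (bar.comp ε)) = ε := by
    apply Polynomial.ringHom_ext'
    · exact Subsingleton.elim _ _
    · have hz : ε X ^ (n - 1) * ε X = 1 := by
        rw [← pow_succ, Nat.sub_add_cancel hN]; exact zeta_pow hPh
      change bar (bar (ε X)) = ε X
      rw [hbar, map_pow, hbar]
      have h2 : (ε X ^ (n - 1)) ^ (n - 1) * ε X ^ (n - 1) = 1 := by
        rw [← pow_succ, Nat.sub_add_cancel hN, ← pow_mul, mul_comm, pow_mul, zeta_pow hPh,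
          one_pow]
      calc (ε X ^ (n - 1)) ^ (n - 1) = (ε X ^ (n - 1)) ^ (n - 1) * (ε X ^ (n - 1) * ε X) := by
            rw [hz, mul_one]
        _ = ((ε X ^ (n - 1)) ^ (n - 1) * ε X ^ (n - 1)) * ε X := by ring
        _ = ε X := by rw [h2, one_mul]
  obtain ⟨f, rfl⟩ := hε z
  exact DFunLike.congr_fun h1 f

lemma U_zero {i j : Fin m} (hij : i ≠ j) : D.U i j 0 = 1 := by
  have := D.U_add i j hij 0 0
  rw [add_zero] at this
  exact (left_eq_mul.mp this)

include hε in
lemma U_sq {i j : Fin m} (hij : i ≠ j) (e : E) : D.U i j e * D.U i j e = 1 := by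
  rw [← D.U_add i j hij, E_char2 ε hε, U_zero D hij]

include hn hε hPh hbar in
lemma U_symm {i j : Fin m} (hij : i ≠ j) (e : E) : D.U j i e = D.U i j (bar e) := by
  have hN : 0 < n := hn.pos
  induction e using E_induction hn hε hPh with
  | h0 => rw [map_zero, U_zero D hij, U_zero D hij.symm]
  | h1 k =>
    rw [D.hU j i hij.symm, map_add, map_one, map_pow, hbar, ← pow_mul, D.hU i j hij]
    have h1 := D.rel.swap hij (k : ℤ)
    have h2 : ∀ i, D.x i ^ (-(k : ℤ)) = D.x i ^ ((n - 1) * k) := by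
      intro i
      rw [_root_.zpow_neg, _root_.zpow_natCast, inv_eq_iff_mul_eq_one, ← pow_add]
      have : k + (n - 1) * k = n * k := by
        obtain ⟨r, rfl⟩ : ∃ r, n = r + 1 := ⟨n - 1, by omega⟩
        simp; ring
      rw [this, pow_mul, D.rel.pow, one_pow]
    rw [h2, h2, _root_.zpow_natCast, _root_.zpow_natCast] at h1
    exact h1
  | hadd a b ha hb =>
    rw [map_add, D.U_add j i hij.symm, D.U_add i j hij, ha, hb]

end basic

section cong

variable {E : Type} [CommRing E]

/-- congruent to one modulo `e` -/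
def Cong (e : E) (g : SpecialLinearGroup (Fin 2) E) : Prop :=
  ∃ A : Matrix (Fin 2) (Fin 2) E, g.1 = 1 + e • A

lemma Cong.comm {e f : E} (hef : e * f = 0) {g h : SpecialLinearGroup (Fin 2) E}
    (hg : Cong e g) (hh : Cong f h) : g * h = h * g := by
  obtain ⟨A, hA⟩ := hg
  obtain ⟨B, hB⟩ := hh
  apply Subtype.ext
  change g.1 * h.1 = h.1 * g.1
  have hfe : f * e = 0 := by rw [mul_comm]; exact hef
  rw [hA, hB]
  simp only [mul_add, add_mul, one_mul, mul_one, smul_mul_assoc, mul_smul_comm, smul_add,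
    smul_smul, hef, hfe, zero_smul, add_zero]
  abel

lemma cong_uu (e w : E) : Cong e (uu (e * w)) := by
  refine ⟨!![0, w; 0, 0], ?_⟩
  ext i j
  fin_cases i <;> fin_cases j <;> simp [uu]

lemma cong_vv (e w : E) : Cong e (vv (e * w)) := by
  refine ⟨!![0, 0; w, 0], ?_⟩
  ext i j
  fin_cases i <;> fin_cases j <;> simp [vv]

lemma uvu_val (h2 : (2 : E) = 0) (t : E) :
    (uu 1 * vv t * uu 1 : SpecialLinearGroup (Fin 2) E).1 = !![1 + t, t; t, 1 + t] := by
  change (!![1, 1; 0, 1] * !![1, 0; t, 1] * !![1, 1; 0, 1] : Matrix (Fin 2) (Fin 2) E) = _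
  ext i j
  fin_cases i <;> fin_cases j <;> simp [Matrix.mul_apply, Fin.sum_univ_two]
  · linear_combination h2
  · ring

lemma cong_uvu (h2 : (2 : E) = 0) (e w : E) : Cong e (uu 1 * vv (e * w) * uu 1) := by
  refine ⟨!![w, w; w, w], ?_⟩
  rw [uvu_val h2]
  ext i j
  fin_cases i <;> fin_cases j <;> simp

lemma split_mat (h2 : (2 : E) = 0) {e : E} (he : e * e = e) (w : E) :
    (vv e * (uu 1 * vv (e * w) * uu 1) * vv e : SpecialLinearGroup (Fin 2) E) = uu (e * w) := by
  apply Subtype.ext
  change (vv e).1 * (uu 1 * vv (e * w) * uu 1 : SpecialLinearGroup (Fin 2) E).1 * (vv e).1 = _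
  rw [uvu_val h2]
  change (!![1, 0; e, 1] * !![1 + e * w, e * w; e * w, 1 + e * w] * !![1, 0; e, 1] :
    Matrix (Fin 2) (Fin 2) E) = !![1, e * w; 0, 1]
  ext i j
  fin_cases i <;> fin_cases j <;> simp [Matrix.mul_apply, Fin.sum_univ_two]
  · linear_combination w * he + (e * w) * h2
  · linear_combination (3 * w + e * w) * he + (e + 2 * e * w) * h2
  · linear_combination w * he + (e * w) * h2

end cong


section triple

variable {n m : ℕ} {E Γ : Type} [CommRing E] [Group Γ] {ε : P →+* E}

/-- the consequences of the theorem `triple` used here -/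
structure TripleHyp (bar : E →+* E) (D : YE n m E Γ ε) : Prop where
  phi : ∀ i j k : Fin m, i ≠ j → i ≠ k → j ≠ k → ∃ φ : SpecialLinearGroup (Fin 2) E →* Γ,
    (∀ e, φ (uu e) = D.U i j e) ∧ (∀ e, φ (vv e) = D.U i k (bar e)) ∧
    (∀ e, φ (uu 1 * vv e * uu 1) = D.U j k e)
  conj : ∀ i j : Fin m, i ≠ j → ∀ e, D.x i * D.U i j e * (D.x i)⁻¹ = D.U i j (ε X * e)

lemma exists_third (hm : 3 ≤ m) (i j : Fin m) : ∃ c, c ≠ i ∧ c ≠ j := by
  by_contra h
  push Not at h
  have h1 : (Finset.univ : Finset (Fin m)) ⊆ {i, j} := by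
    intro c _
    rw [Finset.mem_insert, Finset.mem_singleton]
    by_cases hc : c = i
    · exact Or.inl hc
    · exact Or.inr (h c hc)
  have h2 := Finset.card_le_card h1
  have h3 := Finset.card_le_two (a := i) (b := j)
  rw [Finset.card_univ, Fintype.card_fin] at h2
  omega

variable {bar : E →+* E} {D : YE n m E Γ ε} (hm : 3 ≤ m) (hn : Odd n)
  (hε : Function.Surjective ε) (hPh : ε (Ph n) = 0)
  (hbar : bar (ε X) = ε X ^ (n - 1)) (ht : TripleHyp bar D)

include hn hε hPh hbar in
lemma rep (a b c : Fin m) (hab : a ≠ b) (hac : a ≠ c) (hbc : b ≠ c)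
    {φ : SpecialLinearGroup (Fin 2) E →* Γ}
    (h1 : ∀ e, φ (uu e) = D.U a b e) (h2 : ∀ e, φ (vv e) = D.U a c (bar e))
    (h3 : ∀ e, φ (uu 1 * vv e * uu 1) = D.U b c e) {p q : Fin m}
    (hp : p = a ∨ p = b ∨ p = c) (hq : q = a ∨ q = b ∨ q = c) (hpq : p ≠ q)
    {e : E} (he : bar e = e) (w : E) : ∃ g, Cong e g ∧ φ g = D.U p q (e * w) := by
  have e2 : (2 : E) = 0 := by have := E_char2 ε hε (1 : E); linear_combination this
  have hs : ∀ {i j : Fin m}, i ≠ j → ∀ w, D.U j i (e * w) = D.U i j (e * bar w) := by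
    intro i j hij w
    rw [U_symm hn hε hPh hbar D hij, map_mul, he]
  have hb : ∀ z, bar (bar z) = z := bar_bar hn hε hPh hbar
  have k1 : ∀ w, ∃ g, Cong e g ∧ φ g = D.U a b (e * w) := fun w => ⟨_, cong_uu e w, h1 _⟩
  have k2 : ∀ w, ∃ g, Cong e g ∧ φ g = D.U a c (e * w) := fun w =>
    ⟨_, cong_vv e (bar w), by rw [h2, map_mul, he, hb]⟩
  have k3 : ∀ w, ∃ g, Cong e g ∧ φ g = D.U b c (e * w) := fun w => ⟨_, cong_uvu e2 e w, h3 _⟩
  rcases hp with rfl | rfl | rfl <;> rcases hq with rfl | rfl | rfl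
  · exact absurd rfl hpq
  · exact k1 w
  · exact k2 w
  · rw [hs hab]; exact k1 _
  · exact absurd rfl hpq
  · exact k3 w
  · rw [hs hac]; exact k2 _
  · rw [hs hbc]; exact k3 _
  · exact absurd rfl hpq

include hn hε hPh hbar ht in
lemma comm_triple (a b c : Fin m) (hab : a ≠ b) (hac : a ≠ c) (hbc : b ≠ c) {p q p' q' : Fin m}
    (hp : p = a ∨ p = b ∨ p = c) (hq : q = a ∨ q = b ∨ q = c) (hpq : p ≠ q)
    (hp' : p' = a ∨ p' = b ∨ p' = c) (hq' : q' = a ∨ q' = b ∨ q' = c) (hpq' : p' ≠ q')
    {e f : E} (he : bar e = e) (hf : bar f = f) (hef : e * f = 0) (w w' : E) :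
    D.U p q (e * w) * D.U p' q' (f * w') = D.U p' q' (f * w') * D.U p q (e * w) := by
  obtain ⟨φ, h1, h2, h3⟩ := ht.phi a b c hab hac hbc
  obtain ⟨g, hg, hg'⟩ := rep hn hε hPh hbar a b c hab hac hbc h1 h2 h3 hp hq hpq he w
  obtain ⟨h, hh, hh'⟩ := rep hn hε hPh hbar a b c hab hac hbc h1 h2 h3 hp' hq' hpq' hf w'
  rw [← hg', ← hh', ← map_mul, ← map_mul, hg.comm hef hh]

include hε ht in
lemma U_split (i j k : Fin m) (hij : i ≠ j) (hik : i ≠ k) (hjk : j ≠ k) {e : E}
    (he : bar e = e) (hee : e * e = e) (w : E) :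
    D.U i j (e * w) = D.U i k e * D.U j k (e * w) * D.U i k e := by
  have e2 : (2 : E) = 0 := by have := E_char2 ε hε (1 : E); linear_combination this
  obtain ⟨φ, h1, h2, h3⟩ := ht.phi i j k hij hik hjk
  have h4 : D.U i k e = φ (vv e) := by rw [h2, he]
  rw [h4, ← h1, ← h3, ← map_mul, ← map_mul, split_mat e2 hee]

include hm hn hε hPh hbar ht in
/-- sharing an index -/
lemma comm_share {i j k l : Fin m} (hij : i ≠ j) (hkl : k ≠ l)
    (hs : k = i ∨ k = j ∨ l = i ∨ l = j)
    {e f : E} (he : bar e = e) (hf : bar f = f) (hef : e * f = 0) (w w' : E) :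
    D.U i j (e * w) * D.U k l (f * w') = D.U k l (f * w') * D.U i j (e * w) := by
  have main : ∀ c, c ≠ i → c ≠ j → (k = i ∨ k = j ∨ k = c) → (l = i ∨ l = j ∨ l = c) →
      D.U i j (e * w) * D.U k l (f * w') = D.U k l (f * w') * D.U i j (e * w) := by
    intro c hci hcj hk hl
    exact comm_triple hn hε hPh hbar ht i j c hij hci.symm hcj.symm (Or.inl rfl)
      (Or.inr (Or.inl rfl)) hij hk hl hkl he hf hef w w'
  by_cases hk : k = i ∨ k = j
  · by_cases hl : l = i ∨ l = j
    · obtain ⟨c, hc1, hc2⟩ := exists_third hm i j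
      exact main c hc1 hc2 (by tauto) (by tauto)
    · push Not at hl
      exact main l hl.1 hl.2 (by tauto) (by tauto)
  · push Not at hk
    exact main k hk.1 hk.2 (by tauto) (by tauto)

include hm hn hε hPh hbar ht in
lemma comm_all {i j k l : Fin m} (hij : i ≠ j) (hkl : k ≠ l)
    {e f : E} (he : bar e = e) (hf : bar f = f) (hee : e * e = e) (hef : e * f = 0) (w w' : E) :
    D.U i j (e * w) * D.U k l (f * w') = D.U k l (f * w') * D.U i j (e * w) := by
  by_cases hs : k = i ∨ k = j ∨ l = i ∨ l = j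
  · exact comm_share hm hn hε hPh hbar ht hij hkl hs he hf hef w w'
  · push Not at hs
    obtain ⟨h1, h2, h3, h4⟩ := hs
    have a1 : Commute (D.U i k e) (D.U k l (f * w')) := by
      have := comm_share hm hn hε hPh hbar ht h1.symm hkl (Or.inr (Or.inl rfl)) he hf hef 1 w'
      rw [mul_one] at this
      exact this
    have a2 : Commute (D.U j k (e * w)) (D.U k l (f * w')) :=
      comm_share hm hn hε hPh hbar ht h2.symm hkl (Or.inr (Or.inl rfl)) he hf hef w w'
    rw [U_split hε ht i j k hij h1.symm h2.symm he hee w]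
    exact ((a1.mul_left a2).mul_left a1).eq

/-- the subgroup of the idempotent `e` -/
def NN (D : YE n m E Γ ε) (e : E) : Subgroup Γ :=
  Subgroup.closure {g | ∃ i j, i ≠ j ∧ ∃ w, g = D.U i j (e * w)}

include hm hn hε hPh hbar ht in
lemma NN_comm {e f : E} (he : bar e = e) (hf : bar f = f) (hee : e * e = e) (hef : e * f = 0) :
    ∀ x ∈ NN D e, ∀ y ∈ NN D f, x * y = y * x := by
  intro x hx
  induction hx using Subgroup.closure_induction with
  | mem x hx =>
    obtain ⟨i, j, hij, w, rfl⟩ := hx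
    intro y hy
    change Commute _ _
    induction hy using Subgroup.closure_induction with
    | mem y hy =>
      obtain ⟨k, l, hkl, w', rfl⟩ := hy
      exact comm_all hm hn hε hPh hbar ht hij hkl he hf hee hef w w'
    | one => exact Commute.one_right _
    | mul a b _ _ ha hb => exact ha.mul_right hb
    | inv a _ ha => exact ha.inv_right
  | one => intro y _; rw [one_mul, mul_one]
  | mul a b _ _ ha hb =>
    intro y hy
    have h1 : Commute a y := ha y hy
    have h2 : Commute b y := hb y hy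
    exact (h1.mul_left h2).eq
  | inv a _ ha =>
    intro y hy
    have h1 : Commute a y := ha y hy
    exact h1.inv_left.eq

include hn hε hPh hbar ht in
lemma NN_conj_x {e : E} (he : bar e = e) (hee : e * e = e) (l : Fin m) :
    ∀ y ∈ NN D e, D.x l * y * (D.x l)⁻¹ ∈ NN D e := by
  have hmem : ∀ {i j : Fin m}, i ≠ j → ∀ w, D.U i j (e * w) ∈ NN D e := fun {i j} hij w =>
    Subgroup.subset_closure ⟨i, j, hij, w, rfl⟩
  have c1 : ∀ {i j : Fin m}, i ≠ j → ∀ w, D.x i * D.U i j (e * w) * (D.x i)⁻¹ ∈ NN D e := by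
    intro i j hij w
    rw [ht.conj i j hij, show ε X * (e * w) = e * (ε X * w) by ring]
    exact hmem hij _
  have c2 : ∀ {i j : Fin m}, i ≠ j → ∀ w, D.x j * D.U i j (e * w) * (D.x j)⁻¹ ∈ NN D e := by
    intro i j hij w
    rw [U_symm hn hε hPh hbar D hij.symm, map_mul, he]
    exact c1 hij.symm _
  have c3 : ∀ {i j : Fin m}, i ≠ j → ∀ w, D.x l * D.U i j (e * w) * (D.x l)⁻¹ ∈ NN D e := by
    intro i j hij w
    by_cases h1 : l = i
    · subst h1; exact c1 hij w
    · by_cases h2 : l = j
      · subst h2; exact c2 hij w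
      · rw [U_split hε ht i j l hij (Ne.symm h1) (Ne.symm h2) he hee w]
        have e1 : D.x l * (D.U i l e * D.U j l (e * w) * D.U i l e) * (D.x l)⁻¹ =
            (D.x l * D.U i l (e * 1) * (D.x l)⁻¹) * (D.x l * D.U j l (e * w) * (D.x l)⁻¹) *
            (D.x l * D.U i l (e * 1) * (D.x l)⁻¹) := by
          rw [mul_one]; group
        rw [e1]
        exact mul_mem (mul_mem (c2 (Ne.symm h1) 1) (c2 (Ne.symm h2) w)) (c2 (Ne.symm h1) 1)
  intro y hy
  induction hy using Subgroup.closure_induction with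
  | mem y hy =>
    obtain ⟨i, j, hij, w, rfl⟩ := hy
    exact c3 hij w
  | one => rw [mul_one, mul_inv_cancel]; exact one_mem _
  | mul a b _ _ ha hb =>
    have : D.x l * (a * b) * (D.x l)⁻¹ = (D.x l * a * (D.x l)⁻¹) * (D.x l * b * (D.x l)⁻¹) := by
      group
    rw [this]
    exact mul_mem ha hb
  | inv a _ ha =>
    have : D.x l * a⁻¹ * (D.x l)⁻¹ = (D.x l * a * (D.x l)⁻¹)⁻¹ := by group
    rw [this]
    exact inv_mem ha

include hn hε hPh hbar ht in
lemma NN_normal (hD : Subgroup.closure (Set.range D.x) = ⊤) {e : E} (he : bar e = e)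
    (hee : e * e = e) : (NN D e).Normal := by
  have hN : 0 < n := hn.pos
  have key : ∀ g : Γ, (∀ y ∈ NN D e, g * y * g⁻¹ ∈ NN D e) ∧
      (∀ y ∈ NN D e, g⁻¹ * y * g ∈ NN D e) := by
    intro g
    have hg : g ∈ Subgroup.closure (Set.range D.x) := by rw [hD]; trivial
    induction hg using Subgroup.closure_induction with
    | mem g hg =>
      obtain ⟨l, rfl⟩ := hg
      have h1 := NN_conj_x hn hε hPh hbar ht he hee l
      refine ⟨h1, ?_⟩
      have h2 : ∀ k : ℕ, ∀ y ∈ NN D e, D.x l ^ k * y * (D.x l ^ k)⁻¹ ∈ NN D e := by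
        intro k
        induction k with
        | zero => intro y hy; simpa using hy
        | succ k ih =>
          intro y hy
          have : D.x l ^ (k + 1) * y * (D.x l ^ (k + 1))⁻¹ =
              D.x l * (D.x l ^ k * y * (D.x l ^ k)⁻¹) * (D.x l)⁻¹ := by
            rw [pow_succ']; group
          rw [this]
          exact h1 _ (ih y hy)
      intro y hy
      have h3 : D.x l ^ (n - 1) = (D.x l)⁻¹ := by
        rw [eq_inv_iff_mul_eq_one, ← pow_succ, Nat.sub_add_cancel hN]
        exact D.rel.pow l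
      have h4 := h2 (n - 1) y hy
      rw [h3, inv_inv] at h4
      exact h4
    | one => simp
    | mul a b _ _ ha hb =>
      constructor
      · intro y hy
        have : a * b * y * (a * b)⁻¹ = a * (b * y * b⁻¹) * a⁻¹ := by group
        rw [this]; exact ha.1 _ (hb.1 _ hy)
      · intro y hy
        have : (a * b)⁻¹ * y * (a * b) = b⁻¹ * (a⁻¹ * y * a) * b := by group
        rw [this]; exact hb.2 _ (ha.2 _ hy)
    | inv a _ ha =>
      refine ⟨fun y hy => ?_, fun y hy => ?_⟩
      · rw [inv_inv]; exact ha.2 y hy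
      · rw [inv_inv]; exact ha.1 y hy
  exact ⟨fun y hy g => (key g).1 y hy⟩

end triple

section quotient

variable {n m : ℕ} {E Γ : Type} [CommRing E] [Group Γ] {ε : P →+* E} (D : YE n m E Γ ε) (e : E)
  [(NN D e).Normal]

/-- the induced maps on the quotient -/
noncomputable def QU (i j : Fin m) (z : E ⧸ Ideal.span {e}) : Γ ⧸ NN D e :=
  QuotientGroup.mk' (NN D e) (D.U i j (Function.surjInv Ideal.Quotient.mk_surjective z))

lemma QU_mk {i j : Fin m} (hij : i ≠ j) (w : E) :
    QU D e i j (Ideal.Quotient.mk _ w) = QuotientGroup.mk' (NN D e) (D.U i j w) := by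
  set z : E ⧸ Ideal.span {e} := Ideal.Quotient.mk _ w with hz
  set w' := Function.surjInv Ideal.Quotient.mk_surjective z with hw'
  have h1 : Ideal.Quotient.mk (Ideal.span {e}) w' = Ideal.Quotient.mk (Ideal.span {e}) w :=
    Function.surjInv_eq Ideal.Quotient.mk_surjective z
  rw [Ideal.Quotient.eq, Ideal.mem_span_singleton'] at h1
  obtain ⟨t, ht⟩ := h1
  have h2 : w' = w + e * t := by linear_combination -ht
  change QuotientGroup.mk' (NN D e) (D.U i j w') = _
  rw [h2, D.U_add i j hij, map_mul]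
  have h3 : QuotientGroup.mk' (NN D e) (D.U i j (e * t)) = 1 := by
    rw [QuotientGroup.mk'_apply, QuotientGroup.eq_one_iff]
    exact Subgroup.subset_closure ⟨i, j, hij, t, rfl⟩
  rw [h3, mul_one]

/-- the induced structure on the quotient -/
noncomputable def QD : YE n m (E ⧸ Ideal.span {e}) (Γ ⧸ NN D e)
    ((Ideal.Quotient.mk (Ideal.span {e})).comp ε) where
  x i := QuotientGroup.mk' (NN D e) (D.x i)
  rel := by
    refine ⟨fun k => ?_, fun k l hkl i => ?_⟩
    · rw [← map_pow, D.rel.pow, map_one]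
    · rw [← map_zpow, ← map_zpow, ← map_mul, ← map_mul, D.rel.rel k l hkl, map_one]
  U := QU D e
  U_add := by
    intro i j hij a b
    obtain ⟨a, rfl⟩ := Ideal.Quotient.mk_surjective a
    obtain ⟨b, rfl⟩ := Ideal.Quotient.mk_surjective b
    rw [← map_add, QU_mk D e hij, QU_mk D e hij, QU_mk D e hij, D.U_add i j hij, map_mul]
  hU := by
    intro i j hij k
    have : (1 + ((Ideal.Quotient.mk (Ideal.span {e})).comp ε) X ^ k : E ⧸ Ideal.span {e}) =
        Ideal.Quotient.mk _ (1 + ε X ^ k) := by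
      rw [map_add, map_one, map_pow]; rfl
    rw [this, QU_mk D e hij, D.hU i j hij, map_mul, map_pow, map_pow]

lemma QD_closure (hD : Subgroup.closure (Set.range D.x) = ⊤) :
    Subgroup.closure (Set.range (QD D e).x) = ⊤ := by
  have h1 : Set.range (QD D e).x = (QuotientGroup.mk' (NN D e)) '' Set.range D.x := by
    rw [← Set.range_comp]; rfl
  rw [h1, ← MonoidHom.map_closure, hD, ← MonoidHom.range_eq_map]
  exact MonoidHom.range_eq_top.mpr (QuotientGroup.mk'_surjective _)

end quotient

/-- a copy of `Finite`, not a class -/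
def Fin' (Γ : Type) : Prop := Finite Γ

/-- the theorem `triple` of `Helper35` -/
def TripleStatement (n m : ℕ) : Prop :=
  ∀ {E Γ : Type} [CommRing E] [Nontrivial E] [Group Γ] {ε : P →+* E}
    (_ : Function.Surjective ε) (_ : ε (Ph n) = 0) (bar : E →+* E)
    (_ : bar (ε X) = ε X ^ (n - 1)) (D : YE n m E Γ ε), TripleHyp bar D

theorem comp_induction_of {n m : ℕ} (htriple : TripleStatement n m) (hn : Odd n) (hm : 3 ≤ m)
    (hfield : ∀ (E : Type) [CommRing E] [Finite E] [Nontrivial E] (ε : P →+* E) (bar : E →+* E),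
      Function.Surjective ε → ε (Ph n) = 0 → bar (ε X) = ε X ^ (n - 1) →
      (∀ z, bar z = z → z ≠ 0 → IsUnit z) → ∀ (Γ : Type) [Group Γ] (D : YE n m E Γ ε),
      Subgroup.closure (Set.range D.x) = ⊤ → Finite Γ) :
    ∀ (E : Type) [CommRing E] [Finite E] (ε : P →+* E) (bar : E →+* E),
      Function.Surjective ε → ε (Ph n) = 0 → bar (ε X) = ε X ^ (n - 1) →
      ∀ (Γ : Type) [Group Γ] (D : YE n m E Γ ε),
      Subgroup.closure (Set.range D.x) = ⊤ → Finite Γ := by
  suffices H : ∀ (N : ℕ) (E : Type) [CommRing E] [Finite E], Nat.card E = N →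
      ∀ (ε : P →+* E) (bar : E →+* E),
      Function.Surjective ε → ε (Ph n) = 0 → bar (ε X) = ε X ^ (n - 1) →
      ∀ (Γ : Type) [Group Γ] (D : YE n m E Γ ε),
      Subgroup.closure (Set.range D.x) = ⊤ → Fin' Γ by
    intro E _ _ ε bar h1 h2 h3 Γ _ D hD
    exact H _ E rfl ε bar h1 h2 h3 Γ D hD
  have hfield' : ∀ (E : Type) [CommRing E] [Finite E] [Nontrivial E] (ε : P →+* E)
      (bar : E →+* E), Function.Surjective ε → ε (Ph n) = 0 → bar (ε X) = ε X ^ (n - 1) →
      (∀ z, bar z = z → z ≠ 0 → IsUnit z) → ∀ (Γ : Type) [Group Γ] (D : YE n m E Γ ε),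
      Subgroup.closure (Set.range D.x) = ⊤ → Fin' Γ := hfield
  clear hfield
  intro N
  induction N using Nat.strong_induction_on with
  | _ N ih =>
  intro E _ _ hcard ε bar hε hPh hbar Γ _ D hD
  rcases subsingleton_or_nontrivial E with hE | hE
  · -- `E` trivial
    have h1 : ∀ i j : Fin m, i ≠ j → D.x i * D.x j = 1 := by
      intro i j hij
      have h2 := D.hU i j hij 1
      rw [pow_one, pow_one, pow_one, Subsingleton.elim (1 + ε X) (0 : E), U_zero D hij] at h2
      exact h2.symm
    have h2 : ∀ i, D.x i = 1 := by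
      intro i
      obtain ⟨j, hji, _⟩ := exists_third hm i i
      obtain ⟨k, hki, hkj⟩ := exists_third hm i j
      have a1 := h1 i j hji.symm
      have a2 := h1 j k hkj.symm
      have a3 := h1 i k hki.symm
      have a4 : D.x i = D.x k := by
        rw [eq_inv_of_mul_eq_one_left a1, eq_inv_of_mul_eq_one_right a2]
      rw [← a4] at a3
      obtain ⟨r, hr⟩ := hn
      have a5 : D.x i ^ (2 * r + 1) = 1 := by rw [← hr]; exact D.rel.pow i
      rw [pow_succ, pow_mul, sq, a3, one_pow, one_mul] at a5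
      exact a5
    have h3 : Set.range D.x ⊆ {1} := by
      rintro _ ⟨i, rfl⟩
      exact h2 i
    have h4 : (⊤ : Subgroup Γ) = ⊥ := by
      rw [← hD, Subgroup.closure_eq_bot_iff]
      exact h3
    have h5 : ∀ g : Γ, g = 1 := by
      intro g
      have : g ∈ (⊤ : Subgroup Γ) := trivial
      rw [h4] at this
      exact Subgroup.mem_bot.mp this
    have hss : Subsingleton Γ := ⟨fun a b => by rw [h5 a, h5 b]⟩
    exact @Finite.of_subsingleton Γ hss
  · by_cases hf : ∀ z, bar z = z → z ≠ 0 → IsUnit z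
    · exact hfield' E ε bar hε hPh hbar hf Γ D hD
    · push Not at hf
      obtain ⟨z, hz, hz0, hzu⟩ := hf
      obtain ⟨k, hk, hper, _⟩ := E_period hn ε hε hPh
      obtain ⟨r, rfl⟩ : ∃ r, k = r + 3 := ⟨k - 3, by omega⟩
      set e := z ^ (r + 2) with he
      have hbe : bar e = e := by rw [he, map_pow, hz]
      have hez : e * z = z := by rw [he, ← pow_succ]; exact hper z
      have hee : e * e = e := by
        have : e * e = (e * z) * z ^ (r + 1) := by rw [he]; ring
        rw [this, hez, he]; ring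
      have he0 : e ≠ 0 := by
        intro h
        rw [h, zero_mul] at hez
        exact hz0 hez.symm
      have he1 : e ≠ 1 := by
        intro h
        apply hzu
        refine IsUnit.of_mul_eq_one (z ^ (r + 1)) ?_
        rw [← h, he]; ring
      have e2 : (2 : E) = 0 := by have := E_char2 ε hε (1 : E); linear_combination this
      set f := 1 + e with hfdef
      have hbf : bar f = f := by rw [hfdef, map_add, map_one, hbe]
      have hff : f * f = f := by rw [hfdef]; linear_combination hee + e * e2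
      have hef : e * f = 0 := by rw [hfdef]; linear_combination hee + e * e2
      have hf0 : f ≠ 0 := by
        intro h
        apply he1
        rw [hfdef] at h
        linear_combination h - e2
      have ht := htriple hε hPh bar hbar D
      have step : ∀ g : E, bar g = g → g * g = g → g ≠ 0 → ∀ [(NN D g).Normal],
          Finite (Γ ⧸ NN D g) := by
        intro g hbg hgg hg0 _
        have hfq : Finite (E ⧸ Ideal.span {g}) :=
          Finite.of_surjective (Ideal.Quotient.mk (Ideal.span {g})) Ideal.Quotient.mk_surjective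
        have hlt : Nat.card (E ⧸ Ideal.span {g}) < N := by
          rw [← hcard]
          have := Fintype.ofFinite E
          have := Fintype.ofFinite (E ⧸ Ideal.span {g})
          rw [Nat.card_eq_fintype_card, Nat.card_eq_fintype_card]
          refine Fintype.card_lt_of_surjective_not_injective (Ideal.Quotient.mk (Ideal.span {g}))
            Ideal.Quotient.mk_surjective ?_
          intro hinj
          apply hg0
          apply hinj
          rw [map_zero, Ideal.Quotient.eq_zero_iff_mem]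
          exact Ideal.mem_span_singleton_self g
        have hle : Ideal.span {g} ≤ (Ideal.span {g}).comap bar := by
          rw [Ideal.span_singleton_le_iff_mem, Ideal.mem_comap, hbg]
          exact Ideal.mem_span_singleton_self g
        refine ih _ hlt (E ⧸ Ideal.span {g}) rfl ((Ideal.Quotient.mk (Ideal.span {g})).comp ε)
          (Ideal.quotientMap (Ideal.span {g}) bar hle) ?_ ?_ ?_ (Γ ⧸ NN D g) (QD D g)
          (QD_closure D g hD)
        · exact Ideal.Quotient.mk_surjective.comp hε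
        · rw [RingHom.comp_apply, hPh, map_zero]
        · rw [RingHom.comp_apply, Ideal.quotientMap_mk, hbar, map_pow]
      have n1 := NN_normal hn hε hPh hbar ht hD hbe hee
      have n2 := NN_normal hn hε hPh hbar ht hD hbf hff
      have hfg : Group.FG Γ := by
        rw [Group.fg_iff]
        exact ⟨_, hD, Set.finite_range _⟩
      refine Pool.Agent.Helper30.YG.finite_of_commuting (NN D e) (NN D f)
        (NN_comm hm hn hε hPh hbar ht hbe hbf hee hef) (step e hbe hee he0) (step f hbf hff hf0)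
        {g | ∃ i j, i ≠ j ∧ ∃ w, g = D.U i j (e * w)} ?_ rfl
      rintro _ ⟨i, j, hij, w, rfl⟩
      exact U_sq hε D hij _

theorem tripleStatement {n m : ℕ} (hn : Odd n) (hm : 3 ≤ m) : TripleStatement n m := by
  intro E Γ _ _ _ ε hε hPh bar hbar D
  refine ⟨fun i j k hij hik hjk => ?_, fun i j hij => ?_⟩
  · obtain ⟨φ, h1, h2, h3, _⟩ := triple hn hε hPh bar hbar D i j k hij hik hjk
    exact ⟨φ, h1, h2, h3⟩
  · obtain ⟨c, h1, h2⟩ := exists_third hm i j
    obtain ⟨_, _, _, _, h, _⟩ := triple hn hε hPh bar hbar D i j c hij h1.symm h2.symm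
    exact h

/-- reduction to the field case -/
theorem comp_induction {n m : ℕ} (hn : Odd n) (hm : 3 ≤ m)
    (hfield : ∀ (E : Type) [CommRing E] [Finite E] [Nontrivial E] (ε : P →+* E) (bar : E →+* E),
      Function.Surjective ε → ε (Ph n) = 0 → bar (ε X) = ε X ^ (n - 1) →
      (∀ z, bar z = z → z ≠ 0 → IsUnit z) → ∀ (Γ : Type) [Group Γ] (D : YE n m E Γ ε),
      Subgroup.closure (Set.range D.x) = ⊤ → Finite Γ) :
    ∀ (E : Type) [CommRing E] [Finite E] (ε : P →+* E) (bar : E →+* E),
      Function.Surjective ε → ε (Ph n) = 0 → bar (ε X) = ε X ^ (n - 1) →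
      ∀ (Γ : Type) [Group Γ] (D : YE n m E Γ ε),
      Subgroup.closure (Set.range D.x) = ⊤ → Finite Γ :=
  comp_induction_of (tripleStatement hn hm) hn hm hfield

end Pool.Agent.Helper38.YG
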