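import Mathlib

open MvPolynomial Module

namespace Pool.Agent.Helper38

noncomputable section

/-- Laurent polynomials with exponents in an additive group. -/
abbrev Lau (X : Type) [AddCommGroup X] : Type := AddMonoidAlgebra ℤ X

section Shift

variable {X : Type} [AddCommGroup X]

/-- Translation of integer valued functions. -/
def shiftEnd (ν : X) : Module.End ℤ (X → ℤ) where
  toFun h := fun μ => h (μ - ν)
  map_add' _ _ := rfl
  map_smul' _ _ := rfl

def shiftHom (X : Type) [AddCommGroup X] : Multiplicative X →* Module.End ℤ (X → ℤ) where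
  toFun ν := shiftEnd ν.toAdd
  map_one' := by
    ext h μ
    simp [shiftEnd]
  map_mul' a b := by
    ext h μ
    simp [shiftEnd, sub_sub]

/-- Action of Laurent polynomials on functions. -/
def act : Lau X →ₐ[ℤ] Module.End ℤ (X → ℤ) := AddMonoidAlgebra.lift ℤ _ X (shiftHom X)

lemma act_single (ν : X) (c : ℤ) (h : X → ℤ) (μ : X) :
    act (AddMonoidAlgebra.single ν c) h μ = c * h (μ - ν) := by
  simp [act, shiftHom, shiftEnd]

lemma act_one_sub (ν : X) (h : X → ℤ) (μ : X) :
    act (1 - AddMonoidAlgebra.single ν (1:ℤ)) h μ = h μ - h (μ - ν) := by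
  rw [map_sub, map_one, LinearMap.sub_apply, Pi.sub_apply, act_single]
  simp

lemma act_mul (p q : Lau X) (h : X → ℤ) : act (p * q) h = act p (act q h) := by
  rw [map_mul]; rfl

/-- coefficient function of a Laurent polynomial. -/
def cf (q : Lau X) : X → ℤ := fun μ => q.coeff μ

lemma cf_injective : Function.Injective (cf : Lau X → X → ℤ) := by
  intro a b h
  apply AddMonoidAlgebra.coeff_injective
  ext μ
  exact congrFun h μ

lemma cf_add (p q : Lau X) : cf (p + q) = cf p + cf q := by
  ext μ; simp [cf]

lemma cf_zero : cf (0 : Lau X) = 0 := by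
  ext μ; simp [cf]

lemma act_cf (p q : Lau X) : act p (cf q) = cf (p * q) := by
  classical
  induction p using AddMonoidAlgebra.induction_linear with
  | zero => simp [cf_zero]
  | add f g hf hg => rw [map_add, LinearMap.add_apply, hf, hg, add_mul, cf_add]
  | single a b =>
    ext μ
    rw [act_single]
    simp only [cf]
    rw [AddMonoidAlgebra.coeff_single_mul_apply]
    congr 2
    abel

end Shift

end

end Pool.Agent.Helper38
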