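import Mathlib
import Pool.Agent.Helper38.KBasic

open MvPolynomial Module

namespace Pool.Agent.Helper38

noncomputable section

section Weighted

variable {k : Type} [Field k] {σ : Type} {X : Type} [AddCommGroup X]

/-- An ideal closed under taking weighted homogeneous components. -/
def IsHomog (w : σ → X) (I : Ideal (MvPolynomial σ k)) : Prop :=
  ∀ f ∈ I, ∀ μ : X, weightedHomogeneousComponent w μ f ∈ I

/-- Positivity of a grading. -/
def PosW (w : σ → X) : Prop := ∃ ℓ : X →+ ℤ, ∀ i, 0 < ℓ (w i)

abbrev whs (k : Type) [Field k] {σ : Type} {X : Type} [AddCommGroup X] (w : σ → X) (μ : X) :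
    Submodule k (MvPolynomial σ k) := weightedHomogeneousSubmodule k w μ

/-- the weight `μ` part of an ideal -/
def wp (w : σ → X) (I : Ideal (MvPolynomial σ k)) (μ : X) : Submodule k (MvPolynomial σ k) :=
  I.restrictScalars k ⊓ whs k w μ

/-- Hilbert function of the quotient by an ideal. -/
def hilb (w : σ → X) (I : Ideal (MvPolynomial σ k)) (μ : X) : ℤ :=
  (finrank k (whs k w μ) : ℤ) - finrank k (wp w I μ)

lemma mem_wp {w : σ → X} {I : Ideal (MvPolynomial σ k)} {μ : X} {f : MvPolynomial σ k} :
    f ∈ wp w I μ ↔ f ∈ I ∧ IsWeightedHomogeneous w f μ := by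
  simp [wp]

lemma weight_map {Y : Type} [AddCommGroup Y] (w : σ → X) (φ : X →+ Y) (d : σ →₀ ℕ) :
    Finsupp.weight (fun i => φ (w i)) d = φ (Finsupp.weight w d) := by
  simp [Finsupp.weight_apply, Finsupp.sum, map_sum]

lemma finite_weight [Finite σ] {w : σ → X} (hw : PosW w) (μ : X) :
    {d : σ →₀ ℕ | Finsupp.weight w d = μ}.Finite := by
  obtain ⟨ℓ, hℓ⟩ := hw
  have h1 := Finsupp.finite_of_nat_weight_eq (fun i => (ℓ (w i)).toNat)
    (fun i => by have := hℓ i; omega) ((ℓ μ).toNat)
  refine h1.subset ?_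
  intro d hd
  simp only [Set.mem_ofPred_eq] at hd ⊢
  have h2 : Finsupp.weight (fun i => ℓ (w i)) d = ℓ μ := by
    rw [weight_map w ℓ d, hd]
  have h3 : ((Finsupp.weight (fun i => (ℓ (w i)).toNat) d : ℕ) : ℤ) =
      Finsupp.weight (fun i => ℓ (w i)) d := by
    simp only [Finsupp.weight_apply, Finsupp.sum]
    push_cast
    refine Finset.sum_congr rfl fun i _ => ?_
    rw [nsmul_eq_mul, nsmul_eq_mul]
    push_cast
    rw [Int.toNat_of_nonneg (hℓ i).le]
  omega

lemma finite_whs [Finite σ] {w : σ → X} (hw : PosW w) (μ : X) :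
    Module.Finite k (whs k w μ) := by
  have h0 := finite_weight hw μ
  rw [whs, weightedHomogeneousSubmodule_eq_finsupp_supported]
  have := h0.to_subtype
  exact Module.Finite.of_basis (basisRestrictSupport k {d | Finsupp.weight w d = μ})

lemma wp_le (w : σ → X) (I : Ideal (MvPolynomial σ k)) (μ : X) : wp w I μ ≤ whs k w μ :=
  inf_le_right

lemma finite_wp [Finite σ] {w : σ → X} (hw : PosW w) (I : Ideal (MvPolynomial σ k)) (μ : X) :
    Module.Finite k (wp w I μ) := by
  have := finite_whs (k := k) hw μ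
  exact Submodule.finiteDimensional_of_le (wp_le w I μ)

/-- The colon ideal by an element. -/
def colonE {R : Type} [CommRing R] (I : Ideal R) (f : R) : Ideal R :=
  Submodule.comap (LinearMap.mulLeft R f) I

lemma mem_colonE {R : Type} [CommRing R] {I : Ideal R} {f g : R} :
    g ∈ colonE I f ↔ f * g ∈ I := Iff.rfl

lemma le_colonE {R : Type} [CommRing R] (I : Ideal R) (f : R) : I ≤ colonE I f := by
  intro g hg
  exact I.mul_mem_left f hg

lemma comp_mul_homog {w : σ → X} {f : MvPolynomial σ k} {δ : X}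
    (hf : IsWeightedHomogeneous w f δ) (g : MvPolynomial σ k) (μ : X) :
    weightedHomogeneousComponent w μ (f * g) = f * weightedHomogeneousComponent w (μ - δ) g := by
  classical
  conv_lhs => rw [← sum_weightedHomogeneousComponent w g]
  rw [finsum_eq_sum _ (weightedHomogeneousComponent_finsupp g), Finset.mul_sum, map_sum]
  have h1 : ∀ ν : X, weightedHomogeneousComponent w μ (f * weightedHomogeneousComponent w ν g) =
      if ν = μ - δ then f * weightedHomogeneousComponent w ν g else 0 := by
    intro ν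
    have h2 : IsWeightedHomogeneous w (f * weightedHomogeneousComponent w ν g) (δ + ν) :=
      hf.mul (weightedHomogeneousComponent_isWeightedHomogeneous ν g)
    split_ifs with h
    · have h3 : δ + ν = μ := by rw [h]; abel
      rw [← h3]
      exact h2.weightedHomogeneousComponent_same
    · apply h2.weightedHomogeneousComponent_ne
      intro h4
      apply h
      rw [h4]; abel
  rw [Finset.sum_congr rfl fun ν _ => h1 ν, Finset.sum_ite_eq']
  split_ifs with h
  · rfl
  · have h0 : weightedHomogeneousComponent w (μ - δ) g = 0 := by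
      by_contra hne
      exact h ((Set.Finite.mem_toFinset _).2 hne)
    rw [h0, mul_zero]

lemma IsHomog.colonE {w : σ → X} {I : Ideal (MvPolynomial σ k)} (hI : IsHomog w I)
    {f : MvPolynomial σ k} {δ : X} (hf : IsWeightedHomogeneous w f δ) :
    IsHomog w (colonE I f) := by
  intro g hg μ
  rw [mem_colonE] at hg ⊢
  have := hI _ hg (μ + δ)
  rwa [comp_mul_homog hf, add_sub_cancel_right] at this

lemma IsHomog.sup {w : σ → X} {I J : Ideal (MvPolynomial σ k)} (hI : IsHomog w I)
    (hJ : IsHomog w J) : IsHomog w (I ⊔ J) := by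
  intro f hf μ
  rw [Submodule.mem_sup] at hf ⊢
  obtain ⟨a, ha, b, hb, rfl⟩ := hf
  exact ⟨_, hI a ha μ, _, hJ b hb μ, (map_add _ _ _).symm⟩

lemma isHomog_span_singleton {w : σ → X} {f : MvPolynomial σ k} {δ : X}
    (hf : IsWeightedHomogeneous w f δ) : IsHomog w (Ideal.span {f}) := by
  intro g hg μ
  rw [Ideal.mem_span_singleton] at hg ⊢
  obtain ⟨c, rfl⟩ := hg
  rw [comp_mul_homog hf]
  exact dvd_mul_right _ _

lemma isHomog_top (w : σ → X) : IsHomog w (⊤ : Ideal (MvPolynomial σ k)) := fun _ _ _ => trivial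

lemma isHomog_bot (w : σ → X) : IsHomog w (⊥ : Ideal (MvPolynomial σ k)) := by
  intro f hf μ
  rw [Ideal.mem_bot] at hf ⊢
  rw [hf, map_zero]

/-- additivity of dimensions -/
lemma finrank_map_mkQ_add {V : Type} [AddCommGroup V] [Module k V] (U W : Submodule k V)
    (h : U ≤ W) [Module.Finite k W] :
    finrank k (W.map U.mkQ) + finrank k U = finrank k W := by
  have h1 := LinearMap.finrank_range_add_finrank_ker (U.mkQ.domRestrict W)
  have h2 : LinearMap.range (U.mkQ.domRestrict W) = W.map U.mkQ := by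
    rw [LinearMap.domRestrict, LinearMap.range_comp, Submodule.range_subtype]
  have h3 : LinearMap.ker (U.mkQ.domRestrict W) = U.comap W.subtype := by
    ext x; simp
  rw [h2, h3] at h1
  rw [← h1, LinearEquiv.finrank_eq (Submodule.comapSubtypeEquivOfLe h)]

/-- The exact sequence `0 → S/(I:f) → S/I → S/(I+f) → 0` on Hilbert functions. -/
lemma hilb_colon [Finite σ] {w : σ → X} (hw : PosW w) {I : Ideal (MvPolynomial σ k)}
    (hI : IsHomog w I) {f : MvPolynomial σ k} {δ : X} (hf : IsWeightedHomogeneous w f δ) (μ : X) :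
    hilb w I μ = hilb w (I ⊔ Ideal.span {f}) μ + hilb w (colonE I f) (μ - δ) := by
  classical
  have hfin1 := finite_whs (k := k) hw μ
  have hfin2 := finite_whs (k := k) hw (μ - δ)
  have hfinU := finite_wp hw I μ
  have hfinW := finite_wp hw (I ⊔ Ideal.span {f}) μ
  have hfinC := finite_wp hw (colonE I f) (μ - δ)
  set U := wp w I μ with hU
  set W := wp w (I ⊔ Ideal.span {f}) μ with hW
  have hUW : U ≤ W := by
    intro g hg
    rw [hU, mem_wp] at hg
    rw [hW, mem_wp]
    exact ⟨(le_sup_left : I ≤ I ⊔ Ideal.span {f}) hg.1, hg.2⟩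
  have e1 := finrank_map_mkQ_add U W hUW
  -- the multiplication map
  let T : (whs k w (μ - δ)) →ₗ[k] (MvPolynomial σ k ⧸ U) :=
    (U.mkQ ∘ₗ (LinearMap.mulLeft k f)).domRestrict (whs k w (μ - δ))
  have e2 := LinearMap.finrank_range_add_finrank_ker T
  have hrange : LinearMap.range T = W.map U.mkQ := by
    ext x
    constructor
    · rintro ⟨⟨g, hg⟩, rfl⟩
      refine ⟨f * g, ?_, rfl⟩
      rw [SetLike.mem_coe, hW, mem_wp]
      refine ⟨?_, ?_⟩
      · exact (le_sup_right : Ideal.span {f} ≤ I ⊔ Ideal.span {f})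
          (Ideal.mem_span_singleton.2 (dvd_mul_right _ _))
      · have := hf.mul (mem_weightedHomogeneousSubmodule _ _ _ _ |>.1 hg)
        rwa [add_sub_cancel] at this
    · rintro ⟨g, hg, rfl⟩
      rw [SetLike.mem_coe, hW, mem_wp] at hg
      obtain ⟨hg1, hg2⟩ := hg
      rw [Submodule.mem_sup] at hg1
      obtain ⟨a, ha, b, hb, hab⟩ := hg1
      rw [Ideal.mem_span_singleton] at hb
      obtain ⟨c, rfl⟩ := hb
      refine ⟨⟨weightedHomogeneousComponent w (μ - δ) c, weightedHomogeneousComponent_mem _ _ _⟩, ?_⟩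
      change U.mkQ (f * weightedHomogeneousComponent w (μ - δ) c) = U.mkQ g
      rw [← comp_mul_homog hf, Submodule.mkQ_apply, Submodule.mkQ_apply, Submodule.Quotient.eq]
      have h5 : weightedHomogeneousComponent w μ g = g := hg2.weightedHomogeneousComponent_same
      have h6 : weightedHomogeneousComponent w μ a + weightedHomogeneousComponent w μ (f * c) = g := by
        rw [← map_add, hab, h5]
      rw [← h6, hU, mem_wp]
      refine ⟨?_, ?_⟩
      · have h7 : weightedHomogeneousComponent w μ (f * c) - (weightedHomogeneousComponent w μ a +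
          weightedHomogeneousComponent w μ (f * c)) = - weightedHomogeneousComponent w μ a := by ring
        rw [h7]
        exact neg_mem (hI a ha μ)
      · exact (weightedHomogeneousComponent_isWeightedHomogeneous _ _).sub
          ((weightedHomogeneousComponent_isWeightedHomogeneous _ _).add
          (weightedHomogeneousComponent_isWeightedHomogeneous _ _))
  have hker : LinearMap.ker T = (wp w (colonE I f) (μ - δ)).comap (whs k w (μ - δ)).subtype := by
    ext ⟨g, hg⟩
    rw [LinearMap.mem_ker, Submodule.mem_comap]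
    change U.mkQ (f * g) = 0 ↔ g ∈ wp w (colonE I f) (μ - δ)
    rw [Submodule.mkQ_apply, Submodule.Quotient.mk_eq_zero, hU, mem_wp, mem_wp, mem_colonE]
    have h8 : IsWeightedHomogeneous w (f * g) μ := by
      have := hf.mul (mem_weightedHomogeneousSubmodule _ _ _ _ |>.1 hg)
      rwa [add_sub_cancel] at this
    exact ⟨fun h => ⟨h.1, hg⟩, fun h => ⟨h.1, h8⟩⟩
  rw [hrange, hker, LinearEquiv.finrank_eq (Submodule.comapSubtypeEquivOfLe (wp_le _ _ _))] at e2
  simp only [hilb]
  rw [← hU, ← hW]
  omega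

end Weighted

section Transport

variable {k : Type} [Field k] {σ σ' : Type} {X : Type} [AddCommGroup X]

/-- Graded isomorphisms preserve Hilbert functions. -/
lemma hilb_equiv {w : σ → X} {w' : σ' → X} (e : MvPolynomial σ k ≃ₐ[k] MvPolynomial σ' k)
    (he : ∀ f μ, IsWeightedHomogeneous w f μ ↔ IsWeightedHomogeneous w' (e f) μ)
    (I : Ideal (MvPolynomial σ k)) (I' : Ideal (MvPolynomial σ' k))
    (hI : ∀ f, f ∈ I ↔ e f ∈ I') : hilb w I = hilb w' I' := by
  ext μ
  have h1 : (whs k w μ).map (e.toLinearEquiv : MvPolynomial σ k →ₗ[k] MvPolynomial σ' k) =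
      whs k w' μ := by
    ext g
    constructor
    · rintro ⟨f, hf, rfl⟩
      exact (he f μ).1 hf
    · intro hg
      refine ⟨e.symm g, ?_, by simp⟩
      apply (he _ μ).2
      simpa using hg
  have h2 : (wp w I μ).map (e.toLinearEquiv : MvPolynomial σ k →ₗ[k] MvPolynomial σ' k) =
      wp w' I' μ := by
    ext g
    constructor
    · rintro ⟨f, hf, rfl⟩
      rw [SetLike.mem_coe, mem_wp] at hf
      exact mem_wp.2 ⟨(hI f).1 hf.1, (he f μ).1 hf.2⟩
    · intro hg
      rw [mem_wp] at hg
      refine ⟨e.symm g, ?_, by simp⟩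
      rw [SetLike.mem_coe, mem_wp]
      refine ⟨(hI _).2 (by simpa using hg.1), (he _ μ).2 (by simpa using hg.2)⟩
  simp only [hilb]
  rw [← h1, ← h2, LinearEquiv.finrank_map_eq, LinearEquiv.finrank_map_eq]

end Transport

end

end Pool.Agent.Helper38
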