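import Mathlib
import Pool.Agent.Helper38.KHilb

open MvPolynomial Module

namespace Pool.Agent.Helper38

noncomputable section

section HomogMaps

variable {k : Type} [Field k] {σ σ' : Type} {X : Type} [AddCommGroup X]

lemma homog_aeval {w : σ → X} {w' : σ' → X} (F : σ → MvPolynomial σ' k)
    (hF : ∀ i, IsWeightedHomogeneous w' (F i) (w i)) {f : MvPolynomial σ k} {μ : X}
    (hf : IsWeightedHomogeneous w f μ) : IsWeightedHomogeneous w' (aeval F f) μ := by
  classical
  rw [aeval_def, eval₂_eq]
  apply IsWeightedHomogeneous.sum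
  intro d hd
  have h1 : IsWeightedHomogeneous w' (∏ i ∈ d.support, F i ^ d i) (∑ i ∈ d.support, d i • w i) := by
    apply IsWeightedHomogeneous.prod
    intro i _
    exact (hF i).pow (d i)
  have h2 : (∑ i ∈ d.support, d i • w i) = μ := by
    rw [← hf (mem_support_iff.1 hd), Finsupp.weight_apply]
    rfl
  rw [h2] at h1
  exact h1.C_mul _

lemma homog_map_group {Y : Type} [AddCommGroup Y] {w : σ → X} (φ : X →+ Y)
    {f : MvPolynomial σ k} {μ : X} (hf : IsWeightedHomogeneous w f μ) :
    IsWeightedHomogeneous (fun i => φ (w i)) f (φ μ) := by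
  intro d hd
  rw [weight_map, hf hd]

lemma comp_aeval {w : σ → X} {w' : σ' → X} (F : σ → MvPolynomial σ' k)
    (hF : ∀ i, IsWeightedHomogeneous w' (F i) (w i)) (f : MvPolynomial σ k) (μ : X) :
    weightedHomogeneousComponent w' μ (aeval F f) =
      aeval F (weightedHomogeneousComponent w μ f) := by
  classical
  conv_lhs => rw [← sum_weightedHomogeneousComponent w f]
  rw [finsum_eq_sum _ (weightedHomogeneousComponent_finsupp f), map_sum, map_sum]
  rw [Finset.sum_eq_single μ]
  · exact (homog_aeval F hF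
      (weightedHomogeneousComponent_isWeightedHomogeneous μ f)).weightedHomogeneousComponent_same
  · intro ν _ hν
    exact (homog_aeval F hF
      (weightedHomogeneousComponent_isWeightedHomogeneous ν f)).weightedHomogeneousComponent_ne _
        hν.symm
  · intro h
    have h0 : weightedHomogeneousComponent w μ f = 0 := by
      by_contra hne
      exact h ((Set.Finite.mem_toFinset _).2 hne)
    rw [h0, map_zero, map_zero]

lemma homog_rename {w' : σ' → X} (g : σ → σ') {f : MvPolynomial σ k} {μ : X}
    (hf : IsWeightedHomogeneous (w' ∘ g) f μ) : IsWeightedHomogeneous w' (rename g f) μ := by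
  have : (rename g : MvPolynomial σ k →ₐ[k] MvPolynomial σ' k) = aeval (fun i => MvPolynomial.X (g i)) := by
    apply MvPolynomial.algHom_ext
    intro i; simp
  rw [this]
  exact homog_aeval _ (fun i => isWeightedHomogeneous_X k w' (g i)) hf

lemma IsHomog.map_aeval {w : σ → X} {w' : σ' → X} (F : σ → MvPolynomial σ' k)
    (hF : ∀ i, IsWeightedHomogeneous w' (F i) (w i)) {I : Ideal (MvPolynomial σ k)}
    (hI : IsHomog w I) (hs : Function.Surjective (aeval F : MvPolynomial σ k →ₐ[k] _)) :
    IsHomog w' (I.map (aeval F : MvPolynomial σ k →ₐ[k] MvPolynomial σ' k)) := by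
  intro g hg μ
  rw [Ideal.mem_map_iff_of_surjective _ hs] at hg
  obtain ⟨f, hf, rfl⟩ := hg
  rw [comp_aeval F hF]
  exact Ideal.mem_map_of_mem _ (hI f hf μ)

lemma IsHomog.comap_aeval {w : σ → X} {w' : σ' → X} (F : σ → MvPolynomial σ' k)
    (hF : ∀ i, IsWeightedHomogeneous w' (F i) (w i)) {I : Ideal (MvPolynomial σ' k)}
    (hI : IsHomog w' I) :
    IsHomog w (I.comap (aeval F : MvPolynomial σ k →ₐ[k] MvPolynomial σ' k)) := by
  intro g hg μ
  rw [Ideal.mem_comap] at hg ⊢
  rw [← comp_aeval F hF]
  exact hI _ hg μ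

end HomogMaps

section Elim

variable {k : Type} [Field k] {τ : Type} {X : Type} [AddCommGroup X]

/-- substitution of `0` for the distinguished variable -/
def ev0 (k : Type) [Field k] (τ : Type) : MvPolynomial (Option τ) k →ₐ[k] MvPolynomial τ k :=
  aeval (fun o : Option τ => o.elim 0 MvPolynomial.X)

lemma ev0_none : ev0 k τ (MvPolynomial.X none) = 0 := by simp [ev0]

lemma ev0_some (i : τ) : ev0 k τ (MvPolynomial.X (some i)) = MvPolynomial.X i := by simp [ev0]

lemma ev0_rename (g : MvPolynomial τ k) : ev0 k τ (rename some g) = g := by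
  have : (ev0 k τ).comp (rename some) = AlgHom.id k _ := by
    ext i; simp [ev0_some]
  exact AlgHom.congr_fun this g

lemma ev0_surj : Function.Surjective (ev0 k τ) := fun g => ⟨rename some g, ev0_rename g⟩

lemma ev0_homogF (w : Option τ → X) (o : Option τ) :
    IsWeightedHomogeneous (w ∘ some) (o.elim 0 MvPolynomial.X : MvPolynomial τ k) (w o) := by
  cases o with
  | none => exact isWeightedHomogeneous_zero k _ _
  | some i => exact isWeightedHomogeneous_X k _ i

lemma ev0_mod (f : MvPolynomial (Option τ) k) :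
    f - rename some (ev0 k τ f) ∈ Ideal.span {(MvPolynomial.X none : MvPolynomial (Option τ) k)} := by
  rw [← Ideal.Quotient.eq]
  set π := Ideal.Quotient.mkₐ k (Ideal.span {(MvPolynomial.X none : MvPolynomial (Option τ) k)})
  have h : π = (π.comp (rename some)).comp (ev0 k τ) := by
    apply MvPolynomial.algHom_ext
    intro o
    cases o with
    | none =>
      simp only [AlgHom.comp_apply, ev0_none, map_zero]
      change Ideal.Quotient.mk _ _ = _
      rw [Ideal.Quotient.eq_zero_iff_mem]
      exact Ideal.mem_span_singleton_self _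
    | some i => simp [ev0_some]
  exact AlgHom.congr_fun h f

lemma mem_iff_ev0 {J : Ideal (MvPolynomial (Option τ) k)} (hJ : MvPolynomial.X none ∈ J)
    (f : MvPolynomial (Option τ) k) : f ∈ J ↔ ev0 k τ f ∈ J.map (ev0 k τ) := by
  constructor
  · intro h
    exact Ideal.mem_map_of_mem _ h
  · intro h
    rw [Ideal.mem_map_iff_of_surjective _ ev0_surj] at h
    obtain ⟨g, hg, hgf⟩ := h
    have hle : Ideal.span {(MvPolynomial.X none : MvPolynomial (Option τ) k)} ≤ J := by
      rw [Ideal.span_singleton_le_iff_mem]; exact hJ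
    have h1 := hle (ev0_mod f)
    have h2 := hle (ev0_mod g)
    rw [hgf] at h2
    have h3 : f = (f - rename some (ev0 k τ f)) - (g - rename some (ev0 k τ f)) + g := by ring
    rw [h3]
    exact J.add_mem (J.sub_mem h1 h2) hg

lemma hilb_ev0 [Finite τ] {w : Option τ → X} (hw : PosW w)
    {J : Ideal (MvPolynomial (Option τ) k)} (hJ : MvPolynomial.X none ∈ J)
    (μ : X) : hilb w J μ = hilb (w ∘ some) (J.map (ev0 k τ)) μ := by
  classical
  have hfin1 := finite_whs (k := k) hw μ
  have hfinU := finite_wp hw J μ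
  let T : MvPolynomial (Option τ) k →ₗ[k] MvPolynomial τ k := (ev0 k τ).toLinearMap
  have e1 := LinearMap.finrank_range_add_finrank_ker (T.domRestrict (whs k w μ))
  have e2 := LinearMap.finrank_range_add_finrank_ker (T.domRestrict (wp w J μ))
  have r1 : LinearMap.range (T.domRestrict (whs k w μ)) = whs k (w ∘ some) μ := by
    ext g
    constructor
    · rintro ⟨⟨f, hf⟩, rfl⟩
      exact homog_aeval _ (ev0_homogF w) hf
    · intro hg
      exact ⟨⟨rename some g, homog_rename some hg⟩, ev0_rename g⟩
  have r2 : LinearMap.range (T.domRestrict (wp w J μ)) = wp (w ∘ some) (J.map (ev0 k τ)) μ := by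
    ext g
    constructor
    · rintro ⟨⟨f, hf⟩, rfl⟩
      rw [mem_wp] at hf
      exact mem_wp.2 ⟨Ideal.mem_map_of_mem _ hf.1, homog_aeval _ (ev0_homogF w) hf.2⟩
    · intro hg
      rw [mem_wp] at hg
      refine ⟨⟨rename some g, ?_⟩, ev0_rename g⟩
      rw [mem_wp]
      refine ⟨?_, homog_rename some hg.2⟩
      rw [mem_iff_ev0 hJ, ev0_rename]
      exact hg.1
  have hk : ∀ f, T f = 0 → f ∈ J := by
    intro f hf
    rw [mem_iff_ev0 hJ]
    change T f ∈ _
    rw [hf]
    exact zero_mem _
  have k1 : finrank k (LinearMap.ker (T.domRestrict (whs k w μ))) =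
      finrank k (LinearMap.ker (T.domRestrict (wp w J μ))) := by
    have a1 : LinearMap.ker (T.domRestrict (whs k w μ)) =
        (LinearMap.ker T ⊓ wp w J μ).comap (whs k w μ).subtype := by
      ext ⟨f, hf⟩
      simp only [LinearMap.mem_ker, LinearMap.domRestrict_apply, Submodule.mem_comap,
        Submodule.subtype_apply, Submodule.mem_inf]
      exact ⟨fun h => ⟨h, mem_wp.2 ⟨hk f h, hf⟩⟩, fun h => h.1⟩
    have a2 : LinearMap.ker (T.domRestrict (wp w J μ)) =
        (LinearMap.ker T ⊓ wp w J μ).comap (wp w J μ).subtype := by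
      ext ⟨f, hf⟩
      simp only [LinearMap.mem_ker, LinearMap.domRestrict_apply, Submodule.mem_comap,
        Submodule.subtype_apply, Submodule.mem_inf]
      exact ⟨fun h => ⟨h, hf⟩, fun h => h.1⟩
    rw [a1, a2, LinearEquiv.finrank_eq (Submodule.comapSubtypeEquivOfLe
      (inf_le_right.trans (wp_le _ _ _))), LinearEquiv.finrank_eq
      (Submodule.comapSubtypeEquivOfLe inf_le_right)]
  rw [r1] at e1
  rw [r2] at e2
  simp only [hilb]
  omega

end Elim

end

end Pool.Agent.Helper38
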