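import Mathlib
import Pool.Agent.Helper38.KPme

open MvPolynomial Module

namespace Pool.Agent.Helper38

noncomputable section

section Den

variable {σ τ : Type} {X : Type} [AddCommGroup X]

/-- product of `1 - t^{w i}` over all variables -/
def den [Fintype σ] (w : σ → X) : Lau X := ∏ i, (1 - AddMonoidAlgebra.single (w i) 1)

def gen (w : σ → X) (p : (σ →₀ ℕ) × Finset σ) : Lau X :=
  AddMonoidAlgebra.single (Finsupp.weight w p.1) 1 *
    ∏ i ∈ p.2, (1 - AddMonoidAlgebra.single (w i) 1)

def lau (w : σ → X) (m : Multiset ((σ →₀ ℕ) × Finset σ)) : Lau X := (m.map (gen w)).sum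

lemma lau_zero (w : σ → X) : lau w 0 = 0 := by simp [lau]

lemma lau_add (w : σ → X) (m m' : Multiset ((σ →₀ ℕ) × Finset σ)) :
    lau w (m + m') = lau w m + lau w m' := by simp [lau]

lemma den_option [Fintype τ] (w : Option τ → X) :
    den w = (1 - AddMonoidAlgebra.single (w none) 1) * den (w ∘ some) := by
  simp [den, Fintype.prod_option]

/-- shifting a family of generators -/
def shiftM (d : σ →₀ ℕ) (m : Multiset ((σ →₀ ℕ) × Finset σ)) :
    Multiset ((σ →₀ ℕ) × Finset σ) := m.map fun p => (d + p.1, p.2)

lemma lau_shiftM (w : σ → X) (d : σ →₀ ℕ) (m : Multiset ((σ →₀ ℕ) × Finset σ)) :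
    lau w (shiftM d m) = AddMonoidAlgebra.single (Finsupp.weight w d) 1 * lau w m := by
  simp only [lau, shiftM, Multiset.map_map, Function.comp_def]
  rw [← Multiset.sum_map_mul_left]
  congr 1
  apply Multiset.map_congr rfl
  intro p _
  simp only [gen, map_add]
  rw [← mul_assoc, AddMonoidAlgebra.single_mul_single, one_mul]

/-- move generators along a map of variables -/
def pushM (e : σ ↪ τ) (m : Multiset ((σ →₀ ℕ) × Finset σ)) :
    Multiset ((τ →₀ ℕ) × Finset τ) := m.map fun p => (p.1.mapDomain e, p.2.map e)

lemma weight_mapDomain (e : σ → τ) (w : τ → X) (d : σ →₀ ℕ) :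
    Finsupp.weight w (d.mapDomain e) = Finsupp.weight (w ∘ e) d := by
  simp only [Finsupp.weight_apply]
  rw [Finsupp.sum_mapDomain_index]
  · rfl
  · intro; simp
  · intro _ _ _; rw [add_smul]

lemma lau_pushM (e : σ ↪ τ) (w : τ → X) (m : Multiset ((σ →₀ ℕ) × Finset σ)) :
    lau w (pushM e m) = lau (w ∘ e) m := by
  simp only [lau, pushM, Multiset.map_map, Function.comp_def]
  congr 1
  apply Multiset.map_congr rfl
  intro p _
  simp only [gen, Finset.prod_map]
  rw [weight_mapDomain]
  rfl

/-- generators with one more vanishing variable -/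
def addNone (m : Multiset ((τ →₀ ℕ) × Finset τ)) :
    Multiset ((Option τ →₀ ℕ) × Finset (Option τ)) :=
  m.map fun p => (p.1.mapDomain some, Finset.insertNone p.2)

lemma lau_addNone (w : Option τ → X) (m : Multiset ((τ →₀ ℕ) × Finset τ)) :
    lau w (addNone m) = (1 - AddMonoidAlgebra.single (w none) 1) * lau (w ∘ some) m := by
  simp only [lau, addNone, Multiset.map_map, Function.comp_def]
  rw [← Multiset.sum_map_mul_left]
  congr 1
  apply Multiset.map_congr rfl
  intro p _
  simp only [gen]
  rw [weight_mapDomain, Finset.prod_insertNone]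
  simp only [Function.comp_def]
  ring

end Den

section PME

variable {k : Type} [Field k] {X : Type} [AddCommGroup X]

lemma wp_top {σ : Type} (w : σ → X) (μ : X) :
    wp w (⊤ : Ideal (MvPolynomial σ k)) μ = whs k w μ := by
  ext f
  simp [mem_wp]

lemma hilb_top {σ : Type} (w : σ → X) : hilb w (⊤ : Ideal (MvPolynomial σ k)) = 0 := by
  ext μ
  rw [hilb, wp_top, sub_self]
  rfl

lemma hilb_bot_empty {σ : Type} [IsEmpty σ] (w : σ → X) :
    hilb w (⊥ : Ideal (MvPolynomial σ k)) = cf (AddMonoidAlgebra.single (0:X) 1) := by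
  classical
  ext μ
  have h1 : wp w (⊥ : Ideal (MvPolynomial σ k)) μ = ⊥ := by
    ext f
    rw [mem_wp, Ideal.mem_bot, Submodule.mem_bot]
    exact ⟨fun h => h.1, fun h => ⟨h, h ▸ isWeightedHomogeneous_zero k w μ⟩⟩
  rw [hilb, h1, finrank_bot, Nat.cast_zero, sub_zero]
  simp only [cf, AddMonoidAlgebra.coeff_single]
  rw [Finsupp.single_apply]
  split_ifs with h
  · have h2 : whs k w μ = ⊤ := by
      ext f
      simp only [mem_weightedHomogeneousSubmodule, Submodule.mem_top, iff_true]
      intro d _
      rw [Subsingleton.elim d 0, map_zero, h]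
    rw [h2, finrank_top]
    have := (isEmptyAlgEquiv k σ).toLinearEquiv.finrank_eq
    rw [this]
    simp
  · have h2 : whs k w μ = ⊥ := by
      rw [eq_bot_iff]
      intro f hf
      rw [Submodule.mem_bot]
      ext d
      by_contra hne
      have := hf hne
      rw [Subsingleton.elim d 0, map_zero] at this
      exact h this
    rw [h2, finrank_bot]
    rfl

lemma ideal_empty {σ : Type} [IsEmpty σ] (I : Ideal (MvPolynomial σ k)) : I = ⊥ ∨ I = ⊤ := by
  by_cases h : I = ⊥
  · exact Or.inl h
  · right
    obtain ⟨f, hf, hf0⟩ := Submodule.exists_mem_ne_zero_of_ne_bot h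
    have h1 : f = C (coeff 0 f) := eq_C_of_isEmpty f
    have h2 : coeff 0 f ≠ 0 := by
      intro h3
      rw [h3, map_zero] at h1
      exact hf0 h1
    rw [Ideal.eq_top_iff_one]
    have h3 : (1 : MvPolynomial σ k) = C (coeff 0 f)⁻¹ * f := by
      rw [h1, ← C_mul, coeff_C, if_pos rfl, inv_mul_cancel₀ h2, C_1]
    rw [h3]
    exact I.mul_mem_left _ hf

/-- The statement that one family of generators computes all K-polynomials of an ideal. -/
def FineK {σ : Type} [Fintype σ] (I : Ideal (MvPolynomial σ k))
    (m : Multiset ((σ →₀ ℕ) × Finset σ)) : Prop :=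
  ∀ (X : Type) [AddCommGroup X] (w : σ → X), PosW w → IsHomog w I →
    act (den w) (hilb w I) = cf (lau w m)

lemma posW_some {τ : Type} {w : Option τ → X} (h : PosW w) : PosW (w ∘ some) := by
  obtain ⟨ℓ, hℓ⟩ := h
  exact ⟨ℓ, fun i => hℓ (some i)⟩

lemma map_ev0_homog {τ : Type} {w : Option τ → X} {I : Ideal (MvPolynomial (Option τ) k)}
    (hI : IsHomog w I) : IsHomog (w ∘ some) (I.map (ev0 k τ)) :=
  hI.map_aeval _ (ev0_homogF w) ev0_surj

lemma map_ev0_sup {τ : Type} (I : Ideal (MvPolynomial (Option τ) k)) :
    (I ⊔ Ideal.span {MvPolynomial.X none}).map (ev0 k τ) = I.map (ev0 k τ) := by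
  rw [Ideal.map_sup, Ideal.map_span, Set.image_singleton, ev0_none]
  simp

lemma act_den_of_hilb {τ : Type} [Fintype τ] (w : Option τ → X) (h : X → ℤ) :
    act (den w) h = act (den (w ∘ some))
      (act (1 - AddMonoidAlgebra.single (w none) (1:ℤ)) h) := by
  rw [den_option, mul_comm, act_mul]

theorem exists_fineK_aux (σ : Type) [Fintype σ] :
    ∀ (k : Type) [Field k] (I : Ideal (MvPolynomial σ k)), ∃ m, FineK I m := by
  classical
  refine Fintype.induction_empty_option (P := fun σ _ => ∀ (k : Type) [Field k]
    (I : Ideal (MvPolynomial σ k)), ∃ m, FineK I m) ?_ ?_ ?_ σ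
  · intro α β _ e ih k _ I
    letI : Fintype α := Fintype.ofEquiv β e.symm
    obtain ⟨m, hm⟩ := ih k (I.comap (renameEquiv k e : MvPolynomial α k →ₐ[k] MvPolynomial β k))
    refine ⟨pushM e.toEmbedding m, ?_⟩
    intro X _ w hw hI
    have hw' : PosW (w ∘ e) := by
      obtain ⟨ℓ, hℓ⟩ := hw
      exact ⟨ℓ, fun i => hℓ (e i)⟩
    have hE : (renameEquiv k e : MvPolynomial α k →ₐ[k] MvPolynomial β k) =
        aeval (fun i => MvPolynomial.X (e i)) := by
      apply MvPolynomial.algHom_ext
      intro i; simp
    have hX : ∀ i, IsWeightedHomogeneous w (MvPolynomial.X (e i) : MvPolynomial β k)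
        ((w ∘ e) i) := fun i => isWeightedHomogeneous_X k w (e i)
    have hI' : IsHomog (w ∘ e)
        (I.comap (renameEquiv k e : MvPolynomial α k →ₐ[k] MvPolynomial β k)) := by
      rw [hE]
      exact hI.comap_aeval _ hX
    have h1 := hm X (w ∘ e) hw' hI'
    have h2 : hilb (w ∘ e)
        (I.comap (renameEquiv k e : MvPolynomial α k →ₐ[k] MvPolynomial β k)) = hilb w I := by
      refine hilb_equiv (renameEquiv k e) ?_ _ _ (fun f => Iff.rfl)
      intro f μ
      constructor
      · intro hf
        exact homog_rename e hf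
      · intro hf
        have h3 : IsWeightedHomogeneous ((w ∘ e) ∘ e.symm) ((renameEquiv k e) f) μ := by
          have : (w ∘ e) ∘ e.symm = w := by ext; simp
          rwa [this]
        have h4 := homog_rename (k := k) (w' := w ∘ e) e.symm h3
        rw [renameEquiv_apply, rename_rename, Equiv.symm_comp_self, rename_id] at h4
        exact h4
    have h3 : den (w ∘ e) = den w := by
      simp only [den]
      exact Fintype.prod_equiv e _ _ (fun _ => rfl)
    rw [h2, h3] at h1
    rw [lau_pushM]
    exact h1
  · intro k _ I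
    rcases ideal_empty I with rfl | rfl
    · refine ⟨{(0, ∅)}, ?_⟩
      intro X _ w _ _
      rw [hilb_bot_empty]
      simp [den, lau, gen]
    · refine ⟨0, ?_⟩
      intro X _ w _ _
      rw [hilb_top, lau_zero, cf_zero, map_zero]
  · intro τ _ ih k _ I
    induction I using WellFoundedGT.induction with
    | ind I IH =>
      obtain ⟨m0, hm0⟩ := ih k (I.map (ev0 k τ))
      have hz : ∀ (X : Type) [AddCommGroup X] (w : Option τ → X),
          IsWeightedHomogeneous w (MvPolynomial.X none : MvPolynomial (Option τ) k) (w none) :=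
        fun X _ w => isWeightedHomogeneous_X k w none
      by_cases hc : colonE I (MvPolynomial.X none) = I
      · refine ⟨pushM Function.Embedding.some m0, ?_⟩
        intro X _ w hw hI
        have h0 := hm0 X (w ∘ some) (posW_some hw) (map_ev0_homog hI)
        rw [act_den_of_hilb, lau_pushM]
        have h1 : act (1 - AddMonoidAlgebra.single (w none) (1:ℤ)) (hilb w I) =
            hilb (w ∘ some) (I.map (ev0 k τ)) := by
          ext μ
          rw [act_one_sub]
          have h2 := hilb_colon hw hI (hz X w) μ
          rw [hc] at h2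
          rw [h2, add_sub_cancel_right]
          rw [hilb_ev0 hw (J := I ⊔ Ideal.span {MvPolynomial.X none})
            ((le_sup_right : Ideal.span {MvPolynomial.X none} ≤ _)
              (Ideal.mem_span_singleton_self _)), map_ev0_sup]
        rw [h1]
        exact h0
      · have hlt : I < colonE I (MvPolynomial.X none) :=
          lt_of_le_of_ne (le_colonE _ _) (Ne.symm hc)
        obtain ⟨m1, hm1⟩ := IH _ hlt
        refine ⟨addNone m0 + shiftM (Finsupp.single none 1) m1, ?_⟩
        intro X _ w hw hI
        have h0 := hm0 X (w ∘ some) (posW_some hw) (map_ev0_homog hI)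
        have h1 := hm1 X w hw (hI.colonE (hz X w))
        rw [lau_add, lau_addNone, lau_shiftM, cf_add]
        have h2 : hilb w I = hilb w (I ⊔ Ideal.span {MvPolynomial.X none}) +
            act (AddMonoidAlgebra.single (w none) (1:ℤ))
              (hilb w (colonE I (MvPolynomial.X none))) := by
          ext μ
          rw [Pi.add_apply, act_single, one_mul]
          exact hilb_colon hw hI (hz X w) μ
        rw [h2, map_add]
        congr 1
        · have h3 : hilb w (I ⊔ Ideal.span {MvPolynomial.X none}) =
              hilb (w ∘ some) (I.map (ev0 k τ)) := by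
            ext μ
            rw [hilb_ev0 hw (J := I ⊔ Ideal.span {MvPolynomial.X none})
              ((le_sup_right : Ideal.span {MvPolynomial.X none} ≤ _)
                (Ideal.mem_span_singleton_self _)), map_ev0_sup]
          rw [h3, den_option, act_mul, h0, act_cf]
        · rw [← act_mul, mul_comm, act_mul, h1, act_cf]
          congr 2
          rw [Finsupp.weight_single]
          simp

theorem exists_fineK {σ : Type} [Fintype σ] (I : Ideal (MvPolynomial σ k)) : ∃ m, FineK I m :=
  exists_fineK_aux σ k I

end PME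

end

end Pool.Agent.Helper38
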