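import Mathlib
import Pool.Agent.Helper38.KPme2

open MvPolynomial Module

namespace Pool.Agent.Helper38

noncomputable section

section ExpS

variable {R : Type} [CommRing R] [Algebra ℚ R]

/-- the exponential series `exp (r T)` -/
def expS (r : R) : PowerSeries R := PowerSeries.rescale r (PowerSeries.exp R)

lemma expS_zero : expS (0 : R) = 1 := by
  rw [expS, PowerSeries.rescale_zero]
  simp

lemma expS_add (a b : R) : expS (a + b) = expS a * expS b :=
  (PowerSeries.exp_mul_exp_eq_exp_add a b).symm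

lemma coeff_expS (r : R) (n : ℕ) :
    PowerSeries.coeff n (expS r) = algebraMap ℚ R (1 / n.factorial) * r ^ n := by
  rw [expS, PowerSeries.coeff_rescale, PowerSeries.coeff_exp, mul_comm]

lemma constCoeff_expS (r : R) : PowerSeries.constantCoeff (expS r) = 1 := by
  rw [← PowerSeries.coeff_zero_eq_constantCoeff_apply, coeff_expS]
  simp

/-- `1 - exp (-rT) = T * (...)` -/
lemma one_sub_expS (r : R) : ∃ u : PowerSeries R,
    1 - expS (-r) = PowerSeries.X * u ∧ PowerSeries.constantCoeff u = r := by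
  have h : PowerSeries.constantCoeff (1 - expS (-r)) = 0 := by
    rw [map_sub, constCoeff_expS, map_one, sub_self]
  obtain ⟨u, hu⟩ := PowerSeries.X_dvd_iff.2 h
  refine ⟨u, hu, ?_⟩
  have h1 : PowerSeries.coeff 1 (1 - expS (-r)) = r := by
    rw [map_sub, coeff_expS]
    simp [PowerSeries.coeff_one]
  rw [hu, show (1:ℕ) = 0 + 1 from rfl, PowerSeries.coeff_succ_X_mul,
    PowerSeries.coeff_zero_eq_constantCoeff_apply] at h1
  exact h1

lemma map_expS {R' : Type} [CommRing R'] [Algebra ℚ R'] (f : R →+* R') (r : R) :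
    PowerSeries.map f (expS r) = expS (f r) := by
  ext n
  rw [PowerSeries.coeff_map, coeff_expS, coeff_expS, map_mul, map_pow]
  congr 1
  have : (f.comp (algebraMap ℚ R)) = algebraMap ℚ R' := Subsingleton.elim _ _
  rw [← this]; rfl

end ExpS

section Phi

variable {X : Type} [AddCommGroup X] {R : Type} [CommRing R] [Algebra ℚ R]

def expHom (L : X →+ R) : Multiplicative X →* PowerSeries R where
  toFun μ := expS (-(L μ.toAdd))
  map_one' := by simp [expS_zero]
  map_mul' a b := by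
    rw [← expS_add]
    congr 1
    simp only [toAdd_mul, map_add]
    ring

/-- Substitution `t^μ ↦ exp (-L(μ) T)`. -/
def Phi (L : X →+ R) : Lau X →ₐ[ℤ] PowerSeries R :=
  AddMonoidAlgebra.lift ℤ (PowerSeries R) X (expHom L)

lemma Phi_single (L : X →+ R) (μ : X) :
    Phi L (AddMonoidAlgebra.single μ (1:ℤ)) = expS (-(L μ)) := by
  rw [Phi, AddMonoidAlgebra.lift_single]
  exact one_smul _ _

lemma Phi_single' (L : X →+ R) (μ : X) (c : ℤ) :
    Phi L (AddMonoidAlgebra.single μ c) = c • expS (-(L μ)) := by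
  rw [Phi, AddMonoidAlgebra.lift_single]
  rfl

lemma map_Phi {R' : Type} [CommRing R'] [Algebra ℚ R'] (f : R →+* R') (L : X →+ R) (q : Lau X) :
    PowerSeries.map f (Phi L q) = Phi ((f : R →+ R').comp L) q := by
  induction q using AddMonoidAlgebra.induction_linear with
  | zero => simp
  | add p q hp hq => rw [map_add, map_add, map_add, hp, hq]
  | single a b =>
    rw [Phi_single', Phi_single', map_zsmul, map_expS]
    simp

/-- `q` has leading term in degree `c`, positive at the functional `ℓ`. -/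
structure IsLead (ℓ : X →+ ℤ) (q : Lau X) (c : ℕ) : Prop where
  low : ∀ (R : Type) [CommRing R] [Algebra ℚ R] (L : X →+ R) (d : ℕ), d < c →
    PowerSeries.coeff d (Phi L q) = 0
  pos : 0 < PowerSeries.coeff c (Phi ((Int.castAddHom ℚ).comp ℓ) q)

lemma IsLead.unique {ℓ : X →+ ℤ} {q : Lau X} {c c' : ℕ} (h : IsLead ℓ q c) (h' : IsLead ℓ q c') :
    c = c' := by
  rcases lt_trichotomy c c' with h1 | h1 | h1
  · have := h'.low ℚ ((Int.castAddHom ℚ).comp ℓ) c h1
    exact absurd this h.pos.ne'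
  · exact h1
  · have := h.low ℚ ((Int.castAddHom ℚ).comp ℓ) c' h1
    exact absurd this h'.pos.ne'

lemma IsLead.ne_zero {ℓ : X →+ ℤ} {q : Lau X} {c : ℕ} (h : IsLead ℓ q c) : q ≠ 0 := by
  rintro rfl
  have := h.pos
  simp at this

lemma IsLead.add {ℓ : X →+ ℤ} {q q' : Lau X} {c c' : ℕ} (h : IsLead ℓ q c) (h' : IsLead ℓ q' c') :
    IsLead ℓ (q + q') (min c c') := by
  constructor
  · intro R _ _ L d hd
    rw [map_add, map_add, h.low R L d (lt_of_lt_of_le hd (min_le_left _ _)),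
      h'.low R L d (lt_of_lt_of_le hd (min_le_right _ _)), add_zero]
  · rw [map_add, map_add]
    rcases lt_trichotomy c c' with h1 | h1 | h1
    · rw [min_eq_left h1.le, h'.low ℚ _ c h1, add_zero]
      exact h.pos
    · subst h1
      rw [min_self]
      exact add_pos h.pos h'.pos
    · rw [min_eq_right h1.le, h.low ℚ _ c' h1, zero_add]
      exact h'.pos

lemma coeff_Phi_shift (L : X →+ R) (μ : X) (q : Lau X) (c : ℕ)
    (hq : ∀ d < c, PowerSeries.coeff d (Phi L q) = 0) :
    (∀ d < c, PowerSeries.coeff d (Phi L (AddMonoidAlgebra.single μ (1:ℤ) * q)) = 0) ∧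
    PowerSeries.coeff c (Phi L (AddMonoidAlgebra.single μ (1:ℤ) * q)) =
      PowerSeries.coeff c (Phi L q) := by
  obtain ⟨v, hv⟩ := PowerSeries.X_pow_dvd_iff.2 hq
  rw [map_mul, hv, Phi_single]
  have h1 : expS (-(L μ)) * (PowerSeries.X ^ c * v) = PowerSeries.X ^ c * (expS (-(L μ)) * v) := by
    ring
  rw [h1]
  constructor
  · intro d hd
    exact PowerSeries.X_pow_dvd_iff.1 (dvd_mul_right _ _) d hd
  · have h2 : ∀ f : PowerSeries R, PowerSeries.coeff c (PowerSeries.X ^ c * f) =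
        PowerSeries.constantCoeff f := by
      intro f
      have := PowerSeries.coeff_X_pow_mul f c 0
      rw [zero_add] at this
      rw [this, PowerSeries.coeff_zero_eq_constantCoeff_apply]
    rw [h2, h2, map_mul, constCoeff_expS, one_mul]

lemma IsLead.shift {ℓ : X →+ ℤ} {q : Lau X} {c : ℕ} (h : IsLead ℓ q c) (μ : X) :
    IsLead ℓ (AddMonoidAlgebra.single μ (1:ℤ) * q) c := by
  constructor
  · intro R _ _ L d hd
    exact (coeff_Phi_shift L μ q c (h.low R L)).1 d hd
  · rw [(coeff_Phi_shift _ μ q c (h.low ℚ _)).2]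
    exact h.pos

lemma IsLead.coeff_shift {ℓ : X →+ ℤ} {q : Lau X} {c : ℕ} (h : IsLead ℓ q c) (μ : X)
    (L : X →+ R) : PowerSeries.coeff c (Phi L (AddMonoidAlgebra.single μ (1:ℤ) * q)) =
      PowerSeries.coeff c (Phi L q) := (coeff_Phi_shift L μ q c (h.low R L)).2

lemma coeff_Phi_one_sub (L : X →+ R) (μ : X) (q : Lau X) (c : ℕ)
    (hq : ∀ d < c, PowerSeries.coeff d (Phi L q) = 0) :
    (∀ d < c + 1, PowerSeries.coeff d
      (Phi L ((1 - AddMonoidAlgebra.single μ (1:ℤ)) * q)) = 0) ∧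
    PowerSeries.coeff (c + 1) (Phi L ((1 - AddMonoidAlgebra.single μ (1:ℤ)) * q)) =
      L μ * PowerSeries.coeff c (Phi L q) := by
  obtain ⟨v, hv⟩ := PowerSeries.X_pow_dvd_iff.2 hq
  obtain ⟨u, hu, hu0⟩ := one_sub_expS (L μ)
  rw [map_mul, map_sub, map_one, hv, Phi_single, hu]
  have h1 : PowerSeries.X * u * (PowerSeries.X ^ c * v) =
      PowerSeries.X ^ (c + 1) * (u * v) := by
    ring
  rw [h1]
  constructor
  · intro d hd
    exact PowerSeries.X_pow_dvd_iff.1 (dvd_mul_right _ _) d hd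
  · have h2 : ∀ (n : ℕ) (f : PowerSeries R), PowerSeries.coeff n (PowerSeries.X ^ n * f) =
        PowerSeries.constantCoeff f := by
      intro n f
      have := PowerSeries.coeff_X_pow_mul f n 0
      rw [zero_add] at this
      rw [this, PowerSeries.coeff_zero_eq_constantCoeff_apply]
    rw [h2, h2, map_mul, hu0]

lemma IsLead.one_sub {ℓ : X →+ ℤ} {q : Lau X} {c : ℕ} (h : IsLead ℓ q c) {μ : X} (hμ : 0 < ℓ μ) :
    IsLead ℓ ((1 - AddMonoidAlgebra.single μ (1:ℤ)) * q) (c + 1) := by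
  constructor
  · intro R _ _ L d hd
    exact (coeff_Phi_one_sub L μ q c (h.low R L)).1 d hd
  · rw [(coeff_Phi_one_sub _ μ q c (h.low ℚ _)).2]
    apply mul_pos _ h.pos
    simpa using hμ

lemma IsLead.coeff_one_sub {ℓ : X →+ ℤ} {q : Lau X} {c : ℕ} (h : IsLead ℓ q c) (μ : X)
    (L : X →+ R) : PowerSeries.coeff (c + 1)
      (Phi L ((1 - AddMonoidAlgebra.single μ (1:ℤ)) * q)) =
      L μ * PowerSeries.coeff c (Phi L q) := (coeff_Phi_one_sub L μ q c (h.low R L)).2

lemma isLead_one (ℓ : X →+ ℤ) : IsLead ℓ (1 : Lau X) 0 := by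
  constructor
  · intro R _ _ L d hd
    exact absurd hd (Nat.not_lt_zero _)
  · rw [map_one]
    simp

end Phi

section Gen

variable {σ : Type} {X : Type} [AddCommGroup X]

lemma gen_insert [DecidableEq σ] (w : σ → X) (d : σ →₀ ℕ) (A : Finset σ) (i : σ) (hi : i ∉ A) :
    gen w (d, insert i A) = (1 - AddMonoidAlgebra.single (w i) 1) * gen w (d, A) := by
  simp only [gen]
  rw [Finset.prod_insert hi]
  ring

lemma gen_empty (w : σ → X) (d : σ →₀ ℕ) :
    gen w (d, ∅) = AddMonoidAlgebra.single (Finsupp.weight w d) 1 * 1 := by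
  simp [gen]

lemma isLead_gen {ℓ : X →+ ℤ} {w : σ → X} (hw : ∀ i, 0 < ℓ (w i)) (p : (σ →₀ ℕ) × Finset σ) :
    IsLead ℓ (gen w p) p.2.card ∧ ∀ (R : Type) [CommRing R] [Algebra ℚ R] (L : X →+ R),
      PowerSeries.coeff p.2.card (Phi L (gen w p)) = ∏ i ∈ p.2, L (w i) := by
  classical
  obtain ⟨d, A⟩ := p
  induction A using Finset.induction_on with
  | empty =>
    rw [gen_empty]
    refine ⟨(isLead_one ℓ).shift _, ?_⟩
    intro R _ _ L
    have := (isLead_one ℓ).coeff_shift (Finsupp.weight w d) L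
    simp only [Finset.card_empty, Finset.prod_empty]
    rw [this]
    simp
  | insert i A hi ih =>
    rw [gen_insert w d A i hi]
    simp only [Finset.card_insert_of_notMem hi, Finset.prod_insert hi]
    refine ⟨ih.1.one_sub (hw i), ?_⟩
    intro R _ _ L
    have := ih.1.coeff_one_sub (w i) L
    rw [this]
    congr 1
    exact ih.2 R L

/-- minimal number of factors -/
def mord (m : Multiset ((σ →₀ ℕ) × Finset σ)) : ℕ := sInf {n | ∃ p ∈ m, p.2.card = n}

/-- leading form of a family of generators -/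
def mcls {R : Type} [CommRing R] (m : Multiset ((σ →₀ ℕ) × Finset σ)) (b : σ → R) : R :=
  (m.map fun p => if p.2.card = mord m then ∏ i ∈ p.2, b i else 0).sum

lemma mord_le {m : Multiset ((σ →₀ ℕ) × Finset σ)} {p : (σ →₀ ℕ) × Finset σ} (hp : p ∈ m) :
    mord m ≤ p.2.card := Nat.sInf_le ⟨p, hp, rfl⟩

lemma exists_mord {m : Multiset ((σ →₀ ℕ) × Finset σ)} (hm : m ≠ 0) :
    ∃ p ∈ m, p.2.card = mord m := by
  obtain ⟨p, hp⟩ := Multiset.exists_mem_of_ne_zero hm
  have : ({n | ∃ p ∈ m, p.2.card = n} : Set ℕ).Nonempty := ⟨p.2.card, p, hp, rfl⟩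
  exact Nat.sInf_mem this

lemma low_lau {ℓ : X →+ ℤ} {w : σ → X} (hw : ∀ i, 0 < ℓ (w i))
    (m : Multiset ((σ →₀ ℕ) × Finset σ)) (c : ℕ) (hc : ∀ p ∈ m, c ≤ p.2.card)
    {R : Type} [CommRing R] [Algebra ℚ R] (L : X →+ R) (d : ℕ) (hd : d < c) :
    PowerSeries.coeff d (Phi L (lau w m)) = 0 := by
  rw [lau, map_multiset_sum, map_multiset_sum, Multiset.map_map, Multiset.map_map]
  apply Multiset.sum_eq_zero
  intro x hx
  rw [Multiset.mem_map] at hx
  obtain ⟨p, hp, rfl⟩ := hx
  exact (isLead_gen hw p).1.low R L d (lt_of_lt_of_le hd (hc p hp))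

lemma coeff_lau {ℓ : X →+ ℤ} {w : σ → X} (hw : ∀ i, 0 < ℓ (w i))
    (m : Multiset ((σ →₀ ℕ) × Finset σ))
    {R : Type} [CommRing R] [Algebra ℚ R] (L : X →+ R) :
    PowerSeries.coeff (mord m) (Phi L (lau w m)) = mcls m (fun i => L (w i)) := by
  rw [lau, map_multiset_sum, map_multiset_sum, Multiset.map_map, Multiset.map_map, mcls]
  congr 1
  apply Multiset.map_congr rfl
  intro p hp
  simp only [Function.comp_apply]
  split_ifs with h
  · rw [← h]
    exact (isLead_gen hw p).2 R L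
  · exact (isLead_gen hw p).1.low R L _ (lt_of_le_of_ne (mord_le hp) (Ne.symm h))

lemma mcls_pos {m : Multiset ((σ →₀ ℕ) × Finset σ)} (hm : m ≠ 0) {b : σ → ℚ}
    (hb : ∀ i, 0 < b i) : 0 < mcls m b := by
  obtain ⟨p, hp, hc⟩ := exists_mord hm
  have h0 : ∀ x ∈ m.map (fun p : (σ →₀ ℕ) × Finset σ =>
      if p.2.card = mord m then ∏ i ∈ p.2, b i else 0), 0 ≤ x := by
    intro x hx
    rw [Multiset.mem_map] at hx
    obtain ⟨q, _, rfl⟩ := hx
    split_ifs
    · exact Finset.prod_nonneg fun i _ => (hb i).le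
    · exact le_refl _
  have h1 : (∏ i ∈ p.2, b i) ∈ m.map (fun p : (σ →₀ ℕ) × Finset σ =>
      if p.2.card = mord m then ∏ i ∈ p.2, b i else 0) := by
    rw [Multiset.mem_map]
    exact ⟨p, hp, by rw [if_pos hc]⟩
  have h2 := Multiset.single_le_sum h0 _ h1
  exact lt_of_lt_of_le (Finset.prod_pos fun i _ => hb i) h2

lemma isLead_lau {ℓ : X →+ ℤ} {w : σ → X} (hw : ∀ i, 0 < ℓ (w i))
    {m : Multiset ((σ →₀ ℕ) × Finset σ)} (hm : m ≠ 0) : IsLead ℓ (lau w m) (mord m) := by
  constructor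
  · intro R _ _ L d hd
    exact low_lau hw m (mord m) (fun p hp => mord_le hp) L d hd
  · rw [coeff_lau hw]
    apply mcls_pos hm
    intro i
    simpa using hw i

end Gen

end

end Pool.Agent.Helper38
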