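import Mathlib
import Pool.Agent.Helper38.KLead

open MvPolynomial Module

namespace Pool.Agent.Helper38

noncomputable section

section Defs

variable {k : Type} [Field k] {σ : Type} [Fintype σ] {X : Type} [AddCommGroup X]

/-- A family of generators computing the K-polynomials of `I`. -/
def fam (I : Ideal (MvPolynomial σ k)) : Multiset ((σ →₀ ℕ) × Finset σ) :=
  Classical.choose (exists_fineK I)

lemma fam_spec (I : Ideal (MvPolynomial σ k)) : FineK I (fam I) :=
  Classical.choose_spec (exists_fineK I)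

/-- order of the K-polynomial, i.e. the codimension -/
def ord (I : Ideal (MvPolynomial σ k)) : ℕ := mord (fam I)

/-- the multidegree -/
def cls (I : Ideal (MvPolynomial σ k)) {R : Type} [CommRing R] (b : σ → R) : R := mcls (fam I) b

/-- K-polynomial -/
def kq (w : σ → X) (I : Ideal (MvPolynomial σ k)) : Lau X := lau w (fam I)

lemma kq_spec {w : σ → X} (hw : PosW w) {I : Ideal (MvPolynomial σ k)} (hI : IsHomog w I) :
    act (den w) (hilb w I) = cf (kq w I) := fam_spec I X w hw hI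

/-- positivity at a given functional -/
def PosL (ℓ : X →+ ℤ) (w : σ → X) : Prop := ∀ i, 0 < ℓ (w i)

omit [Fintype σ] in
lemma PosL.posW {ℓ : X →+ ℤ} {w : σ → X} (h : PosL ℓ w) : PosW w := ⟨ℓ, h⟩

lemma kq_eq_of_hilb {w : σ → X} (hw : PosW w) {I J : Ideal (MvPolynomial σ k)}
    (hI : IsHomog w I) (hJ : IsHomog w J) (h : hilb w I = hilb w J) : kq w I = kq w J := by
  apply cf_injective
  rw [← kq_spec hw hI, ← kq_spec hw hJ, h]

lemma kq_top {w : σ → X} (hw : PosW w) : kq w (⊤ : Ideal (MvPolynomial σ k)) = 0 := by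
  apply cf_injective
  rw [← kq_spec hw (isHomog_top w), hilb_top, map_zero, cf_zero]

lemma kq_colon {w : σ → X} (hw : PosW w) {I : Ideal (MvPolynomial σ k)}
    (hI : IsHomog w I) {f : MvPolynomial σ k} {δ : X} (hf : IsWeightedHomogeneous w f δ) :
    kq w I = kq w (I ⊔ Ideal.span {f}) + AddMonoidAlgebra.single δ 1 * kq w (colonE I f) := by
  apply cf_injective
  rw [cf_add, ← kq_spec hw hI, ← kq_spec hw (hI.sup (isHomog_span_singleton hf)), ← act_cf,
    ← kq_spec hw (hI.colonE hf), ← act_mul, mul_comm, act_mul, ← map_add]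
  congr 1
  ext μ
  rw [Pi.add_apply, act_single, one_mul]
  exact hilb_colon hw hI hf μ

omit [Fintype σ] in
lemma weight_nonneg {ℓ : X →+ ℤ} {w : σ → X} (hw : PosL ℓ w) (d : σ →₀ ℕ) :
    0 ≤ ℓ (Finsupp.weight w d) := by
  rw [← weight_map w ℓ d, Finsupp.weight_apply]
  apply Finsupp.sum_nonneg
  intro i _
  exact nsmul_nonneg (hw i).le _

omit [Fintype σ] in
lemma weight_pos {ℓ : X →+ ℤ} {w : σ → X} (hw : PosL ℓ w) {d : σ →₀ ℕ} (hd : d ≠ 0) :
    0 < ℓ (Finsupp.weight w d) := by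
  rw [← weight_map w ℓ d, Finsupp.weight_apply, Finsupp.sum]
  apply Finset.sum_pos
  · intro i hi
    have h1 := hw i
    have h2 : 0 < d i := Nat.pos_of_ne_zero (Finsupp.mem_support_iff.1 hi)
    rw [nsmul_eq_mul]
    positivity
  · rwa [Finsupp.support_nonempty_iff]

omit [Fintype σ] in
lemma whs_eq_bot {ℓ : X →+ ℤ} {w : σ → X} (hw : PosL ℓ w) {μ : X} (hμ : ℓ μ < 0) :
    whs k w μ = ⊥ := by
  rw [eq_bot_iff]
  intro f hf
  rw [Submodule.mem_bot]
  ext d
  by_contra hne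
  have h1 := hf hne
  have h2 := weight_nonneg hw d
  rw [h1] at h2
  omega

omit [Fintype σ] in
lemma hilb_eq_zero {ℓ : X →+ ℤ} {w : σ → X} (hw : PosL ℓ w) (I : Ideal (MvPolynomial σ k))
    {μ : X} (hμ : ℓ μ < 0) : hilb w I μ = 0 := by
  have h1 := whs_eq_bot (k := k) hw hμ
  have h2 : wp w I μ = ⊥ := by
    rw [eq_bot_iff, ← h1]
    exact wp_le w I μ
  rw [hilb, h1, h2, sub_self]

lemma hilb_zero_pos {w : σ → X} (hw : PosW w) {I : Ideal (MvPolynomial σ k)}
    (hI : I ≠ ⊤) : 0 < hilb w I 0 := by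
  have := finite_whs (k := k) hw 0
  have h1 : wp w I 0 < whs k w 0 := by
    refine lt_of_le_of_ne (wp_le w I 0) ?_
    intro h
    apply hI
    rw [Ideal.eq_top_iff_one]
    have h2 : (1 : MvPolynomial σ k) ∈ wp w I 0 := by
      rw [h]
      exact isWeightedHomogeneous_one k w
    exact (mem_wp.1 h2).1
  have h2 := Submodule.finrank_lt_finrank_of_lt h1
  rw [hilb]
  omega

omit [Fintype σ] in
lemma act_prod_low {ℓ : X →+ ℤ} {w : σ → X} (hw : PosL ℓ w) (h : X → ℤ)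
    (hh : ∀ μ, ℓ μ < 0 → h μ = 0) (A : Finset σ) (μ : X) (hμ : ℓ μ ≤ 0) :
    act (∏ i ∈ A, (1 - AddMonoidAlgebra.single (w i) 1)) h μ = h μ := by
  classical
  induction A using Finset.induction_on generalizing μ with
  | empty => simp
  | insert i A hi ih =>
    rw [Finset.prod_insert hi, act_mul, act_one_sub, ih μ hμ]
    have h1 : ℓ (μ - w i) < 0 := by
      rw [map_sub]
      have := hw i
      omega
    rw [ih _ h1.le, hh _ h1, sub_zero]

lemma kq_ne_zero {ℓ : X →+ ℤ} {w : σ → X} (hw : PosL ℓ w) {I : Ideal (MvPolynomial σ k)}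
    (hI : IsHomog w I) (hI' : I ≠ ⊤) : kq w I ≠ 0 := by
  intro h
  have h1 := kq_spec hw.posW hI
  rw [h, cf_zero] at h1
  have h2 := congrFun h1 0
  rw [den, act_prod_low hw _ (fun μ hμ => hilb_eq_zero hw I hμ) _ 0 (by simp)] at h2
  have h3 := hilb_zero_pos hw.posW hI'
  rw [h2] at h3
  exact lt_irrefl _ h3

lemma fam_ne_zero {ℓ : X →+ ℤ} {w : σ → X} (hw : PosL ℓ w) {I : Ideal (MvPolynomial σ k)}
    (hI : IsHomog w I) (hI' : I ≠ ⊤) : fam I ≠ 0 := by
  intro h
  apply kq_ne_zero hw hI hI'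
  rw [kq, h, lau_zero]

lemma isLead_kq {ℓ : X →+ ℤ} {w : σ → X} (hw : PosL ℓ w) {I : Ideal (MvPolynomial σ k)}
    (hI : IsHomog w I) (hI' : I ≠ ⊤) : IsLead ℓ (kq w I) (ord I) :=
  isLead_lau hw (fam_ne_zero hw hI hI')

lemma coeff_kq {ℓ : X →+ ℤ} {w : σ → X} (hw : PosL ℓ w) (I : Ideal (MvPolynomial σ k))
    {R : Type} [CommRing R] [Algebra ℚ R] (L : X →+ R) :
    PowerSeries.coeff (ord I) (Phi L (kq w I)) = cls I (fun i => L (w i)) :=
  coeff_lau hw _ L

lemma cls_pos {I : Ideal (MvPolynomial σ k)} (hI : fam I ≠ 0) {b : σ → ℚ} (hb : ∀ i, 0 < b i) :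
    0 < cls I b := mcls_pos hI hb

end Defs

section Compare

variable {k : Type} [Field k] {σ σ' : Type} [Fintype σ] [Fintype σ'] {X : Type} [AddCommGroup X]

/-- Equal K-polynomials give equal codimension and multidegree. -/
lemma compare_eq {ℓ : X →+ ℤ} {w : σ → X} {w' : σ' → X} (hw : PosL ℓ w) (hw' : PosL ℓ w')
    {I : Ideal (MvPolynomial σ k)} {I' : Ideal (MvPolynomial σ' k)} (hI : IsHomog w I)
    (hI' : IsHomog w' I') (hne : I ≠ ⊤) (h : kq w I = kq w' I') :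
    I' ≠ ⊤ ∧ ord I = ord I' ∧ ∀ (R : Type) [CommRing R] [Algebra ℚ R] (L : X →+ R),
      cls I (fun i => L (w i)) = cls I' (fun i => L (w' i)) := by
  have hne' : I' ≠ ⊤ := by
    rintro rfl
    rw [kq_top hw'.posW] at h
    exact kq_ne_zero hw hI hne h
  have h1 := isLead_kq hw hI hne
  have h2 := isLead_kq hw' hI' hne'
  rw [h] at h1
  have h3 := h1.unique h2
  refine ⟨hne', h3, ?_⟩
  intro R _ _ L
  rw [← coeff_kq hw, ← coeff_kq hw', h, h3]

/-- One more vanishing coordinate. -/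
lemma compare_one_sub {ℓ : X →+ ℤ} {w : σ → X} {w' : σ' → X} (hw : PosL ℓ w) (hw' : PosL ℓ w')
    {I : Ideal (MvPolynomial σ k)} {I' : Ideal (MvPolynomial σ' k)} (hI : IsHomog w I)
    (hI' : IsHomog w' I') (hne : I' ≠ ⊤) {δ : X} (hδ : 0 < ℓ δ)
    (h : kq w I = (1 - AddMonoidAlgebra.single δ 1) * kq w' I') :
    I ≠ ⊤ ∧ ord I = ord I' + 1 ∧ ∀ (R : Type) [CommRing R] [Algebra ℚ R] (L : X →+ R),
      cls I (fun i => L (w i)) = L δ * cls I' (fun i => L (w' i)) := by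
  have h2 := isLead_kq hw' hI' hne
  have h3 := h2.one_sub hδ
  rw [← h] at h3
  have hne' : I ≠ ⊤ := by
    rintro rfl
    exact h3.ne_zero (kq_top hw.posW)
  have h1 := isLead_kq hw hI hne'
  have h4 := h1.unique h3
  refine ⟨hne', h4, ?_⟩
  intro R _ _ L
  rw [← coeff_kq hw, ← coeff_kq hw', h4, h, h2.coeff_one_sub]

end Compare

section Mono

variable {k : Type} [Field k] {σ : Type} [Fintype σ] {X : Type} [AddCommGroup X]

/-- zero or with a positive leading term -/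
def PosQ (ℓ : X →+ ℤ) (q : Lau X) : Prop := q = 0 ∨ ∃ c, IsLead ℓ q c

lemma PosQ.add {ℓ : X →+ ℤ} {q q' : Lau X} (h : PosQ ℓ q) (h' : PosQ ℓ q') : PosQ ℓ (q + q') := by
  rcases h with rfl | ⟨c, hc⟩
  · rwa [zero_add]
  · rcases h' with rfl | ⟨c', hc'⟩
    · rw [add_zero]; exact Or.inr ⟨c, hc⟩
    · exact Or.inr ⟨_, hc.add hc'⟩

lemma PosQ.shift {ℓ : X →+ ℤ} {q : Lau X} (h : PosQ ℓ q) (μ : X) :
    PosQ ℓ (AddMonoidAlgebra.single μ (1:ℤ) * q) := by
  rcases h with rfl | ⟨c, hc⟩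
  · rw [mul_zero]; exact Or.inl rfl
  · exact Or.inr ⟨c, hc.shift μ⟩

lemma posQ_kq {ℓ : X →+ ℤ} {w : σ → X} (hw : PosL ℓ w) {I : Ideal (MvPolynomial σ k)}
    (hI : IsHomog w I) : PosQ ℓ (kq w I) := by
  by_cases h : I = ⊤
  · left; rw [h, kq_top hw.posW]
  · exact Or.inr ⟨_, isLead_kq hw hI h⟩

omit [Fintype σ] in
lemma exists_homog_not_mem {w : σ → X} {I J : Ideal (MvPolynomial σ k)} (hJ : IsHomog w J)
    (h : ¬ J ≤ I) : ∃ f μ, IsWeightedHomogeneous w f μ ∧ f ∈ J ∧ f ∉ I := by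
  classical
  by_contra hcon
  push Not at hcon
  apply h
  intro f hf
  rw [← sum_weightedHomogeneousComponent w f,
    finsum_eq_sum _ (weightedHomogeneousComponent_finsupp f)]
  apply I.sum_mem
  intro μ _
  exact hcon _ μ (weightedHomogeneousComponent_isWeightedHomogeneous μ f) (hJ f hf μ)

lemma kq_mono {ℓ : X →+ ℤ} {w : σ → X} (hw : PosL ℓ w) {J : Ideal (MvPolynomial σ k)}
    (hJ : IsHomog w J) (I : Ideal (MvPolynomial σ k)) (hI : IsHomog w I) (hIJ : I ≤ J) :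
    ∃ q, PosQ ℓ q ∧ kq w I = kq w J + q := by
  induction I using WellFoundedGT.induction with
  | ind I IH =>
    by_cases h : J ≤ I
    · have : I = J := le_antisymm hIJ h
      exact ⟨0, Or.inl rfl, by rw [this, add_zero]⟩
    · obtain ⟨f, μ, hf, hfJ, hfI⟩ := exists_homog_not_mem hJ h
      have hlt : I < I ⊔ Ideal.span {f} := by
        refine lt_of_le_of_ne le_sup_left ?_
        intro he
        apply hfI
        rw [he]
        exact (le_sup_right : Ideal.span {f} ≤ _) (Ideal.mem_span_singleton_self f)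
      obtain ⟨q, hq, he⟩ := IH _ hlt (hI.sup (isHomog_span_singleton hf))
        (sup_le hIJ ((Ideal.span_singleton_le_iff_mem J).2 hfJ))
      refine ⟨q + AddMonoidAlgebra.single μ 1 * kq w (colonE I f),
        hq.add ((posQ_kq hw (hI.colonE hf)).shift μ), ?_⟩
      rw [kq_colon hw.posW hI hf, he]
      ring

lemma ord_mono {ℓ : X →+ ℤ} {w : σ → X} (hw : PosL ℓ w) {I J : Ideal (MvPolynomial σ k)}
    (hI : IsHomog w I) (hJ : IsHomog w J) (hIJ : I ≤ J) (hne : J ≠ ⊤) : ord I ≤ ord J := by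
  obtain ⟨q, hq, he⟩ := kq_mono hw hJ I hI hIJ
  have hne' : I ≠ ⊤ := fun h => hne (top_le_iff.1 (h ▸ hIJ))
  have h1 := isLead_kq hw hI hne'
  have h2 := isLead_kq hw hJ hne
  rcases hq with rfl | ⟨c, hc⟩
  · rw [add_zero] at he
    rw [he] at h1
    exact (h1.unique h2).le
  · have h3 := h2.add hc
    rw [← he] at h3
    rw [h1.unique h3]
    exact min_le_left _ _

/-- prime with respect to homogeneous elements -/
def HPrime (w : σ → X) (p : Ideal (MvPolynomial σ k)) : Prop :=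
  p ≠ ⊤ ∧ ∀ a b μ ν, IsWeightedHomogeneous w a μ → IsWeightedHomogeneous w b ν →
    a * b ∈ p → a ∈ p ∨ b ∈ p

omit [Fintype σ] in
lemma HPrime.colonE_eq {w : σ → X} {p : Ideal (MvPolynomial σ k)} (hp : HPrime w p)
    (hh : IsHomog w p) {f : MvPolynomial σ k} {μ : X} (hf : IsWeightedHomogeneous w f μ)
    (hfp : f ∉ p) : colonE p f = p := by
  classical
  refine le_antisymm ?_ (le_colonE p f)
  intro g hg
  rw [← sum_weightedHomogeneousComponent w g,
    finsum_eq_sum _ (weightedHomogeneousComponent_finsupp g)]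
  apply p.sum_mem
  intro ν _
  have h1 := (hh.colonE hf) g hg ν
  rw [mem_colonE] at h1
  exact (hp.2 f _ μ ν hf (weightedHomogeneousComponent_isWeightedHomogeneous ν g) h1).resolve_left
    hfp

omit [Fintype σ] in
lemma homog_weight_pos {ℓ : X →+ ℤ} {w : σ → X} (hw : PosL ℓ w) {J : Ideal (MvPolynomial σ k)}
    (hJ : J ≠ ⊤) {f : MvPolynomial σ k} {μ : X} (hf : IsWeightedHomogeneous w f μ) (hfJ : f ∈ J)
    (hf0 : f ≠ 0) : 0 < ℓ μ := by
  classical
  obtain ⟨d, hd⟩ := MvPolynomial.ne_zero_iff.1 hf0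
  rw [← hf hd]
  apply weight_pos hw
  rintro rfl
  -- f is a nonzero constant
  have hμ : μ = 0 := by rw [← hf hd, map_zero]
  have h1 : f = C (coeff 0 f) := by
    ext e
    rw [coeff_C]
    split_ifs with h
    · rw [← h]
    · by_contra hne
      have h2 := hf hne
      have h3 := weight_pos hw (Ne.symm h : e ≠ 0)
      rw [h2, hμ, map_zero] at h3
      exact lt_irrefl _ h3
  apply hJ
  rw [Ideal.eq_top_iff_one]
  have h3 : (1 : MvPolynomial σ k) = C (coeff 0 f)⁻¹ * f := by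
    rw [h1, ← C_mul, coeff_C, if_pos rfl, inv_mul_cancel₀ hd, C_1]
  rw [h3]
  exact J.mul_mem_left _ hfJ

lemma ord_add_one {ℓ : X →+ ℤ} {w : σ → X} (hw : PosL ℓ w) {I : Ideal (MvPolynomial σ k)}
    (hI : IsHomog w I) {f : MvPolynomial σ k} {μ : X} (hf : IsWeightedHomogeneous w f μ)
    (hμ : 0 < ℓ μ) (hc : colonE I f = I) (hne : I ≠ ⊤) :
    I ⊔ Ideal.span {f} ≠ ⊤ ∧ ord (I ⊔ Ideal.span {f}) = ord I + 1 := by
  have h1 := kq_colon hw.posW hI hf
  rw [hc] at h1
  have h2 : kq w (I ⊔ Ideal.span {f}) = (1 - AddMonoidAlgebra.single μ 1) * kq w I := by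
    rw [sub_mul, one_mul]
    exact eq_sub_of_add_eq h1.symm
  have h3 := compare_one_sub hw hw (hI.sup (isHomog_span_singleton hf)) hI hne hμ h2
  exact ⟨h3.1, h3.2.1⟩

lemma ord_lt {ℓ : X →+ ℤ} {w : σ → X} (hw : PosL ℓ w) {p q : Ideal (MvPolynomial σ k)}
    (hp : HPrime w p) (hph : IsHomog w p) (hqh : IsHomog w q) (hlt : p < q) (hne : q ≠ ⊤) :
    ord p < ord q := by
  obtain ⟨f, μ, hf, hfq, hfp⟩ := exists_homog_not_mem hqh (not_le_of_gt hlt)
  have hf0 : f ≠ 0 := by rintro rfl; exact hfp p.zero_mem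
  have hμ := homog_weight_pos hw hne hf hfq hf0
  have h1 := ord_add_one hw hph hf hμ (hp.colonE_eq hph hf hfp) hp.1
  have h2 := ord_mono hw (hph.sup (isHomog_span_singleton hf)) hqh
    (sup_le hlt.le ((Ideal.span_singleton_le_iff_mem q).2 hfq)) hne
  omega

end Mono

end

end Pool.Agent.Helper38
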