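import Mathlib
import Pool.Agent.Helper38.KCls

open MvPolynomial Module

namespace Pool.Agent.Helper38

noncomputable section

section Comp

variable {k : Type} [Field k] {σ : Type} {X Y : Type} [AddCommGroup X] [AddCommGroup Y]

lemma comp_comm (w : σ → X) (j : σ → Y) (μ : X) (n : Y) (f : MvPolynomial σ k) :
    weightedHomogeneousComponent w μ (weightedHomogeneousComponent j n f) =
      weightedHomogeneousComponent j n (weightedHomogeneousComponent w μ f) := by
  classical
  ext d
  simp only [coeff_weightedHomogeneousComponent]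
  split_ifs <;> rfl

lemma comp_pair (w : σ → X) (j : σ → Y) (μ : X) (n : Y) (f : MvPolynomial σ k) :
    weightedHomogeneousComponent (fun i => (w i, j i)) (μ, n) f =
      weightedHomogeneousComponent w μ (weightedHomogeneousComponent j n f) := by
  classical
  have h : ∀ d : σ →₀ ℕ, Finsupp.weight (fun i => (w i, j i)) d =
      (Finsupp.weight w d, Finsupp.weight j d) := by
    intro d
    simp only [Finsupp.weight_apply, Finsupp.sum]
    rw [Prod.ext_iff]
    simp [Prod.fst_sum, Prod.snd_sum]
  ext d
  simp only [coeff_weightedHomogeneousComponent, h, Prod.mk.injEq]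
  by_cases h1 : Finsupp.weight w d = μ <;> by_cases h2 : Finsupp.weight j d = n <;> simp [h1, h2]

lemma IsHomog.pair {w : σ → X} {j : σ → Y} {I : Ideal (MvPolynomial σ k)} (h1 : IsHomog w I)
    (h2 : IsHomog j I) : IsHomog (fun i => (w i, j i)) I := by
  rintro f hf ⟨μ, n⟩
  rw [comp_pair]
  exact h1 _ (h2 f hf n) μ

lemma sum_comp (w : σ → X) (f : MvPolynomial σ k) :
    ∃ s : Finset X, f = ∑ μ ∈ s, weightedHomogeneousComponent w μ f := by
  refine ⟨(weightedHomogeneousComponent_finsupp (w := w) f).toFinset, ?_⟩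
  conv_lhs => rw [← sum_weightedHomogeneousComponent w f,
    finsum_eq_sum _ (weightedHomogeneousComponent_finsupp f)]

lemma comp_comp_same (w : σ → X) (μ : X) (f : MvPolynomial σ k) :
    weightedHomogeneousComponent w μ (weightedHomogeneousComponent w μ f) =
      weightedHomogeneousComponent w μ f :=
  (weightedHomogeneousComponent_isWeightedHomogeneous μ f).weightedHomogeneousComponent_same

lemma comp_comp_ne (w : σ → X) {μ ν : X} (h : μ ≠ ν) (f : MvPolynomial σ k) :
    weightedHomogeneousComponent w μ (weightedHomogeneousComponent w ν f) = 0 :=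
  (weightedHomogeneousComponent_isWeightedHomogeneous ν f).weightedHomogeneousComponent_ne _ h

/-- homogeneity passes to coarser gradings -/
lemma IsHomog.coarsen {w : σ → X} {I : Ideal (MvPolynomial σ k)} (h : IsHomog w I) (φ : X →+ Y) :
    IsHomog (fun i => φ (w i)) I := by
  classical
  intro f hf n
  obtain ⟨s, hs⟩ := sum_comp w f
  rw [hs, map_sum]
  apply I.sum_mem
  intro μ _
  have h1 := homog_map_group φ (weightedHomogeneousComponent_isWeightedHomogeneous (w := w) μ f)
  by_cases h2 : φ μ = n
  · rw [← h2, h1.weightedHomogeneousComponent_same]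
    exact h f hf μ
  · rw [h1.weightedHomogeneousComponent_ne _ (Ne.symm h2)]
    exact I.zero_mem

end Comp

section Init

variable {k : Type} [Field k] {σ : Type} {X : Type} [AddCommGroup X]

/-- all components above `n` vanish -/
def Below (j : σ → ℤ) (n : ℤ) (f : MvPolynomial σ k) : Prop :=
  ∀ m, n < m → weightedHomogeneousComponent j m f = 0

/-- ideal of top degree forms -/
def inI (j : σ → ℤ) (I : Ideal (MvPolynomial σ k)) : Ideal (MvPolynomial σ k) where
  carrier := {g | ∀ n : ℤ, ∃ f ∈ I, Below j n f ∧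
    weightedHomogeneousComponent j n f = weightedHomogeneousComponent j n g}
  add_mem' := by
    intro a b ha hb n
    obtain ⟨f, hf, h1, h2⟩ := ha n
    obtain ⟨f', hf', h1', h2'⟩ := hb n
    refine ⟨f + f', I.add_mem hf hf', ?_, ?_⟩
    · intro m hm
      rw [map_add, h1 m hm, h1' m hm, add_zero]
    · rw [map_add, map_add, h2, h2']
  zero_mem' := by
    intro n
    exact ⟨0, I.zero_mem, fun m _ => map_zero _, rfl⟩
  smul_mem' := by
    classical
    intro c g hg n
    obtain ⟨s, hs⟩ := sum_comp j c
    choose F hF1 hF2 hF3 using hg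
    refine ⟨∑ m ∈ s, weightedHomogeneousComponent j m c * F (n - m), ?_, ?_, ?_⟩
    · exact I.sum_mem fun m _ => I.mul_mem_left _ (hF1 _)
    · intro l hl
      rw [map_sum]
      apply Finset.sum_eq_zero
      intro m _
      rw [comp_mul_homog (weightedHomogeneousComponent_isWeightedHomogeneous m c),
        hF2 (n - m) (l - m) (by omega), mul_zero]
    · rw [smul_eq_mul, map_sum]
      conv_rhs => rw [hs, Finset.sum_mul, map_sum]
      apply Finset.sum_congr rfl
      intro m _
      rw [comp_mul_homog (weightedHomogeneousComponent_isWeightedHomogeneous m c), hF3,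
        comp_mul_homog (weightedHomogeneousComponent_isWeightedHomogeneous m c)]

lemma mem_inI {j : σ → ℤ} {I : Ideal (MvPolynomial σ k)} {g : MvPolynomial σ k} :
    g ∈ inI j I ↔ ∀ n : ℤ, ∃ f ∈ I, Below j n f ∧
      weightedHomogeneousComponent j n f = weightedHomogeneousComponent j n g := Iff.rfl

lemma inI_homog (j : σ → ℤ) (I : Ideal (MvPolynomial σ k)) : IsHomog j (inI j I) := by
  intro g hg m n
  by_cases h : n = m
  · obtain ⟨f, hf, h1, h2⟩ := hg m
    subst h
    refine ⟨f, hf, h1, ?_⟩
    rw [h2, comp_comp_same]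
  · refine ⟨0, I.zero_mem, fun _ _ => map_zero _, ?_⟩
    rw [map_zero, comp_comp_ne j h]

lemma inI_homog' {w : σ → X} (j : σ → ℤ) {I : Ideal (MvPolynomial σ k)} (hI : IsHomog w I) :
    IsHomog w (inI j I) := by
  intro g hg μ n
  obtain ⟨f, hf, h1, h2⟩ := hg n
  refine ⟨weightedHomogeneousComponent w μ f, hI f hf μ, ?_, ?_⟩
  · intro m hm
    rw [← comp_comm, h1 m hm, map_zero]
  · rw [← comp_comm, h2, comp_comm]

lemma top_mem_inI {j : σ → ℤ} {I : Ideal (MvPolynomial σ k)} {f : MvPolynomial σ k} (hf : f ∈ I)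
    {n : ℤ} (h : Below j n f) : weightedHomogeneousComponent j n f ∈ inI j I := by
  intro m
  by_cases hm : m = n
  · subst hm
    exact ⟨f, hf, h, (comp_comp_same _ _ _).symm⟩
  · refine ⟨0, I.zero_mem, fun _ _ => map_zero _, ?_⟩
    rw [map_zero, comp_comp_ne j hm]

/-- the part of a subspace in degrees at most `n` -/
def filt (j : σ → ℤ) (V : Submodule k (MvPolynomial σ k)) (n : ℤ) :
    Submodule k (MvPolynomial σ k) where
  carrier := {f | f ∈ V ∧ Below j n f}
  add_mem' := by
    rintro a b ⟨ha, ha'⟩ ⟨hb, hb'⟩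
    exact ⟨V.add_mem ha hb, fun m hm => by rw [map_add, ha' m hm, hb' m hm, add_zero]⟩
  zero_mem' := ⟨V.zero_mem, fun m _ => map_zero _⟩
  smul_mem' := by
    rintro c a ⟨ha, ha'⟩
    exact ⟨V.smul_mem c ha, fun m hm => by rw [map_smul, ha' m hm, smul_zero]⟩

lemma mem_filt {j : σ → ℤ} {V : Submodule k (MvPolynomial σ k)} {n : ℤ} {f : MvPolynomial σ k} :
    f ∈ filt j V n ↔ f ∈ V ∧ Below j n f := Iff.rfl

lemma filt_rank (j : σ → ℤ) (V : Submodule k (MvPolynomial σ k)) [Module.Finite k V] (n : ℤ) :
    finrank k ((filt j V n).map (weightedHomogeneousComponent j n : _ →ₗ[k] _)) +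
      finrank k (filt j V (n - 1)) = finrank k (filt j V n) := by
  have hfin : Module.Finite k (filt j V n) :=
    Submodule.finiteDimensional_of_le (show filt j V n ≤ V from fun f hf => hf.1)
  have h1 := LinearMap.finrank_range_add_finrank_ker
    ((weightedHomogeneousComponent j n : _ →ₗ[k] _).domRestrict (filt j V n))
  have h2 : LinearMap.range ((weightedHomogeneousComponent j n : _ →ₗ[k] _).domRestrict
      (filt j V n)) = (filt j V n).map (weightedHomogeneousComponent j n : _ →ₗ[k] _) := by
    rw [LinearMap.domRestrict, LinearMap.range_comp, Submodule.range_subtype]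
  have h3 : LinearMap.ker ((weightedHomogeneousComponent j n : _ →ₗ[k] _).domRestrict
      (filt j V n)) = (filt j V (n - 1)).comap (filt j V n).subtype := by
    ext ⟨f, hf⟩
    simp only [LinearMap.mem_ker, LinearMap.domRestrict_apply, Submodule.mem_comap,
      Submodule.subtype_apply, mem_filt]
    constructor
    · intro h
      refine ⟨hf.1, ?_⟩
      intro m hm
      by_cases hmn : m = n
      · rw [hmn]; exact h
      · exact hf.2 m (by omega)
    · intro h
      exact h.2 n (by omega)
  rw [h2, h3] at h1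
  rw [← h1, LinearEquiv.finrank_eq (Submodule.comapSubtypeEquivOfLe ?_)]
  intro f hf
  exact ⟨hf.1, fun m hm => hf.2 m (by omega)⟩

/-- Passing to the ideal of top forms does not change the Hilbert function. -/
lemma hilb_inI [Finite σ] {w : σ → X} (hw : PosW w) (j : σ → ℤ) {I : Ideal (MvPolynomial σ k)}
    (hI : IsHomog w I) : hilb w (inI j I) = hilb w I := by
  classical
  ext μ
  have hfin1 := finite_wp hw I μ
  have hfin2 := finite_wp hw (inI j I) μ
  have key : ∀ n : ℤ, (filt j (wp w (inI j I) μ) n).map
      (weightedHomogeneousComponent j n : _ →ₗ[k] _) =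
      (filt j (wp w I μ) n).map (weightedHomogeneousComponent j n : _ →ₗ[k] _) := by
    intro n
    ext g
    constructor
    · rintro ⟨g', ⟨hg1, hg2⟩, rfl⟩
      rw [mem_wp] at hg1
      obtain ⟨f, hf, h1, h2⟩ := hg1.1 n
      refine ⟨weightedHomogeneousComponent w μ f, ⟨?_, ?_⟩, ?_⟩
      · rw [mem_wp]
        exact ⟨hI f hf μ, weightedHomogeneousComponent_isWeightedHomogeneous μ f⟩
      · intro m hm
        rw [← comp_comm, h1 m hm, map_zero]
      · rw [← comp_comm, h2, comp_comm, hg1.2.weightedHomogeneousComponent_same]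
    · rintro ⟨f, ⟨hf1, hf2⟩, rfl⟩
      rw [mem_wp] at hf1
      refine ⟨weightedHomogeneousComponent j n f, ⟨?_, ?_⟩, comp_comp_same _ _ _⟩
      · rw [mem_wp]
        refine ⟨top_mem_inI hf1.1 hf2, ?_⟩
        have h3 : weightedHomogeneousComponent w μ (weightedHomogeneousComponent j n f) =
            weightedHomogeneousComponent j n f := by
          rw [comp_comm, hf1.2.weightedHomogeneousComponent_same]
        rw [← h3]
        exact weightedHomogeneousComponent_isWeightedHomogeneous μ _
      · intro m hm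
        exact comp_comp_ne j (by omega) f
  -- bounds
  obtain ⟨a, b, hab⟩ : ∃ a b : ℤ, ∀ d : σ →₀ ℕ, Finsupp.weight w d = μ →
      a < Finsupp.weight j d ∧ Finsupp.weight j d ≤ b := by
    have h0 := finite_weight hw μ
    have h1 := h0.image (fun d => Finsupp.weight j d)
    obtain ⟨b, hb⟩ := h1.bddAbove
    obtain ⟨a, ha⟩ := h1.bddBelow
    refine ⟨a - 1, b, ?_⟩
    intro d hd
    have h2 := hb (Set.mem_image_of_mem _ hd)
    have h3 := ha (Set.mem_image_of_mem _ hd)
    exact ⟨by omega, h2⟩
  have bot : ∀ (V : Submodule k (MvPolynomial σ k)), V ≤ whs k w μ → filt j V a = ⊥ := by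
    intro V hV
    rw [eq_bot_iff]
    rintro f ⟨hf1, hf2⟩
    rw [Submodule.mem_bot]
    ext d
    by_contra hne
    have h1 := (hab d (hV hf1 hne)).1
    have h2 := congrArg (coeff d) (hf2 _ h1)
    rw [coeff_weightedHomogeneousComponent, if_pos rfl] at h2
    exact hne (by simpa using h2)
  have top : ∀ (V : Submodule k (MvPolynomial σ k)), V ≤ whs k w μ → ∀ c, b ≤ c →
      filt j V c = V := by
    intro V hV c hc
    refine le_antisymm (fun f hf => hf.1) ?_
    intro f hf
    refine ⟨hf, ?_⟩
    intro m hm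
    ext d
    rw [coeff_weightedHomogeneousComponent]
    split_ifs with h
    · by_contra hne
      have hne' : coeff d f ≠ 0 := by simpa using hne
      have h1 := (hab d (hV hf hne')).2
      omega
    · simp
  have main : ∀ n : ℤ, a ≤ n → finrank k (filt j (wp w (inI j I) μ) n) =
      finrank k (filt j (wp w I μ) n) := by
    intro n hn
    induction n, hn using Int.leInduction with
    | base => rw [bot _ (wp_le _ _ _), bot _ (wp_le _ _ _)]
    | succ n hn ih =>
      rw [← filt_rank, ← filt_rank j (wp w I μ), key, add_sub_cancel_right, ih]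
  have e1 := main (max a b) (le_max_left _ _)
  rw [top _ (wp_le _ _ _) _ (le_max_right _ _), top _ (wp_le _ _ _) _ (le_max_right _ _)] at e1
  rw [hilb, hilb, e1]

/-- linear maps shifting the grading -/
def ShiftBy (j : σ → X) (T : MvPolynomial σ k →ₗ[k] MvPolynomial σ k) (e : X) : Prop :=
  ∀ f n, weightedHomogeneousComponent j (n + e) (T f) = T (weightedHomogeneousComponent j n f)

/-- stability under a linear map -/
def Stab (T : MvPolynomial σ k →ₗ[k] MvPolynomial σ k) (I : Ideal (MvPolynomial σ k)) : Prop :=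
  ∀ f ∈ I, T f ∈ I

lemma ShiftBy.below {j : σ → ℤ} {T : MvPolynomial σ k →ₗ[k] MvPolynomial σ k} {e : ℤ}
    (hT : ShiftBy j T e) {n : ℤ} {f : MvPolynomial σ k} (hf : Below j n f) :
    Below j (n + e) (T f) := by
  intro m hm
  have := hT f (m - e)
  rw [sub_add_cancel] at this
  rw [this, hf (m - e) (by omega), map_zero]

lemma stab_inI {j : σ → ℤ} {T : MvPolynomial σ k →ₗ[k] MvPolynomial σ k} {e : ℤ}
    (hT : ShiftBy j T e) {I : Ideal (MvPolynomial σ k)} (hI : Stab T I) : Stab T (inI j I) := by
  intro g hg n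
  obtain ⟨f, hf, h1, h2⟩ := hg (n - e)
  refine ⟨T f, hI f hf, ?_, ?_⟩
  · have := hT.below h1
    rwa [sub_add_cancel] at this
  · have h3 := hT f (n - e)
    have h4 := hT g (n - e)
    rw [sub_add_cancel] at h3 h4
    rw [h3, h4, h2]

end Init

end

end Pool.Agent.Helper38
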