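import Mathlib
import Pool.Agent.Helper38.KIn

open MvPolynomial Module

namespace Pool.Agent.Helper38

noncomputable section

section VF

variable {k : Type} [Field k] {σ τ : Type} {X : Type} [AddCommGroup X]

/-- derivations of a polynomial ring -/
abbrev Der (k : Type) [Field k] (σ : Type) : Type :=
  Derivation k (MvPolynomial σ k) (MvPolynomial σ k)

/-- the derivation with prescribed values on the variables -/
def vf (F : σ → MvPolynomial σ k) : Der k σ := mkDerivation k F

lemma vf_X (F : σ → MvPolynomial σ k) (i : σ) : vf F (MvPolynomial.X i) = F i :=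
  mkDerivation_X k F i

lemma comp_C (w : σ → X) (μ : X) (c : k) : weightedHomogeneousComponent w μ (C c : MvPolynomial σ k)
    = 0 ∨ weightedHomogeneousComponent w μ (C c : MvPolynomial σ k) = C c := by
  by_cases h : μ = 0
  · right
    rw [h]
    exact (isWeightedHomogeneous_C w c).weightedHomogeneousComponent_same
  · left
    exact (isWeightedHomogeneous_C w c).weightedHomogeneousComponent_ne _ h

/-- Checking the shift property on variables. -/
lemma shiftBy_of_X {w : σ → X} {D : Der k σ} {e : X}
    (h : ∀ i, IsWeightedHomogeneous w (D (MvPolynomial.X i)) (w i + e)) :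
    ShiftBy w (D : MvPolynomial σ k →ₗ[k] MvPolynomial σ k) e := by
  intro f
  induction f using MvPolynomial.induction_on with
  | C a =>
    intro n
    have h1 : D (C a : MvPolynomial σ k) = 0 := by
      have := D.map_algebraMap a
      rwa [MvPolynomial.algebraMap_eq] at this
    change weightedHomogeneousComponent w (n + e) (D (C a)) = D _
    rcases comp_C w n a with h2 | h2 <;> rw [h2, h1] <;> simp
  | add f g hf hg =>
    intro n
    rw [map_add, map_add, map_add, map_add, hf, hg]
  | mul_X f i hf =>
    intro n
    have e1 : ∀ g : MvPolynomial σ k, D (g * MvPolynomial.X i) =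
        g * D (MvPolynomial.X i) + MvPolynomial.X i * D g := by
      intro g; rw [D.leibniz]; rfl
    have e2 : ∀ (g : MvPolynomial σ k) (m : X), weightedHomogeneousComponent w m
        (g * MvPolynomial.X i) = MvPolynomial.X i * weightedHomogeneousComponent w (m - w i) g := by
      intro g m
      rw [mul_comm, comp_mul_homog (isWeightedHomogeneous_X k w i)]
    change weightedHomogeneousComponent w (n + e) (D (f * MvPolynomial.X i)) =
      D (weightedHomogeneousComponent w n (f * MvPolynomial.X i))
    rw [e1, map_add, mul_comm f, comp_mul_homog (h i), comp_mul_homog (isWeightedHomogeneous_X k w i),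
      e2, mul_comm (MvPolynomial.X i) (weightedHomogeneousComponent w (n - w i) f), e1]
    have e3 : n + e - (w i + e) = n - w i := by abel
    have e4 : n + e - w i = (n - w i) + e := by abel
    rw [e3, e4]
    have e5 := hf (n - w i)
    change weightedHomogeneousComponent w (n - w i + e) (D f) =
      D (weightedHomogeneousComponent w (n - w i) f) at e5
    rw [e5]
    ring

/-- Checking compatibility of derivations with an algebra map on variables. -/
lemma intertwine (D : Der k σ) (D' : Der k τ) (u : MvPolynomial σ k →ₐ[k] MvPolynomial τ k)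
    (h : ∀ i, D' (u (MvPolynomial.X i)) = u (D (MvPolynomial.X i))) (f : MvPolynomial σ k) :
    D' (u f) = u (D f) := by
  induction f using MvPolynomial.induction_on with
  | C a =>
    have h1 : D (C a : MvPolynomial σ k) = 0 := by
      have := D.map_algebraMap a
      rwa [MvPolynomial.algebraMap_eq] at this
    have h2 : u (C a) = C a := by
      have := u.commutes a
      rwa [MvPolynomial.algebraMap_eq, MvPolynomial.algebraMap_eq] at this
    have h3 : D' (C a : MvPolynomial τ k) = 0 := by
      have := D'.map_algebraMap a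
      rwa [MvPolynomial.algebraMap_eq] at this
    rw [h1, h2, h3, map_zero]
  | add f g hf hg => rw [map_add, map_add, map_add, map_add, hf, hg]
  | mul_X f i hf =>
    rw [map_mul, D'.leibniz, D.leibniz, map_add, hf, h]
    simp only [smul_eq_mul, map_mul]

/-- Euler derivation of a grading -/
def euler (j : σ → ℤ) : Der k σ := vf fun i => C (j i : k) * MvPolynomial.X i

lemma comp_euler (j : σ → ℤ) (f : MvPolynomial σ k) :
    ∀ n, weightedHomogeneousComponent j n (euler j f) =
      C (n : k) * weightedHomogeneousComponent j n f := by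
  induction f using MvPolynomial.induction_on with
  | C a =>
    intro n
    have h1 : euler j (C a : MvPolynomial σ k) = 0 := by
      have := (euler (k := k) j).map_algebraMap a
      rwa [MvPolynomial.algebraMap_eq] at this
    rw [h1, map_zero]
    by_cases h : n = 0
    · rw [h]; simp
    · rw [(isWeightedHomogeneous_C j a).weightedHomogeneousComponent_ne _ h, mul_zero]
  | add f g hf hg =>
    intro n
    rw [map_add, map_add, map_add, hf, hg, mul_add]
  | mul_X f i hf =>
    intro n
    have e1 : euler j (f * MvPolynomial.X i) =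
        C (j i : k) * (MvPolynomial.X i * f) + MvPolynomial.X i * euler j f := by
      rw [(euler j).leibniz, euler, vf_X]
      simp only [smul_eq_mul]
      ring
    rw [e1, map_add, MvPolynomial.C_mul', map_smul, comp_mul_homog (isWeightedHomogeneous_X k j i),
      comp_mul_homog (isWeightedHomogeneous_X k j i), mul_comm f,
      comp_mul_homog (isWeightedHomogeneous_X k j i), hf, ← MvPolynomial.C_mul']
    push_cast
    rw [C_sub]
    ring

lemma IsHomog.stab_euler {j : σ → ℤ} {I : Ideal (MvPolynomial σ k)} (h : IsHomog j I) :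
    Stab (euler j : Der k σ) I := by
  intro f hf
  obtain ⟨s, hs⟩ := sum_comp j (euler j f)
  change euler j f ∈ I
  rw [hs]
  apply I.sum_mem
  intro n _
  rw [comp_euler]
  exact I.mul_mem_left _ (h f hf n)

/-- One degeneration step. -/
theorem degen_one [Finite σ] {w : σ → X} {j : σ → ℤ} {I : Ideal (MvPolynomial σ k)} (hw : PosW w)
    (hI : IsHomog w I) (hj : IsHomog j I) (D : Der k σ)
    (hD : ShiftBy j (D : MvPolynomial σ k →ₗ[k] MvPolynomial σ k) 1)
    (u : MvPolynomial σ k ≃ₐ[k] MvPolynomial σ k)
    (hu : ∀ i, IsWeightedHomogeneous w (u (MvPolynomial.X i)) (w i))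
    (hu' : ∀ i, IsWeightedHomogeneous w (u.symm (MvPolynomial.X i)) (w i))
    (hHD : ∀ i, euler j (u (MvPolynomial.X i)) - D (u (MvPolynomial.X i)) =
      u (euler j (MvPolynomial.X i))) :
    ∃ I' : Ideal (MvPolynomial σ k), IsHomog w I' ∧ IsHomog j I' ∧ hilb w I' = hilb w I ∧
      Stab (D : MvPolynomial σ k →ₗ[k] MvPolynomial σ k) I' ∧
      ∀ (D' : Der k σ) (e : ℤ), ShiftBy j (D' : MvPolynomial σ k →ₗ[k] MvPolynomial σ k) e →
        (∀ i, D' (u (MvPolynomial.X i)) = u (D' (MvPolynomial.X i))) →
        Stab (D' : MvPolynomial σ k →ₗ[k] MvPolynomial σ k) I →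
        Stab (D' : MvPolynomial σ k →ₗ[k] MvPolynomial σ k) I' := by
  classical
  have hU : (u : MvPolynomial σ k →ₐ[k] MvPolynomial σ k) =
      aeval (fun i => u (MvPolynomial.X i)) := by
    apply MvPolynomial.algHom_ext
    intro i; simp
  have hU' : (u.symm : MvPolynomial σ k →ₐ[k] MvPolynomial σ k) =
      aeval (fun i => u.symm (MvPolynomial.X i)) := by
    apply MvPolynomial.algHom_ext
    intro i; simp
  set I0 : Ideal (MvPolynomial σ k) :=
    I.comap (u.symm : MvPolynomial σ k →ₐ[k] MvPolynomial σ k) with hI0
  have mem0 : ∀ f, f ∈ I0 ↔ u.symm f ∈ I := fun f => Iff.rfl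
  have mem1 : ∀ f, f ∈ I ↔ u f ∈ I0 := by
    intro f; rw [mem0, AlgEquiv.symm_apply_apply]
  have h0 : IsHomog w I0 := by
    rw [hI0, hU']
    exact hI.comap_aeval _ hu'
  refine ⟨inI j I0, inI_homog' j h0, inI_homog j I0, ?_, ?_, ?_⟩
  · rw [hilb_inI hw j h0]
    symm
    refine hilb_equiv u ?_ I I0 mem1
    intro f μ
    constructor
    · intro hf
      have := homog_aeval _ hu hf
      rwa [← hU] at this
    · intro hf
      have := homog_aeval _ hu' hf
      rw [← hU'] at this
      simpa using this
  · -- stability under D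
    have key : ∀ f ∈ I0, euler j f - D f ∈ I0 := by
      intro f hf
      have h1 := intertwine (euler j) ((euler j : Der k σ) - D)
        (u : MvPolynomial σ k →ₐ[k] MvPolynomial σ k) (by
          intro i
          rw [Derivation.sub_apply]
          exact hHD i) (u.symm f)
      rw [Derivation.sub_apply] at h1
      simp only [AlgEquiv.coe_toAlgHom, AlgEquiv.apply_symm_apply] at h1
      rw [h1, ← mem1]
      exact hj.stab_euler _ ((mem0 f).1 hf)
    intro g hg n
    obtain ⟨f, hf, h1, h2⟩ := hg (n - 1)
    refine ⟨-(euler j f - D f), I0.neg_mem (key f hf), ?_, ?_⟩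
    · intro m hm
      have h3 := hD.below h1
      rw [sub_add_cancel] at h3
      rw [map_neg, map_sub, comp_euler, h1 m (by omega)]
      have h4 := h3 m hm
      change weightedHomogeneousComponent j m (D f) = 0 at h4
      rw [h4]
      simp
    · have h3 := hD f (n - 1)
      have h4 := hD g (n - 1)
      rw [sub_add_cancel] at h3 h4
      change weightedHomogeneousComponent j n (D f) = D _ at h3
      change weightedHomogeneousComponent j n (D g) = D _ at h4
      change _ = weightedHomogeneousComponent j n (D g)
      rw [map_neg, map_sub, comp_euler, h1 n (by omega), h3, h4, h2]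
      simp
  · intro D' e hs hc hst
    apply stab_inI hs
    intro f hf
    have h1 := intertwine D' D' (u : MvPolynomial σ k →ₐ[k] MvPolynomial σ k) hc (u.symm f)
    simp only [AlgEquiv.coe_toAlgHom, AlgEquiv.apply_symm_apply] at h1
    change D' f ∈ I0
    rw [h1, ← mem1]
    exact hst _ ((mem0 f).1 hf)

/-- Several degeneration steps. -/
theorem degen_many [Finite σ] {ι : Type} {w : σ → X} {j : σ → ℤ} {I : Ideal (MvPolynomial σ k)}
    (hw : PosW w) (hI : IsHomog w I) (hj : IsHomog j I) (D : ι → Der k σ)
    (hD : ∀ c, ShiftBy j (D c : MvPolynomial σ k →ₗ[k] MvPolynomial σ k) 1)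
    (u : ι → (MvPolynomial σ k ≃ₐ[k] MvPolynomial σ k))
    (hu : ∀ c i, IsWeightedHomogeneous w (u c (MvPolynomial.X i)) (w i))
    (hu' : ∀ c i, IsWeightedHomogeneous w ((u c).symm (MvPolynomial.X i)) (w i))
    (hHD : ∀ c i, euler j (u c (MvPolynomial.X i)) - D c (u c (MvPolynomial.X i)) =
      u c (euler j (MvPolynomial.X i)))
    (hcomm : ∀ c c' i, D c (u c' (MvPolynomial.X i)) = u c' (D c (MvPolynomial.X i)))
    (s : Finset ι) :
    ∃ I' : Ideal (MvPolynomial σ k), IsHomog w I' ∧ IsHomog j I' ∧ hilb w I' = hilb w I ∧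
      (∀ c ∈ s, Stab (D c : MvPolynomial σ k →ₗ[k] MvPolynomial σ k) I') ∧
      ∀ (D' : Der k σ) (e : ℤ), ShiftBy j (D' : MvPolynomial σ k →ₗ[k] MvPolynomial σ k) e →
        (∀ c i, D' (u c (MvPolynomial.X i)) = u c (D' (MvPolynomial.X i))) →
        Stab (D' : MvPolynomial σ k →ₗ[k] MvPolynomial σ k) I →
        Stab (D' : MvPolynomial σ k →ₗ[k] MvPolynomial σ k) I' := by
  classical
  induction s using Finset.induction_on with
  | empty => exact ⟨I, hI, hj, rfl, by simp, fun D' e _ _ h => h⟩
  | insert c s hc ih =>
    obtain ⟨I1, h1, h2, h3, h4, h5⟩ := ih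
    obtain ⟨I2, g1, g2, g3, g4, g5⟩ := degen_one hw h1 h2 (D c) (hD c) (u c) (hu c) (hu' c) (hHD c)
    refine ⟨I2, g1, g2, g3.trans h3, ?_, ?_⟩
    · intro c' hc'
      rcases Finset.mem_insert.1 hc' with rfl | hc'
      · exact g4
      · exact g5 (D c') 1 (hD c') (hcomm c' c) (h4 c' hc')
    · intro D' e hs hcm hst
      exact g5 D' e hs (hcm c) (h5 D' e hs hcm hst)

end VF

end

end Pool.Agent.Helper38
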