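import Mathlib
import Pool.Agent.Helper38.KDeg

open MvPolynomial Module

namespace Pool.Agent.Helper38

noncomputable section

section Elim

variable {k : Type} [Field k] {τ : Type} {X : Type} [AddCommGroup X]

lemma act_one_sub_hilb [Finite τ] {w : Option τ → X} (hw : PosW w)
    {I : Ideal (MvPolynomial (Option τ) k)} (hI : IsHomog w I)
    (hc : colonE I (MvPolynomial.X none) = I) :
    act (1 - AddMonoidAlgebra.single (w none) (1:ℤ)) (hilb w I) =
      hilb (w ∘ some) (I.map (ev0 k τ)) := by
  ext μ
  rw [act_one_sub]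
  have h2 := hilb_colon hw hI (isWeightedHomogeneous_X k w none) μ
  rw [hc] at h2
  rw [h2, add_sub_cancel_right]
  rw [hilb_ev0 hw (J := I ⊔ Ideal.span {MvPolynomial.X none})
    ((le_sup_right : Ideal.span {MvPolynomial.X none} ≤ _)
      (Ideal.mem_span_singleton_self _)), map_ev0_sup]

/-- a variable which is a nonzerodivisor can be set to zero -/
lemma kq_elim [Fintype τ] {w : Option τ → X} (hw : PosW w)
    {I : Ideal (MvPolynomial (Option τ) k)} (hI : IsHomog w I)
    (hc : colonE I (MvPolynomial.X none) = I) : kq w I = kq (w ∘ some) (I.map (ev0 k τ)) := by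
  apply cf_injective
  rw [← kq_spec hw hI, ← kq_spec (posW_some hw) (map_ev0_homog hI), act_den_of_hilb,
    act_one_sub_hilb hw hI hc]

/-- a variable contained in the ideal -/
lemma kq_contains [Fintype τ] {w : Option τ → X} (hw : PosW w)
    {I : Ideal (MvPolynomial (Option τ) k)} (hI : IsHomog w I)
    (hc : MvPolynomial.X none ∈ I) :
    kq w I = (1 - AddMonoidAlgebra.single (w none) 1) * kq (w ∘ some) (I.map (ev0 k τ)) := by
  apply cf_injective
  have h3 : hilb w I = hilb (w ∘ some) (I.map (ev0 k τ)) := by
    ext μ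
    exact hilb_ev0 hw hc μ
  rw [← act_cf, ← kq_spec hw hI, ← kq_spec (posW_some hw) (map_ev0_homog hI), den_option,
    act_mul, h3]

/-- substitution of `1` for the distinguished variable -/
def ev1 (k : Type) [Field k] (τ : Type) : MvPolynomial (Option τ) k →ₐ[k] MvPolynomial τ k :=
  aeval (fun o : Option τ => o.elim 1 MvPolynomial.X)

lemma ev1_none : ev1 k τ (MvPolynomial.X none) = 1 := by simp [ev1]

lemma ev1_some (i : τ) : ev1 k τ (MvPolynomial.X (some i)) = MvPolynomial.X i := by simp [ev1]

lemma ev1_rename (g : MvPolynomial τ k) : ev1 k τ (rename some g) = g := by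
  have : (ev1 k τ).comp (rename some) = AlgHom.id k _ := by
    ext i; simp [ev1_some]
  exact AlgHom.congr_fun this g

lemma ev1_surj : Function.Surjective (ev1 k τ) := fun g => ⟨rename some g, ev1_rename g⟩

lemma ev1_homogF {w : Option τ → X} (h : w none = 0) (o : Option τ) :
    IsWeightedHomogeneous (w ∘ some) (o.elim 1 MvPolynomial.X : MvPolynomial τ k) (w o) := by
  cases o with
  | none =>
    rw [h]
    exact isWeightedHomogeneous_one k _
  | some i => exact isWeightedHomogeneous_X k _ i

/-- weights with the distinguished one replaced by zero -/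
def wz (w : Option τ → X) : Option τ → X := fun o => o.elim 0 (w ∘ some)

lemma wz_some (w : Option τ → X) : wz w ∘ some = w ∘ some := rfl

lemma weight_wz (w : Option τ → X) (d : Option τ →₀ ℕ) :
    Finsupp.weight w d = Finsupp.weight (wz w) d + d none • w none := by
  classical
  have h : w = fun o => wz w o + (if o = none then w none else 0) := by
    ext o
    cases o with
    | none => simp [wz]
    | some i => simp [wz]
  conv_lhs => rw [h]
  simp only [Finsupp.weight_apply, Finsupp.sum, smul_add, Finset.sum_add_distrib]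
  congr 1
  rw [Finset.sum_eq_single none]
  · simp
  · intro o _ ho
    simp [ho]
  · intro ho
    rw [Finsupp.notMem_support_iff] at ho
    simp [ho]

lemma below_iff {σ : Type} (j : σ → ℤ) (n : ℤ) (f : MvPolynomial σ k) :
    Below j n f ↔ ∀ d, coeff d f ≠ 0 → Finsupp.weight j d ≤ n := by
  classical
  constructor
  · intro h d hd
    by_contra hcon
    push Not at hcon
    have h1 := congrArg (coeff d) (h _ hcon)
    rw [coeff_weightedHomogeneousComponent, if_pos rfl] at h1
    exact hd (by simpa using h1)
  · intro h m hm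
    ext d
    rw [coeff_weightedHomogeneousComponent]
    split_ifs with h1
    · by_contra hne
      have := h d (by simpa using hne)
      omega
    · simp

lemma ev_agree (g : MvPolynomial (Option τ) k) (hg : ∀ d, coeff d g ≠ 0 → d none = 0) :
    ev1 k τ g = ev0 k τ g := by
  classical
  rw [ev1, ev0, aeval_def, aeval_def, eval₂_eq, eval₂_eq]
  apply Finset.sum_congr rfl
  intro d hd
  congr 1
  apply Finset.prod_congr rfl
  intro o ho
  cases o with
  | none =>
    exfalso
    rw [Finsupp.mem_support_iff] at ho
    exact ho (hg d (mem_support_iff.1 hd))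
  | some i => rfl

lemma ev1_below {W : Option τ → ℤ} (h0 : 0 < W none) {N : ℤ} {f : MvPolynomial (Option τ) k}
    (hf : Below W N f) : Below (W ∘ some) N (ev1 k τ f) ∧
      weightedHomogeneousComponent (W ∘ some) N (ev1 k τ f) =
        weightedHomogeneousComponent (W ∘ some) N (ev0 k τ f) := by
  classical
  rw [below_iff] at hf
  have h1 : ∀ (n : ℤ), weightedHomogeneousComponent (W ∘ some) n (ev1 k τ f) =
      ev1 k τ (weightedHomogeneousComponent (wz W) n f) := by
    intro n
    have := comp_aeval (w := wz W) (w' := W ∘ some) (fun o : Option τ => o.elim 1 MvPolynomial.X)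
      (fun o => ev1_homogF (w := wz W) rfl o) f n
    exact this
  have h2 : ∀ (n : ℤ), weightedHomogeneousComponent (W ∘ some) n (ev0 k τ f) =
      ev0 k τ (weightedHomogeneousComponent (wz W) n f) := by
    intro n
    have := comp_aeval (w := wz W) (w' := W ∘ some) (fun o : Option τ => o.elim 0 MvPolynomial.X)
      (fun o => ev0_homogF (wz W) o) f n
    exact this
  constructor
  · intro m hm
    rw [h1]
    have h3 : weightedHomogeneousComponent (wz W) m f = 0 := by
      ext d
      rw [coeff_weightedHomogeneousComponent]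
      split_ifs with h4
      · by_contra hne
        have h5 := hf d (by simpa using hne)
        rw [weight_wz, h4, nsmul_eq_mul] at h5
        have h6 : 0 ≤ ((d none : ℕ) : ℤ) * W none := by positivity
        omega
      · simp
    rw [h3, map_zero]
  · rw [h1, h2]
    apply ev_agree
    intro d hd
    rw [coeff_weightedHomogeneousComponent] at hd
    split_ifs at hd with h4
    · have h5 := hf d hd
      rw [weight_wz, h4, nsmul_eq_mul] at h5
      by_contra h7
      have h6 : 0 < ((d none : ℕ) : ℤ) * W none := by
        have : 0 < d none := Nat.pos_of_ne_zero h7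
        positivity
      omega
    · exact absurd rfl hd

lemma exists_below {σ : Type} (j : σ → ℤ) (f : MvPolynomial σ k) (n : ℤ) :
    ∃ N : ℕ, Below j (n + N) f := by
  classical
  have h1 : (f.support.image (fun d => Finsupp.weight j d) : Set ℤ).Finite := Finset.finite_toSet _
  obtain ⟨b, hb⟩ := h1.bddAbove
  refine ⟨(b - n).toNat, ?_⟩
  rw [below_iff]
  intro d hd
  have h2 : Finsupp.weight j d ∈ (f.support.image (fun d => Finsupp.weight j d) : Set ℤ) := by
    rw [Finset.coe_image]
    exact ⟨d, mem_support_iff.2 hd, rfl⟩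
  have h3 := hb h2
  omega

lemma mem_of_comp {σ : Type} {w : σ → X} {J : Ideal (MvPolynomial σ k)} {g : MvPolynomial σ k}
    (h : ∀ μ, weightedHomogeneousComponent w μ g ∈ J) : g ∈ J := by
  obtain ⟨s, hs⟩ := sum_comp w g
  rw [hs]
  exact J.sum_mem fun μ _ => h μ

/-- The top degree forms of the dehomogenised ideal. -/
lemma inI_map_ev1 {W : Option τ → ℤ} (h0 : 0 < W none) {I : Ideal (MvPolynomial (Option τ) k)}
    (hI : IsHomog W I) (hc : colonE I (MvPolynomial.X none) = I) :
    inI (W ∘ some) (I.map (ev1 k τ)) = I.map (ev0 k τ) := by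
  classical
  apply le_antisymm
  · intro g hg
    apply mem_of_comp (w := W ∘ some)
    intro n
    obtain ⟨h, hh, h1, h2⟩ := hg n
    rw [← h2]
    rw [Ideal.mem_map_iff_of_surjective _ ev1_surj] at hh
    obtain ⟨f, hf, rfl⟩ := hh
    have key : ∀ (N : ℕ) (f : MvPolynomial (Option τ) k), f ∈ I → Below W (n + N) f →
        Below (W ∘ some) n (ev1 k τ f) →
        weightedHomogeneousComponent (W ∘ some) n (ev1 k τ f) ∈ I.map (ev0 k τ) := by
      intro N
      induction N with
      | zero =>
        intro f hf hb _
        rw [(ev1_below h0 (by simpa using hb)).2]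
        exact map_ev0_homog hI _ (Ideal.mem_map_of_mem _ hf) n
      | succ N ih =>
        intro f hf hb hb'
        set m : ℤ := n + (N + 1 : ℕ) with hm
        set ft := weightedHomogeneousComponent W m f with hft
        have e1 : ft ∈ I := hI f hf m
        have e2 : ev0 k τ ft = 0 := by
          have a1 := (ev1_below h0 hb).2
          rw [hb' m (by omega)] at a1
          have a2 := comp_aeval (w := W) (w' := W ∘ some)
            (fun o : Option τ => o.elim 0 MvPolynomial.X) (fun o => ev0_homogF W o) f m
          change weightedHomogeneousComponent (W ∘ some) m (ev0 k τ f) = ev0 k τ ft at a2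
          rw [← a2, ← a1]
        have e3 : ft ∈ Ideal.span {(MvPolynomial.X none : MvPolynomial (Option τ) k)} := by
          have := ev0_mod ft
          rwa [e2, map_zero, sub_zero] at this
        rw [Ideal.mem_span_singleton] at e3
        obtain ⟨f', hf'⟩ := e3
        set f2 := weightedHomogeneousComponent W (m - W none) f' with hf2
        have e4 : ft = MvPolynomial.X none * f2 := by
          have a1 : weightedHomogeneousComponent W m ft = ft := comp_comp_same _ _ _
          rw [← a1, hf', comp_mul_homog (isWeightedHomogeneous_X k W none)]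
        have e5 : f2 ∈ I := by
          rw [← hc, mem_colonE, ← e4]
          exact e1
        have e6 : ev1 k τ (f - ft + f2) = ev1 k τ f := by
          rw [map_add, map_sub, e4, map_mul, ev1_none]
          ring
        rw [← e6]
        apply ih
        · exact I.add_mem (I.sub_mem hf e1) e5
        · intro l hl
          rw [map_add, map_sub]
          have a2 : weightedHomogeneousComponent W l f2 = 0 := by
            rw [hf2]
            apply comp_comp_ne
            omega
          rw [a2, add_zero]
          by_cases hlm : l = m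
          · rw [hlm, hft, comp_comp_same, sub_self]
          · rw [hb l (by omega), hft, comp_comp_ne _ hlm, sub_zero]
        · rw [e6]
          exact hb'
    obtain ⟨N, hN⟩ := exists_below W f n
    exact key N f hf hN h1
  · intro g hg
    rw [Ideal.mem_map_iff_of_surjective _ ev0_surj] at hg
    obtain ⟨f, hf, rfl⟩ := hg
    intro n
    have e1 : Below W n (weightedHomogeneousComponent W n f) := by
      intro m hm
      exact comp_comp_ne _ (by omega) _
    have e2 := ev1_below h0 e1
    refine ⟨ev1 k τ (weightedHomogeneousComponent W n f),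
      Ideal.mem_map_of_mem _ (hI f hf n), e2.1, ?_⟩
    rw [e2.2]
    have a2 := comp_aeval (w := W) (w' := W ∘ some)
      (fun o : Option τ => o.elim 0 MvPolynomial.X) (fun o => ev0_homogF W o) f n
    change weightedHomogeneousComponent (W ∘ some) n (ev0 k τ f) = ev0 k τ _ at a2
    rw [← a2, comp_comp_same]

/-- The pivot lemma. -/
theorem pivot [Fintype τ] {X₁ : Type} [AddCommGroup X₁] {w : Option τ → X} (φ : X →+ X₁)
    (hφ : φ (w none) = 0) {ℓ : X →+ ℤ} (hw : PosL ℓ w) {ℓ₁ : X₁ →+ ℤ}
    (hw₁ : PosL ℓ₁ (fun i : τ => φ (w (some i)))) {I : Ideal (MvPolynomial (Option τ) k)}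
    (hI : IsHomog w I) (hc : colonE I (MvPolynomial.X none) = I) (hne : I ≠ ⊤) :
    IsHomog (fun i : τ => φ (w (some i))) (I.map (ev1 k τ)) ∧ I.map (ev1 k τ) ≠ ⊤ ∧
      ord I = ord (I.map (ev1 k τ)) ∧
      ∀ (R : Type) [CommRing R] [Algebra ℚ R] (L : X₁ →+ R),
        cls I (fun i => L (φ (w i))) = cls (I.map (ev1 k τ)) (fun i => L (φ (w (some i)))) := by
  set J := I.map (ev0 k τ) with hJ
  set I1 := I.map (ev1 k τ) with hI1
  set w1 : τ → X₁ := fun i => φ (w (some i)) with hw1
  have hI' : IsHomog (fun o => φ (w o)) I := hI.coarsen φ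
  have h1 : IsHomog w1 I1 :=
    hI'.map_aeval (w' := w1) _ (fun o => ev1_homogF (w := fun o => φ (w o)) hφ o) ev1_surj
  have h2 : IsHomog w1 J :=
    hI'.map_aeval (w' := w1) _ (fun o => ev0_homogF (fun o => φ (w o)) o) ev0_surj
  have hIW : IsHomog (fun o => ℓ (w o)) I := hI.coarsen ℓ
  have h3 : inI ((fun o => ℓ (w o)) ∘ some) I1 = J := inI_map_ev1 (hw none) hIW hc
  have h4 : kq w1 J = kq w1 I1 := by
    apply kq_eq_of_hilb hw₁.posW h2 h1
    rw [← h3]
    exact hilb_inI hw₁.posW _ h1
  have h5 : kq w I = kq (w ∘ some) J := kq_elim hw.posW hI hc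
  have hws : PosL ℓ (w ∘ some) := fun i => hw (some i)
  obtain ⟨c1, c2, c3⟩ := compare_eq hw hws hI (map_ev0_homog hI) hne h5
  obtain ⟨d1, d2, d3⟩ := compare_eq hw₁ hw₁ h2 h1 c1 h4
  refine ⟨h1, d1, c2.trans d2, ?_⟩
  intro R _ _ L
  rw [← d3 R L]
  exact c3 R (L.comp φ)

/-- homogenisation of a polynomial -/
lemma exists_homogenise (κ : Option τ → ℤ) (hκ : κ none = 1) (g : MvPolynomial τ k) :
    ∃ (N : ℤ) (f : MvPolynomial (Option τ) k), IsWeightedHomogeneous κ f N ∧ ev1 k τ f = g := by
  classical
  obtain ⟨s, hs⟩ := sum_comp (κ ∘ some) g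
  obtain ⟨N, hN⟩ : ∃ N, ∀ n ∈ s, n ≤ N := by
    obtain ⟨b, hb⟩ := (Finset.finite_toSet s).bddAbove
    exact ⟨b, fun n hn => hb hn⟩
  refine ⟨N, ∑ n ∈ s, MvPolynomial.X none ^ (N - n).toNat *
    rename some (weightedHomogeneousComponent (κ ∘ some) n g), ?_, ?_⟩
  · apply IsWeightedHomogeneous.sum
    intro n hn
    have h1 := (isWeightedHomogeneous_X k κ none).pow (N - n).toNat
    have h2 : IsWeightedHomogeneous κ
        (rename some (weightedHomogeneousComponent (κ ∘ some) n g)) n :=
      homog_rename some (weightedHomogeneousComponent_isWeightedHomogeneous n g)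
    have h3 := h1.mul h2
    have h4 := hN n hn
    have h5 : (N - n).toNat • κ none + n = N := by
      rw [hκ, nsmul_eq_mul, mul_one]
      omega
    rwa [h5] at h3
  · rw [map_sum]
    conv_rhs => rw [hs]
    apply Finset.sum_congr rfl
    intro n _
    rw [map_mul, map_pow, ev1_none, one_pow, one_mul, ev1_rename]

lemma ev1_monomial (d : Option τ →₀ ℕ) (c : k) :
    ev1 k τ (monomial d c) = monomial d.some c := by
  classical
  rw [ev1, aeval_monomial, Finsupp.prod_option_index]
  · simp only [Option.elim_none, one_pow, one_mul, Option.elim_some]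
    rw [MvPolynomial.algebraMap_eq, ← MvPolynomial.monomial_eq]
  · intro o; simp
  · intro o _ _; rw [pow_add]

lemma ev1_inj {κ : Option τ → ℤ} (hκ : κ none = 1) {M : ℤ} {f : MvPolynomial (Option τ) k}
    (hf : IsWeightedHomogeneous κ f M) (h : ev1 k τ f = 0) : f = 0 := by
  classical
  by_contra hne
  obtain ⟨d, hd⟩ := MvPolynomial.ne_zero_iff.1 hne
  have h1 := congrArg (coeff d.some) h
  conv_lhs at h1 => rw [f.as_sum, map_sum]
  rw [coeff_sum, Finset.sum_eq_single d] at h1
  · rw [ev1_monomial, coeff_monomial, if_pos rfl] at h1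
    exact hd (by simpa using h1)
  · intro d' hd' hdd
    rw [ev1_monomial, coeff_monomial, if_neg]
    intro he
    apply hdd
    have e1 := hf hd
    have e2 := hf (mem_support_iff.1 hd')
    have e3 : ∀ e : Option τ →₀ ℕ, Finsupp.weight κ e =
        Finsupp.weight (κ ∘ some) e.some + (e none : ℤ) := by
      intro e
      rw [weight_wz κ e, hκ, nsmul_eq_mul, mul_one]
      congr 1
      rw [Finsupp.weight_apply, Finsupp.sum_option_index]
      · simp only [wz, Option.elim_none, smul_zero, zero_add, Option.elim_some]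
        rfl
      · intro o; simp
      · intro o _ _; rw [add_smul]
    rw [e3] at e1 e2
    rw [he] at e2
    have e4 : d' none = d none := by omega
    ext o
    cases o with
    | none => exact e4
    | some i => exact DFunLike.congr_fun he i
  · intro hd'
    exact absurd (mem_support_iff.2 hd) hd'

/-- homogeneous membership can be tested after dehomogenisation -/
lemma mem_of_ev1 {κ : Option τ → ℤ} (hκ : κ none = 1) {K : Ideal (MvPolynomial (Option τ) k)}
    (hK : IsHomog κ K) (hc : colonE K (MvPolynomial.X none) = K)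
    {h : MvPolynomial (Option τ) k} {N : ℤ} (hh : IsWeightedHomogeneous κ h N)
    (hm : ev1 k τ h ∈ K.map (ev1 k τ)) : h ∈ K := by
  classical
  rw [Ideal.mem_map_iff_of_surjective _ ev1_surj] at hm
  obtain ⟨h', hh', he⟩ := hm
  obtain ⟨s, hs⟩ := sum_comp κ h'
  obtain ⟨M, hMN, hM⟩ : ∃ M, N ≤ M ∧ ∀ n ∈ s, n ≤ M := by
    obtain ⟨b, hb⟩ := (Finset.finite_toSet s).bddAbove
    exact ⟨max b N, le_max_right _ _, fun n hn => (hb hn).trans (le_max_left _ _)⟩
  set h2 := ∑ n ∈ s, MvPolynomial.X none ^ (M - n).toNat * weightedHomogeneousComponent κ n h'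
    with hh2
  have a1 : h2 ∈ K := K.sum_mem fun n _ => K.mul_mem_left _ (hK h' hh' n)
  have a2 : IsWeightedHomogeneous κ h2 M := by
    apply IsWeightedHomogeneous.sum
    intro n hn
    have b1 := (isWeightedHomogeneous_X k κ none).pow (M - n).toNat
    have b3 := b1.mul (weightedHomogeneousComponent_isWeightedHomogeneous n h')
    have b4 := hM n hn
    have b5 : (M - n).toNat • κ none + n = M := by
      rw [hκ, nsmul_eq_mul, mul_one]
      omega
    rwa [b5] at b3
  have a3 : IsWeightedHomogeneous κ (MvPolynomial.X none ^ (M - N).toNat * h) M := by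
    have b1 := (isWeightedHomogeneous_X k κ none).pow (M - N).toNat
    have b3 := b1.mul hh
    have b5 : (M - N).toNat • κ none + N = M := by
      rw [hκ, nsmul_eq_mul, mul_one]
      omega
    rwa [b5] at b3
  have a4 : ev1 k τ h2 = ev1 k τ h' := by
    rw [hh2, map_sum]
    conv_rhs => rw [hs, map_sum]
    apply Finset.sum_congr rfl
    intro n _
    rw [map_mul, map_pow, ev1_none, one_pow, one_mul]
  have a5 : MvPolynomial.X none ^ (M - N).toNat * h - h2 = 0 := by
    apply ev1_inj hκ (a3.sub a2)
    rw [map_sub, a4, he, map_mul, map_pow, ev1_none, one_pow, one_mul, sub_self]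
  have a6 : MvPolynomial.X none ^ (M - N).toNat * h ∈ K := by
    rw [sub_eq_zero.1 a5]; exact a1
  have a7 : ∀ (n : ℕ), MvPolynomial.X none ^ n * h ∈ K → h ∈ K := by
    intro n
    induction n with
    | zero => intro h; simpa using h
    | succ n ih =>
      intro h3
      apply ih
      rw [← hc, mem_colonE]
      rw [pow_succ] at h3
      convert h3 using 1
      ring
  exact a7 _ a6

/-- Identification of the dehomogenised ideal. -/
lemma map_ev1_eq {κ : Option τ → ℤ} (hκ : κ none = 1) {I : Ideal (MvPolynomial (Option τ) k)}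
    (hI : IsHomog κ I) {I1 : Ideal (MvPolynomial τ k)}
    (h : ∀ f N, IsWeightedHomogeneous κ f N → (f ∈ I ↔ ev1 k τ f ∈ I1)) :
    I.map (ev1 k τ) = I1 := by
  apply le_antisymm
  · rw [Ideal.map_le_iff_le_comap]
    intro f hf
    rw [Ideal.mem_comap]
    obtain ⟨s, hs⟩ := sum_comp κ f
    rw [hs, map_sum]
    apply I1.sum_mem
    intro n _
    exact (h _ n (weightedHomogeneousComponent_isWeightedHomogeneous n f)).1 (hI f hf n)
  · intro g hg
    obtain ⟨N, f, hf, rfl⟩ := exists_homogenise κ hκ g
    exact Ideal.mem_map_of_mem _ ((h f N hf).2 hg)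

end Elim

end

end Pool.Agent.Helper38
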