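import Mathlib
import Pool.Agent.Helper38.KPivot

open MvPolynomial Module

namespace Pool.Agent.Helper38

noncomputable section

section Dev

variable {k : Type} [Field k] {σ : Type} {X : Type} [AddCommGroup X]

lemma ShiftBy.homog {w : σ → X} {T : MvPolynomial σ k →ₗ[k] MvPolynomial σ k} {e : X}
    (hT : ShiftBy w T e) {f : MvPolynomial σ k} {μ : X} (hf : IsWeightedHomogeneous w f μ) :
    IsWeightedHomogeneous w (T f) (μ + e) := by
  have h1 := hT f μ
  rw [hf.weightedHomogeneousComponent_same] at h1
  rw [← h1]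
  exact weightedHomogeneousComponent_isWeightedHomogeneous _ _

lemma HPrime.one_notMem {w : σ → X} {p : Ideal (MvPolynomial σ k)} (hp : HPrime w p) :
    (1 : MvPolynomial σ k) ∉ p := fun h => hp.1 ((Ideal.eq_top_iff_one p).2 h)

lemma HPrime.mul {w : σ → X} {p : Ideal (MvPolynomial σ k)} (hp : HPrime w p)
    {a b : MvPolynomial σ k} {μ ν : X} (ha : IsWeightedHomogeneous w a μ)
    (hb : IsWeightedHomogeneous w b ν) (h1 : a ∉ p) (h2 : b ∉ p) : a * b ∉ p :=
  fun h => (hp.2 a b μ ν ha hb h).elim h1 h2

/-- A minimal homogeneous prime: powers of elements are killed into `I`. -/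
lemma exists_kill {w : σ → X} [Finite σ] {I p : Ideal (MvPolynomial σ k)} (hI : IsHomog w I)
    (hp : HPrime w p)
    (hmin : ∀ q : Ideal (MvPolynomial σ k), HPrime w q → IsHomog w q → I ≤ q → q ≤ p → q = p)
    {a : MvPolynomial σ k} (hap : a ∈ p) :
    ∃ (n : ℕ) (s : MvPolynomial σ k) (μ : X), IsWeightedHomogeneous w s μ ∧ s ∉ p ∧
      s * a ^ n ∈ I := by
  classical
  by_contra hcon
  push Not at hcon
  let S : Set (Ideal (MvPolynomial σ k)) := {q | IsHomog w q ∧ I ≤ q ∧
    ∀ (n : ℕ) (s : MvPolynomial σ k) (μ : X), IsWeightedHomogeneous w s μ → s ∉ p →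
      s * a ^ n ∉ q}
  have hS : S.Nonempty := ⟨I, hI, le_refl _, hcon⟩
  obtain ⟨q, hq, hmax⟩ := wellFounded_gt.has_min S hS
  obtain ⟨hq1, hq2, hq3⟩ := hq
  have hqp : q ≤ p := by
    by_contra hle
    obtain ⟨f, μ, hf, hfq, hfp⟩ := exists_homog_not_mem hq1 hle
    have := hq3 0 f μ hf hfp
    rw [pow_zero, mul_one] at this
    exact this hfq
  have haq : a ∉ q := by
    have := hq3 1 1 0 (isWeightedHomogeneous_one k w) hp.one_notMem
    rwa [one_mul, pow_one] at this
  have big : ∀ (f : MvPolynomial σ k) (μ : X), IsWeightedHomogeneous w f μ → f ∉ q →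
      ∃ (n : ℕ) (s : MvPolynomial σ k) (ν : X), IsWeightedHomogeneous w s ν ∧ s ∉ p ∧
        s * a ^ n ∈ q ⊔ Ideal.span {f} := by
    intro f μ hf hfq
    by_contra hcon2
    push Not at hcon2
    have h1 : q ⊔ Ideal.span {f} ∈ S :=
      ⟨hq1.sup (isHomog_span_singleton hf), hq2.trans le_sup_left, hcon2⟩
    apply hmax _ h1
    refine lt_of_le_of_ne le_sup_left ?_
    intro he
    apply hfq
    rw [he]
    exact (le_sup_right : Ideal.span {f} ≤ _) (Ideal.mem_span_singleton_self f)
  have hqprime : HPrime w q := by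
    refine ⟨?_, ?_⟩
    · intro h
      exact haq (h ▸ trivial)
    · intro f g μ ν hf hg hfg
      by_contra hcon3
      push Not at hcon3
      obtain ⟨n1, s1, μ1, hs1, hs1p, h1⟩ := big f μ hf hcon3.1
      obtain ⟨n2, s2, μ2, hs2, hs2p, h2⟩ := big g ν hg hcon3.2
      have h3 : (s1 * s2) * a ^ (n1 + n2) ∈ q := by
        rw [Submodule.mem_sup] at h1 h2
        obtain ⟨x1, hx1, y1, hy1, e1⟩ := h1
        obtain ⟨x2, hx2, y2, hy2, e2⟩ := h2
        rw [Ideal.mem_span_singleton] at hy1 hy2
        obtain ⟨c1, rfl⟩ := hy1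
        obtain ⟨c2, rfl⟩ := hy2
        have e3 : (s1 * s2) * a ^ (n1 + n2) =
            (x2 + g * c2) * x1 + (f * c1) * x2 + (c1 * c2) * (f * g) := by
          have : (s1 * s2) * a ^ (n1 + n2) = (s1 * a ^ n1) * (s2 * a ^ n2) := by ring
          rw [this, ← e1, ← e2]
          ring
        rw [e3]
        exact q.add_mem (q.add_mem (q.mul_mem_left _ hx1) (q.mul_mem_left _ hx2))
          (q.mul_mem_left _ hfg)
      exact hq3 _ _ _ (hs1.mul hs2) (hp.mul hs1 hs2 hs1p hs2p) h3
  exact haq (hmin q hqprime hq1 hq2 hqp ▸ hap)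

/-- minimal homogeneous primes are stable under homogeneous derivations -/
lemma stab_of_min [CharZero k] [Finite σ] {w : σ → X} {I p : Ideal (MvPolynomial σ k)}
    (hI : IsHomog w I) (hp : HPrime w p) (hph : IsHomog w p) (hIp : I ≤ p)
    (hmin : ∀ q : Ideal (MvPolynomial σ k), HPrime w q → IsHomog w q → I ≤ q → q ≤ p → q = p)
    {D : Der k σ} {e : X} (hD : ShiftBy w (D : MvPolynomial σ k →ₗ[k] MvPolynomial σ k) e)
    (hs : Stab (D : MvPolynomial σ k →ₗ[k] MvPolynomial σ k) I) :
    Stab (D : MvPolynomial σ k →ₗ[k] MvPolynomial σ k) p := by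
  classical
  have key : ∀ (a : MvPolynomial σ k) (α : X), IsWeightedHomogeneous w a α → a ∈ p → D a ∈ p := by
    intro a α ha hap
    by_contra hDa
    have hex : ∃ n : ℕ, ∃ (s : MvPolynomial σ k) (μ : X), IsWeightedHomogeneous w s μ ∧ s ∉ p ∧
      s * a ^ n ∈ I := exists_kill hI hp hmin hap
    have hn := Nat.find_spec hex
    have hlt := fun m => Nat.find_min hex (m := m)
    set n := Nat.find hex with hndef
    obtain ⟨s, μ, hsμ, hsp, hsI⟩ := hn
    have hn0 : n ≠ 0 := by
      intro h0
      rw [h0, pow_zero, mul_one] at hsI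
      exact hsp (hIp hsI)
    obtain ⟨m, hm⟩ := Nat.exists_eq_succ_of_ne_zero hn0
    have h1 : D (s * a ^ n) ∈ I := hs _ hsI
    rw [D.leibniz, D.leibniz_pow] at h1
    simp only [smul_eq_mul, nsmul_eq_mul] at h1
    have h2 : (n : MvPolynomial σ k) * ((s * s * D a) * a ^ m) ∈ I := by
      have e1 : (n : MvPolynomial σ k) * ((s * s * D a) * a ^ m) =
          s * (s * ((n : MvPolynomial σ k) * (a ^ (n - 1) * D a)) + a ^ n * D s) -
            D s * (s * a ^ n) := by
        have : n - 1 = m := by omega
        rw [this]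
        ring
      rw [e1]
      exact I.sub_mem (I.mul_mem_left _ h1) (I.mul_mem_left _ hsI)
    have h3 : (s * s * D a) * a ^ m ∈ I := by
      have hnk : (n : k) ≠ 0 := Nat.cast_ne_zero.2 hn0
      have e2 : (s * s * D a) * a ^ m = C ((n : k)⁻¹) * ((n : MvPolynomial σ k) *
          ((s * s * D a) * a ^ m)) := by
        rw [← mul_assoc, show (n : MvPolynomial σ k) = C (n : k) by simp, ← C_mul,
          inv_mul_cancel₀ hnk, C_1, one_mul]
      rw [e2]
      exact I.mul_mem_left _ h2
    have h4 : IsWeightedHomogeneous w (D a) (α + e) := hD.homog ha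
    exact hlt m (by omega) ⟨s * s * D a, _, (hsμ.mul hsμ).mul h4,
      hp.mul (hsμ.mul hsμ) h4 (hp.mul hsμ hsμ hsp hsp) hDa, h3⟩
  intro f hf
  change D f ∈ p
  obtain ⟨t, ht⟩ := sum_comp w f
  rw [ht, map_sum]
  apply p.sum_mem
  intro μ _
  exact key _ μ (weightedHomogeneousComponent_isWeightedHomogeneous μ f) (hph f hf μ)

/-- filtration of a homogeneous ideal by homogeneous primes -/
lemma exists_dev [Fintype σ] {ℓ : X →+ ℤ} {w : σ → X} (hw : PosL ℓ w)
    (I : Ideal (MvPolynomial σ k)) (hI : IsHomog w I) :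
    ∃ l : List (X × Ideal (MvPolynomial σ k)),
      (∀ x ∈ l, IsHomog w x.2 ∧ HPrime w x.2 ∧ I ≤ x.2) ∧
      kq w I = (l.map fun x => AddMonoidAlgebra.single x.1 1 * kq w x.2).sum := by
  classical
  induction I using WellFoundedGT.induction with
  | ind I IH =>
    by_cases htop : I = ⊤
    · refine ⟨[], by simp, ?_⟩
      rw [htop, kq_top hw.posW]
      simp
    by_cases hprime : HPrime w I
    · refine ⟨[(0, I)], ?_, ?_⟩
      · intro x hx
        rw [List.mem_singleton] at hx
        subst hx
        exact ⟨hI, hprime, le_refl _⟩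
      · simp only [List.map_cons, List.map_nil, List.sum_cons, List.sum_nil, add_zero]
        rw [← AddMonoidAlgebra.one_def, one_mul]
    · rw [HPrime, not_and] at hprime
      have h1 := hprime htop
      push Not at h1
      obtain ⟨a, b, μ, ν, ha, hb, hab, hna, hnb⟩ := h1
      have lt1 : I < I ⊔ Ideal.span {a} := by
        refine lt_of_le_of_ne le_sup_left ?_
        intro he
        apply hna
        rw [he]
        exact (le_sup_right : Ideal.span {a} ≤ _) (Ideal.mem_span_singleton_self a)
      have lt2 : I < colonE I a := by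
        refine lt_of_le_of_ne (le_colonE I a) ?_
        intro he
        apply hnb
        rw [he]
        exact hab
      obtain ⟨l1, p1, e1⟩ := IH _ lt1 (hI.sup (isHomog_span_singleton ha))
      obtain ⟨l2, p2, e2⟩ := IH _ lt2 (hI.colonE ha)
      refine ⟨l1 ++ l2.map (fun x => (μ + x.1, x.2)), ?_, ?_⟩
      · intro x hx
        rw [List.mem_append] at hx
        rcases hx with hx | hx
        · have := p1 x hx
          exact ⟨this.1, this.2.1, lt1.le.trans this.2.2⟩
        · rw [List.mem_map] at hx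
          obtain ⟨y, hy, rfl⟩ := hx
          have := p2 y hy
          exact ⟨this.1, this.2.1, lt2.le.trans this.2.2⟩
      · rw [kq_colon hw.posW hI ha, e1, e2, List.map_append, List.sum_append, List.map_map]
        congr 1
        rw [← List.sum_map_mul_left]
        congr 1
        apply List.map_congr_left
        intro x _
        simp only [Function.comp_apply]
        rw [← mul_assoc, AddMonoidAlgebra.single_mul_single, one_mul]

/-- Decomposition of the multidegree into contributions of stable homogeneous primes of the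
same codimension. -/
theorem devissage [CharZero k] [Fintype σ] {ℓ : X →+ ℤ} {w : σ → X} (hw : PosL ℓ w)
    {I : Ideal (MvPolynomial σ k)} (hI : IsHomog w I) :
    ∃ l : List (Ideal (MvPolynomial σ k)),
      (∀ p ∈ l, IsHomog w p ∧ HPrime w p ∧ I ≤ p ∧ ord p = ord I ∧
        ∀ (D : Der k σ) (e : X), ShiftBy w (D : MvPolynomial σ k →ₗ[k] MvPolynomial σ k) e →
          Stab (D : MvPolynomial σ k →ₗ[k] MvPolynomial σ k) I →
          Stab (D : MvPolynomial σ k →ₗ[k] MvPolynomial σ k) p) ∧
      ∀ (R : Type) [CommRing R] [Algebra ℚ R] (L : X →+ R),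
        cls I (fun i => L (w i)) = (l.map fun p => cls p (fun i => L (w i))).sum := by
  classical
  obtain ⟨l, hl, he⟩ := exists_dev hw I hI
  refine ⟨(l.map Prod.snd).filter (fun p => ord p = ord I), ?_, ?_⟩
  · intro p hp
    rw [List.mem_filter, List.mem_map] at hp
    obtain ⟨⟨x, hx, rfl⟩, hord⟩ := hp
    have hord' : ord x.2 = ord I := by simpa using hord
    obtain ⟨h1, h2, h3⟩ := hl x hx
    refine ⟨h1, h2, h3, hord', ?_⟩
    intro D e hD hs
    refine stab_of_min hI h2 h1 h3 ?_ hD hs
    intro q hq hqh hIq hqp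
    by_contra hne'
    have a1 := ord_lt hw hq hqh h1 (lt_of_le_of_ne hqp hne') h2.1
    have a2 := ord_mono hw hI hqh hIq hq.1
    omega
  · intro R _ _ L
    rw [← coeff_kq hw, he]
    have key : ∀ l' : List (X × Ideal (MvPolynomial σ k)),
        (∀ x ∈ l', IsHomog w x.2 ∧ HPrime w x.2 ∧ I ≤ x.2) →
        PowerSeries.coeff (ord I) (Phi L
          ((l'.map fun x => AddMonoidAlgebra.single x.1 1 * kq w x.2).sum)) =
        ((((l'.map Prod.snd).filter (fun p => ord p = ord I))).map
          fun p => cls p (fun i => L (w i))).sum := by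
      intro l'
      induction l' with
      | nil => intro _; simp
      | cons x l' ih =>
        intro hl'
        have h0 := hl' x (by simp)
        have h1 := isLead_kq hw h0.1 h0.2.1.1
        have h2 := ord_mono hw hI h0.1 h0.2.2 h0.2.1.1
        rw [List.map_cons, List.sum_cons, map_add, map_add,
          ih (fun y hy => hl' y (by simp [hy])), List.map_cons]
        by_cases h3 : ord x.2 = ord I
        · rw [List.filter_cons_of_pos (by simpa using h3), List.map_cons, List.sum_cons, ← h3,
            h1.coeff_shift, coeff_kq hw]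
        · rw [List.filter_cons_of_neg (by simpa using h3)]
          have h4 : ord I < ord x.2 := lt_of_le_of_ne h2 (Ne.symm h3)
          have h5 := (h1.shift x.1).low R L (ord I) h4
          rw [h5, zero_add]
    exact key l hl

end Dev

end

end Pool.Agent.Helper38
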