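import Mathlib
import Pool.Agent.Helper38.KDev

open MvPolynomial Module

namespace Pool.Agent.Helper38

noncomputable section

section Exp

variable {k : Type} [Field k] {σ : Type} {X : Type} [AddCommGroup X]

/-- one parameter family attached to a derivation which squares to zero on variables -/
def thetaT (D : Der k σ) : MvPolynomial σ k →ₐ[k] Polynomial (MvPolynomial σ k) :=
  aeval (fun i => Polynomial.C (MvPolynomial.X i) + Polynomial.X * Polynomial.C (D (MvPolynomial.X i)))

lemma thetaT_X (D : Der k σ) (i : σ) : thetaT D (MvPolynomial.X i) =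
    Polynomial.C (MvPolynomial.X i) + Polynomial.X * Polynomial.C (D (MvPolynomial.X i)) := by
  simp [thetaT]

lemma thetaT_C (D : Der k σ) (a : k) : thetaT D (C a) = Polynomial.C (C a) := by
  have := (thetaT D).commutes a
  rw [MvPolynomial.algebraMap_eq] at this
  rw [this]
  rfl

lemma derivative_theta (D : Der k σ)
    (h : ∀ i, thetaT D (D (MvPolynomial.X i)) = Polynomial.C (D (MvPolynomial.X i)))
    (f : MvPolynomial σ k) : Polynomial.derivative (thetaT D f) = thetaT D (D f) := by
  induction f using MvPolynomial.induction_on with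
  | C a =>
    have h1 : D (C a : MvPolynomial σ k) = 0 := by
      have := D.map_algebraMap a
      rwa [MvPolynomial.algebraMap_eq] at this
    rw [h1, map_zero, thetaT_C, Polynomial.derivative_C]
  | add f g hf hg => rw [map_add, map_add, map_add, map_add, hf, hg]
  | mul_X f i hf =>
    rw [map_mul, Polynomial.derivative_mul, D.leibniz, map_add, hf]
    simp only [smul_eq_mul, map_mul]
    rw [h i, thetaT_X]
    simp only [map_add, Polynomial.derivative_C, zero_add, Polynomial.derivative_mul,
      Polynomial.derivative_X, one_mul, mul_zero, add_zero]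
    ring

lemma coeff_theta_mem [CharZero k] {D : Der k σ}
    (h : ∀ i, thetaT D (D (MvPolynomial.X i)) = Polynomial.C (D (MvPolynomial.X i)))
    {I : Ideal (MvPolynomial σ k)} (hI : Stab (D : MvPolynomial σ k →ₗ[k] MvPolynomial σ k) I)
    (n : ℕ) : ∀ f ∈ I, (thetaT D f).coeff n ∈ I := by
  induction n with
  | zero =>
    intro f hf
    have h1 : (thetaT D f).coeff 0 = f := by
      have : (Polynomial.constantCoeff.toMonoidHom : Polynomial (MvPolynomial σ k) →* _) = _ := rfl
      have e : ((Polynomial.aeval (0 : MvPolynomial σ k)).restrictScalars k).comp (thetaT D) =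
          AlgHom.id k _ := by
        apply MvPolynomial.algHom_ext
        intro i
        simp [thetaT_X]
      have e2 := AlgHom.congr_fun e f
      simp only [AlgHom.comp_apply, AlgHom.restrictScalars_apply, AlgHom.id_apply] at e2
      rw [Polynomial.coeff_zero_eq_aeval_zero]
      exact e2
    rw [h1]
    exact hf
  | succ n ih =>
    intro f hf
    have h1 := ih (D f) (hI f hf)
    rw [← derivative_theta D h f, Polynomial.coeff_derivative] at h1
    have hn : ((n + 1 : ℕ) : k) ≠ 0 := Nat.cast_ne_zero.2 (Nat.succ_ne_zero n)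
    have e2 : (thetaT D f).coeff (n + 1) =
        C (((n + 1 : ℕ) : k)⁻¹) * ((thetaT D f).coeff (n + 1) * ((n : MvPolynomial σ k) + 1)) := by
      have : ((n : MvPolynomial σ k) + 1) = C ((n + 1 : ℕ) : k) := by simp
      rw [this, mul_comm (Polynomial.coeff _ _), ← mul_assoc, ← C_mul, inv_mul_cancel₀ hn, C_1,
        one_mul]
    rw [e2]
    exact I.mul_mem_left _ h1

/-- stability under the one parameter family -/
lemma exp_mem [CharZero k] {D : Der k σ}
    (h : ∀ i, thetaT D (D (MvPolynomial.X i)) = Polynomial.C (D (MvPolynomial.X i)))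
    {I : Ideal (MvPolynomial σ k)} (hI : Stab (D : MvPolynomial σ k →ₗ[k] MvPolynomial σ k) I)
    (c : k) {f : MvPolynomial σ k} (hf : f ∈ I) :
    aeval (fun i => MvPolynomial.X i + C c * D (MvPolynomial.X i)) f ∈ I := by
  have e : (aeval (fun i => MvPolynomial.X i + C c * D (MvPolynomial.X i)) :
      MvPolynomial σ k →ₐ[k] MvPolynomial σ k) =
      ((Polynomial.aeval (C c : MvPolynomial σ k)).restrictScalars k).comp (thetaT D) := by
    apply MvPolynomial.algHom_ext
    intro i
    simp only [aeval_X, AlgHom.comp_apply, thetaT_X, AlgHom.restrictScalars_apply, map_add,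
      map_mul, Polynomial.aeval_X, Polynomial.aeval_C]
    rfl
  rw [e]
  simp only [AlgHom.comp_apply, AlgHom.restrictScalars_apply]
  rw [Polynomial.aeval_eq_sum_range]
  apply I.sum_mem
  intro n _
  rw [smul_eq_mul]
  exact I.mul_mem_right _ (coeff_theta_mem h hI n f hf)

end Exp

section Swap

variable {k : Type} [Field k] {σ : Type} {X : Type} [AddCommGroup X]

open Classical in
/-- the derivation replacing variables of a block by their partners -/
def swD (k : Type) [Field k] {σ : Type} (π : σ → σ) (B : σ → Prop) : Der k σ :=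
  vf fun i => if B i then MvPolynomial.X (π i) else 0

lemma theta_swD {π : σ → σ} {B : σ → Prop} (hd : ∀ i, B i → ¬ B (π i)) (i : σ) :
    thetaT (swD k π B) (swD k π B (MvPolynomial.X i)) =
      Polynomial.C (swD k π B (MvPolynomial.X i)) := by
  classical
  have h1 : swD k π B (MvPolynomial.X i) = if B i then MvPolynomial.X (π i) else 0 := by
    rw [swD, vf_X]
  rw [h1]
  split_ifs with h
  · rw [thetaT_X, swD, vf_X, if_neg (hd i h)]
    simp
  · simp

/-- elementary transvection along a block -/
def elem (k : Type) [Field k] {σ : Type} (π : σ → σ) (B : σ → Prop) (c : k) :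
    MvPolynomial σ k →ₐ[k] MvPolynomial σ k :=
  aeval (fun i => MvPolynomial.X i + C c * swD k π B (MvPolynomial.X i))

lemma elem_pos (π : σ → σ) (B : σ → Prop) (c : k) {i : σ} (h : B i) :
    elem k π B c (MvPolynomial.X i) = MvPolynomial.X i + C c * MvPolynomial.X (π i) := by
  classical
  simp [elem, swD, vf_X, h]

lemma elem_neg (π : σ → σ) (B : σ → Prop) (c : k) {i : σ} (h : ¬ B i) :
    elem k π B c (MvPolynomial.X i) = MvPolynomial.X i := by
  classical
  simp [elem, swD, vf_X, h]

/-- the signed exchange -/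
def sgn (k : Type) [Field k] {σ : Type} (π : σ → σ) (B : σ → Prop) :
    MvPolynomial σ k →ₐ[k] MvPolynomial σ k :=
  (elem k π B 1).comp ((elem k π (fun i => B (π i)) (-1)).comp (elem k π B 1))

variable {π : σ → σ} {B : σ → Prop}

lemma sgn_left (hinv : ∀ i, π (π i) = i) (hd : ∀ i, B i → ¬ B (π i)) {i : σ} (h : B i) :
    sgn k π B (MvPolynomial.X i) = MvPolynomial.X (π i) := by
  have h1 : ¬ B (π i) := hd i h
  simp only [sgn, AlgHom.comp_apply]
  rw [elem_pos _ _ _ h, map_add, map_mul, map_add, map_mul]
  rw [elem_neg π (fun i => B (π i)) (-1) h1,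
    elem_pos π (fun i => B (π i)) (-1) (i := π i) (by simpa [hinv] using h), hinv]
  simp only [map_add, map_mul, algHom_C, MvPolynomial.algebraMap_eq]
  rw [elem_neg _ _ _ h1, elem_pos _ _ _ h]
  simp

lemma sgn_right (hinv : ∀ i, π (π i) = i) (hd : ∀ i, B i → ¬ B (π i)) {i : σ} (h : B (π i)) :
    sgn k π B (MvPolynomial.X i) = - MvPolynomial.X (π i) := by
  have h1 : ¬ B i := by
    intro h2
    exact hd i h2 h
  simp only [sgn, AlgHom.comp_apply]
  rw [elem_neg _ _ _ h1, elem_pos π (fun i => B (π i)) (-1) h]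
  simp only [map_add, map_mul, algHom_C, MvPolynomial.algebraMap_eq]
  rw [elem_neg _ _ _ h1, elem_pos _ _ _ h, hinv]
  simp

lemma sgn_other {i : σ} (h : ¬ B i) (h' : ¬ B (π i)) :
    sgn k π B (MvPolynomial.X i) = MvPolynomial.X i := by
  simp only [sgn, AlgHom.comp_apply]
  rw [elem_neg _ _ _ h, elem_neg π (fun i => B (π i)) (-1) h', elem_neg _ _ _ h]

/-- Invariance of the multidegree under a signed permutation automorphism. -/
lemma sym_cls_aux [Fintype σ] {ℓ : X →+ ℤ} {w : σ → X} (hw : PosL ℓ w)
    {I : Ideal (MvPolynomial σ k)} (hI : IsHomog w I) (hne : I ≠ ⊤)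
    (hinv : ∀ i, π (π i) = i) (s : X →+ X) (hs : ∀ i, s (w i) = w (π i))
    (T T3 : MvPolynomial σ k →ₐ[k] MvPolynomial σ k)
    (hTT : T.comp T3 = AlgHom.id k _) (hTT' : T3.comp T = AlgHom.id k _)
    (hX : ∀ i, T (MvPolynomial.X i) = MvPolynomial.X (π i) ∨
      T (MvPolynomial.X i) = - MvPolynomial.X (π i))
    (hX3 : ∀ i, T3 (MvPolynomial.X i) = MvPolynomial.X (π i) ∨
      T3 (MvPolynomial.X i) = - MvPolynomial.X (π i))
    (mem : ∀ f ∈ I, T f ∈ I) (mem3 : ∀ f ∈ I, T3 f ∈ I)
    (R : Type) [CommRing R] [Algebra ℚ R] (L : X →+ R) :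
    cls I (fun i => L (w (π i))) = cls I (fun i => L (w i)) := by
  have t1 : ∀ f, T (T3 f) = f := fun f => AlgHom.congr_fun hTT f
  have t2 : ∀ f, T3 (T f) = f := fun f => AlgHom.congr_fun hTT' f
  have hF : ∀ i, IsWeightedHomogeneous w (T (MvPolynomial.X i)) (s (w i)) := by
    intro i
    rw [hs]
    rcases hX i with h | h <;> rw [h]
    · exact isWeightedHomogeneous_X k w _
    · exact (isWeightedHomogeneous_X k w _).neg
  have hF3 : ∀ i, IsWeightedHomogeneous (fun i => s (w i)) (T3 (MvPolynomial.X i)) (w i) := by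
    intro i
    have h0 : IsWeightedHomogeneous (fun i => s (w i)) (MvPolynomial.X (π i) : MvPolynomial σ k)
        (w i) := by
      have := isWeightedHomogeneous_X k (fun i => s (w i)) (π i)
      rwa [hs, hinv] at this
    rcases hX3 i with h | h <;> rw [h]
    · exact h0
    · exact h0.neg
  have toA : ∀ T : MvPolynomial σ k →ₐ[k] MvPolynomial σ k,
      T = aeval (fun i => T (MvPolynomial.X i)) := by
    intro T
    apply MvPolynomial.algHom_ext
    intro i; simp
  have hhilb : hilb (fun i => s (w i)) I = hilb w I := by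
    refine hilb_equiv (AlgEquiv.ofAlgHom T T3 hTT hTT') ?_ I I ?_
    · intro f μ
      constructor
      · intro hf
        have := homog_aeval _ hF hf
        rwa [← toA T] at this
      · intro hf
        have := homog_aeval _ hF3 (show IsWeightedHomogeneous w (T f) μ from hf)
        rwa [← toA T3, t2] at this
    · intro f
      constructor
      · exact mem f
      · intro hf
        have := mem3 _ (show T f ∈ I from hf)
        rwa [t2] at this
  have hwS : PosL ℓ (fun i => s (w i)) := by
    intro i
    change 0 < ℓ (s (w i))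
    rw [hs]
    exact hw _
  have hIS : IsHomog (fun i => s (w i)) I := hI.coarsen s
  have hkq : kq (fun i => s (w i)) I = kq w I := by
    apply cf_injective
    rw [← kq_spec hwS.posW hIS, ← kq_spec hw.posW hI, hhilb]
    congr 2
    simp only [den]
    let πe : σ ≃ σ := ⟨π, π, hinv, hinv⟩
    refine Fintype.prod_equiv πe _ _ ?_
    intro i
    rw [hs]
    rfl
  have := (compare_eq hwS hw hIS hI hne hkq).2.2 R L
  rw [← this]
  congr 1
  ext i
  rw [hs]

/-- Stability under the two derivations gives invariance of the multidegree. -/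
theorem sym_cls [CharZero k] [Fintype σ] {ℓ : X →+ ℤ} {w : σ → X} (hw : PosL ℓ w)
    {I : Ideal (MvPolynomial σ k)} (hI : IsHomog w I) (hne : I ≠ ⊤)
    (hinv : ∀ i, π (π i) = i) (hd : ∀ i, B i → ¬ B (π i))
    (hfix : ∀ i, ¬ B i → ¬ B (π i) → π i = i) (s : X →+ X) (hs : ∀ i, s (w i) = w (π i))
    (h1 : Stab (swD k π B : MvPolynomial σ k →ₗ[k] MvPolynomial σ k) I)
    (h2 : Stab (swD k π (fun i => B (π i)) : MvPolynomial σ k →ₗ[k] MvPolynomial σ k) I)
    (R : Type) [CommRing R] [Algebra ℚ R] (L : X →+ R) :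
    cls I (fun i => L (w (π i))) = cls I (fun i => L (w i)) := by
  classical
  have hd' : ∀ i, B (π i) → ¬ B (π (π i)) := fun i h => hd _ h
  have mem1 : ∀ f ∈ I, sgn k π B f ∈ I := by
    intro f hf
    simp only [sgn, AlgHom.comp_apply]
    apply exp_mem (theta_swD hd) h1
    apply exp_mem (theta_swD hd') h2
    exact exp_mem (theta_swD hd) h1 1 hf
  obtain ⟨T, hT⟩ : ∃ T, T = sgn k π B := ⟨_, rfl⟩
  have l1 : ∀ i, B i → T (MvPolynomial.X i) = MvPolynomial.X (π i) := by
    intro i hb; rw [hT]; exact sgn_left hinv hd hb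
  have l2 : ∀ i, B (π i) → T (MvPolynomial.X i) = - MvPolynomial.X (π i) := by
    intro i hb; rw [hT]; exact sgn_right hinv hd hb
  have l3 : ∀ i, ¬ B i → ¬ B (π i) → T (MvPolynomial.X i) = MvPolynomial.X i := by
    intro i hb hb'; rw [hT]; exact sgn_other hb hb'
  rw [← hT] at mem1
  clear hT h1 h2
  have hX : ∀ i, T (MvPolynomial.X i) = MvPolynomial.X (π i) ∨
      T (MvPolynomial.X i) = - MvPolynomial.X (π i) := by
    intro i
    by_cases hb : B i
    · exact Or.inl (l1 i hb)
    · by_cases hb' : B (π i)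
      · exact Or.inr (l2 i hb')
      · left
        rw [l3 i hb hb', hfix i hb hb']
  have X3 : ∀ i, T (T (T (MvPolynomial.X i))) = MvPolynomial.X (π i) ∨
      T (T (T (MvPolynomial.X i))) = - MvPolynomial.X (π i) := by
    intro i
    by_cases hb : B i
    · have hb2 : B (π (π i)) := by rwa [hinv]
      right
      rw [l1 i hb, l2 _ hb2, hinv, map_neg, l1 i hb]
    · by_cases hb' : B (π i)
      · left
        rw [l2 i hb', map_neg, l1 _ hb', hinv, map_neg, l2 i hb', neg_neg]
      · left
        rw [l3 i hb hb', l3 i hb hb', l3 i hb hb', hfix i hb hb']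
  have X4 : ∀ i, T (T (T (T (MvPolynomial.X i)))) = MvPolynomial.X i := by
    intro i
    by_cases hb : B i
    · have hb2 : B (π (π i)) := by rwa [hinv]
      rw [l1 i hb, l2 _ hb2, hinv, map_neg, l1 i hb, map_neg, l2 _ hb2, hinv, neg_neg]
    · by_cases hb' : B (π i)
      · rw [l2 i hb', map_neg, l1 _ hb', hinv, map_neg, l2 i hb', neg_neg, l1 _ hb', hinv]
      · rw [l3 i hb hb', l3 i hb hb', l3 i hb hb', l3 i hb hb']
  refine sym_cls_aux hw hI hne hinv s hs T (T.comp (T.comp T)) ?_ ?_ hX ?_ mem1 ?_ R L
  · apply MvPolynomial.algHom_ext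
    intro i
    simp only [AlgHom.comp_apply, AlgHom.id_apply]
    exact X4 i
  · apply MvPolynomial.algHom_ext
    intro i
    simp only [AlgHom.comp_apply, AlgHom.id_apply]
    exact X4 i
  · intro i
    simp only [AlgHom.comp_apply]
    exact X3 i
  · intro f hf
    simp only [AlgHom.comp_apply]
    exact mem1 _ (mem1 _ (mem1 _ hf))

end Swap

end

end Pool.Agent.Helper38
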