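import Mathlib
import Pool.Agent.Helper38.KSym

open MvPolynomial Module

namespace Pool.Agent.Helper38

noncomputable section

section Homog

variable {k : Type} [Field k] {σ τ : Type} {X : Type} [AddCommGroup X]

lemma isHomog_span {w : σ → X} {S : Set (MvPolynomial σ k)}
    (h : ∀ x ∈ S, ∀ μ, weightedHomogeneousComponent w μ x ∈ Ideal.span S) :
    IsHomog w (Ideal.span S) := by
  intro f hf
  induction hf using Submodule.span_induction with
  | mem x hx => exact h x hx
  | zero => intro μ; rw [map_zero]; exact zero_mem _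
  | add x y _ _ hx hy => intro μ; rw [map_add]; exact add_mem (hx μ) (hy μ)
  | smul c x _ hx =>
    intro μ
    obtain ⟨s, hs⟩ := sum_comp w c
    rw [smul_eq_mul]
    have e : c * x = ∑ ν ∈ s, weightedHomogeneousComponent w ν c * x := by
      conv_lhs => rw [hs, Finset.sum_mul]
    rw [e, map_sum]
    apply Ideal.sum_mem
    intro ν _
    rw [comp_mul_homog (weightedHomogeneousComponent_isWeightedHomogeneous ν c)]
    exact Ideal.mul_mem_left _ _ (hx _)

lemma IsHomog.map_any {w : σ → X} {w' : τ → X} {I : Ideal (MvPolynomial σ k)} (hI : IsHomog w I)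
    (F : σ → MvPolynomial τ k) (hF : ∀ i, IsWeightedHomogeneous w' (F i) (w i)) :
    IsHomog w' (I.map (aeval F : MvPolynomial σ k →ₐ[k] MvPolynomial τ k)) := by
  rw [Ideal.map]
  apply isHomog_span
  rintro x ⟨f, hf, rfl⟩ μ
  have := comp_aeval F hF f μ
  change weightedHomogeneousComponent w' μ (aeval F f) ∈ _
  rw [this]
  exact Ideal.subset_span ⟨_, hI f hf μ, rfl⟩

lemma IsHomog.map_rename {w' : τ → X} {g : σ → τ} {I : Ideal (MvPolynomial σ k)}
    (hI : IsHomog (w' ∘ g) I) : IsHomog w' (I.map (rename g : MvPolynomial σ k →ₐ[k] _)) := by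
  have : (rename g : MvPolynomial σ k →ₐ[k] MvPolynomial τ k) =
      aeval (fun i => MvPolynomial.X (g i)) := by
    apply MvPolynomial.algHom_ext
    intro i; simp
  rw [this]
  exact hI.map_any _ (fun i => isWeightedHomogeneous_X k w' (g i))

lemma IsHomog.comap_rename {w' : τ → X} {g : σ → τ} {I : Ideal (MvPolynomial τ k)}
    (hI : IsHomog w' I) :
    IsHomog (w' ∘ g) (I.comap (rename g : MvPolynomial σ k →ₐ[k] MvPolynomial τ k)) := by
  have : (rename g : MvPolynomial σ k →ₐ[k] MvPolynomial τ k) =
      aeval (fun i => MvPolynomial.X (g i)) := by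
    apply MvPolynomial.algHom_ext
    intro i; simp
  rw [this]
  exact hI.comap_aeval _ (fun i => isWeightedHomogeneous_X k w' (g i))

end Homog

section Equivs

variable {k : Type} [Field k] {σ τ : Type} [Fintype σ] [Fintype τ] {X : Type} [AddCommGroup X]

/-- Graded isomorphisms preserve K-polynomials. -/
lemma kq_equiv {w : σ → X} {w' : τ → X} (hw : PosW w) (hw' : PosW w') (b : σ ≃ τ)
    (hb : ∀ i, w' (b i) = w i) (u : MvPolynomial σ k →ₐ[k] MvPolynomial τ k)
    (v : MvPolynomial τ k →ₐ[k] MvPolynomial σ k) (huv : u.comp v = AlgHom.id k _)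
    (hvu : v.comp u = AlgHom.id k _)
    (hu : ∀ i, IsWeightedHomogeneous w' (u (MvPolynomial.X i)) (w i))
    (hv : ∀ i, IsWeightedHomogeneous w (v (MvPolynomial.X i)) (w' i))
    {I : Ideal (MvPolynomial σ k)} {I' : Ideal (MvPolynomial τ k)} (hI : IsHomog w I)
    (hI' : IsHomog w' I') (h : ∀ f, f ∈ I ↔ u f ∈ I') : kq w I = kq w' I' := by
  have t2 : ∀ f, v (u f) = f := fun f => AlgHom.congr_fun hvu f
  have toA : ∀ T : MvPolynomial σ k →ₐ[k] MvPolynomial τ k,
      T = aeval (fun i => T (MvPolynomial.X i)) := by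
    intro T
    apply MvPolynomial.algHom_ext
    intro i; simp
  have toA' : ∀ T : MvPolynomial τ k →ₐ[k] MvPolynomial σ k,
      T = aeval (fun i => T (MvPolynomial.X i)) := by
    intro T
    apply MvPolynomial.algHom_ext
    intro i; simp
  have hh : hilb w I = hilb w' I' := by
    refine hilb_equiv (AlgEquiv.ofAlgHom u v huv hvu) ?_ I I' h
    intro f μ
    constructor
    · intro hf
      have := homog_aeval _ hu hf
      rwa [← toA u] at this
    · intro hf
      have := homog_aeval _ hv (show IsWeightedHomogeneous w' (u f) μ from hf)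
      rwa [← toA' v, t2] at this
  apply cf_injective
  rw [← kq_spec hw hI, ← kq_spec hw' hI', hh]
  congr 2
  simp only [den]
  refine Fintype.prod_equiv b _ _ ?_
  intro i
  rw [hb]

omit [Fintype σ] [Fintype τ] in
lemma mem_map_rename_equiv (e : σ ≃ τ) (I : Ideal (MvPolynomial σ k)) (f : MvPolynomial σ k) :
    f ∈ I ↔ rename e f ∈ I.map (rename e : MvPolynomial σ k →ₐ[k] MvPolynomial τ k) := by
  constructor
  · intro h; exact Ideal.mem_map_of_mem _ h
  · intro h
    have hs : Function.Surjective (rename e : MvPolynomial σ k →ₐ[k] MvPolynomial τ k) :=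
      (renameEquiv k e).surjective
    rw [Ideal.mem_map_iff_of_surjective _ hs] at h
    obtain ⟨g, hg, hgf⟩ := h
    rwa [← (rename_injective e e.injective) hgf]

lemma kq_rename {w : τ → X} (hw : PosW w) (e : σ ≃ τ) {I : Ideal (MvPolynomial σ k)}
    (hI : IsHomog (w ∘ e) I) :
    kq w (I.map (rename e : MvPolynomial σ k →ₐ[k] MvPolynomial τ k)) = kq (w ∘ e) I := by
  symm
  have hw' : PosW (w ∘ e) := by
    obtain ⟨ℓ, hℓ⟩ := hw
    exact ⟨ℓ, fun i => hℓ (e i)⟩
  refine kq_equiv hw' hw e (fun i => rfl) (rename e) (rename e.symm) ?_ ?_ ?_ ?_ hI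
    hI.map_rename (mem_map_rename_equiv e I)
  · apply MvPolynomial.algHom_ext
    intro i; simp
  · apply MvPolynomial.algHom_ext
    intro i; simp
  · intro i
    rw [rename_X]
    exact isWeightedHomogeneous_X k w (e i)
  · intro i
    rw [rename_X]
    have := isWeightedHomogeneous_X k (w ∘ e) (e.symm i)
    simpa using this

end Equivs

section Ext

variable {k : Type} [Field k] {σ τ : Type} {X : Type} [AddCommGroup X]

lemma optionEquivLeft_rename (g : MvPolynomial σ k) :
    optionEquivLeft k σ (rename some g) = Polynomial.C g := by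
  induction g using MvPolynomial.induction_on with
  | C a => rw [rename_C, optionEquivLeft_C]
  | add p q hp hq => rw [map_add, map_add, hp, hq, Polynomial.C_add]
  | mul_X p i hp => rw [map_mul, map_mul, hp, rename_X, optionEquivLeft_X_some, Polynomial.C_mul]

lemma mem_ext_option (I : Ideal (MvPolynomial σ k)) (f : MvPolynomial (Option σ) k) :
    f ∈ I.map (rename some : MvPolynomial σ k →ₐ[k] MvPolynomial (Option σ) k) ↔
      ∀ n, (optionEquivLeft k σ f).coeff n ∈ I := by
  rw [← Ideal.mem_map_C_iff]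
  constructor
  · intro h
    have h1 : I.map (rename some : MvPolynomial σ k →ₐ[k] MvPolynomial (Option σ) k) ≤
        (I.map (Polynomial.C : MvPolynomial σ k →+* _)).comap
          (optionEquivLeft k σ : MvPolynomial (Option σ) k →ₐ[k] _) := by
      rw [Ideal.map_le_iff_le_comap]
      intro g hg
      rw [Ideal.mem_comap, Ideal.mem_comap]
      change optionEquivLeft k σ (rename some g) ∈ _
      rw [optionEquivLeft_rename]
      exact Ideal.mem_map_of_mem _ hg
    exact h1 h
  · intro h
    have h1 : I.map (Polynomial.C : MvPolynomial σ k →+* _) ≤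
        (I.map (rename some : MvPolynomial σ k →ₐ[k] MvPolynomial (Option σ) k)).comap
          ((optionEquivLeft k σ).symm : _ →ₐ[k] MvPolynomial (Option σ) k) := by
      rw [Ideal.map_le_iff_le_comap]
      intro g hg
      rw [Ideal.mem_comap, Ideal.mem_comap]
      change (optionEquivLeft k σ).symm (Polynomial.C g) ∈ _
      rw [← optionEquivLeft_rename, AlgEquiv.symm_apply_apply]
      exact Ideal.mem_map_of_mem _ hg
    have h2 := h1 h
    rw [Ideal.mem_comap] at h2
    simpa using h2

lemma colon_ext_option (I : Ideal (MvPolynomial σ k)) :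
    colonE (I.map (rename some : MvPolynomial σ k →ₐ[k] MvPolynomial (Option σ) k))
      (MvPolynomial.X none) =
      I.map (rename some : MvPolynomial σ k →ₐ[k] MvPolynomial (Option σ) k) := by
  refine le_antisymm ?_ (le_colonE _ _)
  intro f hf
  rw [mem_colonE, mem_ext_option] at hf
  rw [mem_ext_option]
  intro n
  have := hf (n + 1)
  rw [map_mul, optionEquivLeft_X_none, Polynomial.coeff_X_mul] at this
  exact this

lemma map_ev0_ext (I : Ideal (MvPolynomial σ k)) :
    (I.map (rename some : MvPolynomial σ k →ₐ[k] MvPolynomial (Option σ) k)).map (ev0 k σ) = I := by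
  rw [Ideal.map_mapₐ]
  have : (ev0 k σ).comp (rename some) = AlgHom.id k _ := by
    ext i; simp [ev0_some]
  rw [this]
  exact Ideal.map_id I

lemma kq_ext_option [Fintype σ] {w : Option σ → X} (hw : PosW w) {I : Ideal (MvPolynomial σ k)}
    (hI : IsHomog (w ∘ some) I) :
    kq w (I.map (rename some : MvPolynomial σ k →ₐ[k] MvPolynomial (Option σ) k)) =
      kq (w ∘ some) I := by
  rw [kq_elim hw hI.map_rename (colon_ext_option I), map_ev0_ext]

lemma PosW.comp {w : τ → X} (hw : PosW w) (g : σ → τ) : PosW (w ∘ g) := by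
  obtain ⟨ℓ, hℓ⟩ := hw
  exact ⟨ℓ, fun i => hℓ (g i)⟩

lemma PosL.comp {ℓ : X →+ ℤ} {w : τ → X} (hw : PosL ℓ w) (g : σ → τ) : PosL ℓ (w ∘ g) :=
  fun i => hw (g i)

/-- adding spectator variables -/
lemma kq_ext_aux (τ : Type) [Fintype τ] : ∀ (k : Type) [Field k] (X : Type) [AddCommGroup X]
    (σ : Type) [Fintype σ] (w : σ ⊕ τ → X) (_ : PosW w) (I : Ideal (MvPolynomial σ k))
    (_ : IsHomog (w ∘ Sum.inl) I),
    kq w (I.map (rename Sum.inl : MvPolynomial σ k →ₐ[k] MvPolynomial (σ ⊕ τ) k)) =
      kq (w ∘ Sum.inl) I := by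
  classical
  refine Fintype.induction_empty_option (P := fun τ _ => ∀ (k : Type) [Field k] (X : Type)
    [AddCommGroup X] (σ : Type) [Fintype σ] (w : σ ⊕ τ → X) (_ : PosW w)
    (I : Ideal (MvPolynomial σ k)) (_ : IsHomog (w ∘ Sum.inl) I),
    kq w (I.map (rename Sum.inl : MvPolynomial σ k →ₐ[k] MvPolynomial (σ ⊕ τ) k)) =
      kq (w ∘ Sum.inl) I) ?_ ?_ ?_ τ
  · intro α β _ e ih k _ X _ σ _ w hw I hI
    let _ : Fintype α := Fintype.ofEquiv β e.symm
    let E : σ ⊕ α ≃ σ ⊕ β := Equiv.sumCongr (Equiv.refl σ) e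
    have h1 := ih k X σ (w ∘ E) (hw.comp E) I hI
    have h2 : I.map (rename Sum.inl : MvPolynomial σ k →ₐ[k] MvPolynomial (σ ⊕ β) k) =
        (I.map (rename Sum.inl : MvPolynomial σ k →ₐ[k] MvPolynomial (σ ⊕ α) k)).map
          (rename E : MvPolynomial (σ ⊕ α) k →ₐ[k] MvPolynomial (σ ⊕ β) k) := by
      rw [Ideal.map_mapₐ]
      congr 1
      apply MvPolynomial.algHom_ext
      intro i
      simp [E]
    rw [h2, kq_rename hw E, h1]
    · rfl
    · exact IsHomog.map_rename (w' := w ∘ E) (g := Sum.inl) hI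
  · intro k _ X _ σ _ w hw I hI
    let E : σ ≃ σ ⊕ PEmpty := (Equiv.sumEmpty σ PEmpty).symm
    have h2 : I.map (rename Sum.inl : MvPolynomial σ k →ₐ[k] MvPolynomial (σ ⊕ PEmpty) k) =
        I.map (rename E : MvPolynomial σ k →ₐ[k] MvPolynomial (σ ⊕ PEmpty) k) := rfl
    rw [h2]
    exact kq_rename hw E hI
  · intro τ _ ih k _ X _ σ _ w hw I hI
    let E : Option (σ ⊕ τ) ≃ σ ⊕ Option τ :=
      { toFun := fun o => o.elim (Sum.inr none) (Sum.map id some)
        invFun := Sum.elim (fun s => some (Sum.inl s)) (fun o => o.map Sum.inr)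
        left_inv := by
          rintro (_ | (s | t)) <;> rfl
        right_inv := by
          rintro (s | (_ | t)) <;> rfl }
    have h1 := ih k X σ (w ∘ E ∘ some) (hw.comp _) I hI
    have h2 : I.map (rename Sum.inl : MvPolynomial σ k →ₐ[k] MvPolynomial (σ ⊕ Option τ) k) =
        ((I.map (rename Sum.inl : MvPolynomial σ k →ₐ[k] MvPolynomial (σ ⊕ τ) k)).map
          (rename some : MvPolynomial (σ ⊕ τ) k →ₐ[k] MvPolynomial (Option (σ ⊕ τ)) k)).map
          (rename E : MvPolynomial (Option (σ ⊕ τ)) k →ₐ[k] MvPolynomial (σ ⊕ Option τ) k) := by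
      rw [Ideal.map_mapₐ, Ideal.map_mapₐ]
      congr 1
      apply MvPolynomial.algHom_ext
      intro i
      simp [E]
    have h3 : IsHomog (w ∘ E ∘ some)
        (I.map (rename Sum.inl : MvPolynomial σ k →ₐ[k] MvPolynomial (σ ⊕ τ) k)) :=
      IsHomog.map_rename (w' := w ∘ E ∘ some) (g := Sum.inl) hI
    have h4 : IsHomog (w ∘ E)
        ((I.map (rename Sum.inl : MvPolynomial σ k →ₐ[k] MvPolynomial (σ ⊕ τ) k)).map
          (rename some : MvPolynomial (σ ⊕ τ) k →ₐ[k] MvPolynomial (Option (σ ⊕ τ)) k)) :=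
      IsHomog.map_rename (w' := w ∘ E) (g := some) h3
    rw [h2, kq_rename hw E h4, kq_ext_option (hw.comp E) h3]
    exact h1

lemma kq_ext [Fintype σ] [Fintype τ] {w : σ ⊕ τ → X} (hw : PosW w)
    {I : Ideal (MvPolynomial σ k)} (hI : IsHomog (w ∘ Sum.inl) I) :
    kq w (I.map (rename Sum.inl : MvPolynomial σ k →ₐ[k] MvPolynomial (σ ⊕ τ) k)) =
      kq (w ∘ Sum.inl) I := kq_ext_aux τ k X σ w hw I hI

lemma pderiv_comm' (s t : σ) (f : MvPolynomial σ k) :
    pderiv s (pderiv t f) = pderiv t (pderiv s f) := by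
  ext d
  classical
  rw [coeff_pderiv, coeff_pderiv, coeff_pderiv, coeff_pderiv]
  by_cases h : s = t
  · subst h; rfl
  · have e1 : d + Finsupp.single s 1 + Finsupp.single t 1 =
        d + Finsupp.single t 1 + Finsupp.single s 1 := by
      rw [add_assoc, add_comm (Finsupp.single s 1), ← add_assoc]
    rw [e1]
    simp only [Finsupp.coe_add, Pi.add_apply, Finsupp.single_apply, if_neg h, if_neg (Ne.symm h),
      add_zero]
    ring

lemma iterate_pderiv_eq_zero (t : σ) (n : ℕ) : ∀ g : MvPolynomial σ k,
    (∀ d, coeff d g ≠ 0 → d t < n) → (pderiv t)^[n] g = 0 := by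
  induction n with
  | zero =>
    intro g hg
    rw [Function.iterate_zero, id]
    ext d
    by_contra h
    exact absurd (hg d (by simpa using h)) (Nat.not_lt_zero _)
  | succ n ih =>
    intro g hg
    rw [Function.iterate_succ_apply]
    apply ih
    intro d hd
    rw [coeff_pderiv] at hd
    have := hg _ (left_ne_zero_of_mul hd)
    simp only [Finsupp.coe_add, Pi.add_apply, Finsupp.single_eq_same] at this
    omega

lemma iterate_pderiv_pow (t : σ) (n : ℕ) : ∀ h : MvPolynomial σ k, pderiv t h = 0 →
    (pderiv t)^[n] (MvPolynomial.X t ^ n * h) = (n.factorial : MvPolynomial σ k) * h := by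
  induction n with
  | zero => intro h _; simp
  | succ n ih =>
    intro h hh
    rw [Function.iterate_succ_apply, pderiv_mul, hh, mul_zero, add_zero, pderiv_pow, pderiv_X_self,
      mul_one, Nat.add_sub_cancel]
    have e : ((n + 1 : ℕ) : MvPolynomial σ k) * MvPolynomial.X t ^ n * h =
        MvPolynomial.X t ^ n * (((n + 1 : ℕ) : MvPolynomial σ k) * h) := by ring
    rw [e, ih, Nat.factorial_succ]
    · push_cast; ring
    · rw [pderiv_mul, hh, mul_zero, add_zero]
      have : pderiv t ((n + 1 : ℕ) : MvPolynomial σ k) = 0 := by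
        have h1 : ((n + 1 : ℕ) : MvPolynomial σ k) = C ((n + 1 : ℕ) : k) := by simp
        rw [h1, pderiv_C]
      rw [this, zero_mul]

/-- An ideal stable under partial derivatives is generated by elements free of those variables. -/
lemma span_free [CharZero k] {J : Ideal (MvPolynomial σ k)} (s : Finset σ)
    (hJ : ∀ t ∈ s, ∀ f ∈ J, pderiv t f ∈ J) :
    J ≤ Ideal.span {g | g ∈ J ∧ ∀ t ∈ s, pderiv t g = 0} := by
  classical
  induction s using Finset.induction_on with
  | empty =>
    intro f hf
    exact Ideal.subset_span ⟨hf, by simp⟩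
  | insert t s ht ih =>
    have ih' := ih (fun t' ht' => hJ t' (Finset.mem_insert_of_mem ht'))
    refine ih'.trans ?_
    rw [Ideal.span_le]
    have key : ∀ (n : ℕ) (g : MvPolynomial σ k), g ∈ J → (∀ t' ∈ s, pderiv t' g = 0) →
        (pderiv t)^[n] g = 0 →
        g ∈ Ideal.span {g | g ∈ J ∧ ∀ t' ∈ insert t s, pderiv t' g = 0} := by
      intro n
      induction n with
      | zero =>
        intro g _ _ h
        rw [Function.iterate_zero, id] at h
        rw [h]
        exact zero_mem _
      | succ n ihn =>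
        intro g hg hgs hn
        have a1 : ∀ m, (pderiv t)^[m] g ∈ J ∧ ∀ t' ∈ s, pderiv t' ((pderiv t)^[m] g) = 0 := by
          intro m
          induction m with
          | zero => exact ⟨hg, hgs⟩
          | succ m ihm =>
            rw [Function.iterate_succ_apply']
            refine ⟨hJ t (Finset.mem_insert_self _ _) _ ihm.1, ?_⟩
            intro t' ht'
            rw [pderiv_comm', ihm.2 t' ht', map_zero]
        set h := (pderiv t)^[n] g with hh
        have a2 : pderiv t h = 0 := by
          have := Function.iterate_succ_apply' (pderiv t : MvPolynomial σ k → MvPolynomial σ k) n g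
          rw [hh, ← this]
          exact hn
        have a3 : h ∈ Ideal.span {g | g ∈ J ∧ ∀ t' ∈ insert t s, pderiv t' g = 0} := by
          apply Ideal.subset_span
          refine ⟨(a1 n).1, ?_⟩
          intro t' ht'
          rcases Finset.mem_insert.1 ht' with rfl | ht'
          · exact a2
          · exact (a1 n).2 t' ht'
        set c : k := ((n.factorial : ℕ) : k)⁻¹ with hc
        have hc0 : ((n.factorial : ℕ) : k) ≠ 0 := Nat.cast_ne_zero.2 (Nat.factorial_ne_zero n)
        set g' := g - MvPolynomial.X t ^ n * (C c * h) with hg'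
        have a4 : g' ∈ Ideal.span {g | g ∈ J ∧ ∀ t' ∈ insert t s, pderiv t' g = 0} := by
          apply ihn
          · exact J.sub_mem hg (J.mul_mem_left _ (J.mul_mem_left _ (a1 n).1))
          · intro t' ht'
            have hne : t ≠ t' := by
              rintro rfl
              exact ht ht'
            rw [hg', map_sub, hgs t' ht', pderiv_mul, pderiv_mul, pderiv_C, pderiv_pow,
              pderiv_X_of_ne hne, (a1 n).2 t' ht']
            ring
          · have e1 : (pderiv t)^[n] g' = (pderiv t)^[n] g -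
                (pderiv t)^[n] (MvPolynomial.X t ^ n * (C c * h)) := by
              rw [hg']
              exact iterate_map_sub (pderiv t : Der k σ) n _ _
            rw [e1, iterate_pderiv_pow, ← hh]
            · have e2 : ((n.factorial : ℕ) : MvPolynomial σ k) = C ((n.factorial : ℕ) : k) := by
                simp
              rw [e2, ← mul_assoc, ← C_mul, hc, mul_inv_cancel₀ hc0, C_1, one_mul, sub_self]
            · rw [pderiv_mul, pderiv_C, a2]
              ring
        have e3 : g = g' + MvPolynomial.X t ^ n * (C c * h) := by rw [hg']; ring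
        rw [e3]
        exact add_mem a4 (Ideal.mul_mem_left _ _ (Ideal.mul_mem_left _ _ a3))
    rintro g ⟨hg, hgs⟩
    obtain ⟨n, hn⟩ : ∃ n, ∀ d, coeff d g ≠ 0 → d t < n := by
      refine ⟨(g.support.sup fun d => d t) + 1, ?_⟩
      intro d hd
      have := Finset.le_sup (f := fun d : σ →₀ ℕ => d t) (mem_support_iff.2 hd)
      exact Nat.lt_succ_of_le this
    exact key n g hg hgs (iterate_pderiv_eq_zero t n g hn)

lemma exists_rename_of_pderiv [CharZero k] {g : MvPolynomial (σ ⊕ τ) k}
    (hg : ∀ t : τ, pderiv (Sum.inr t) g = 0) : ∃ f : MvPolynomial σ k, rename Sum.inl f = g := by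
  classical
  apply exists_rename_eq_of_vars_subset_range g Sum.inl Sum.inl_injective
  intro i hi
  rcases i with s | t
  · exact ⟨s, rfl⟩
  · exfalso
    rw [Finset.mem_coe, mem_vars_iff_mem_support] at hi
    obtain ⟨d, hd, hdt⟩ := hi
    rw [MvPolynomial.mem_support_iff] at hd
    have h1 := congrArg (coeff (d - Finsupp.single (Sum.inr t) 1)) (hg t)
    rw [coeff_pderiv] at h1
    have h2 : d - Finsupp.single (Sum.inr t) 1 + Finsupp.single (Sum.inr t) 1 = d := by
      apply tsub_add_cancel_of_le
      rw [Finsupp.single_le_iff]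
      exact Nat.pos_of_ne_zero (Finsupp.mem_support_iff.1 hdt)
    rw [h2, coeff_zero] at h1
    rcases mul_eq_zero.1 h1 with h3 | h3
    · exact hd h3
    · exact Nat.cast_add_one_ne_zero _ h3

/-- An ideal stable under the partial derivatives of the second group of variables is extended. -/
theorem extended_of_stable [CharZero k] [Fintype τ] {J : Ideal (MvPolynomial (σ ⊕ τ) k)}
    (hJ : ∀ t : τ, ∀ f ∈ J, pderiv (Sum.inr t) f ∈ J) :
    J = (J.comap (rename Sum.inl : MvPolynomial σ k →ₐ[k] MvPolynomial (σ ⊕ τ) k)).map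
      (rename Sum.inl : MvPolynomial σ k →ₐ[k] MvPolynomial (σ ⊕ τ) k) := by
  classical
  apply le_antisymm
  · have h1 := span_free (J := J) (Finset.univ.image (Sum.inr : τ → σ ⊕ τ)) (by
      intro t ht f hf
      rw [Finset.mem_image] at ht
      obtain ⟨t', _, rfl⟩ := ht
      exact hJ t' f hf)
    refine h1.trans ?_
    rw [Ideal.span_le]
    rintro g ⟨hg, hgs⟩
    obtain ⟨f, rfl⟩ := exists_rename_of_pderiv (fun t => hgs (Sum.inr t)
      (Finset.mem_image_of_mem _ (Finset.mem_univ t)))
    exact Ideal.mem_map_of_mem _ hg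
  · rw [Ideal.map_le_iff_le_comap]

end Ext

end

end Pool.Agent.Helper38
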