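import Mathlib
import Pool.Agent.Helper38.KExt

open MvPolynomial Module

namespace Pool.Agent.Helper38

noncomputable section

section Cmp

variable {k : Type} [Field k] {σ τ : Type} [Fintype σ] [Fintype τ] {X : Type} [AddCommGroup X]

omit [Fintype σ] [Fintype τ] in
lemma map_comap_rename (e : σ ≃ τ) (I : Ideal (MvPolynomial τ k)) :
    (I.comap (rename e : MvPolynomial σ k →ₐ[k] MvPolynomial τ k)).map
      (rename e : MvPolynomial σ k →ₐ[k] MvPolynomial τ k) = I := by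
  have hs : Function.Surjective (rename e : MvPolynomial σ k →ₐ[k] MvPolynomial τ k) :=
    (renameEquiv k e).surjective
  exact Ideal.map_comap_of_surjective _ hs I

/-- comparison along a bijection of variables -/
theorem rename_compare {ℓ : X →+ ℤ} {w : τ → X} (hw : PosL ℓ w) (e : σ ≃ τ)
    {I : Ideal (MvPolynomial τ k)} (hI : IsHomog w I) (hne : I ≠ ⊤) :
    IsHomog (w ∘ e) (I.comap (rename e : MvPolynomial σ k →ₐ[k] MvPolynomial τ k)) ∧
      I.comap (rename e : MvPolynomial σ k →ₐ[k] MvPolynomial τ k) ≠ ⊤ ∧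
      ord I = ord (I.comap (rename e : MvPolynomial σ k →ₐ[k] MvPolynomial τ k)) ∧
      ∀ (R : Type) [CommRing R] [Algebra ℚ R] (L : X →+ R),
        cls I (fun i => L (w i)) =
          cls (I.comap (rename e : MvPolynomial σ k →ₐ[k] MvPolynomial τ k))
            (fun i => L (w (e i))) := by
  have h1 : IsHomog (w ∘ e) (I.comap (rename e : MvPolynomial σ k →ₐ[k] MvPolynomial τ k)) :=
    hI.comap_rename
  have h2 := kq_rename hw.posW e h1
  rw [map_comap_rename] at h2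
  obtain ⟨c1, c2, c3⟩ := compare_eq hw (hw.comp e) hI h1 hne h2
  exact ⟨h1, c1, c2, c3⟩

/-- comparison for spectator variables -/
theorem ext_compare {ℓ : X →+ ℤ} {w : σ ⊕ τ → X} (hw : PosL ℓ w)
    {I : Ideal (MvPolynomial σ k)} (hI : IsHomog (w ∘ Sum.inl) I) (hne : I ≠ ⊤) :
    IsHomog w (I.map (rename Sum.inl : MvPolynomial σ k →ₐ[k] MvPolynomial (σ ⊕ τ) k)) ∧
      I.map (rename Sum.inl : MvPolynomial σ k →ₐ[k] MvPolynomial (σ ⊕ τ) k) ≠ ⊤ ∧
      ord I = ord (I.map (rename Sum.inl : MvPolynomial σ k →ₐ[k] MvPolynomial (σ ⊕ τ) k)) ∧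
      ∀ (R : Type) [CommRing R] [Algebra ℚ R] (L : X →+ R),
        cls I (fun i => L (w (Sum.inl i))) =
          cls (I.map (rename Sum.inl : MvPolynomial σ k →ₐ[k] MvPolynomial (σ ⊕ τ) k))
            (fun i => L (w i)) := by
  have h1 : IsHomog w (I.map (rename Sum.inl : MvPolynomial σ k →ₐ[k] MvPolynomial (σ ⊕ τ) k)) :=
    hI.map_rename
  have h2 := kq_ext hw.posW hI
  obtain ⟨c1, c2, c3⟩ := compare_eq (hw.comp Sum.inl) hw hI h1 hne h2.symm
  exact ⟨h1, c1, c2, c3⟩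

/-- statement about killing variables -/
def KillP (τ : Type) [Fintype τ] : Prop := ∀ (k : Type) [Field k] (X : Type) [AddCommGroup X]
    (σ : Type) [Fintype σ] (w : σ ⊕ τ → X) (_ : PosW w) (J : Ideal (MvPolynomial (σ ⊕ τ) k))
    (_ : IsHomog w J) (_ : ∀ t, MvPolynomial.X (Sum.inr t) ∈ J),
    kq w J = (∏ t, (1 - AddMonoidAlgebra.single (w (Sum.inr t)) 1)) *
      kq (w ∘ Sum.inl) (J.comap
        (rename Sum.inl : MvPolynomial σ k →ₐ[k] MvPolynomial (σ ⊕ τ) k))

lemma killP_equiv (α β : Type) [Fintype α] [Fintype β] (e : α ≃ β) (ih : KillP α) : KillP β := by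
  intro k _ X _ σ _ w hw J hJ hX
  let E : σ ⊕ α ≃ σ ⊕ β := Equiv.sumCongr (Equiv.refl σ) e
  have h0 : IsHomog (w ∘ E) (J.comap
      (rename E : MvPolynomial (σ ⊕ α) k →ₐ[k] MvPolynomial (σ ⊕ β) k)) := hJ.comap_rename
  have h1 := ih k X σ (w ∘ E) (hw.comp E) _ h0 (by
    intro t
    rw [Ideal.mem_comap]
    change rename E _ ∈ J
    rw [rename_X]
    exact hX (e t))
  have h2 := kq_rename hw E h0
  rw [map_comap_rename] at h2
  rw [h2, h1]
  have h3 : (J.comap (rename E : MvPolynomial (σ ⊕ α) k →ₐ[k] MvPolynomial (σ ⊕ β) k)).comap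
      (rename Sum.inl : MvPolynomial σ k →ₐ[k] MvPolynomial (σ ⊕ α) k) =
      J.comap (rename Sum.inl : MvPolynomial σ k →ₐ[k] MvPolynomial (σ ⊕ β) k) := by
    ext f
    rw [Ideal.mem_comap, Ideal.mem_comap, Ideal.mem_comap]
    change rename E (rename Sum.inl f) ∈ J ↔ rename Sum.inl f ∈ J
    rw [rename_rename]
    rfl
  rw [h3]
  have h4 : (∏ t, (1 - AddMonoidAlgebra.single ((w ∘ E) (Sum.inr t)) 1) : Lau X) =
      ∏ t, (1 - AddMonoidAlgebra.single (w (Sum.inr t)) 1) := by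
    refine Fintype.prod_equiv e _ _ ?_
    intro t
    rfl
  rw [h4]
  rfl

lemma killP_empty : KillP PEmpty := by
  intro k _ X _ σ _ w hw J hJ _
  let E : σ ≃ σ ⊕ PEmpty := (Equiv.sumEmpty σ PEmpty).symm
  have h0 : IsHomog (w ∘ E) (J.comap
      (rename E : MvPolynomial σ k →ₐ[k] MvPolynomial (σ ⊕ PEmpty) k)) := hJ.comap_rename
  have h2 := kq_rename hw E h0
  rw [map_comap_rename] at h2
  rw [h2]
  simp only [Finset.univ_eq_empty, Finset.prod_empty, one_mul]
  rfl

lemma killP_option (τ : Type) [Fintype τ] (ih : KillP τ) : KillP (Option τ) := by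
  intro k _ X _ σ _ w hw J hJ hX
  let E : Option (σ ⊕ τ) ≃ σ ⊕ Option τ :=
    { toFun := fun o => o.elim (Sum.inr none) (Sum.map id some)
      invFun := Sum.elim (fun s => some (Sum.inl s)) (fun o => o.map Sum.inr)
      left_inv := by
        rintro (_ | (s | t)) <;> rfl
      right_inv := by
        rintro (s | (_ | t)) <;> rfl }
  set J1 := J.comap (rename E : MvPolynomial (Option (σ ⊕ τ)) k →ₐ[k]
    MvPolynomial (σ ⊕ Option τ) k) with hJ1
  have h0 : IsHomog (w ∘ E) J1 := hJ.comap_rename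
  have h2 := kq_rename hw E h0
  rw [hJ1, map_comap_rename, ← hJ1] at h2
  have hX1 : ∀ o : Option (σ ⊕ τ), MvPolynomial.X (E o) ∈ J → MvPolynomial.X o ∈ J1 := by
    intro o ho
    rw [hJ1, Ideal.mem_comap]
    change rename E _ ∈ J
    rw [rename_X]
    exact ho
  have hnone : MvPolynomial.X none ∈ J1 := hX1 none (hX none)
  have h3 := kq_contains (hw.comp E) h0 hnone
  have h4 := ih k X σ ((w ∘ E) ∘ some) ((hw.comp E).comp some) (J1.map (ev0 k (σ ⊕ τ)))
    (map_ev0_homog h0) (by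
      intro t
      have h5 := Ideal.mem_map_of_mem (ev0 k (σ ⊕ τ)) (hX1 (some (Sum.inr t)) (hX (some t)))
      rwa [ev0_some] at h5)
  have h5 : (J1.map (ev0 k (σ ⊕ τ))).comap
      (rename Sum.inl : MvPolynomial σ k →ₐ[k] MvPolynomial (σ ⊕ τ) k) =
      J.comap (rename Sum.inl : MvPolynomial σ k →ₐ[k] MvPolynomial (σ ⊕ Option τ) k) := by
    ext f
    rw [Ideal.mem_comap, Ideal.mem_comap]
    change rename Sum.inl f ∈ _ ↔ rename Sum.inl f ∈ J
    have h6 := mem_iff_ev0 hnone (rename some (rename Sum.inl f))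
    rw [ev0_rename] at h6
    rw [← h6, hJ1, Ideal.mem_comap]
    change rename E (rename some (rename Sum.inl f)) ∈ J ↔ _
    rw [rename_rename, rename_rename]
    rfl
  rw [h2, h3, h4, h5, ← mul_assoc, Fintype.prod_option]
  rfl

lemma killP_all (τ : Type) [Fintype τ] : KillP τ := by
  classical
  refine Fintype.induction_empty_option (P := fun τ _ => KillP τ) ?_ ?_ ?_ τ
  · intro α β _ e ih
    let _ : Fintype α := Fintype.ofEquiv β e.symm
    exact killP_equiv α β e ih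
  · exact killP_empty
  · intro τ _ ih
    exact killP_option τ ih

/-- variables contained in the ideal -/
lemma kq_kill {w : σ ⊕ τ → X} (hw : PosW w) {J : Ideal (MvPolynomial (σ ⊕ τ) k)}
    (hJ : IsHomog w J) (hX : ∀ t, MvPolynomial.X (Sum.inr t) ∈ J) :
    kq w J = (∏ t, (1 - AddMonoidAlgebra.single (w (Sum.inr t)) 1)) *
      kq (w ∘ Sum.inl) (J.comap
        (rename Sum.inl : MvPolynomial σ k →ₐ[k] MvPolynomial (σ ⊕ τ) k)) :=
  killP_all τ k X σ w hw J hJ hX

lemma lead_prod {ι : Type} {ℓ : X →+ ℤ} {q : Lau X} {c : ℕ} (h : IsLead ℓ q c) (u : ι → X)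
    (s : Finset ι) (hu : ∀ t ∈ s, 0 < ℓ (u t)) :
    IsLead ℓ ((∏ t ∈ s, (1 - AddMonoidAlgebra.single (u t) 1)) * q) (c + s.card) ∧
      ∀ (R : Type) [CommRing R] [Algebra ℚ R] (L : X →+ R),
        PowerSeries.coeff (c + s.card)
          (Phi L ((∏ t ∈ s, (1 - AddMonoidAlgebra.single (u t) 1)) * q)) =
          (∏ t ∈ s, L (u t)) * PowerSeries.coeff c (Phi L q) := by
  classical
  induction s using Finset.induction_on with
  | empty =>
    simp only [Finset.prod_empty, one_mul, Finset.card_empty, add_zero]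
    exact ⟨h, fun R _ _ L => trivial⟩
  | insert t s ht ih =>
    have ih' := ih (fun t' ht' => hu t' (Finset.mem_insert_of_mem ht'))
    rw [Finset.prod_insert ht, Finset.card_insert_of_notMem ht, mul_assoc, ← add_assoc]
    refine ⟨ih'.1.one_sub (hu t (Finset.mem_insert_self _ _)), ?_⟩
    intro R _ _ L
    rw [ih'.1.coeff_one_sub, ih'.2 R L, Finset.prod_insert ht, mul_assoc]

/-- comparison for variables contained in the ideal -/
theorem kill_compare {ℓ : X →+ ℤ} {w : σ ⊕ τ → X} (hw : PosL ℓ w)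
    {J : Ideal (MvPolynomial (σ ⊕ τ) k)} (hJ : IsHomog w J) (hne : J ≠ ⊤)
    (hX : ∀ t, MvPolynomial.X (Sum.inr t) ∈ J) :
    IsHomog (w ∘ Sum.inl)
      (J.comap (rename Sum.inl : MvPolynomial σ k →ₐ[k] MvPolynomial (σ ⊕ τ) k)) ∧
    J.comap (rename Sum.inl : MvPolynomial σ k →ₐ[k] MvPolynomial (σ ⊕ τ) k) ≠ ⊤ ∧
    ord J = ord (J.comap (rename Sum.inl : MvPolynomial σ k →ₐ[k] MvPolynomial (σ ⊕ τ) k)) +
      Fintype.card τ ∧
    ∀ (R : Type) [CommRing R] [Algebra ℚ R] (L : X →+ R),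
      cls J (fun i => L (w i)) = (∏ t, L (w (Sum.inr t))) *
        cls (J.comap (rename Sum.inl : MvPolynomial σ k →ₐ[k] MvPolynomial (σ ⊕ τ) k))
          (fun i => L (w (Sum.inl i))) := by
  set J1 := J.comap (rename Sum.inl : MvPolynomial σ k →ₐ[k] MvPolynomial (σ ⊕ τ) k) with hJ1
  have h1 : IsHomog (w ∘ Sum.inl) J1 := hJ.comap_rename
  have h2 : J1 ≠ ⊤ := by
    intro h
    apply hne
    rw [Ideal.eq_top_iff_one] at h ⊢
    rw [hJ1, Ideal.mem_comap, map_one] at h
    exact h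
  have h3 := isLead_kq (hw.comp Sum.inl) h1 h2
  have h4 := lead_prod h3 (fun t => w (Sum.inr t)) Finset.univ (fun t _ => hw _)
  rw [← kq_kill hw.posW hJ hX] at h4
  have h5 := isLead_kq hw hJ hne
  have h6 := h5.unique h4.1
  refine ⟨h1, h2, h6, ?_⟩
  intro R _ _ L
  have h7 := h4.2 R L
  rw [← h6, coeff_kq hw, coeff_kq (hw.comp Sum.inl)] at h7
  exact h7

end Cmp

end

end Pool.Agent.Helper38
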