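import Mathlib
import Pool.Agent.Helper38.KExt
import Pool.Agent.Helper23.JT

open MvPolynomial Module

namespace Pool.Agent.Helper38

noncomputable section

section Defs

/-- variables: an `n` by `m` matrix together with spectator variables -/
abbrev CI (n m : ℕ) (ρ : Type) : Type := (Fin n × Fin m) ⊕ ρ

abbrev CX (n : ℕ) (X' : Type) : Type := (Fin n → ℤ) × X'

variable {k : Type} [Field k] {n m : ℕ} {ρ : Type} {X' : Type} [AddCommGroup X']

def cw (n m : ℕ) {ρ X' : Type} [AddCommGroup X'] (wρ : ρ → X') : CI n m ρ → CX n X' :=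
  Sum.elim (fun p => (Pi.single p.1 1, 0)) (fun r => (0, wρ r))

def cj (n m : ℕ) (ρ : Type) : CI n (m + 1) ρ → ℤ :=
  Sum.elim (fun p => if p.2 = 0 then 1 else 0) (fun _ => 0)

/-- evaluation of weights -/
def evL {R : Type} [CommRing R] (x : Fin n → R) (L : X' →+ R) : CX n X' →+ R where
  toFun z := ∑ a, z.1 a • x a + L z.2
  map_zero' := by simp
  map_add' z z' := by
    simp only [Prod.fst_add, Pi.add_apply, add_smul, Finset.sum_add_distrib, Prod.snd_add, map_add]
    ring

lemma evL_inl {R : Type} [CommRing R] (x : Fin n → R) (L : X' →+ R) (a : Fin n) :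
    evL x L (Pi.single a 1, 0) = x a := by
  simp only [evL, AddMonoidHom.coe_mk, ZeroHom.coe_mk, map_zero, add_zero]
  rw [Finset.sum_eq_single a]
  · simp
  · intro b _ hb
    simp [hb]
  · simp

lemma evL_inr {R : Type} [CommRing R] (x : Fin n → R) (L : X' →+ R) (ξ : X') :
    evL x L (0, ξ) = L ξ := by
  simp [evL]

/-- row operations -/
def rowD (k : Type) [Field k] (n m : ℕ) (ρ : Type) (a b : Fin n) : Der k (CI n m ρ) :=
  vf (Sum.elim (fun p => if p.1 = a then MvPolynomial.X (Sum.inl (b, p.2)) else 0) (fun _ => 0))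

/-- column operations adding the first column -/
def colD (k : Type) [Field k] (n m : ℕ) (ρ : Type) (c : Fin m) : Der k (CI n (m + 1) ρ) :=
  vf (Sum.elim (fun p => if p.2 = c.succ then MvPolynomial.X (Sum.inl (p.1, 0)) else 0)
    (fun _ => 0))

/-- operations on spectator variables -/
def spD {k : Type} [Field k] (σ : Type) {ρ : Type} (D : Der k ρ) : Der k (σ ⊕ ρ) :=
  vf (Sum.elim (fun _ => 0) (fun r => rename Sum.inr (D (MvPolynomial.X r))))

lemma rowD_inl (a b a' : Fin n) (c : Fin m) :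
    rowD k n m ρ a b (MvPolynomial.X (Sum.inl (a', c))) =
      if a' = a then MvPolynomial.X (Sum.inl (b, c)) else 0 := by
  simp [rowD, vf_X]

lemma rowD_inr (a b : Fin n) (r : ρ) :
    rowD k n m ρ a b (MvPolynomial.X (Sum.inr r)) = 0 := by
  simp [rowD, vf_X]

lemma colD_inl (c : Fin m) (a : Fin n) (c' : Fin (m + 1)) :
    colD k n m ρ c (MvPolynomial.X (Sum.inl (a, c'))) =
      if c' = c.succ then MvPolynomial.X (Sum.inl (a, 0)) else 0 := by
  simp [colD, vf_X]

lemma colD_inr (c : Fin m) (r : ρ) :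
    colD k n m ρ c (MvPolynomial.X (Sum.inr r)) = 0 := by
  simp [colD, vf_X]

lemma spD_inl {σ : Type} (D : Der k ρ) (i : σ) : spD σ D (MvPolynomial.X (Sum.inl i)) = 0 := by
  simp [spD, vf_X]

lemma spD_inr {σ : Type} (D : Der k ρ) (r : ρ) :
    spD σ D (MvPolynomial.X (Sum.inr r)) = rename Sum.inr (D (MvPolynomial.X r)) := by
  simp [spD, vf_X]

lemma spD_rename {σ : Type} (D : Der k ρ) (f : MvPolynomial ρ k) :
    spD σ D (rename Sum.inr f) = rename Sum.inr (D f) :=
  intertwine D (spD σ D) (rename Sum.inr) (fun i => by rw [rename_X, spD_inr]) f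

/-- elementary column operation as an automorphism -/
def colU (k : Type) [Field k] (n m : ℕ) (ρ : Type) (c : Fin m) (t : k) :
    MvPolynomial (CI n (m + 1) ρ) k →ₐ[k] MvPolynomial (CI n (m + 1) ρ) k :=
  aeval (fun i => MvPolynomial.X i + C t * colD k n m ρ c (MvPolynomial.X i))

lemma colU_X (c : Fin m) (t : k) (i : CI n (m + 1) ρ) :
    colU k n m ρ c t (MvPolynomial.X i) =
      MvPolynomial.X i + C t * colD k n m ρ c (MvPolynomial.X i) := by
  simp [colU]

lemma colU_colD (c c' : Fin m) (t : k) (i : CI n (m + 1) ρ) :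
    colU k n m ρ c t (colD k n m ρ c' (MvPolynomial.X i)) = colD k n m ρ c' (MvPolynomial.X i) := by
  rcases i with ⟨a, d⟩ | r
  · rw [colD_inl]
    split_ifs
    · rw [colU_X, colD_inl, if_neg (Fin.succ_ne_zero c).symm, mul_zero, add_zero]
    · simp
  · rw [colD_inr, map_zero]

lemma colU_comp (c : Fin m) (t s : k) :
    (colU k n m ρ c t).comp (colU k n m ρ c s) = colU k n m ρ c (t + s) := by
  apply MvPolynomial.algHom_ext
  intro i
  rw [AlgHom.comp_apply, colU_X, map_add, map_mul, colU_colD, colU_X, colU_X, algHom_C,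
    MvPolynomial.algebraMap_eq, C_add]
  ring

lemma colU_zero (c : Fin m) : colU k n m ρ c 0 = AlgHom.id k _ := by
  apply MvPolynomial.algHom_ext
  intro i
  rw [colU_X]
  simp

def colE (k : Type) [Field k] (n m : ℕ) (ρ : Type) (c : Fin m) :
    MvPolynomial (CI n (m + 1) ρ) k ≃ₐ[k] MvPolynomial (CI n (m + 1) ρ) k :=
  AlgEquiv.ofAlgHom (colU k n m ρ c 1) (colU k n m ρ c (-1))
    (by rw [colU_comp, add_neg_cancel, colU_zero]) (by rw [colU_comp, neg_add_cancel, colU_zero])

lemma colE_X (c : Fin m) (i : CI n (m + 1) ρ) : colE k n m ρ c (MvPolynomial.X i) =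
    MvPolynomial.X i + colD k n m ρ c (MvPolynomial.X i) := by
  change colU k n m ρ c 1 (MvPolynomial.X i) = _
  rw [colU_X, C_1, one_mul]

lemma colE_symm_X (c : Fin m) (i : CI n (m + 1) ρ) : (colE k n m ρ c).symm (MvPolynomial.X i) =
    MvPolynomial.X i - colD k n m ρ c (MvPolynomial.X i) := by
  change colU k n m ρ c (-1) (MvPolynomial.X i) = _
  rw [colU_X, C_neg, C_1]
  ring

lemma colE_colD (c c' : Fin m) (i : CI n (m + 1) ρ) :
    colE k n m ρ c (colD k n m ρ c' (MvPolynomial.X i)) = colD k n m ρ c' (MvPolynomial.X i) :=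
  colU_colD c c' 1 i

lemma colD_colD (c c' : Fin m) (i : CI n (m + 1) ρ) :
    colD k n m ρ c (colD k n m ρ c' (MvPolynomial.X i)) = 0 := by
  rcases i with ⟨a, d⟩ | r
  · rw [colD_inl]
    split_ifs
    · rw [colD_inl, if_neg (Fin.succ_ne_zero c).symm]
    · simp
  · rw [colD_inr, map_zero]

lemma colD_homog (wρ : ρ → X') (c : Fin m) (i : CI n (m + 1) ρ) :
    IsWeightedHomogeneous (cw n (m + 1) wρ) (colD k n m ρ c (MvPolynomial.X i))
      (cw n (m + 1) wρ i) := by
  rcases i with ⟨a, d⟩ | r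
  · rw [colD_inl]
    split_ifs
    · exact isWeightedHomogeneous_X k (cw n (m + 1) wρ) (Sum.inl (a, 0))
    · exact isWeightedHomogeneous_zero k _ _
  · rw [colD_inr]
    exact isWeightedHomogeneous_zero k _ _

lemma colD_shift_cj (c : Fin m) : ShiftBy (cj n m ρ)
    (colD k n m ρ c : MvPolynomial (CI n (m + 1) ρ) k →ₗ[k] _) 1 := by
  apply shiftBy_of_X
  intro i
  rcases i with ⟨a, d⟩ | r
  · rw [colD_inl]
    split_ifs with h
    · have h1 := isWeightedHomogeneous_X k (cj n m ρ) (Sum.inl (a, 0))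
      have h2 : cj n m ρ (Sum.inl (a, 0)) = cj n m ρ (Sum.inl (a, d)) + 1 := by
        simp [cj, h, Fin.succ_ne_zero]
      rwa [h2] at h1
    · exact isWeightedHomogeneous_zero k _ _
  · rw [colD_inr]
    exact isWeightedHomogeneous_zero k _ _

lemma rowD_shift_cj (a b : Fin n) : ShiftBy (cj n m ρ)
    (rowD k n (m + 1) ρ a b : MvPolynomial (CI n (m + 1) ρ) k →ₗ[k] _) 0 := by
  apply shiftBy_of_X
  intro i
  rcases i with ⟨a', d⟩ | r
  · rw [rowD_inl]
    split_ifs with h
    · have h1 := isWeightedHomogeneous_X k (cj n m ρ) (Sum.inl (b, d))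
      have h2 : cj n m ρ (Sum.inl (b, d)) = cj n m ρ (Sum.inl (a', d)) + 0 := by
        simp [cj]
      rwa [h2] at h1
    · exact isWeightedHomogeneous_zero k _ _
  · rw [rowD_inr]
    exact isWeightedHomogeneous_zero k _ _

lemma spD_shift_cj (D : Der k ρ) : ShiftBy (cj n m ρ)
    (spD (Fin n × Fin (m + 1)) D : MvPolynomial (CI n (m + 1) ρ) k →ₗ[k] _) 0 := by
  apply shiftBy_of_X
  intro i
  rcases i with p | r
  · rw [spD_inl]
    exact isWeightedHomogeneous_zero k _ _
  · rw [spD_inr]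
    have h1 : IsWeightedHomogeneous (cj n m ρ)
        (rename Sum.inr (D (MvPolynomial.X r)) : MvPolynomial (CI n (m + 1) ρ) k) 0 := by
      apply homog_rename
      intro d _
      have : (cj n m ρ ∘ Sum.inr : ρ → ℤ) = 0 := by
        ext r; simp [cj]
      rw [this, Finsupp.weight_apply]
      simp
    have h2 : cj n m ρ (Sum.inr r) + 0 = 0 := by simp [cj]
    rwa [h2]

lemma rowD_colE (a b : Fin n) (c : Fin m) (i : CI n (m + 1) ρ) :
    rowD k n (m + 1) ρ a b (colE k n m ρ c (MvPolynomial.X i)) =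
      colE k n m ρ c (rowD k n (m + 1) ρ a b (MvPolynomial.X i)) := by
  rcases i with ⟨a', d⟩ | r
  · rw [colE_X, map_add, colD_inl, rowD_inl]
    by_cases h1 : a' = a <;> by_cases h2 : d = c.succ <;>
      simp [h1, h2, rowD_inl, colE_X, colD_inl]
  · rw [colE_X, colD_inr, rowD_inr, map_zero, add_zero, rowD_inr]

lemma colE_rename_inr (c : Fin m) (f : MvPolynomial ρ k) :
    colE k n m ρ c (rename Sum.inr f) = rename Sum.inr f := by
  have : (colU k n m ρ c 1).comp (rename Sum.inr : MvPolynomial ρ k →ₐ[k] _) = rename Sum.inr := by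
    apply MvPolynomial.algHom_ext
    intro r
    rw [AlgHom.comp_apply, rename_X, colU_X, colD_inr, mul_zero, add_zero]
  exact AlgHom.congr_fun this f

lemma spD_colE (D : Der k ρ) (c : Fin m) (i : CI n (m + 1) ρ) :
    spD (Fin n × Fin (m + 1)) D (colE k n m ρ c (MvPolynomial.X i)) =
      colE k n m ρ c (spD (Fin n × Fin (m + 1)) D (MvPolynomial.X i)) := by
  rcases i with ⟨a', d⟩ | r
  · rw [colE_X, map_add, colD_inl, spD_inl, map_zero, zero_add]
    split_ifs
    · rw [spD_inl]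
    · rw [map_zero]
  · rw [colE_X, colD_inr, spD_inr, add_zero, spD_inr, colE_rename_inr]

lemma euler_colE (c : Fin m) (i : CI n (m + 1) ρ) :
    euler (cj n m ρ) (colE k n m ρ c (MvPolynomial.X i)) -
      colD k n m ρ c (colE k n m ρ c (MvPolynomial.X i)) =
      colE k n m ρ c (euler (cj n m ρ) (MvPolynomial.X i)) := by
  have he : ∀ i : CI n (m + 1) ρ, euler (cj n m ρ) (MvPolynomial.X i : MvPolynomial _ k) =
      C ((cj n m ρ i : ℤ) : k) * MvPolynomial.X i := by
    intro i; rw [euler, vf_X]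
  rw [he, map_mul, colE_X, map_add, map_add, colD_colD, add_zero, he]
  have hC : ∀ t : k, colE k n m ρ c (C t) = C t := by
    intro t
    have := (colE k n m ρ c).commutes t
    rwa [MvPolynomial.algebraMap_eq] at this
  rw [hC]
  rcases i with ⟨a, d⟩ | r
  · rw [colD_inl]
    split_ifs with h
    · rw [he]
      simp [cj, h, Fin.succ_ne_zero]
    · simp
  · rw [colD_inr]
    simp

end Defs

section Degen

variable {k : Type} [Field k] {n m : ℕ} {ρ : Type} [Fintype ρ] {X' : Type} [AddCommGroup X']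

def cl (n : ℕ) {X' : Type} [AddCommGroup X'] (ℓ' : X' →+ ℤ) : CX n X' →+ ℤ :=
  evL (fun _ => (1 : ℤ)) ℓ'

omit [Fintype ρ] in
lemma posL_cl {wρ : ρ → X'} {ℓ' : X' →+ ℤ} (h : PosL ℓ' wρ) : PosL (cl n ℓ') (cw n m wρ) := by
  rintro (⟨a, c⟩ | r)
  · change 0 < cl n ℓ' (Pi.single a 1, 0)
    rw [cl, evL_inl]
    exact one_pos
  · change 0 < cl n ℓ' (0, wρ r)
    rw [cl, evL_inr]
    exact h r

/-- The degeneration making all column operations available. -/
theorem degen_col {wρ : ρ → X'} {ℓ' : X' →+ ℤ} (hℓ : PosL ℓ' wρ) (𝒢 : Set (Der k ρ))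
    {I : Ideal (MvPolynomial (CI n (m + 1) ρ) k)} (hI : IsHomog (cw n (m + 1) wρ) I)
    (hne : I ≠ ⊤)
    (hrow : ∀ a b : Fin n, a ≠ b →
      Stab (rowD k n (m + 1) ρ a b : MvPolynomial (CI n (m + 1) ρ) k →ₗ[k] _) I)
    (hG : ∀ D ∈ 𝒢, Stab (spD (Fin n × Fin (m + 1)) D : MvPolynomial (CI n (m + 1) ρ) k →ₗ[k] _) I) :
    ∃ I' : Ideal (MvPolynomial (CI n (m + 1) ρ) k),
      IsHomog (fun i => (cw n (m + 1) wρ i, cj n m ρ i)) I' ∧ I' ≠ ⊤ ∧ ord I = ord I' ∧
      (∀ (R : Type) [CommRing R] [Algebra ℚ R] (L : CX n X' →+ R),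
        cls I (fun i => L (cw n (m + 1) wρ i)) = cls I' (fun i => L (cw n (m + 1) wρ i))) ∧
      (∀ a b : Fin n, a ≠ b →
        Stab (rowD k n (m + 1) ρ a b : MvPolynomial (CI n (m + 1) ρ) k →ₗ[k] _) I') ∧
      (∀ c : Fin m, Stab (colD k n m ρ c : MvPolynomial (CI n (m + 1) ρ) k →ₗ[k] _) I') ∧
      (∀ D ∈ 𝒢,
        Stab (spD (Fin n × Fin (m + 1)) D : MvPolynomial (CI n (m + 1) ρ) k →ₗ[k] _) I') := by
  have hpos : PosL (cl n ℓ') (cw n (m + 1) wρ) := posL_cl hℓ
  set w := cw n (m + 1) wρ with hw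
  set j := cj n m ρ with hj
  set I0 := inI j I with hI0
  obtain ⟨I', h1, h2, h3, h4, h5⟩ := degen_many (w := w) (j := j) (I := I0) hpos.posW
    (inI_homog' j hI) (inI_homog j I) (fun c : Fin m => colD k n m ρ c) (fun c => colD_shift_cj c)
    (fun c => colE k n m ρ c)
    (fun c i => by
      rw [colE_X]
      exact (isWeightedHomogeneous_X k w i).add (colD_homog wρ c i))
    (fun c i => by
      rw [colE_symm_X]
      exact (isWeightedHomogeneous_X k w i).sub (colD_homog wρ c i))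
    (fun c i => euler_colE c i)
    (fun c c' i => by
      rw [colE_X, map_add, colD_colD, add_zero, colE_colD]) Finset.univ
  have h6 : kq w I = kq w I' := by
    apply kq_eq_of_hilb hpos.posW hI h1
    rw [h3, hI0, hilb_inI hpos.posW j hI]
  obtain ⟨c1, c2, c3⟩ := compare_eq hpos hpos hI h1 hne h6
  refine ⟨I', h1.pair h2, c1, c2, c3, ?_, ?_, ?_⟩
  · intro a b hab
    exact h5 _ 0 (rowD_shift_cj a b) (fun c i => rowD_colE a b c i)
      (stab_inI (rowD_shift_cj a b) (hrow a b hab))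
  · intro c
    exact h4 c (Finset.mem_univ c)
  · intro D hD
    exact h5 _ 0 (spD_shift_cj D) (fun c i => spD_colE D c i)
      (stab_inI (spD_shift_cj D) (hG D hD))

end Degen

end

end Pool.Agent.Helper38
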