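import Mathlib
import Pool.Agent.Helper38.KCol
import Pool.Agent.Helper38.KCmp

open MvPolynomial Module

namespace Pool.Agent.Helper38

noncomputable section

section General

variable {k : Type} [Field k] {σ τ : Type}

lemma stab_comap {u : MvPolynomial σ k →ₐ[k] MvPolynomial τ k} {D0 : Der k σ} {D : Der k τ}
    (h : ∀ i, D (u (MvPolynomial.X i)) = u (D0 (MvPolynomial.X i))) {I : Ideal (MvPolynomial τ k)}
    (hI : Stab (D : MvPolynomial τ k →ₗ[k] MvPolynomial τ k) I) :
    Stab (D0 : MvPolynomial σ k →ₗ[k] MvPolynomial σ k) (I.comap u) := by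
  intro f hf
  rw [Ideal.mem_comap] at hf ⊢
  change u (D0 f) ∈ I
  rw [← intertwine D0 D u h]
  exact hI _ hf

lemma stab_map {u : MvPolynomial σ k →ₐ[k] MvPolynomial τ k} (hu : Function.Surjective u)
    {D : Der k σ} {D1 : Der k τ}
    (h : ∀ i, D1 (u (MvPolynomial.X i)) = u (D (MvPolynomial.X i))) {I : Ideal (MvPolynomial σ k)}
    (hI : Stab (D : MvPolynomial σ k →ₗ[k] MvPolynomial σ k) I) :
    Stab (D1 : MvPolynomial τ k →ₗ[k] MvPolynomial τ k) (I.map u) := by
  intro g hg
  rw [Ideal.mem_map_iff_of_surjective _ hu] at hg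
  obtain ⟨f, hf, rfl⟩ := hg
  change D1 (u f) ∈ _
  rw [intertwine D D1 u h]
  exact Ideal.mem_map_of_mem _ (hI f hf)

lemma cls_map {σ : Type} [Fintype σ] {R R' : Type} [CommRing R] [CommRing R'] (f : R →+* R')
    (I : Ideal (MvPolynomial σ k)) (b : σ → R) : f (cls I b) = cls I (fun i => f (b i)) := by
  rw [cls, cls, mcls, mcls, map_multiset_sum, Multiset.map_map]
  congr 1
  apply Multiset.map_congr rfl
  intro p _
  simp only [Function.comp_apply]
  split_ifs
  · rw [map_prod]
  · rw [map_zero]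

lemma natDegree_cls_le {σ : Type} [Fintype σ] {R : Type} [CommRing R]
    (I : Ideal (MvPolynomial σ k)) (b : σ → Polynomial R) :
    (cls I b).natDegree ≤ ∑ i, (b i).natDegree := by
  classical
  rw [cls, mcls]
  have key : ∀ s : Multiset (Polynomial R), (∀ p ∈ s, p.natDegree ≤ ∑ i, (b i).natDegree) →
      s.sum.natDegree ≤ ∑ i, (b i).natDegree := by
    intro s
    induction s using Multiset.induction_on with
    | empty => intro _; simp
    | cons p s ih =>
      intro h
      rw [Multiset.sum_cons]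
      refine (Polynomial.natDegree_add_le _ _).trans (max_le ?_ ?_)
      · exact h p (Multiset.mem_cons_self _ _)
      · exact ih (fun q hq => h q (Multiset.mem_cons_of_mem hq))
  apply key
  intro p hp
  rw [Multiset.mem_map] at hp
  obtain ⟨q, _, rfl⟩ := hp
  split_ifs
  · refine (Polynomial.natDegree_prod_le _ _).trans ?_
    exact Finset.sum_le_sum_of_subset (Finset.subset_univ _)
  · simp

end General

section Pivot

variable {k : Type} [Field k] {n m : ℕ} {ρ : Type} {X' : Type} [AddCommGroup X']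

/-- variables after removing the pivot -/
abbrev PT (n m : ℕ) (ρ : Type) : Type := CI n m ρ ⊕ (Fin n ⊕ Fin m)

def epiv (n m : ℕ) (ρ : Type) : Option (PT n m ρ) ≃ CI (n + 1) (m + 1) ρ where
  toFun := fun o => o.elim (Sum.inl (0, 0)) (Sum.elim
    (Sum.elim (fun q => Sum.inl (q.1.succ, q.2.succ)) Sum.inr)
    (Sum.elim (fun a => Sum.inl (a.succ, 0)) (fun c => Sum.inl (0, c.succ))))
  invFun := Sum.elim (fun q => Fin.cases (motive := fun _ => Option (PT n m ρ))
      (Fin.cases (motive := fun _ => Option (PT n m ρ)) none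
        (fun c => some (Sum.inr (Sum.inr c))) q.2)
      (fun a => Fin.cases (motive := fun _ => Option (PT n m ρ)) (some (Sum.inr (Sum.inl a)))
        (fun c => some (Sum.inl (Sum.inl (a, c)))) q.2) q.1)
    (fun r => some (Sum.inl (Sum.inr r)))
  left_inv := by
    rintro (_ | ((⟨a, c⟩ | r) | (a | c))) <;> simp
  right_inv := by
    rintro (⟨a, c⟩ | r)
    · refine Fin.cases ?_ ?_ a
      · refine Fin.cases ?_ ?_ c
        · simp
        · intro c; simp
      · intro a
        refine Fin.cases ?_ ?_ c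
        · simp
        · intro c; simp
    · simp

lemma epiv_none : epiv n m ρ none = Sum.inl (0, 0) := rfl
lemma epiv_ac (a : Fin n) (c : Fin m) :
    epiv n m ρ (some (Sum.inl (Sum.inl (a, c)))) = Sum.inl (a.succ, c.succ) := rfl
lemma epiv_r (r : ρ) : epiv n m ρ (some (Sum.inl (Sum.inr r))) = Sum.inr r := rfl
lemma epiv_v (a : Fin n) : epiv n m ρ (some (Sum.inr (Sum.inl a))) = Sum.inl (a.succ, 0) := rfl
lemma epiv_h (c : Fin m) : epiv n m ρ (some (Sum.inr (Sum.inr c))) = Sum.inl (0, c.succ) := rfl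

lemma epiv_symm_00 : (epiv n m ρ).symm (Sum.inl (0, 0)) = none := by
  rw [Equiv.symm_apply_eq]; rfl
lemma epiv_symm_ac (a : Fin n) (c : Fin m) :
    (epiv n m ρ).symm (Sum.inl (a.succ, c.succ)) = some (Sum.inl (Sum.inl (a, c))) := by
  rw [Equiv.symm_apply_eq]; rfl
lemma epiv_symm_r (r : ρ) : (epiv n m ρ).symm (Sum.inr r) = some (Sum.inl (Sum.inr r)) := by
  rw [Equiv.symm_apply_eq]; rfl
lemma epiv_symm_v (a : Fin n) :
    (epiv n m ρ).symm (Sum.inl (a.succ, 0)) = some (Sum.inr (Sum.inl a)) := by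
  rw [Equiv.symm_apply_eq]; rfl
lemma epiv_symm_h (c : Fin m) :
    (epiv n m ρ).symm (Sum.inl (0, c.succ)) = some (Sum.inr (Sum.inr c)) := by
  rw [Equiv.symm_apply_eq]; rfl

/-- setting the pivot to one -/
def pivA (k : Type) [Field k] (n m : ℕ) (ρ : Type) :
    MvPolynomial (CI (n + 1) (m + 1) ρ) k →ₐ[k] MvPolynomial (PT n m ρ) k :=
  (ev1 k (PT n m ρ)).comp (rename (epiv n m ρ).symm)

/-- unipotent change of coordinates -/
def shr (k : Type) [Field k] (n m : ℕ) (ρ : Type) (t : k) :
    MvPolynomial (PT n m ρ) k →ₐ[k] MvPolynomial (PT n m ρ) k :=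
  aeval (Sum.elim (Sum.elim
    (fun q => MvPolynomial.X (Sum.inl (Sum.inl q)) +
      C t * (MvPolynomial.X (Sum.inr (Sum.inl q.1)) * MvPolynomial.X (Sum.inr (Sum.inr q.2))))
    (fun r => MvPolynomial.X (Sum.inl (Sum.inr r)))) (fun v => MvPolynomial.X (Sum.inr v)))

lemma shr_ac (t : k) (a : Fin n) (c : Fin m) :
    shr k n m ρ t (MvPolynomial.X (Sum.inl (Sum.inl (a, c)))) =
      MvPolynomial.X (Sum.inl (Sum.inl (a, c))) +
      C t * (MvPolynomial.X (Sum.inr (Sum.inl a)) * MvPolynomial.X (Sum.inr (Sum.inr c))) := by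
  simp [shr]

lemma shr_r (t : k) (r : ρ) : shr k n m ρ t (MvPolynomial.X (Sum.inl (Sum.inr r))) =
    MvPolynomial.X (Sum.inl (Sum.inr r)) := by
  simp [shr]

lemma shr_vh (t : k) (v : Fin n ⊕ Fin m) : shr k n m ρ t (MvPolynomial.X (Sum.inr v)) =
    MvPolynomial.X (Sum.inr v) := by
  simp [shr]

lemma shr_comp (t s : k) : (shr k n m ρ t).comp (shr k n m ρ s) = shr k n m ρ (t + s) := by
  apply MvPolynomial.algHom_ext
  rintro ((⟨a, c⟩ | r) | v)
  · rw [AlgHom.comp_apply, shr_ac, map_add, map_mul, map_mul, shr_ac, shr_vh, shr_vh, shr_ac,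
      algHom_C, MvPolynomial.algebraMap_eq, C_add]
    ring
  · rw [AlgHom.comp_apply, shr_r, shr_r, shr_r]
  · rw [AlgHom.comp_apply, shr_vh, shr_vh, shr_vh]

lemma shr_zero : shr k n m ρ 0 = AlgHom.id k _ := by
  apply MvPolynomial.algHom_ext
  rintro ((⟨a, c⟩ | r) | v)
  · rw [shr_ac]; simp
  · rw [shr_r]; simp
  · rw [shr_vh]; simp

/-- slice and straighten -/
def pivU (k : Type) [Field k] (n m : ℕ) (ρ : Type) :
    MvPolynomial (CI (n + 1) (m + 1) ρ) k →ₐ[k] MvPolynomial (PT n m ρ) k :=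
  (shr k n m ρ 1).comp (pivA k n m ρ)

lemma pivU_00 : pivU k n m ρ (MvPolynomial.X (Sum.inl (0, 0))) = 1 := by
  simp [pivU, pivA, epiv_symm_00, ev1_none]

lemma pivU_ac (a : Fin n) (c : Fin m) : pivU k n m ρ (MvPolynomial.X (Sum.inl (a.succ, c.succ))) =
    MvPolynomial.X (Sum.inl (Sum.inl (a, c))) +
      MvPolynomial.X (Sum.inr (Sum.inl a)) * MvPolynomial.X (Sum.inr (Sum.inr c)) := by
  simp [pivU, pivA, epiv_symm_ac, ev1_some, shr_ac]

lemma pivU_v (a : Fin n) : pivU k n m ρ (MvPolynomial.X (Sum.inl (a.succ, 0))) =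
    MvPolynomial.X (Sum.inr (Sum.inl a)) := by
  simp [pivU, pivA, epiv_symm_v, ev1_some, shr_vh]

lemma pivU_h (c : Fin m) : pivU k n m ρ (MvPolynomial.X (Sum.inl (0, c.succ))) =
    MvPolynomial.X (Sum.inr (Sum.inr c)) := by
  simp [pivU, pivA, epiv_symm_h, ev1_some, shr_vh]

lemma pivU_r (r : ρ) : pivU k n m ρ (MvPolynomial.X (Sum.inr r)) =
    MvPolynomial.X (Sum.inl (Sum.inr r)) := by
  simp [pivU, pivA, epiv_symm_r, ev1_some, shr_r]

lemma pivA_surj : Function.Surjective (pivA k n m ρ) := by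
  intro g
  obtain ⟨f, hf⟩ := ev1_surj (k := k) (τ := PT n m ρ) g
  refine ⟨rename (epiv n m ρ) f, ?_⟩
  rw [pivA, AlgHom.comp_apply, rename_rename, Equiv.symm_comp_self, rename_id]
  exact hf

lemma shr_surj (t : k) : Function.Surjective (shr k n m ρ t) := by
  intro g
  refine ⟨shr k n m ρ (-t) g, ?_⟩
  have := AlgHom.congr_fun (shr_comp (n := n) (m := m) (ρ := ρ) t (-t)) g
  rw [add_neg_cancel, shr_zero] at this
  exact this

lemma pivU_surj : Function.Surjective (pivU k n m ρ) := by
  have := (shr_surj (n := n) (m := m) (ρ := ρ) (1 : k)).comp (pivA_surj (k := k))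
  exact this

/-- induced row operation -/
def rowD2 (k : Type) [Field k] (n m : ℕ) (ρ : Type) (a b : Fin n) : Der k (PT n m ρ) :=
  vf (Sum.elim
    (Sum.elim (fun q => if q.1 = a then MvPolynomial.X (Sum.inl (Sum.inl (b, q.2))) else 0)
      (fun _ => 0))
    (Sum.elim (fun a' => if a' = a then MvPolynomial.X (Sum.inr (Sum.inl b)) else 0)
      (fun _ => 0)))

/-- induced spectator operation -/
def spD2 {k : Type} [Field k] (n m : ℕ) {ρ : Type} (D : Der k ρ) : Der k (PT n m ρ) :=
  vf (Sum.elim (Sum.elim (fun _ => 0)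
    (fun r => rename (Sum.inl ∘ Sum.inr) (D (MvPolynomial.X r)))) (fun _ => 0))

lemma int_row0 (a : Fin n) (i : CI (n + 1) (m + 1) ρ) :
    pderiv (Sum.inr (Sum.inl a)) (pivU k n m ρ (MvPolynomial.X i)) =
      pivU k n m ρ (rowD k (n + 1) (m + 1) ρ a.succ 0 (MvPolynomial.X i)) := by
  classical
  rcases i with ⟨a', c'⟩ | r
  · rw [rowD_inl]
    refine Fin.cases ?_ ?_ a'
    · rw [if_neg (Fin.succ_ne_zero a).symm, map_zero]
      refine Fin.cases ?_ ?_ c'
      · rw [pivU_00, pderiv_one]
      · intro c; rw [pivU_h, pderiv_X_of_ne]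
        simp
    · intro a'
      refine Fin.cases ?_ ?_ c'
      · rw [pivU_v]
        by_cases h : a' = a
        · subst h
          rw [pderiv_X_self, if_pos rfl, pivU_00]
        · rw [pderiv_X_of_ne (by simpa using h), if_neg (by simpa using h), map_zero]
      · intro c
        rw [pivU_ac, map_add, pderiv_mul, pderiv_X_of_ne (by simp)]
        by_cases h : a' = a
        · subst h
          rw [pderiv_X_self, if_pos rfl, pivU_h, pderiv_X_of_ne (by simp)]
          ring
        · rw [pderiv_X_of_ne (by simpa using h), if_neg (by simpa using h), map_zero,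
            pderiv_X_of_ne (by simp)]
          ring
  · rw [rowD_inr, map_zero, pivU_r, pderiv_X_of_ne (by simp)]

lemma int_col (c : Fin m) (i : CI (n + 1) (m + 1) ρ) :
    pderiv (Sum.inr (Sum.inr c)) (pivU k n m ρ (MvPolynomial.X i)) =
      pivU k n m ρ (colD k (n + 1) m ρ c (MvPolynomial.X i)) := by
  classical
  rcases i with ⟨a', c'⟩ | r
  · rw [colD_inl]
    refine Fin.cases ?_ ?_ c'
    · rw [if_neg (Fin.succ_ne_zero c).symm, map_zero]
      refine Fin.cases ?_ ?_ a'
      · rw [pivU_00, pderiv_one]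
      · intro a; rw [pivU_v, pderiv_X_of_ne]
        simp
    · intro c'
      refine Fin.cases ?_ ?_ a'
      · rw [pivU_h]
        by_cases h : c' = c
        · subst h
          rw [pderiv_X_self, if_pos rfl, pivU_00]
        · rw [pderiv_X_of_ne (by simpa using h), if_neg (by simpa using h), map_zero]
      · intro a
        rw [pivU_ac, map_add, pderiv_mul, pderiv_X_of_ne (by simp)]
        by_cases h : c' = c
        · subst h
          rw [pderiv_X_self, if_pos rfl, pivU_v, pderiv_X_of_ne (by simp)]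
          ring
        · rw [pderiv_X_of_ne (by simp), if_neg (by simpa using h), map_zero,
            pderiv_X_of_ne (by simpa using h)]
          ring
  · rw [colD_inr, map_zero, pivU_r, pderiv_X_of_ne (by simp)]

lemma int_row (a b : Fin n) (i : CI (n + 1) (m + 1) ρ) :
    rowD2 k n m ρ a b (pivU k n m ρ (MvPolynomial.X i)) =
      pivU k n m ρ (rowD k (n + 1) (m + 1) ρ a.succ b.succ (MvPolynomial.X i)) := by
  have e1 : ∀ q : Fin n × Fin m, rowD2 k n m ρ a b (MvPolynomial.X (Sum.inl (Sum.inl q))) =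
      if q.1 = a then MvPolynomial.X (Sum.inl (Sum.inl (b, q.2))) else 0 := by
    intro q; simp [rowD2, vf_X]
  have e2 : ∀ a', rowD2 k n m ρ a b (MvPolynomial.X (Sum.inr (Sum.inl a'))) =
      if a' = a then MvPolynomial.X (Sum.inr (Sum.inl b)) else 0 := by
    intro q; simp [rowD2, vf_X]
  have e3 : ∀ c, rowD2 k n m ρ a b (MvPolynomial.X (Sum.inr (Sum.inr c))) = 0 := by
    intro q; simp [rowD2, vf_X]
  have e4 : ∀ r, rowD2 k n m ρ a b (MvPolynomial.X (Sum.inl (Sum.inr r))) = 0 := by
    intro q; simp [rowD2, vf_X]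
  rcases i with ⟨a', c'⟩ | r
  · rw [rowD_inl]
    refine Fin.cases ?_ ?_ a'
    · rw [if_neg (Fin.succ_ne_zero a).symm, map_zero]
      refine Fin.cases ?_ ?_ c'
      · rw [pivU_00]; simp
      · intro c; rw [pivU_h, e3]
    · intro a'
      refine Fin.cases ?_ ?_ c'
      · rw [pivU_v, e2]
        by_cases h : a' = a
        · subst h
          rw [if_pos rfl, if_pos rfl, pivU_v]
        · rw [if_neg (by simpa using h), if_neg (by simpa using h), map_zero]
      · intro c
        rw [pivU_ac, map_add, Derivation.leibniz, e1, e2, e3]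
        by_cases h : a' = a
        · subst h
          simp only [if_true, smul_eq_mul]
          rw [pivU_ac]
          ring
        · rw [if_neg (by simpa using h), if_neg (by simpa using h), if_neg (by simpa using h),
            map_zero]
          simp
  · rw [rowD_inr, map_zero, pivU_r, e4]

lemma int_sp (D : Der k ρ) (i : CI (n + 1) (m + 1) ρ) :
    spD2 n m D (pivU k n m ρ (MvPolynomial.X i)) =
      pivU k n m ρ (spD (Fin (n + 1) × Fin (m + 1)) D (MvPolynomial.X i)) := by
  have e1 : ∀ q : Fin n × Fin m, spD2 n m D (MvPolynomial.X (Sum.inl (Sum.inl q))) = 0 := by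
    intro q; simp [spD2, vf_X]
  have e2 : ∀ v : Fin n ⊕ Fin m, spD2 n m D (MvPolynomial.X (Sum.inr v)) = 0 := by
    intro v; simp [spD2, vf_X]
  have e4 : ∀ r, spD2 n m D (MvPolynomial.X (Sum.inl (Sum.inr r))) =
      rename (Sum.inl ∘ Sum.inr) (D (MvPolynomial.X r)) := by
    intro q; simp [spD2, vf_X]
  rcases i with ⟨a', c'⟩ | r
  · rw [spD_inl, map_zero]
    refine Fin.cases ?_ ?_ a'
    · refine Fin.cases ?_ ?_ c'
      · rw [pivU_00]; simp
      · intro c; rw [pivU_h, e2]
    · intro a'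
      refine Fin.cases ?_ ?_ c'
      · rw [pivU_v, e2]
      · intro c
        rw [pivU_ac, map_add, Derivation.leibniz, e1, e2, e2]
        simp
  · rw [spD_inr, pivU_r, e4]
    have : (pivU k n m ρ).comp (rename Sum.inr) = rename (Sum.inl ∘ Sum.inr) := by
      apply MvPolynomial.algHom_ext
      intro r
      rw [AlgHom.comp_apply, rename_X, pivU_r, rename_X]
      rfl
    exact (AlgHom.congr_fun this _).symm

end Pivot

end

end Pool.Agent.Helper38
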