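import Mathlib
import Pool.Agent.Helper38.KPv

open MvPolynomial Module

namespace Pool.Agent.Helper38

noncomputable section

section Defs

/-- variables of the original ring -/
abbrev SI (E : Type) (p : ℕ) (Q ρ : Type) : Type := (E × (Fin p ⊕ Q)) ⊕ ρ
/-- variables of the enlarged matrix -/
abbrev SR (E : Type) (p : ℕ) (Q ρ : Type) : Type := ((E ⊕ Fin p) × (Fin p ⊕ Q)) ⊕ ρ
/-- variables of the auxiliary ring -/
abbrev TI (E : Type) (p : ℕ) (Q ρ : Type) : Type := SI E p Q ρ ⊕ (Fin p × (Fin p ⊕ Q))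

variable (k : Type) [Field k] (E : Type) (p : ℕ) (Q ρ : Type)

/-- framing columns, zero for the new columns -/
def gam (s : E) : Fin p ⊕ Q → MvPolynomial (TI E p Q ρ) k :=
  Sum.elim (fun _ => 0) (fun q => MvPolynomial.X (Sum.inl (Sum.inl (s, Sum.inr q))))

def rowv : E ⊕ Fin p → (Fin p ⊕ Q) → MvPolynomial (TI E p Q ρ) k :=
  Sum.elim (fun s c => gam k E p Q ρ s c - ∑ l, MvPolynomial.X (Sum.inl (Sum.inl (s, Sum.inl l))) *
    MvPolynomial.X (Sum.inr (l, c))) (fun l c => MvPolynomial.X (Sum.inr (l, c)))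

/-- the parametrisation of the enlarged locus -/
def psi : MvPolynomial (SR E p Q ρ) k →ₐ[k] MvPolynomial (TI E p Q ρ) k :=
  aeval (Sum.elim (fun x => rowv k E p Q ρ x.1 x.2) (fun r => MvPolynomial.X (Sum.inl (Sum.inr r))))

variable {k E p Q ρ}

lemma psi_E (s : E) (c : Fin p ⊕ Q) : psi k E p Q ρ (MvPolynomial.X (Sum.inl (Sum.inl s, c))) =
    gam k E p Q ρ s c - ∑ l, MvPolynomial.X (Sum.inl (Sum.inl (s, Sum.inl l))) *
      MvPolynomial.X (Sum.inr (l, c)) := by
  simp [psi, rowv]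

lemma psi_P (l : Fin p) (c : Fin p ⊕ Q) :
    psi k E p Q ρ (MvPolynomial.X (Sum.inl (Sum.inr l, c))) = MvPolynomial.X (Sum.inr (l, c)) := by
  simp [psi, rowv]

lemma psi_r (r : ρ) : psi k E p Q ρ (MvPolynomial.X (Sum.inr r)) =
    MvPolynomial.X (Sum.inl (Sum.inr r)) := by
  simp [psi]

/-- the enlarged ideal -/
def dbl (I : Ideal (MvPolynomial (SI E p Q ρ) k)) : Ideal (MvPolynomial (SR E p Q ρ) k) :=
  (I.map (rename Sum.inl : MvPolynomial (SI E p Q ρ) k →ₐ[k] MvPolynomial (TI E p Q ρ) k)).comap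
    (psi k E p Q ρ)

variable {X : Type} [AddCommGroup X]

def cwt (p : ℕ) (Q : Type) : Fin p ⊕ Q → (Fin p → ℤ) :=
  Sum.elim (fun b => - Pi.single b 1) (fun _ => 0)

def wI (a : E → X) (π : Fin p → X) (wρ : ρ → X) : SI E p Q ρ → X :=
  Sum.elim (fun x => a x.1 - Sum.elim π (fun _ => 0) x.2) wρ

def wR (a : E → X) (π : Fin p → X) (wρ : ρ → X) : SR E p Q ρ → X × (Fin p → ℤ) :=
  Sum.elim (fun x => (Sum.elim a π x.1, cwt p Q x.2)) (fun r => (wρ r, 0))

def wT (a : E → X) (π : Fin p → X) (wρ : ρ → X) : TI E p Q ρ → X × (Fin p → ℤ) :=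
  Sum.elim (fun i => (wI a π wρ i, 0)) (fun x => (π x.1, cwt p Q x.2))

lemma psi_homog (a : E → X) (π : Fin p → X) (wρ : ρ → X) (i : SR E p Q ρ) :
    IsWeightedHomogeneous (wT a π wρ) (psi k E p Q ρ (MvPolynomial.X i)) (wR a π wρ i) := by
  rcases i with ⟨s | l, c⟩ | r
  · rw [psi_E]
    apply IsWeightedHomogeneous.sub
    · rcases c with b | q
      · exact isWeightedHomogeneous_zero k _ _
      · have h1 := isWeightedHomogeneous_X k (wT (Q := Q) a π wρ) (Sum.inl (Sum.inl (s, Sum.inr q)))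
        have h2 : wT a π wρ (Sum.inl (Sum.inl (s, Sum.inr q))) =
            wR a π wρ (Sum.inl (Sum.inl s, Sum.inr q)) := by
          simp [wT, wR, wI, cwt]
        rwa [h2] at h1
    · apply IsWeightedHomogeneous.sum
      intro l _
      have h1 := (isWeightedHomogeneous_X k (wT (Q := Q) a π wρ)
        (Sum.inl (Sum.inl (s, Sum.inl l)))).mul
        (isWeightedHomogeneous_X k (wT (Q := Q) a π wρ) (Sum.inr (l, c)))
      have h2 : wT (Q := Q) a π wρ (Sum.inl (Sum.inl (s, Sum.inl l))) +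
          wT a π wρ (Sum.inr (l, c)) = wR a π wρ (Sum.inl (Sum.inl s, c)) := by
        simp [wT, wR, wI]
      rwa [h2] at h1
  · rw [psi_P]
    exact isWeightedHomogeneous_X k (wT a π wρ) (Sum.inr (l, c))
  · rw [psi_r]
    exact isWeightedHomogeneous_X k (wT a π wρ) (Sum.inl (Sum.inr r))

lemma psi_aeval : psi k E p Q ρ = aeval (fun i => psi k E p Q ρ (MvPolynomial.X i)) := by
  apply MvPolynomial.algHom_ext
  intro i; simp

lemma ext_homog_T {a : E → X} {π : Fin p → X} {wρ : ρ → X}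
    {I : Ideal (MvPolynomial (SI E p Q ρ) k)} (hI : IsHomog (wI a π wρ) I) :
    IsHomog (wT a π wρ)
      (I.map (rename Sum.inl : MvPolynomial (SI E p Q ρ) k →ₐ[k] MvPolynomial (TI E p Q ρ) k)) := by
  apply IsHomog.map_rename
  exact hI.coarsen (AddMonoidHom.inl X (Fin p → ℤ))

lemma dbl_homog {a : E → X} {π : Fin p → X} {wρ : ρ → X}
    {I : Ideal (MvPolynomial (SI E p Q ρ) k)} (hI : IsHomog (wI a π wρ) I) :
    IsHomog (wR a π wρ) (dbl I) := by
  rw [dbl, psi_aeval]
  exact (ext_homog_T hI).comap_aeval _ (psi_homog a π wρ)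

lemma comap_map_inl {σ τ : Type} (I : Ideal (MvPolynomial σ k)) :
    (I.map (rename Sum.inl : MvPolynomial σ k →ₐ[k] MvPolynomial (σ ⊕ τ) k)).comap
      (rename Sum.inl : MvPolynomial σ k →ₐ[k] MvPolynomial (σ ⊕ τ) k) = I := by
  apply le_antisymm
  · intro f hf
    rw [Ideal.mem_comap] at hf
    let r : MvPolynomial (σ ⊕ τ) k →ₐ[k] MvPolynomial σ k :=
      aeval (Sum.elim MvPolynomial.X (fun _ => 0))
    have h1 := Ideal.mem_map_of_mem r hf
    rw [Ideal.map_mapₐ] at h1
    have h2 : r.comp (rename Sum.inl) = AlgHom.id k (MvPolynomial σ k) := by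
      apply MvPolynomial.algHom_ext
      intro i; simp [r]
    have h3 : r (rename Sum.inl f) = f := AlgHom.congr_fun h2 f
    rw [h2, h3] at h1
    have h4 : I.map (AlgHom.id k (MvPolynomial σ k)) = I := Ideal.map_id I
    rwa [h4] at h1
  · exact Ideal.le_comap_map

lemma map_inl_ne_top {σ τ : Type} {I : Ideal (MvPolynomial σ k)} (hI : I ≠ ⊤) :
    I.map (rename Sum.inl : MvPolynomial σ k →ₐ[k] MvPolynomial (σ ⊕ τ) k) ≠ ⊤ := by
  intro h
  apply hI
  rw [← comap_map_inl (τ := τ) I, h, Ideal.comap_top]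

lemma dbl_ne_top {I : Ideal (MvPolynomial (SI E p Q ρ) k)} (hI : I ≠ ⊤) : dbl I ≠ ⊤ := by
  intro h
  apply map_inl_ne_top (τ := Fin p × (Fin p ⊕ Q)) hI
  rw [Ideal.eq_top_iff_one] at h ⊢
  rw [dbl, Ideal.mem_comap, map_one] at h
  exact h

/-- extension of an algebra map by spectator variables -/
def extHom {σ τ : Type} (υ : Type) (u : MvPolynomial σ k →ₐ[k] MvPolynomial τ k) :
    MvPolynomial (σ ⊕ υ) k →ₐ[k] MvPolynomial (τ ⊕ υ) k :=
  aeval (Sum.elim (fun i => rename Sum.inl (u (MvPolynomial.X i)))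
    (fun v => MvPolynomial.X (Sum.inr v)))

lemma extHom_inl {σ τ υ : Type} (u : MvPolynomial σ k →ₐ[k] MvPolynomial τ k) (i : σ) :
    extHom υ u (MvPolynomial.X (Sum.inl i)) = rename Sum.inl (u (MvPolynomial.X i)) := by
  simp [extHom]

lemma extHom_inr {σ τ υ : Type} (u : MvPolynomial σ k →ₐ[k] MvPolynomial τ k) (v : υ) :
    extHom υ u (MvPolynomial.X (Sum.inr v)) = MvPolynomial.X (Sum.inr v) := by
  simp [extHom]

lemma extHom_rename {σ τ υ : Type} (u : MvPolynomial σ k →ₐ[k] MvPolynomial τ k)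
    (f : MvPolynomial σ k) : extHom υ u (rename Sum.inl f) = rename Sum.inl (u f) := by
  have : (extHom υ u).comp (rename Sum.inl) =
      (rename Sum.inl : MvPolynomial τ k →ₐ[k] MvPolynomial (τ ⊕ υ) k).comp u := by
    apply MvPolynomial.algHom_ext
    intro i
    rw [AlgHom.comp_apply, rename_X, extHom_inl]
    rfl
  exact AlgHom.congr_fun this f

/-- Preimages commute with adding spectator variables. -/
lemma comap_extHom [CharZero k] {σ τ υ : Type} [Fintype υ]
    (u : MvPolynomial σ k →ₐ[k] MvPolynomial τ k) (J : Ideal (MvPolynomial τ k)) :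
    (J.map (rename Sum.inl : MvPolynomial τ k →ₐ[k] MvPolynomial (τ ⊕ υ) k)).comap (extHom υ u) =
      (J.comap u).map (rename Sum.inl : MvPolynomial σ k →ₐ[k] MvPolynomial (σ ⊕ υ) k) := by
  classical
  set K := (J.map (rename Sum.inl : MvPolynomial τ k →ₐ[k] MvPolynomial (τ ⊕ υ) k)).comap
    (extHom υ u) with hK
  have stabJ : ∀ v : υ, ∀ f ∈ J.map (rename Sum.inl : MvPolynomial τ k →ₐ[k]
      MvPolynomial (τ ⊕ υ) k), pderiv (Sum.inr v) f ∈ J.map (rename Sum.inl :
      MvPolynomial τ k →ₐ[k] MvPolynomial (τ ⊕ υ) k) := by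
    intro v f hf
    rw [Ideal.map] at hf
    induction hf using Submodule.span_induction with
    | mem x hx =>
      obtain ⟨g, hg, rfl⟩ := hx
      have : pderiv (Sum.inr v) (rename Sum.inl g : MvPolynomial (τ ⊕ υ) k) = 0 := by
        apply pderiv_eq_zero_of_notMem_vars
        intro h
        have := vars_rename (Sum.inl : τ → τ ⊕ υ) g h
        simp at this
      change pderiv (Sum.inr v) (rename Sum.inl g : MvPolynomial (τ ⊕ υ) k) ∈ _
      rw [this]
      exact zero_mem _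
    | zero => rw [map_zero]; exact zero_mem _
    | add x y _ _ hx hy => rw [map_add]; exact add_mem hx hy
    | smul c x hx' hx =>
      rw [smul_eq_mul, pderiv_mul]
      exact add_mem (Ideal.mul_mem_left _ _ hx') (Ideal.mul_mem_left _ _ hx)
  have stabK : ∀ v : υ, ∀ f ∈ K, pderiv (Sum.inr v) f ∈ K := by
    intro v f hf
    rw [hK, Ideal.mem_comap] at hf ⊢
    have h1 := intertwine (pderiv (Sum.inr v) : Der k (σ ⊕ υ)) (pderiv (Sum.inr v) : Der k (τ ⊕ υ))
      (extHom υ u) (by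
        rintro (i | v')
        · rw [extHom_inl, pderiv_X_of_ne (by simp), map_zero]
          apply pderiv_eq_zero_of_notMem_vars
          intro h
          have := vars_rename (Sum.inl : τ → τ ⊕ υ) _ h
          simp at this
        · rw [extHom_inr]
          by_cases h : v' = v
          · subst h
            rw [pderiv_X_self, pderiv_X_self, map_one]
          · rw [pderiv_X_of_ne (by simpa using h), pderiv_X_of_ne (by simpa using h), map_zero]) f
    rw [← h1]
    exact stabJ v _ hf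
  rw [extended_of_stable stabK]
  congr 1
  ext f
  rw [Ideal.mem_comap, hK, Ideal.mem_comap, Ideal.mem_comap, extHom_rename]
  constructor
  · intro h
    have : u f ∈ (J.map (rename Sum.inl : MvPolynomial τ k →ₐ[k] MvPolynomial (τ ⊕ υ) k)).comap
      (rename Sum.inl : MvPolynomial τ k →ₐ[k] MvPolynomial (τ ⊕ υ) k) := h
    rwa [comap_map_inl] at this
  · intro h
    exact Ideal.mem_map_of_mem _ h

end Defs

end

end Pool.Agent.Helper38
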