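import Mathlib
import Pool.Agent.Helper38.KDbl

open MvPolynomial Module

namespace Pool.Agent.Helper38

noncomputable section

section Idx

variable {E : Type} {p : ℕ} {Q ρ : Type}

abbrev R1 (E : Type) (p : ℕ) (ρ : Type) : Type := ρ ⊕ (E ⊕ Fin p)
abbrev SS (E : Type) (p : ℕ) (Q ρ : Type) : Type := SR E p Q (R1 E p ρ) ⊕ (Fin p ⊕ Q)
abbrev TT (E : Type) (p : ℕ) (Q ρ : Type) : Type := TI E p Q (R1 E p ρ) ⊕ (Fin p ⊕ Q)

def scR : E ⊕ Fin p → E ⊕ Fin (p + 1) := Sum.map id Fin.succ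
def scC : Fin p ⊕ Q → Fin (p + 1) ⊕ Q := Sum.map Fin.succ id

def rowI : E ⊕ Fin (p + 1) → Option (E ⊕ Fin p) :=
  Sum.elim (fun s => some (Sum.inl s))
    (Fin.cases (motive := fun _ => Option (E ⊕ Fin p)) none (fun l => some (Sum.inr l)))
def colI : Fin (p + 1) ⊕ Q → Option (Fin p ⊕ Q) :=
  Sum.elim (Fin.cases (motive := fun _ => Option (Fin p ⊕ Q)) none (fun l => some (Sum.inl l)))
    (fun q => some (Sum.inr q))

lemma rowI_zero : rowI (Sum.inr 0 : E ⊕ Fin (p + 1)) = none := by simp [rowI]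
lemma rowI_sc (r : E ⊕ Fin p) : rowI (scR r) = some r := by
  rcases r with s | l <;> simp [rowI, scR]
lemma colI_zero : colI (Sum.inl 0 : Fin (p + 1) ⊕ Q) = none := by simp [colI]
lemma colI_sc (c : Fin p ⊕ Q) : colI (scC c) = some c := by
  rcases c with b | q <;> simp [colI, scC]

lemma row_cases (r : E ⊕ Fin (p + 1)) : r = Sum.inr 0 ∨ ∃ r', r = scR r' := by
  rcases r with s | l
  · exact Or.inr ⟨Sum.inl s, rfl⟩
  · refine Fin.cases ?_ ?_ l
    · exact Or.inl rfl
    · intro l; exact Or.inr ⟨Sum.inr l, rfl⟩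

lemma col_cases (c : Fin (p + 1) ⊕ Q) : c = Sum.inl 0 ∨ ∃ c', c = scC c' := by
  rcases c with b | q
  · refine Fin.cases ?_ ?_ b
    · exact Or.inl rfl
    · intro l; exact Or.inr ⟨Sum.inl l, rfl⟩
  · exact Or.inr ⟨Sum.inr q, rfl⟩

def ebs (E : Type) (p : ℕ) (Q ρ : Type) : Option (SS E p Q ρ) ≃ SR E (p + 1) Q ρ where
  toFun := fun o => o.elim (Sum.inl (Sum.inr 0, Sum.inl 0)) (Sum.elim
    (Sum.elim (fun x => Sum.inl (scR x.1, scC x.2))
      (Sum.elim (fun r => Sum.inr r) (fun r => Sum.inl (scR r, Sum.inl 0))))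
    (fun c => Sum.inl (Sum.inr 0, scC c)))
  invFun := Sum.elim (fun x => (rowI x.1).elim
      ((colI x.2).elim none (fun c => some (Sum.inr c)))
      (fun r => (colI x.2).elim (some (Sum.inl (Sum.inr (Sum.inr r))))
        (fun c => some (Sum.inl (Sum.inl (r, c))))))
    (fun r => some (Sum.inl (Sum.inr (Sum.inl r))))
  left_inv := by
    rintro (_ | ((⟨r, c⟩ | (r | r)) | c)) <;> simp [rowI_zero, rowI_sc, colI_zero, colI_sc]
  right_inv := by
    rintro (⟨r, c⟩ | r)
    · rcases row_cases r with rfl | ⟨r', rfl⟩ <;> rcases col_cases c with rfl | ⟨c', rfl⟩ <;>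
        simp [rowI_zero, rowI_sc, colI_zero, colI_sc]
    · simp

def ebt (E : Type) (p : ℕ) (Q ρ : Type) : Option (TT E p Q ρ) ≃ TI E (p + 1) Q ρ where
  toFun := fun o => o.elim (Sum.inr (0, Sum.inl 0)) (Sum.elim
    (Sum.elim (Sum.elim (fun x => Sum.inl (Sum.inl (x.1, scC x.2)))
      (Sum.elim (fun r => Sum.inl (Sum.inr r))
        (Sum.elim (fun s => Sum.inl (Sum.inl (s, Sum.inl 0)))
          (fun l => Sum.inr (l.succ, Sum.inl 0)))))
      (fun x => Sum.inr (x.1.succ, scC x.2)))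
    (fun c => Sum.inr (0, scC c)))
  invFun := Sum.elim (Sum.elim (fun x => (colI x.2).elim
        (some (Sum.inl (Sum.inl (Sum.inr (Sum.inr (Sum.inl x.1))))))
        (fun c => some (Sum.inl (Sum.inl (Sum.inl (x.1, c))))))
      (fun r => some (Sum.inl (Sum.inl (Sum.inr (Sum.inl r))))))
    (fun x => Fin.cases (motive := fun _ => Option (TT E p Q ρ))
      ((colI x.2).elim none (fun c => some (Sum.inr c)))
      (fun l => (colI x.2).elim (some (Sum.inl (Sum.inl (Sum.inr (Sum.inr (Sum.inr l))))))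
        (fun c => some (Sum.inl (Sum.inr (l, c))))) x.1)
  left_inv := by
    rintro (_ | (((⟨s, c⟩ | (r | (s | l))) | ⟨l, c⟩) | c)) <;> simp [colI_zero, colI_sc]
  right_inv := by
    rintro ((⟨s, c⟩ | r) | ⟨l, c⟩)
    · rcases col_cases c with rfl | ⟨c', rfl⟩ <;> simp [colI_zero, colI_sc]
    · simp
    · refine Fin.cases ?_ ?_ l
      · rcases col_cases c with rfl | ⟨c', rfl⟩ <;> simp [colI_zero, colI_sc]
      · intro l
        rcases col_cases c with rfl | ⟨c', rfl⟩ <;> simp [colI_zero, colI_sc]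

lemma ebs_none : ebs E p Q ρ none = Sum.inl (Sum.inr 0, Sum.inl 0) := rfl
lemma ebs_s1 : (ebs E p Q ρ).symm (Sum.inl (Sum.inr 0, Sum.inl 0)) = none := by
  rw [Equiv.symm_apply_eq]; rfl
lemma ebs_s2 (c : Fin p ⊕ Q) :
    (ebs E p Q ρ).symm (Sum.inl (Sum.inr 0, scC c)) = some (Sum.inr c) := by
  rw [Equiv.symm_apply_eq]; rfl
lemma ebs_s3 (r : E ⊕ Fin p) :
    (ebs E p Q ρ).symm (Sum.inl (scR r, Sum.inl 0)) = some (Sum.inl (Sum.inr (Sum.inr r))) := by
  rw [Equiv.symm_apply_eq]; rfl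
lemma ebs_s4 (r : E ⊕ Fin p) (c : Fin p ⊕ Q) :
    (ebs E p Q ρ).symm (Sum.inl (scR r, scC c)) = some (Sum.inl (Sum.inl (r, c))) := by
  rw [Equiv.symm_apply_eq]; rfl
lemma ebs_s5 (r : ρ) :
    (ebs E p Q ρ).symm (Sum.inr r) = some (Sum.inl (Sum.inr (Sum.inl r))) := by
  rw [Equiv.symm_apply_eq]; rfl

lemma ebt_none : ebt E p Q ρ none = Sum.inr (0, Sum.inl 0) := rfl
lemma ebt_s1 : (ebt E p Q ρ).symm (Sum.inr (0, Sum.inl 0)) = none := by
  rw [Equiv.symm_apply_eq]; rfl
lemma ebt_s2 (c : Fin p ⊕ Q) :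
    (ebt E p Q ρ).symm (Sum.inr (0, scC c)) = some (Sum.inr c) := by
  rw [Equiv.symm_apply_eq]; rfl
lemma ebt_s3 (l : Fin p) : (ebt E p Q ρ).symm (Sum.inr (l.succ, Sum.inl 0)) =
    some (Sum.inl (Sum.inl (Sum.inr (Sum.inr (Sum.inr l))))) := by
  rw [Equiv.symm_apply_eq]; rfl
lemma ebt_s4 (l : Fin p) (c : Fin p ⊕ Q) : (ebt E p Q ρ).symm (Sum.inr (l.succ, scC c)) =
    some (Sum.inl (Sum.inr (l, c))) := by
  rw [Equiv.symm_apply_eq]; rfl
lemma ebt_s5 (r : ρ) : (ebt E p Q ρ).symm (Sum.inl (Sum.inr r)) =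
    some (Sum.inl (Sum.inl (Sum.inr (Sum.inl r)))) := by
  rw [Equiv.symm_apply_eq]; rfl
lemma ebt_s6 (s : E) : (ebt E p Q ρ).symm (Sum.inl (Sum.inl (s, Sum.inl 0))) =
    some (Sum.inl (Sum.inl (Sum.inr (Sum.inr (Sum.inl s))))) := by
  rw [Equiv.symm_apply_eq]; rfl
lemma ebt_s7 (s : E) (c : Fin p ⊕ Q) : (ebt E p Q ρ).symm (Sum.inl (Sum.inl (s, scC c))) =
    some (Sum.inl (Sum.inl (Sum.inl (s, c)))) := by
  rw [Equiv.symm_apply_eq]; rfl

end Idx

section Maps

variable {k : Type} [Field k] {E : Type} {p : ℕ} {Q ρ : Type}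

/-- the new spectator variables, rows in `E` -/
def cS (k : Type) [Field k] (E : Type) (p : ℕ) (Q ρ : Type) (s : E) :
    MvPolynomial (TT E p Q ρ) k := MvPolynomial.X (Sum.inl (Sum.inl (Sum.inr (Sum.inr (Sum.inl s)))))
/-- the new spectator variables, rows in `P` -/
def cP (k : Type) [Field k] (E : Type) (p : ℕ) (Q ρ : Type) (l : Fin p) :
    MvPolynomial (TT E p Q ρ) k := MvPolynomial.X (Sum.inl (Sum.inl (Sum.inr (Sum.inr (Sum.inr l)))))
/-- the matrix entries -/
def fT (k : Type) [Field k] (E : Type) (p : ℕ) (Q ρ : Type) (s : E) (c : Fin p ⊕ Q) :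
    MvPolynomial (TT E p Q ρ) k := MvPolynomial.X (Sum.inl (Sum.inl (Sum.inl (s, c))))

def shT (k : Type) [Field k] (E : Type) (p : ℕ) (Q ρ : Type) (t : k) :
    MvPolynomial (TT E p Q ρ) k →ₐ[k] MvPolynomial (TT E p Q ρ) k :=
  aeval (Sum.elim
    (Sum.elim (Sum.elim (fun x => fT k E p Q ρ x.1 x.2)
      (Sum.elim (fun r => MvPolynomial.X (Sum.inl (Sum.inl (Sum.inr (Sum.inl r)))))
        (Sum.elim (fun s => - cS k E p Q ρ s - ∑ l, fT k E p Q ρ s (Sum.inl l) * cP k E p Q ρ l)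
          (fun l => cP k E p Q ρ l))))
      (fun x => MvPolynomial.X (Sum.inl (Sum.inr x)) +
        C t * (MvPolynomial.X (Sum.inr x.2) * cP k E p Q ρ x.1)))
    (fun c => MvPolynomial.X (Sum.inr c)))

lemma shT_f (t : k) (s : E) (c : Fin p ⊕ Q) :
    shT k E p Q ρ t (MvPolynomial.X (Sum.inl (Sum.inl (Sum.inl (s, c))))) = fT k E p Q ρ s c := by
  simp [shT]
lemma shT_r (t : k) (r : ρ) :
    shT k E p Q ρ t (MvPolynomial.X (Sum.inl (Sum.inl (Sum.inr (Sum.inl r))))) =
      MvPolynomial.X (Sum.inl (Sum.inl (Sum.inr (Sum.inl r)))) := by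
  simp [shT]
lemma shT_s (t : k) (s : E) :
    shT k E p Q ρ t (MvPolynomial.X (Sum.inl (Sum.inl (Sum.inr (Sum.inr (Sum.inl s)))))) =
      - cS k E p Q ρ s - ∑ l, fT k E p Q ρ s (Sum.inl l) * cP k E p Q ρ l := by
  simp [shT]
lemma shT_p (t : k) (l : Fin p) :
    shT k E p Q ρ t (MvPolynomial.X (Sum.inl (Sum.inl (Sum.inr (Sum.inr (Sum.inr l)))))) =
      cP k E p Q ρ l := by
  simp [shT]
lemma shT_u (t : k) (x : Fin p × (Fin p ⊕ Q)) :
    shT k E p Q ρ t (MvPolynomial.X (Sum.inl (Sum.inr x))) = MvPolynomial.X (Sum.inl (Sum.inr x)) +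
        C t * (MvPolynomial.X (Sum.inr x.2) * cP k E p Q ρ x.1) := by
  simp [shT]
lemma shT_c (t : k) (c : Fin p ⊕ Q) :
    shT k E p Q ρ t (MvPolynomial.X (Sum.inr c)) = MvPolynomial.X (Sum.inr c) := by
  simp [shT]

lemma shT_comp (t : k) : (shT k E p Q ρ t).comp (shT k E p Q ρ (-t)) = AlgHom.id k _ := by
  apply MvPolynomial.algHom_ext
  rintro (((⟨s, c⟩ | (r | (s | l))) | x) | c)
  · rw [AlgHom.comp_apply, shT_f, fT, shT_f]; rfl
  · rw [AlgHom.comp_apply, shT_r, shT_r]; rfl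
  · rw [AlgHom.comp_apply, shT_s, map_sub, map_neg, map_sum]
    simp only [map_mul]
    simp only [cS, fT, cP, shT_s, shT_f, shT_p]
    simp only [fT, cS, cP, AlgHom.id_apply]
    ring
  · rw [AlgHom.comp_apply, shT_p, cP, shT_p]; rfl
  · rw [AlgHom.comp_apply, shT_u, map_add, map_mul, map_mul, shT_u, shT_c, cP, shT_p, algHom_C,
      MvPolynomial.algebraMap_eq, cP, AlgHom.id_apply, C_neg]
    ring
  · rw [AlgHom.comp_apply, shT_c, shT_c]; rfl

def shS (k : Type) [Field k] (E : Type) (p : ℕ) (Q ρ : Type) (t : k) :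
    MvPolynomial (SS E p Q ρ) k →ₐ[k] MvPolynomial (SS E p Q ρ) k :=
  aeval (Sum.elim (Sum.elim (fun x => MvPolynomial.X (Sum.inl (Sum.inl x)) +
        C t * (MvPolynomial.X (Sum.inr x.2) * MvPolynomial.X (Sum.inl (Sum.inr (Sum.inr x.1)))))
      (fun r => MvPolynomial.X (Sum.inl (Sum.inr r))))
    (fun c => MvPolynomial.X (Sum.inr c)))

lemma shS_x (t : k) (x : (E ⊕ Fin p) × (Fin p ⊕ Q)) :
    shS k E p Q ρ t (MvPolynomial.X (Sum.inl (Sum.inl x))) = MvPolynomial.X (Sum.inl (Sum.inl x)) +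
      C t * (MvPolynomial.X (Sum.inr x.2) * MvPolynomial.X (Sum.inl (Sum.inr (Sum.inr x.1)))) := by
  simp [shS]
lemma shS_r (t : k) (r : R1 E p ρ) :
    shS k E p Q ρ t (MvPolynomial.X (Sum.inl (Sum.inr r))) =
      MvPolynomial.X (Sum.inl (Sum.inr r)) := by
  simp [shS]
lemma shS_c (t : k) (c : Fin p ⊕ Q) :
    shS k E p Q ρ t (MvPolynomial.X (Sum.inr c)) = MvPolynomial.X (Sum.inr c) := by
  simp [shS]

lemma shS_comp (t : k) : (shS k E p Q ρ t).comp (shS k E p Q ρ (-t)) = AlgHom.id k _ := by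
  apply MvPolynomial.algHom_ext
  rintro ((x | r) | c)
  · rw [AlgHom.comp_apply, shS_x, map_add, map_mul, map_mul, shS_x, shS_c, shS_r, algHom_C,
      MvPolynomial.algebraMap_eq, AlgHom.id_apply, C_neg]
    ring
  · rw [AlgHom.comp_apply, shS_r, shS_r]; rfl
  · rw [AlgHom.comp_apply, shS_c, shS_c]; rfl

def lamS (k : Type) [Field k] (E : Type) (p : ℕ) (Q ρ : Type) :
    MvPolynomial (SR E (p + 1) Q ρ) k →ₐ[k] MvPolynomial (SS E p Q ρ) k :=
  (shS k E p Q ρ 1).comp ((ev1 k (SS E p Q ρ)).comp (rename (ebs E p Q ρ).symm))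

def lamT (k : Type) [Field k] (E : Type) (p : ℕ) (Q ρ : Type) :
    MvPolynomial (TI E (p + 1) Q ρ) k →ₐ[k] MvPolynomial (TT E p Q ρ) k :=
  (shT k E p Q ρ 1).comp ((ev1 k (TT E p Q ρ)).comp (rename (ebt E p Q ρ).symm))

def theta (k : Type) [Field k] (E : Type) (p : ℕ) (Q ρ : Type) :
    MvPolynomial (SI E (p + 1) Q ρ) k →ₐ[k] MvPolynomial (SI E p Q (R1 E p ρ)) k :=
  aeval (Sum.elim (fun x => (colI x.2).elim
      (- MvPolynomial.X (Sum.inr (Sum.inr (Sum.inl x.1))) -
        ∑ l, MvPolynomial.X (Sum.inl (x.1, Sum.inl l)) *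
          MvPolynomial.X (Sum.inr (Sum.inr (Sum.inr l))))
      (fun c => MvPolynomial.X (Sum.inl (x.1, c))))
    (fun r => MvPolynomial.X (Sum.inr (Sum.inl r))))

lemma theta_0 (s : E) : theta k E p Q ρ (MvPolynomial.X (Sum.inl (s, Sum.inl 0))) =
    - MvPolynomial.X (Sum.inr (Sum.inr (Sum.inl s))) -
        ∑ l, MvPolynomial.X (Sum.inl (s, Sum.inl l)) *
          MvPolynomial.X (Sum.inr (Sum.inr (Sum.inr l))) := by
  simp [theta, colI_zero]
lemma theta_c (s : E) (c : Fin p ⊕ Q) : theta k E p Q ρ (MvPolynomial.X (Sum.inl (s, scC c))) =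
    MvPolynomial.X (Sum.inl (s, c)) := by
  simp [theta, colI_sc]
lemma theta_r (r : ρ) : theta k E p Q ρ (MvPolynomial.X (Sum.inr r)) =
    MvPolynomial.X (Sum.inr (Sum.inl r)) := by
  simp [theta]

lemma gam_scC (s : E) (c : Fin p ⊕ Q) : lamT k E p Q ρ (gam k E (p + 1) Q ρ s (scC c)) =
    rename Sum.inl (gam k E p Q (R1 E p ρ) s c) := by
  rcases c with b | q
  · simp [gam, scC]
  · have h : (Sum.inr q : Fin (p + 1) ⊕ Q) = scC (Sum.inr q) := rfl
    simp only [gam, scC, Sum.map_inr, id_eq, Sum.elim_inr]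
    rw [h]
    simp only [lamT, AlgHom.comp_apply, rename_X, ebt_s7, ev1_some, shT_f]
    rfl

lemma lamT_rename (i : SI E (p + 1) Q ρ) :
    lamT k E p Q ρ (rename Sum.inl (MvPolynomial.X i : MvPolynomial (SI E (p + 1) Q ρ) k)) =
      rename Sum.inl (rename Sum.inl (theta k E p Q ρ (MvPolynomial.X i)) :
        MvPolynomial (TI E p Q (R1 E p ρ)) k) := by
  rcases i with ⟨s, c⟩ | r
  · rcases col_cases c with rfl | ⟨c', rfl⟩
    · rw [theta_0]
      simp only [lamT, AlgHom.comp_apply, rename_X, ebt_s6, ev1_some, shT_s, cS, fT, cP, map_sub,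
        map_neg, map_sum, map_mul]
    · rw [theta_c]
      simp only [lamT, AlgHom.comp_apply, rename_X, ebt_s7, ev1_some, shT_f, fT]
  · rw [theta_r]
    simp only [lamT, AlgHom.comp_apply, rename_X, ebt_s5, ev1_some, shT_r]

/-- the commutative square -/
lemma square (f : MvPolynomial (SR E (p + 1) Q ρ) k) :
    extHom (Fin p ⊕ Q) (psi k E p Q (R1 E p ρ)) (lamS k E p Q ρ f) =
      lamT k E p Q ρ (psi k E (p + 1) Q ρ f) := by
  have key : (extHom (Fin p ⊕ Q) (psi k E p Q (R1 E p ρ))).comp (lamS k E p Q ρ) =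
      (lamT k E p Q ρ).comp (psi k E (p + 1) Q ρ) := by
    apply MvPolynomial.algHom_ext
    rintro (⟨r, c⟩ | r)
    · rcases row_cases r with rfl | ⟨r', rfl⟩
      · rcases col_cases c with rfl | ⟨c', rfl⟩
        · rw [AlgHom.comp_apply, AlgHom.comp_apply, psi_P]
          simp only [lamS, lamT, AlgHom.comp_apply, rename_X, ebs_s1, ebt_s1, ev1_none, map_one]
        · rw [AlgHom.comp_apply, AlgHom.comp_apply, psi_P]
          simp only [lamS, lamT, AlgHom.comp_apply, rename_X, ebs_s2, ebt_s2, ev1_some, shS_c,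
            shT_c, extHom_inr]
      · rcases r' with s | l
        · rcases col_cases c with rfl | ⟨c', rfl⟩
          · rw [AlgHom.comp_apply, AlgHom.comp_apply]
            have e1 : psi k E (p + 1) Q ρ
                (MvPolynomial.X (Sum.inl (scR (Sum.inl s), Sum.inl 0))) = _ :=
              psi_E (ρ := ρ) (Q := Q) s (Sum.inl 0)
            rw [e1, Fin.sum_univ_succ]
            have e2 : ∀ l : Fin p, (Sum.inl l.succ : Fin (p + 1) ⊕ Q) = scC (Sum.inl l) :=
              fun l => rfl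
            have e3 : gam k E (p + 1) Q ρ s (Sum.inl 0) = 0 := rfl
            rw [e3]
            simp only [e2, map_sub, map_add, map_mul, map_sum, map_zero]
            simp only [lamS, lamT, AlgHom.comp_apply, rename_X, ebs_s3, ebt_s1, ebt_s3, ebt_s6,
              ebt_s7, ev1_some, ev1_none, shS_r, shT_s, shT_f, shT_p, map_one, extHom_inl, psi_r,
              cS]
            ring
          · rw [AlgHom.comp_apply, AlgHom.comp_apply]
            have e1 : psi k E (p + 1) Q ρ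
                (MvPolynomial.X (Sum.inl (scR (Sum.inl s), scC c'))) = _ :=
              psi_E (ρ := ρ) (Q := Q) s (scC c')
            rw [e1, Fin.sum_univ_succ, map_sub, gam_scC]
            have e2 : ∀ l : Fin p, (Sum.inl l.succ : Fin (p + 1) ⊕ Q) = scC (Sum.inl l) :=
              fun l => rfl
            simp only [e2, map_add, map_mul, map_sum]
            have e4 : lamS k E p Q ρ (MvPolynomial.X (Sum.inl (scR (Sum.inl s), scC c'))) =
                MvPolynomial.X (Sum.inl (Sum.inl (Sum.inl s, c'))) +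
                MvPolynomial.X (Sum.inr c') *
                  MvPolynomial.X (Sum.inl (Sum.inr (Sum.inr (Sum.inl s)))) := by
              simp only [lamS, AlgHom.comp_apply, rename_X, ebs_s4, ev1_some, shS_x, C_1, one_mul]
            rw [e4, map_add, map_mul, extHom_inl, extHom_inl, extHom_inr, psi_E, psi_r]
            simp only [lamT, AlgHom.comp_apply, rename_X, ebt_s2, ebt_s4, ebt_s6,
              ebt_s7, ev1_some, shT_s, shT_f, shT_u, shT_c, map_sub, map_sum, map_mul, cS, fT, cP,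
              C_1, one_mul, mul_add, Finset.sum_add_distrib, sub_mul, neg_mul, Finset.sum_mul]
            have e5 : ∑ x : Fin p, (MvPolynomial.X (Sum.inl (Sum.inl (Sum.inl (s, Sum.inl x)))) :
                MvPolynomial (TT E p Q ρ) k) * (MvPolynomial.X (Sum.inr c') *
                MvPolynomial.X (Sum.inl (Sum.inl (Sum.inr (Sum.inr (Sum.inr x)))))) =
                ∑ x : Fin p, (MvPolynomial.X (Sum.inl (Sum.inl (Sum.inl (s, Sum.inl x)))) :
                MvPolynomial (TT E p Q ρ) k) * MvPolynomial.X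
                (Sum.inl (Sum.inl (Sum.inr (Sum.inr (Sum.inr x))))) *
                MvPolynomial.X (Sum.inr c') := by
              apply Finset.sum_congr rfl
              intro x _; ring
            rw [e5]
            ring
        · rcases col_cases c with rfl | ⟨c', rfl⟩
          · rw [AlgHom.comp_apply, AlgHom.comp_apply]
            have e1 : psi k E (p + 1) Q ρ
                (MvPolynomial.X (Sum.inl (scR (Sum.inr l), Sum.inl 0))) = _ :=
              psi_P (ρ := ρ) (Q := Q) l.succ (Sum.inl 0)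
            rw [e1]
            simp only [lamS, lamT, AlgHom.comp_apply, rename_X, ebs_s3, ebt_s3, ev1_some, shS_r,
              shT_p, extHom_inl, psi_r, cP]
          · rw [AlgHom.comp_apply, AlgHom.comp_apply]
            have e1 : psi k E (p + 1) Q ρ
                (MvPolynomial.X (Sum.inl (scR (Sum.inr l), scC c'))) = _ :=
              psi_P (ρ := ρ) (Q := Q) l.succ (scC c')
            rw [e1]
            simp only [lamS, lamT, AlgHom.comp_apply, rename_X, ebs_s4, ebt_s4, ev1_some, shS_x,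
              shT_u, map_add, map_mul, extHom_inl, extHom_inr, psi_r, psi_P, cP, C_1, one_mul,
              rename_X]
    · rw [AlgHom.comp_apply, AlgHom.comp_apply, psi_r]
      simp only [lamS, lamT, AlgHom.comp_apply, rename_X, ebs_s5, ebt_s5, ev1_some, shS_r,
        shT_r, extHom_inl, psi_r]
  exact AlgHom.congr_fun key f

end Maps

end

end Pool.Agent.Helper38
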