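import Mathlib
import Pool.Agent.Helper38.KBS

open MvPolynomial Module

namespace Pool.Agent.Helper38

noncomputable section

section Mem

variable {k : Type} [Field k] {E : Type} {p : ℕ} {Q ρ : Type}

lemma comap_eq_map_symm {σ τ : Type} (e : σ ≃ τ) (J : Ideal (MvPolynomial τ k)) :
    J.comap (rename e : MvPolynomial σ k →ₐ[k] MvPolynomial τ k) =
      J.map (rename e.symm : MvPolynomial τ k →ₐ[k] MvPolynomial σ k) := by
  apply le_antisymm
  · intro f hf
    rw [Ideal.mem_comap] at hf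
    have h := Ideal.mem_map_of_mem (rename e.symm : MvPolynomial τ k →ₐ[k] MvPolynomial σ k) hf
    rwa [rename_rename, Equiv.symm_comp_self, rename_id, AlgHom.id_apply] at h
  · rw [Ideal.map_le_iff_le_comap]
    intro f hf
    rw [Ideal.mem_comap, Ideal.mem_comap, rename_rename, Equiv.self_comp_symm, rename_id,
      AlgHom.id_apply]
    exact hf

/-- position of the original variables -/
def gTT (E : Type) (p : ℕ) (Q ρ : Type) : SI E (p + 1) Q ρ → TT E p Q ρ :=
  Sum.elim (fun x => (colI x.2).elim (Sum.inl (Sum.inl (Sum.inr (Sum.inr (Sum.inl x.1)))))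
      (fun c => Sum.inl (Sum.inl (Sum.inl (x.1, c)))))
    (fun r => Sum.inl (Sum.inl (Sum.inr (Sum.inl r))))

lemma gTT_spec : (ebt E p Q ρ).symm ∘ Sum.inl = some ∘ gTT E p Q ρ := by
  ext1 i
  rcases i with ⟨s, c⟩ | r
  · rcases col_cases c with rfl | ⟨c', rfl⟩
    · simp only [Function.comp_apply]
      rw [ebt_s6]
      simp [gTT, colI_zero]
    · simp only [Function.comp_apply]
      rw [ebt_s7]
      simp [gTT, colI_sc]
  · simp only [Function.comp_apply]
    rw [ebt_s5]
    simp [gTT]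

variable (I : Ideal (MvPolynomial (SI E (p + 1) Q ρ) k))

/-- the extended ideal in the auxiliary ring -/
def KT : Ideal (MvPolynomial (TI E (p + 1) Q ρ) k) :=
  I.map (rename Sum.inl : MvPolynomial (SI E (p + 1) Q ρ) k →ₐ[k] _)

def KT0 : Ideal (MvPolynomial (Option (TT E p Q ρ)) k) :=
  (KT I).comap (rename (ebt E p Q ρ) : MvPolynomial (Option (TT E p Q ρ)) k →ₐ[k] _)

lemma KT0_eq : KT0 I = (I.map (rename (gTT E p Q ρ) :
    MvPolynomial (SI E (p + 1) Q ρ) k →ₐ[k] MvPolynomial (TT E p Q ρ) k)).map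
    (rename some : MvPolynomial (TT E p Q ρ) k →ₐ[k] MvPolynomial (Option (TT E p Q ρ)) k) := by
  rw [KT0, comap_eq_map_symm, KT, Ideal.map_mapₐ, Ideal.map_mapₐ]
  congr 1
  apply MvPolynomial.algHom_ext
  intro i
  simp only [AlgHom.comp_apply, rename_X]
  have := congrFun (gTT_spec (E := E) (p := p) (Q := Q) (ρ := ρ)) i
  simp only [Function.comp_apply] at this
  rw [this]

lemma KT0_colon : colonE (KT0 I) (MvPolynomial.X none) = KT0 I := by
  rw [KT0_eq]
  exact colon_ext_option _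

lemma KT_colon {h : MvPolynomial (TI E (p + 1) Q ρ) k}
    (hh : MvPolynomial.X (Sum.inr (0, Sum.inl 0)) * h ∈ KT I) : h ∈ KT I := by
  have h1 : rename (ebt E p Q ρ).symm h ∈ colonE (KT0 I) (MvPolynomial.X none) := by
    rw [mem_colonE, KT0, Ideal.mem_comap, map_mul, rename_X, ebt_none, rename_rename,
      Equiv.self_comp_symm, rename_id, AlgHom.id_apply]
    exact hh
  rw [KT0_colon, KT0, Ideal.mem_comap, rename_rename, Equiv.self_comp_symm, rename_id,
      AlgHom.id_apply] at h1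
  exact h1

variable {X : Type} [AddCommGroup X] {I}

/-- degree in the first new column -/
def kap (X : Type) [AddCommGroup X] (p : ℕ) : X × (Fin (p + 1) → ℤ) →+ ℤ where
  toFun z := - z.2 0
  map_zero' := by simp
  map_add' a b := by simp; ring

lemma shT_inv1 (g : MvPolynomial (TT E p Q ρ) k) : shT k E p Q ρ (-1) (shT k E p Q ρ 1 g) = g := by
  have := AlgHom.congr_fun (shT_comp (k := k) (E := E) (p := p) (Q := Q) (ρ := ρ) (-1)) g
  rw [neg_neg] at this
  exact this

lemma shT_inv2 (g : MvPolynomial (TT E p Q ρ) k) : shT k E p Q ρ 1 (shT k E p Q ρ (-1) g) = g :=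
  AlgHom.congr_fun (shT_comp (k := k) (E := E) (p := p) (Q := Q) (ρ := ρ) 1) g

lemma shS_inv1 (g : MvPolynomial (SS E p Q ρ) k) : shS k E p Q ρ (-1) (shS k E p Q ρ 1 g) = g := by
  have := AlgHom.congr_fun (shS_comp (k := k) (E := E) (p := p) (Q := Q) (ρ := ρ) (-1)) g
  rw [neg_neg] at this
  exact this

lemma shS_inv2 (g : MvPolynomial (SS E p Q ρ) k) : shS k E p Q ρ 1 (shS k E p Q ρ (-1) g) = g :=
  AlgHom.congr_fun (shS_comp (k := k) (E := E) (p := p) (Q := Q) (ρ := ρ) 1) g

/-- membership in the auxiliary ring can be tested on the slice -/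
lemma mem_KT_iff {a : E → X} {π : Fin (p + 1) → X} {wρ : ρ → X} (hI : IsHomog (wI a π wρ) I)
    {h : MvPolynomial (TI E (p + 1) Q ρ) k} {N : ℤ}
    (hh : IsWeightedHomogeneous (fun i => kap X p (wT a π wρ i)) h N)
    (hm : lamT k E p Q ρ h ∈ (KT I).map (lamT k E p Q ρ)) : h ∈ KT I := by
  set κ0 : Option (TT E p Q ρ) → ℤ := fun o => kap X p (wT a π wρ (ebt E p Q ρ o)) with hκ0
  have hκ : κ0 none = 1 := by
    simp [hκ0, ebt_none, wT, kap, cwt]
  have hK0 : IsHomog κ0 (KT0 I) := by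
    have h1 : IsHomog (fun i => kap X p (wT a π wρ i)) (KT I) := (ext_homog_T hI).coarsen (kap X p)
    exact h1.comap_rename
  have h2 : rename (ebt E p Q ρ).symm h ∈ KT0 I := by
    apply mem_of_ev1 hκ hK0 (KT0_colon I) (N := N)
    · apply homog_rename
      have e : κ0 ∘ (ebt E p Q ρ).symm = fun i => kap X p (wT a π wρ i) := by
        ext1 i
        simp [hκ0]
      rw [e]
      exact hh
    · -- remove the unipotent automorphism
      have e1 : (KT I).map (lamT k E p Q ρ) =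
          (((KT I).map (rename (ebt E p Q ρ).symm : _ →ₐ[k] MvPolynomial (Option (TT E p Q ρ)) k)).map
            (ev1 k (TT E p Q ρ))).map (shT k E p Q ρ 1) := by
        rw [Ideal.map_mapₐ, Ideal.map_mapₐ]
        rfl
      rw [e1, ← comap_eq_map_symm] at hm
      change shT k E p Q ρ 1 (ev1 k (TT E p Q ρ) (rename (ebt E p Q ρ).symm h)) ∈ _ at hm
      have h3 := Ideal.mem_map_of_mem (shT k E p Q ρ (-1)) hm
      rw [shT_inv1, Ideal.map_mapₐ] at h3
      have e2 : (shT k E p Q ρ (-1)).comp (shT k E p Q ρ 1) = AlgHom.id k _ := by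
        apply AlgHom.ext
        intro g
        exact shT_inv1 g
      rw [e2] at h3
      have e3 : ∀ J : Ideal (MvPolynomial (TT E p Q ρ) k),
          J.map (AlgHom.id k (MvPolynomial (TT E p Q ρ) k)) = J := fun J => Ideal.map_id J
      rw [e3] at h3
      exact h3
  rw [KT0, Ideal.mem_comap, rename_rename, Equiv.self_comp_symm, rename_id,
      AlgHom.id_apply] at h2
  exact h2

lemma KT_map_lamT : (KT I).map (lamT k E p Q ρ) =
    ((I.map (theta k E p Q ρ)).map (rename Sum.inl : MvPolynomial (SI E p Q (R1 E p ρ)) k →ₐ[k]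
      MvPolynomial (TI E p Q (R1 E p ρ)) k)).map (rename Sum.inl :
      MvPolynomial (TI E p Q (R1 E p ρ)) k →ₐ[k] MvPolynomial (TT E p Q ρ) k) := by
  rw [KT, Ideal.map_mapₐ, Ideal.map_mapₐ, Ideal.map_mapₐ]
  congr 1
  apply MvPolynomial.algHom_ext
  intro i
  simp only [AlgHom.comp_apply]
  exact lamT_rename i

/-- membership in the enlarged ideal can be tested on the slice -/
lemma mem_dbl_iff [CharZero k] {a : E → X} {π : Fin (p + 1) → X} {wρ : ρ → X} [Fintype Q]
    (hI : IsHomog (wI a π wρ) I)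
    {f : MvPolynomial (SR E (p + 1) Q ρ) k} {N : ℤ}
    (hf : IsWeightedHomogeneous (fun i => kap X p (wR a π wρ i)) f N) :
    f ∈ dbl I ↔ lamS k E p Q ρ f ∈ (dbl (I.map (theta k E p Q ρ))).map (rename Sum.inl :
      MvPolynomial (SR E p Q (R1 E p ρ)) k →ₐ[k] MvPolynomial (SS E p Q ρ) k) := by
  rw [dbl, dbl, ← comap_extHom, Ideal.mem_comap, Ideal.mem_comap, square, ← KT_map_lamT]
  constructor
  · intro h
    exact Ideal.mem_map_of_mem _ h
  · intro h
    refine mem_KT_iff hI (N := N) ?_ h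
    have h1 := homog_aeval (w := fun i => kap X p (wR a π wρ i))
      (w' := fun i => kap X p (wT (Q := Q) a π wρ i))
      (fun i => psi k E (p + 1) Q ρ (MvPolynomial.X i))
      (fun i => homog_map_group (kap X p) (psi_homog a π wρ i)) hf
    rwa [← psi_aeval] at h1

end Mem

section Theta

variable {k : Type} [Field k] {E : Type} {p : ℕ} {Q ρ : Type}

/-- extended version of `theta` -/
def thetaE (k : Type) [Field k] (E : Type) (p : ℕ) (Q ρ : Type) :
    MvPolynomial (SI E (p + 1) Q ρ ⊕ Fin p) k →ₐ[k] MvPolynomial (SI E p Q (R1 E p ρ)) k :=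
  aeval (Sum.elim (fun i => theta k E p Q ρ (MvPolynomial.X i))
    (fun l => MvPolynomial.X (Sum.inr (Sum.inr (Sum.inr l)))))

def thetaI (k : Type) [Field k] (E : Type) (p : ℕ) (Q ρ : Type) :
    MvPolynomial (SI E p Q (R1 E p ρ)) k →ₐ[k] MvPolynomial (SI E (p + 1) Q ρ ⊕ Fin p) k :=
  aeval (Sum.elim (fun x => MvPolynomial.X (Sum.inl (Sum.inl (x.1, scC x.2))))
    (Sum.elim (fun r => MvPolynomial.X (Sum.inl (Sum.inr r)))
      (Sum.elim (fun s => - MvPolynomial.X (Sum.inl (Sum.inl (s, Sum.inl 0))) -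
          ∑ l, MvPolynomial.X (Sum.inl (Sum.inl (s, scC (Sum.inl l)))) * MvPolynomial.X (Sum.inr l))
        (fun l => MvPolynomial.X (Sum.inr l)))))

lemma thetaI_x (s : E) (c : Fin p ⊕ Q) : thetaI k E p Q ρ (MvPolynomial.X (Sum.inl (s, c))) =
    MvPolynomial.X (Sum.inl (Sum.inl (s, scC c))) := by simp [thetaI]
lemma thetaI_r (r : ρ) : thetaI k E p Q ρ (MvPolynomial.X (Sum.inr (Sum.inl r))) =
    MvPolynomial.X (Sum.inl (Sum.inr r)) := by simp [thetaI]
lemma thetaI_s (s : E) : thetaI k E p Q ρ (MvPolynomial.X (Sum.inr (Sum.inr (Sum.inl s)))) =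
    - MvPolynomial.X (Sum.inl (Sum.inl (s, Sum.inl 0))) -
          ∑ l, MvPolynomial.X (Sum.inl (Sum.inl (s, scC (Sum.inl l)))) *
            MvPolynomial.X (Sum.inr l) := by simp [thetaI]
lemma thetaI_l (l : Fin p) : thetaI k E p Q ρ (MvPolynomial.X (Sum.inr (Sum.inr (Sum.inr l)))) =
    MvPolynomial.X (Sum.inr l) := by simp [thetaI]

lemma thetaE_inl (i : SI E (p + 1) Q ρ) : thetaE k E p Q ρ (MvPolynomial.X (Sum.inl i)) =
    theta k E p Q ρ (MvPolynomial.X i) := by simp [thetaE]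
lemma thetaE_inr (l : Fin p) : thetaE k E p Q ρ (MvPolynomial.X (Sum.inr l)) =
    MvPolynomial.X (Sum.inr (Sum.inr (Sum.inr l))) := by simp [thetaE]

lemma thetaE_thetaI : (thetaE k E p Q ρ).comp (thetaI k E p Q ρ) = AlgHom.id k _ := by
  apply MvPolynomial.algHom_ext
  rintro (⟨s, c⟩ | (r | (s | l)))
  · rw [AlgHom.comp_apply, thetaI_x, thetaE_inl, theta_c]; rfl
  · rw [AlgHom.comp_apply, thetaI_r, thetaE_inl, theta_r]; rfl
  · rw [AlgHom.comp_apply, thetaI_s]
    simp only [map_sub, map_neg, map_sum, map_mul, thetaE_inl, thetaE_inr, theta_0, theta_c,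
      AlgHom.id_apply]
    ring
  · rw [AlgHom.comp_apply, thetaI_l, thetaE_inr]; rfl

lemma thetaI_thetaE : (thetaI k E p Q ρ).comp (thetaE k E p Q ρ) = AlgHom.id k _ := by
  apply MvPolynomial.algHom_ext
  rintro ((⟨s, c⟩ | r) | l)
  · rw [AlgHom.comp_apply, thetaE_inl]
    rcases col_cases c with rfl | ⟨c', rfl⟩
    · rw [theta_0]
      simp only [map_sub, map_neg, map_sum, map_mul, thetaI_x, thetaI_s, thetaI_l,
        AlgHom.id_apply]
      ring
    · rw [theta_c, thetaI_x]; rfl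
  · rw [AlgHom.comp_apply, thetaE_inl, theta_r, thetaI_r]; rfl
  · rw [AlgHom.comp_apply, thetaE_inr, thetaI_l]; rfl

/-- bijection of variables -/
def eth (E : Type) (p : ℕ) (Q ρ : Type) : SI E (p + 1) Q ρ ⊕ Fin p ≃ SI E p Q (R1 E p ρ) where
  toFun := Sum.elim (Sum.elim (fun x => (colI x.2).elim (Sum.inr (Sum.inr (Sum.inl x.1)))
      (fun c => Sum.inl (x.1, c))) (fun r => Sum.inr (Sum.inl r)))
    (fun l => Sum.inr (Sum.inr (Sum.inr l)))
  invFun := Sum.elim (fun x => Sum.inl (Sum.inl (x.1, scC x.2)))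
    (Sum.elim (fun r => Sum.inl (Sum.inr r))
      (Sum.elim (fun s => Sum.inl (Sum.inl (s, Sum.inl 0))) (fun l => Sum.inr l)))
  left_inv := by
    rintro ((⟨s, c⟩ | r) | l)
    · rcases col_cases c with rfl | ⟨c', rfl⟩ <;> simp [colI_zero, colI_sc]
    · simp
    · simp
  right_inv := by
    rintro (⟨s, c⟩ | (r | (s | l))) <;> simp [colI_zero, colI_sc]

variable {X : Type} [AddCommGroup X]

/-- weights of the new spectator variables -/
def wρ1 (a : E → X) (π : Fin (p + 1) → X) (wρ : ρ → X) : R1 E p ρ → X :=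
  Sum.elim wρ (fun r => Sum.elim a (fun l => π l.succ) r - π 0)

/-- weights of the source of `thetaE` -/
def wSE (a : E → X) (π : Fin (p + 1) → X) (wρ : ρ → X) : SI E (p + 1) Q ρ ⊕ Fin p → X :=
  Sum.elim (wI a π wρ) (fun l => π l.succ - π 0)

lemma wSE_eth (a : E → X) (π : Fin (p + 1) → X) (wρ : ρ → X) (i : SI E (p + 1) Q ρ ⊕ Fin p) :
    wI a (fun l => π l.succ) (wρ1 a π wρ) (eth E p Q ρ i) = wSE a π wρ i := by
  rcases i with ((⟨s, c⟩ | r) | l)
  · rcases col_cases c with rfl | ⟨c', rfl⟩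
    · simp [eth, colI_zero, wI, wρ1, wSE]
    · rcases c' with b | q <;> simp [eth, colI, wI, wSE, scC]
  · simp [eth, wI, wρ1, wSE]
  · simp [eth, wI, wρ1, wSE]

lemma theta_homog (a : E → X) (π : Fin (p + 1) → X) (wρ : ρ → X) (i : SI E (p + 1) Q ρ) :
    IsWeightedHomogeneous (wI a (fun l => π l.succ) (wρ1 a π wρ))
      (theta k E p Q ρ (MvPolynomial.X i)) (wI a π wρ i) := by
  rcases i with ⟨s, c⟩ | r
  · rcases col_cases c with rfl | ⟨c', rfl⟩
    · rw [theta_0]
      have e0 : wI a π wρ (Sum.inl (s, Sum.inl 0) : SI E (p + 1) Q ρ) =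
          wI (Q := Q) a (fun l => π l.succ) (wρ1 a π wρ) (Sum.inr (Sum.inr (Sum.inl s))) := by
        simp [wI, wρ1]
      rw [e0]
      apply IsWeightedHomogeneous.sub
      · exact (isWeightedHomogeneous_X k _ _).neg
      · apply IsWeightedHomogeneous.sum
        intro l _
        have h1 := (isWeightedHomogeneous_X k (wI (Q := Q) a (fun l => π l.succ) (wρ1 a π wρ))
          (Sum.inl (s, Sum.inl l))).mul
          (isWeightedHomogeneous_X k (wI (Q := Q) a (fun l => π l.succ) (wρ1 a π wρ))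
          (Sum.inr (Sum.inr (Sum.inr l))))
        have h2 : wI (Q := Q) a (fun l => π l.succ) (wρ1 a π wρ) (Sum.inl (s, Sum.inl l)) +
            wI (Q := Q) a (fun l => π l.succ) (wρ1 a π wρ) (Sum.inr (Sum.inr (Sum.inr l))) =
            wI (Q := Q) a (fun l => π l.succ) (wρ1 a π wρ) (Sum.inr (Sum.inr (Sum.inl s))) := by
          simp [wI, wρ1]
        rwa [h2] at h1
    · rw [theta_c]
      have e0 : wI a π wρ (Sum.inl (s, scC c') : SI E (p + 1) Q ρ) =
          wI (Q := Q) a (fun l => π l.succ) (wρ1 a π wρ) (Sum.inl (s, c')) := by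
        rcases c' with b | q <;> simp [wI, scC]
      rw [e0]
      exact isWeightedHomogeneous_X k _ _
  · rw [theta_r]
    exact isWeightedHomogeneous_X k (wI (Q := Q) a (fun l => π l.succ) (wρ1 a π wρ))
      (Sum.inr (Sum.inl r))

end Theta

end

end Pool.Agent.Helper38
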