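import Mathlib
import Pool.Agent.Helper38.KBS2

open MvPolynomial Module

namespace Pool.Agent.Helper38

noncomputable section

section Slice

variable {k : Type} [Field k] {E : Type} {p : ℕ} {Q ρ : Type} {X : Type} [AddCommGroup X]

/-- identification of the column weights with the row weights -/
def colp (π : Fin p → X) : X × (Fin p → ℤ) →+ X where
  toFun z := z.1 + ∑ b, z.2 b • π b
  map_zero' := by simp
  map_add' a b := by
    simp only [Prod.fst_add, Prod.snd_add, Pi.add_apply, add_smul, Finset.sum_add_distrib]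
    abel

def phiS (π : Fin (p + 1) → X) : X × (Fin (p + 1) → ℤ) →+ X × (Fin p → ℤ) where
  toFun z := (z.1 + z.2 0 • π 0, fun b => z.2 b.succ)
  map_zero' := by
    ext <;> simp
  map_add' a b := by
    ext
    · simp only [Prod.fst_add, Prod.snd_add, Pi.add_apply, add_smul]
      abel
    · simp

lemma colp_phiS (π : Fin (p + 1) → X) (z : X × (Fin (p + 1) → ℤ)) :
    colp (fun l : Fin p => π l.succ) (phiS π z) = colp π z := by
  simp only [colp, phiS, AddMonoidHom.coe_mk, ZeroHom.coe_mk]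
  rw [Fin.sum_univ_succ]
  abel

def wSS (a : E → X) (π : Fin (p + 1) → X) (wρ : ρ → X) : SS E p Q ρ → X × (Fin p → ℤ) :=
  Sum.elim (wR a (fun l => π l.succ) (wρ1 a π wρ)) (fun c => (π 0, cwt p Q c))

lemma cwt_scC (c : Fin p ⊕ Q) : (fun b : Fin p => cwt (p + 1) Q (scC c) b.succ) = cwt p Q c := by
  ext b
  rcases c with b' | q
  · simp [cwt, scC, Pi.single_apply]
  · simp [cwt, scC]

lemma cwt_scC_zero (c : Fin p ⊕ Q) : cwt (p + 1) Q (scC c) 0 = 0 := by
  rcases c with b' | q
  · simp [cwt, scC, Fin.succ_ne_zero]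
  · simp [cwt, scC]

lemma cwt_zero : cwt (p + 1) Q (Sum.inl 0) 0 = -1 := by
  simp [cwt]

lemma cwt_zero_succ (b : Fin p) : cwt (p + 1) Q (Sum.inl 0) b.succ = 0 := by
  simp [cwt, Fin.succ_ne_zero]

omit [AddCommGroup X] in
lemma row_scR (a : E → X) (π : Fin (p + 1) → X) (r : E ⊕ Fin p) :
    Sum.elim a π (scR r) = Sum.elim a (fun l => π l.succ) r := by
  rcases r with s | l <;> simp [scR]

lemma phiS_ebs (a : E → X) (π : Fin (p + 1) → X) (wρ : ρ → X) (i : SS E p Q ρ) :
    phiS π (wR a π wρ (ebs E p Q ρ (some i))) = wSS a π wρ i := by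
  rcases i with ((⟨r, c⟩ | (r | r)) | c)
  · change phiS π (Sum.elim a π (scR r), cwt (p + 1) Q (scC c)) = _
    simp only [phiS, AddMonoidHom.coe_mk, ZeroHom.coe_mk, cwt_scC_zero, zero_smul, add_zero,
      row_scR, cwt_scC]
    rfl
  · change phiS π (wρ r, 0) = (wρ r, 0)
    ext <;> simp [phiS]
  · change phiS π (Sum.elim a π (scR r), cwt (p + 1) Q (Sum.inl 0)) = _
    simp only [phiS, AddMonoidHom.coe_mk, ZeroHom.coe_mk, cwt_zero, cwt_zero_succ, row_scR]
    change _ = (Sum.elim a (fun l => π l.succ) r - π 0, 0)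
    ext
    · simp [sub_eq_add_neg]
    · simp
  · change phiS π (π 0, cwt (p + 1) Q (scC c)) = _
    simp only [phiS, AddMonoidHom.coe_mk, ZeroHom.coe_mk, cwt_scC_zero, zero_smul, add_zero,
      cwt_scC]
    rfl

lemma phiS_none (a : E → X) (π : Fin (p + 1) → X) (wρ : ρ → X) :
    phiS π (wR (Q := Q) a π wρ (ebs E p Q ρ none)) = 0 := by
  change phiS π (π 0, cwt (p + 1) Q (Sum.inl 0)) = 0
  simp only [phiS, AddMonoidHom.coe_mk, ZeroHom.coe_mk, cwt_zero, cwt_zero_succ]
  ext <;> simp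

lemma kap_ebs_none (a : E → X) (π : Fin (p + 1) → X) (wρ : ρ → X) :
    kap X p (wR (Q := Q) a π wρ (ebs E p Q ρ none)) = 1 := by
  change kap X p (π 0, cwt (p + 1) Q (Sum.inl 0)) = 1
  simp [kap, cwt_zero]

lemma shS_homog (a : E → X) (π : Fin (p + 1) → X) (wρ : ρ → X) (t : k) (i : SS E p Q ρ) :
    IsWeightedHomogeneous (wSS a π wρ) (shS k E p Q ρ t (MvPolynomial.X i)) (wSS a π wρ i) := by
  rcases i with ((⟨r, c⟩ | r) | c)
  · rw [shS_x]
    apply (isWeightedHomogeneous_X k (wSS (Q := Q) a π wρ) (Sum.inl (Sum.inl (r, c)))).add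
    apply IsWeightedHomogeneous.C_mul
    have h1 := (isWeightedHomogeneous_X k (wSS (Q := Q) a π wρ) (Sum.inr c)).mul
      (isWeightedHomogeneous_X k (wSS (Q := Q) a π wρ) (Sum.inl (Sum.inr (Sum.inr r))))
    have h2 : wSS (Q := Q) a π wρ (Sum.inr c) +
        wSS (Q := Q) a π wρ (Sum.inl (Sum.inr (Sum.inr r))) =
        wSS a π wρ (Sum.inl (Sum.inl (r, c))) := by
      change (π 0, cwt p Q c) + (Sum.elim a (fun l => π l.succ) r - π 0, 0) =
        (Sum.elim a (fun l => π l.succ) r, cwt p Q c)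
      ext <;> simp
    rwa [h2] at h1
  · rw [shS_r]
    exact isWeightedHomogeneous_X k _ _
  · rw [shS_c]
    exact isWeightedHomogeneous_X k _ _

lemma posL_wI {ℓ : X →+ ℤ} {a : E → X} {π : Fin p → X} {wρ : ρ → X} (H1 : ∀ s, 0 < ℓ (a s))
    (H3 : ∀ s l, ℓ (π l) < ℓ (a s)) (H5 : PosL ℓ wρ) : PosL ℓ (wI (Q := Q) a π wρ) := by
  rintro (⟨s, b | q⟩ | r)
  · change 0 < ℓ (a s - π b)
    rw [map_sub]
    have := H3 s b
    omega
  · change 0 < ℓ (a s - 0)
    rw [sub_zero]
    exact H1 s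
  · exact H5 r

lemma posL_wR {ℓ : X →+ ℤ} {a : E → X} {π : Fin p → X} {wρ : ρ → X} (H1 : ∀ s, 0 < ℓ (a s))
    (H2 : ∀ l, 0 < ℓ (π l)) (H5 : PosL ℓ wρ) :
    PosL (ℓ.comp (AddMonoidHom.fst X (Fin p → ℤ))) (wR (Q := Q) a π wρ) := by
  rintro (⟨s | l, c⟩ | r)
  · exact H1 s
  · exact H2 l
  · exact H5 r

/-- The base case: no new rows. -/
lemma block_zero [Fintype E] [Fintype Q] [Fintype ρ] {ℓ : X →+ ℤ} {a : E → X} {π : Fin 0 → X}
    {wρ : ρ → X} (H1 : ∀ s, 0 < ℓ (a s)) (H5 : PosL ℓ wρ)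
    {I : Ideal (MvPolynomial (SI E 0 Q ρ) k)} (hI : IsHomog (wI a π wρ) I) (hne : I ≠ ⊤) :
    ord (dbl I) = ord I ∧ ∀ (R : Type) [CommRing R] [Algebra ℚ R] (L : X →+ R),
      cls (dbl I) (fun i => L (colp π (wR a π wρ i))) = cls I (fun i => L (wI a π wρ i)) := by
  let e0 : SI E 0 Q ρ ≃ SR E 0 Q ρ :=
    { toFun := Sum.map (fun x => (Sum.inl x.1, x.2)) id
      invFun := Sum.elim (fun x => Sum.inl (x.1.elim id (fun l => l.elim0), x.2)) Sum.inr
      left_inv := by rintro (⟨s, c⟩ | r) <;> simp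
      right_inv := by
        rintro (⟨s | l, c⟩ | r)
        · simp
        · exact l.elim0
        · simp }
  have hpos := posL_wR (Q := Q) H1 (π := π) (fun l => l.elim0) H5
  obtain ⟨c1, c2, c3, c4⟩ := rename_compare hpos e0 (dbl_homog hI) (dbl_ne_top hne)
  have e1 : (dbl I).comap (rename e0 : MvPolynomial (SI E 0 Q ρ) k →ₐ[k] _) = I := by
    have e2 : (psi k E 0 Q ρ).comp (rename e0) = rename Sum.inl := by
      apply MvPolynomial.algHom_ext
      rintro (⟨s, b | q⟩ | r)
      · exact b.elim0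
      · rw [AlgHom.comp_apply, rename_X]
        change psi k E 0 Q ρ (MvPolynomial.X (Sum.inl (Sum.inl s, Sum.inr q))) = _
        rw [psi_E]
        simp [gam]
      · rw [AlgHom.comp_apply, rename_X]
        change psi k E 0 Q ρ (MvPolynomial.X (Sum.inr r)) = _
        rw [psi_r, rename_X]
    ext f
    rw [Ideal.mem_comap, dbl, Ideal.mem_comap]
    have h := AlgHom.congr_fun e2 f
    simp only [AlgHom.comp_apply] at h
    rw [h]
    constructor
    · intro h1
      have h2 : f ∈ (I.map (rename Sum.inl : MvPolynomial (SI E 0 Q ρ) k →ₐ[k]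
        MvPolynomial (TI E 0 Q ρ) k)).comap (rename Sum.inl : MvPolynomial (SI E 0 Q ρ) k →ₐ[k]
        MvPolynomial (TI E 0 Q ρ) k) := h1
      rwa [comap_map_inl] at h2
    · intro h1
      exact Ideal.mem_map_of_mem _ h1
  rw [e1] at c3 c4
  refine ⟨c3, ?_⟩
  intro R _ _ L
  have g := c4 R (L.comp (colp π))
  simp only [AddMonoidHom.comp_apply] at g
  rw [g]
  congr 1
  ext1 i
  rcases i with ⟨s, b | q⟩ | r
  · exact b.elim0
  · change L (colp π (a s, cwt 0 Q (Sum.inr q))) = L (a s - 0)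
    simp [colp]
  · change L (colp π (wρ r, 0)) = L (wρ r)
    simp [colp]

/-- The induction step. -/
lemma block_succ [CharZero k] [Fintype E] [Fintype Q] [Fintype ρ] {ℓ : X →+ ℤ} {a : E → X}
    {π : Fin (p + 1) → X} {wρ : ρ → X} (H1 : ∀ s, 0 < ℓ (a s)) (H2 : ∀ l, 0 < ℓ (π l))
    (H3 : ∀ s l, ℓ (π l) < ℓ (a s)) (H4 : StrictMono fun l => ℓ (π l)) (H5 : PosL ℓ wρ)
    {I : Ideal (MvPolynomial (SI E (p + 1) Q ρ) k)} (hI : IsHomog (wI a π wρ) I) (hne : I ≠ ⊤)
    (IH : ∀ {J : Ideal (MvPolynomial (SI E p Q (R1 E p ρ)) k)},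
      IsHomog (wI a (fun l => π l.succ) (wρ1 a π wρ)) J → J ≠ ⊤ →
      ord (dbl J) = ord J ∧ ∀ (R : Type) [CommRing R] [Algebra ℚ R] (L : X →+ R),
        cls (dbl J) (fun i => L (colp (fun l => π l.succ)
          (wR a (fun l => π l.succ) (wρ1 a π wρ) i))) =
        cls J (fun i => L (wI a (fun l => π l.succ) (wρ1 a π wρ) i))) :
    ord (dbl I) = ord I ∧ ∀ (R : Type) [CommRing R] [Algebra ℚ R] (L : X →+ R),
      cls (dbl I) (fun i => L (colp π (wR a π wρ i))) = cls I (fun i => L (wI a π wρ i)) := by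
  -- positivity of the new data
  have H5' : PosL ℓ (wρ1 a π wρ) := by
    rintro (r | (s | l))
    · exact H5 r
    · change 0 < ℓ (a s - π 0)
      rw [map_sub]
      have := H3 s 0
      omega
    · change 0 < ℓ (π l.succ - π 0)
      rw [map_sub]
      have := H4 (Fin.succ_pos l)
      simp only at this
      omega
  have hposI := posL_wI (Q := Q) H1 H3 H5
  have hposR := posL_wR (Q := Q) H1 H2 H5
  have hposI' := posL_wI (Q := Q) (π := fun l : Fin p => π l.succ) H1 (fun s l => H3 s _) H5'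
  have hposR' := posL_wR (Q := Q) (π := fun l : Fin p => π l.succ) H1 (fun l => H2 _) H5'
  have hposSS : PosL (ℓ.comp (AddMonoidHom.fst X (Fin p → ℤ))) (wSS (Q := Q) a π wρ) := by
    rintro (i | c)
    · exact hposR' i
    · exact H2 0
  have hposSE : PosL ℓ (wSE (Q := Q) a π wρ) := by
    intro i
    rw [← wSE_eth]
    exact hposI' _
  -- the transformed ideal
  set J := I.map (theta k E p Q ρ) with hJ
  have hθ : theta k E p Q ρ = aeval (fun i => theta k E p Q ρ (MvPolynomial.X i)) := by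
    apply MvPolynomial.algHom_ext
    intro i; simp
  have hJh : IsHomog (wI a (fun l => π l.succ) (wρ1 a π wρ)) J := by
    rw [hJ, hθ]
    exact hI.map_any _ (theta_homog a π wρ)
  -- comparison of `I` and `J`
  obtain ⟨x1, x2, x3, x4⟩ := ext_compare (τ := Fin p) (w := wSE a π wρ) hposSE
    (show IsHomog (wSE a π wρ ∘ Sum.inl) I from hI) hne
  set IE := I.map (rename Sum.inl : MvPolynomial (SI E (p + 1) Q ρ) k →ₐ[k]
    MvPolynomial (SI E (p + 1) Q ρ ⊕ Fin p) k) with hIE
  have hJE : J = IE.map (thetaE k E p Q ρ) := by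
    rw [hJ, hIE, Ideal.map_mapₐ]
    congr 1
    apply MvPolynomial.algHom_ext
    intro i
    rw [AlgHom.comp_apply, rename_X, thetaE_inl]
  have hkqJ : kq (wSE a π wρ) IE = kq (wI a (fun l => π l.succ) (wρ1 a π wρ)) J := by
    refine kq_equiv hposSE.posW hposI'.posW (eth E p Q ρ) (fun i => wSE_eth a π wρ i)
      (thetaE k E p Q ρ) (thetaI k E p Q ρ) thetaE_thetaI thetaI_thetaE ?_ ?_ x1 hJh ?_
    · rintro (i | l)
      · rw [thetaE_inl]
        exact theta_homog a π wρ i
      · rw [thetaE_inr]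
        have h1 := isWeightedHomogeneous_X k (wI (Q := Q) a (fun l => π l.succ) (wρ1 a π wρ))
          (Sum.inr (Sum.inr (Sum.inr l)))
        exact h1
    · rintro (⟨s, c⟩ | (r | (s | l)))
      · rw [thetaI_x]
        have h1 := isWeightedHomogeneous_X k (wSE (Q := Q) a π wρ) (Sum.inl (Sum.inl (s, scC c)))
        have h2 : wSE (Q := Q) a π wρ (Sum.inl (Sum.inl (s, scC c))) =
            wI a (fun l => π l.succ) (wρ1 a π wρ) (Sum.inl (s, c)) := by
          rcases c with b | q <;> simp [wSE, wI, scC]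
        rwa [h2] at h1
      · rw [thetaI_r]
        exact isWeightedHomogeneous_X k (wSE (Q := Q) a π wρ) (Sum.inl (Sum.inr r))
      · rw [thetaI_s]
        have e0 : wI (Q := Q) a (fun l => π l.succ) (wρ1 a π wρ) (Sum.inr (Sum.inr (Sum.inl s))) =
            wSE (Q := Q) a π wρ (Sum.inl (Sum.inl (s, Sum.inl 0))) := by
          simp [wI, wρ1, wSE]
        rw [e0]
        apply IsWeightedHomogeneous.sub
        · exact (isWeightedHomogeneous_X k _ _).neg
        · apply IsWeightedHomogeneous.sum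
          intro l _
          have h1 := (isWeightedHomogeneous_X k (wSE (Q := Q) a π wρ)
            (Sum.inl (Sum.inl (s, scC (Sum.inl l))))).mul
            (isWeightedHomogeneous_X k (wSE (Q := Q) a π wρ) (Sum.inr l))
          have h2 : wSE (Q := Q) a π wρ (Sum.inl (Sum.inl (s, scC (Sum.inl l)))) +
              wSE (Q := Q) a π wρ (Sum.inr l) =
              wSE (Q := Q) a π wρ (Sum.inl (Sum.inl (s, Sum.inl 0))) := by
            simp [wI, wSE, scC]
          rwa [h2] at h1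
      · rw [thetaI_l]
        exact isWeightedHomogeneous_X k (wSE (Q := Q) a π wρ) (Sum.inr l)
    · intro f
      constructor
      · intro hf
        rw [hJE]
        exact Ideal.mem_map_of_mem _ hf
      · intro hf
        rw [hJE] at hf
        have h1 := Ideal.mem_map_of_mem (thetaI k E p Q ρ) hf
        rw [Ideal.map_mapₐ, thetaI_thetaE] at h1
        have e3 : ∀ K : Ideal (MvPolynomial (SI E (p + 1) Q ρ ⊕ Fin p) k),
          K.map (AlgHom.id k (MvPolynomial (SI E (p + 1) Q ρ ⊕ Fin p) k)) = K :=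
          fun K => Ideal.map_id K
        rw [e3] at h1
        have e4 := AlgHom.congr_fun (thetaI_thetaE (k := k) (E := E) (p := p) (Q := Q) (ρ := ρ)) f
        simp only [AlgHom.comp_apply, AlgHom.id_apply] at e4
        rwa [e4] at h1
  obtain ⟨y1, y2, y3⟩ := compare_eq hposSE hposI' x1 hJh x2 hkqJ
  -- induction hypothesis
  obtain ⟨z1, z2⟩ := IH hJh y1
  -- spectators of the slice
  obtain ⟨u1, u2, u3, u4⟩ := ext_compare (τ := Fin p ⊕ Q) (w := wSS a π wρ) hposSS
    (show IsHomog (wSS a π wρ ∘ Sum.inl) (dbl J) from dbl_homog hJh) (dbl_ne_top y1)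
  set JE := (dbl J).map (rename Sum.inl : MvPolynomial (SR E p Q (R1 E p ρ)) k →ₐ[k]
      MvPolynomial (SS E p Q ρ) k) with hJE2
  -- the slice
  set p0 := (dbl I).comap (rename (ebs E p Q ρ) : MvPolynomial (Option (SS E p Q ρ)) k →ₐ[k]
    MvPolynomial (SR E (p + 1) Q ρ) k) with hp0
  obtain ⟨a1, a2, a3, a4⟩ := rename_compare hposR (ebs E p Q ρ) (dbl_homog hI) (dbl_ne_top hne)
  rw [← hp0] at a1 a2 a3 a4
  have hc : colonE p0 (MvPolynomial.X none) = p0 := by
    refine le_antisymm ?_ (le_colonE _ _)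
    intro f hf
    rw [mem_colonE, hp0, Ideal.mem_comap, map_mul, rename_X, ebs_none, dbl, Ideal.mem_comap,
      map_mul, psi_P] at hf
    rw [hp0, Ideal.mem_comap, dbl, Ideal.mem_comap]
    exact KT_colon I hf
  have hpos1 : PosL (ℓ.comp (AddMonoidHom.fst X (Fin p → ℤ)))
      (fun i : SS E p Q ρ => phiS π ((wR a π wρ ∘ ebs E p Q ρ) (some i))) := by
    intro i
    simp only [Function.comp_apply]
    rw [phiS_ebs]
    exact hposSS i
  obtain ⟨b1, b2, b3, b4⟩ := pivot (phiS π) (phiS_none a π wρ) (hposR.comp (ebs E p Q ρ)) hpos1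
    a1 hc a2
  have hshS : ∀ t : k, shS k E p Q ρ t = aeval (fun i => shS k E p Q ρ t (MvPolynomial.X i)) := by
    intro t
    apply MvPolynomial.algHom_ext
    intro i; simp
  set p1 := JE.comap (shS k E p Q ρ 1) with hp1
  have hp1eq : p0.map (ev1 k (SS E p Q ρ)) = p1 := by
    set κ0 : Option (SS E p Q ρ) → ℤ := fun o => kap X p (wR a π wρ (ebs E p Q ρ o)) with hκ0
    apply map_ev1_eq (κ := κ0) (kap_ebs_none a π wρ)
    · exact a1.coarsen (kap X p)
    · intro f N hf
      rw [hp0, Ideal.mem_comap, hp1, Ideal.mem_comap]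
      have h1 : IsWeightedHomogeneous (fun i => kap X p (wR a π wρ i))
          (rename (ebs E p Q ρ) f) N := by
        apply homog_rename
        exact hf
      have h2 := mem_dbl_iff hI h1
      have h3 : lamS k E p Q ρ (rename (ebs E p Q ρ) f) =
          shS k E p Q ρ 1 (ev1 k (SS E p Q ρ) f) := by
        simp only [lamS, AlgHom.comp_apply]
        rw [rename_rename, Equiv.symm_comp_self, rename_id, AlgHom.id_apply]
      rw [h3] at h2
      exact h2
  rw [hp1eq] at b1 b2 b3 b4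
  have hw1 : (fun i : SS E p Q ρ => phiS π ((wR a π wρ ∘ ebs E p Q ρ) (some i))) =
      wSS a π wρ := by
    ext1 i
    exact phiS_ebs a π wρ i
  rw [hw1] at b1
  have hkq1 : kq (wSS a π wρ) p1 = kq (wSS a π wρ) JE := by
    refine kq_equiv hposSS.posW hposSS.posW (Equiv.refl _) (fun i => rfl) (shS k E p Q ρ 1)
      (shS k E p Q ρ (-1)) (shS_comp 1) ?_ (shS_homog a π wρ 1) (shS_homog a π wρ (-1)) b1 u1
      (fun f => Iff.rfl)
    apply AlgHom.ext
    intro g
    exact shS_inv1 g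
  obtain ⟨d1, d2, d3⟩ := compare_eq hposSS hposSS b1 u1 b2 hkq1
  refine ⟨?_, ?_⟩
  · rw [a3, b3, d2, ← u3, z1, ← y2, ← x3]
  · intro R _ _ L
    have g1 := a4 R ((L.comp (colp (fun l : Fin p => π l.succ))).comp (phiS π))
    have g2 := b4 R (L.comp (colp (fun l : Fin p => π l.succ)))
    have g3 := d3 R (L.comp (colp (fun l : Fin p => π l.succ)))
    have g4 := u4 R (L.comp (colp (fun l : Fin p => π l.succ)))
    have g5 := z2 R L
    have g6 := y3 R L
    have g7 := x4 R L
    simp only [AddMonoidHom.comp_apply, colp_phiS] at g1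
    simp only [AddMonoidHom.comp_apply, Function.comp_apply, colp_phiS] at g2
    simp only [AddMonoidHom.comp_apply] at g3 g4
    rw [g1, g2]
    have e1 : (fun i : SS E p Q ρ => L (colp π (wR a π wρ (ebs E p Q ρ (some i))))) =
        (fun i => L (colp (fun l : Fin p => π l.succ) (wSS a π wρ i))) := by
      ext1 i
      rw [← phiS_ebs, colp_phiS]
    rw [e1, g3, ← g4]
    change cls (dbl J) (fun i => L (colp (fun l : Fin p => π l.succ)
      (wR a (fun l => π l.succ) (wρ1 a π wρ) i))) = _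
    rw [g5, ← g6, ← g7]
    rfl

/-- The multidegree of the enlarged ideal restricts to the original multidegree. -/
theorem block_slice [CharZero k] [Fintype E] [Fintype Q] {ℓ : X →+ ℤ} {a : E → X}
    (H1 : ∀ s, 0 < ℓ (a s)) (p : ℕ) : ∀ (ρ : Type) [Fintype ρ] (π : Fin p → X) (wρ : ρ → X)
    (_ : ∀ l, 0 < ℓ (π l)) (_ : ∀ s l, ℓ (π l) < ℓ (a s)) (_ : StrictMono fun l => ℓ (π l))
    (_ : PosL ℓ wρ) (I : Ideal (MvPolynomial (SI E p Q ρ) k)) (_ : IsHomog (wI a π wρ) I)
    (_ : I ≠ ⊤),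
    ord (dbl I) = ord I ∧ ∀ (R : Type) [CommRing R] [Algebra ℚ R] (L : X →+ R),
      cls (dbl I) (fun i => L (colp π (wR a π wρ i))) = cls I (fun i => L (wI a π wρ i)) := by
  induction p with
  | zero =>
    intro ρ _ π wρ _ _ _ H5 I hI hne
    exact block_zero H1 H5 hI hne
  | succ p ih =>
    intro ρ _ π wρ H2 H3 H4 H5 I hI hne
    refine block_succ H1 H2 H3 H4 H5 hI hne ?_
    intro J hJ hJne
    apply ih (R1 E p ρ) (fun l => π l.succ) (wρ1 a π wρ) (fun l => H2 _) (fun s l => H3 s _)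
      (fun i j hij => H4 (by simpa using hij)) ?_ J hJ hJne
    rintro (r | (s | l))
    · exact H5 r
    · change 0 < ℓ (a s - π 0)
      rw [map_sub]
      have := H3 s 0
      omega
    · change 0 < ℓ (π l.succ - π 0)
      rw [map_sub]
      have := H4 (Fin.succ_pos l)
      simp only at this
      omega

end Slice

end

end Pool.Agent.Helper38
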