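import Mathlib
import Pool.Agent.Helper38.KPv

open MvPolynomial Module

namespace Pool.Agent.Helper38

noncomputable section

section CaseTwo

variable {k : Type} [Field k] {n m : ℕ} {ρ : Type} [Fintype ρ] {X' : Type} [AddCommGroup X']

/-- grading with the additional column degree -/
def cwj (n m : ℕ) {ρ X' : Type} [AddCommGroup X'] (wρ : ρ → X') : CI n (m + 1) ρ → CX n X' × ℤ :=
  fun i => (cw n (m + 1) wρ i, cj n m ρ i)

/-- values of the weights of the matrix with column weight `y` for the first column -/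
def bv {R : Type} [CommRing R] (m : ℕ) (x : Fin n → R) (y : R) (b : ρ → R) :
    CI n (m + 1) ρ → R :=
  Sum.elim (fun q => x q.1 - if q.2 = 0 then y else 0) b

def bv0 {R : Type} [CommRing R] (m : ℕ) (x : Fin n → R) (b : ρ → R) : CI n m ρ → R :=
  Sum.elim (fun q => x q.1) b

/-- identify the column weight with the weight of the first row -/
def phi0 (n : ℕ) (X' : Type) [AddCommGroup X'] : CX (n + 1) X' × ℤ →+ CX (n + 1) X' where
  toFun z := (z.1.1 - z.2 • Pi.single 0 1, z.1.2)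
  map_zero' := by simp
  map_add' z z' := by
    ext
    · simp only [Prod.fst_add, Prod.snd_add, add_smul, Pi.sub_apply, Pi.add_apply, Pi.smul_apply]
      ring
    · simp

/-- weights after straightening -/
def wpt (n m : ℕ) {ρ X' : Type} [AddCommGroup X'] (wρ : ρ → X') : PT n m ρ → CX (n + 1) X' :=
  Sum.elim (Sum.elim (fun q => (Pi.single q.1.succ 1, 0)) (fun r => (0, wρ r)))
    (Sum.elim (fun a => (Pi.single a.succ 1 - Pi.single 0 1, 0)) (fun _ => (Pi.single 0 1, 0)))

omit [Fintype ρ] in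
lemma phi0_epiv (wρ : ρ → X') (i : PT n m ρ) :
    phi0 n X' (cwj (n + 1) m wρ (epiv n m ρ (some i))) = wpt n m wρ i := by
  rcases i with ((⟨a, c⟩ | r) | (a | c))
  · rw [epiv_ac]
    simp [phi0, cwj, cw, cj, wpt]
  · rw [epiv_r]
    simp [phi0, cwj, cw, cj, wpt]
  · rw [epiv_v]
    simp [phi0, cwj, cw, cj, wpt]
  · rw [epiv_h]
    simp [phi0, cwj, cw, cj, wpt]

omit [Fintype ρ] in
lemma phi0_none (wρ : ρ → X') :
    phi0 n X' (cwj (n + 1) m wρ (epiv n m ρ none)) = 0 := by
  rw [epiv_none]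
  simp [phi0, cwj, cw, cj]

/-- restriction of the row weights -/
def prS (n : ℕ) (X' : Type) [AddCommGroup X'] : CX (n + 1) X' →+ CX n X' where
  toFun z := (fun a => z.1 a.succ, z.2)
  map_zero' := rfl
  map_add' _ _ := rfl

omit [Fintype ρ] in
lemma prS_wpt (wρ : ρ → X') (i : CI n m ρ) : prS n X' (wpt n m wρ (Sum.inl i)) = cw n m wρ i := by
  rcases i with ⟨a, c⟩ | r
  · simp only [prS, wpt, cw, Sum.elim_inl, AddMonoidHom.coe_mk, ZeroHom.coe_mk, Prod.mk.injEq,
      and_true]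
    ext a'
    simp [Pi.single_apply]
  · simp only [prS, wpt, cw, Sum.elim_inl, Sum.elim_inr, AddMonoidHom.coe_mk, ZeroHom.coe_mk,
      Prod.mk.injEq, and_true]
    rfl

omit [Fintype ρ] in
lemma shr_homog (wρ : ρ → X') (t : k) (i : PT n m ρ) :
    IsWeightedHomogeneous (wpt n m wρ) (shr k n m ρ t (MvPolynomial.X i)) (wpt n m wρ i) := by
  rcases i with ((⟨a, c⟩ | r) | v)
  · rw [shr_ac]
    apply (isWeightedHomogeneous_X k (wpt n m wρ) (Sum.inl (Sum.inl (a, c)))).add
    apply IsWeightedHomogeneous.C_mul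
    have h1 := (isWeightedHomogeneous_X k (wpt n m wρ) (Sum.inr (Sum.inl a))).mul
      (isWeightedHomogeneous_X k (wpt n m wρ) (Sum.inr (Sum.inr c)))
    have h2 : wpt n m wρ (Sum.inr (Sum.inl a)) + wpt n m wρ (Sum.inr (Sum.inr c)) =
        wpt n m wρ (Sum.inl (Sum.inl (a, c))) := by
      simp [wpt]
    rwa [h2] at h1
  · rw [shr_r]
    exact isWeightedHomogeneous_X k _ _
  · rw [shr_vh]
    exact isWeightedHomogeneous_X k _ _

def ell1 (n : ℕ) {X' : Type} [AddCommGroup X'] (ℓ' : X' →+ ℤ) : CX (n + 1) X' →+ ℤ :=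
  evL (fun a => if a = 0 then (1 : ℤ) else 2) ℓ'

omit [Fintype ρ] in
lemma posL_ell1 {wρ : ρ → X'} {ℓ' : X' →+ ℤ} (h : PosL ℓ' wρ) : PosL (ell1 n ℓ') (wpt n m wρ) := by
  rintro ((⟨a, c⟩ | r) | (a | c))
  · change 0 < ell1 n ℓ' (Pi.single a.succ 1, 0)
    rw [ell1, evL_inl, if_neg (Fin.succ_ne_zero a)]
    norm_num
  · change 0 < ell1 n ℓ' (0, wρ r)
    rw [ell1, evL_inr]
    exact h r
  · change 0 < ell1 n ℓ' (Pi.single a.succ 1 - Pi.single 0 1, 0)
    have e : ((Pi.single a.succ 1 - Pi.single 0 1, 0) : CX (n + 1) X') =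
        (Pi.single a.succ 1, 0) - (Pi.single 0 1, 0) := by simp
    rw [e, map_sub, ell1, evL_inl, evL_inl, if_neg (Fin.succ_ne_zero a), if_pos rfl]
    norm_num
  · change 0 < ell1 n ℓ' (Pi.single 0 1, 0)
    rw [ell1, evL_inl, if_pos rfl]
    norm_num

omit [Fintype ρ] in
lemma posL_cwj {wρ : ρ → X'} {ℓ' : X' →+ ℤ} (h : PosL ℓ' wρ) :
    PosL ((cl n ℓ').comp (AddMonoidHom.fst (CX n X') ℤ)) (cwj n m wρ) := by
  intro i
  exact posL_cl h i

/-- slicing a prime not containing the corner variable -/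
theorem slice_prime [CharZero k] {wρ : ρ → X'} {ℓ' : X' →+ ℤ} (hℓ : PosL ℓ' wρ)
    (𝒢 : Set (Der k ρ)) {p : Ideal (MvPolynomial (CI (n + 1) (m + 1) ρ) k)}
    (hp : IsHomog (cwj (n + 1) m wρ) p) (hprime : HPrime (cwj (n + 1) m wρ) p)
    (hX : MvPolynomial.X (Sum.inl (0, 0)) ∉ p)
    (hrow : ∀ a b : Fin (n + 1), a ≠ b →
      Stab (rowD k (n + 1) (m + 1) ρ a b : MvPolynomial (CI (n + 1) (m + 1) ρ) k →ₗ[k] _) p)
    (hcol : ∀ c : Fin m,
      Stab (colD k (n + 1) m ρ c : MvPolynomial (CI (n + 1) (m + 1) ρ) k →ₗ[k] _) p)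
    (hG : ∀ D ∈ 𝒢, Stab (spD (Fin (n + 1) × Fin (m + 1)) D :
      MvPolynomial (CI (n + 1) (m + 1) ρ) k →ₗ[k] _) p) :
    ∃ q : Ideal (MvPolynomial (CI n m ρ) k), IsHomog (cw n m wρ) q ∧ q ≠ ⊤ ∧ ord p = ord q ∧
      (∀ a b : Fin n, a ≠ b →
        Stab (rowD k n m ρ a b : MvPolynomial (CI n m ρ) k →ₗ[k] _) q) ∧
      (∀ D ∈ 𝒢, Stab (spD (Fin n × Fin m) D : MvPolynomial (CI n m ρ) k →ₗ[k] _) q) ∧
      ∀ (R : Type) [CommRing R] [Algebra ℚ R] (x : Fin (n + 1) → R) (L : X' →+ R),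
        cls p (bv m x (x 0) (fun r => L (wρ r))) =
          cls q (bv0 m (fun a => x a.succ) (fun r => L (wρ r))) := by
  have hpos := posL_cwj (n := n + 1) (m := m) hℓ
  set p0 := p.comap (rename (epiv n m ρ) : MvPolynomial (Option (PT n m ρ)) k →ₐ[k]
    MvPolynomial (CI (n + 1) (m + 1) ρ) k) with hp0
  obtain ⟨a1, a2, a3, a4⟩ := rename_compare hpos (epiv n m ρ) hp hprime.1
  rw [← hp0] at a1 a2 a3 a4
  have hc : colonE p0 (MvPolynomial.X none) = p0 := by
    refine le_antisymm ?_ (le_colonE _ _)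
    intro f hf
    rw [mem_colonE, hp0, Ideal.mem_comap, map_mul, rename_X, epiv_none] at hf
    have h1 : rename (epiv n m ρ) f ∈ colonE p (MvPolynomial.X (Sum.inl (0, 0))) := hf
    rw [hprime.colonE_eq hp (isWeightedHomogeneous_X k _ _) hX] at h1
    exact h1
  have hpos1 : PosL (ell1 n ℓ')
      (fun i : PT n m ρ => phi0 n X' ((cwj (n + 1) m wρ ∘ epiv n m ρ) (some i))) := by
    intro i
    simp only [Function.comp_apply]
    rw [phi0_epiv]
    exact posL_ell1 hℓ i
  obtain ⟨b1, b2, b3, b4⟩ := pivot (phi0 n X') (phi0_none wρ) (hpos.comp (epiv n m ρ)) hpos1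
    a1 hc a2
  set p1 := p0.map (ev1 k (PT n m ρ)) with hp1
  have hw1 : (fun i : PT n m ρ => phi0 n X' ((cwj (n + 1) m wρ ∘ epiv n m ρ) (some i))) =
      wpt n m wρ := by
    ext1 i
    exact phi0_epiv wρ i
  rw [hw1] at b1
  have hpos2 : PosL (ell1 n ℓ') (wpt n m wρ) := posL_ell1 hℓ
  -- the straightened ideal
  set p2 := p1.map (shr k n m ρ 1) with hp2
  have hp2' : p2 = p.map (pivU k n m ρ) := by
    rw [hp2, hp1, pivU, ← Ideal.map_mapₐ, pivA, ← Ideal.map_mapₐ]
    congr 2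
    rw [hp0]
    have e1 : (p.comap (rename (epiv n m ρ) : MvPolynomial (Option (PT n m ρ)) k →ₐ[k]
        MvPolynomial (CI (n + 1) (m + 1) ρ) k)) = ((p.comap (rename (epiv n m ρ) :
        MvPolynomial (Option (PT n m ρ)) k →ₐ[k] _)).map (rename (epiv n m ρ) :
        MvPolynomial (Option (PT n m ρ)) k →ₐ[k] _)).map (rename (epiv n m ρ).symm :
        MvPolynomial (CI (n + 1) (m + 1) ρ) k →ₐ[k] _) := by
      rw [Ideal.map_mapₐ]
      have e2 : (rename (epiv n m ρ).symm : MvPolynomial (CI (n + 1) (m + 1) ρ) k →ₐ[k] _).comp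
          (rename (epiv n m ρ) : MvPolynomial (Option (PT n m ρ)) k →ₐ[k] _) =
          AlgHom.id k _ := by
        apply MvPolynomial.algHom_ext
        intro i; simp
      rw [e2]
      exact (Ideal.map_id _).symm
    rw [e1, map_comap_rename]
  have hshr : ∀ t : k, (shr k n m ρ t : MvPolynomial (PT n m ρ) k →ₐ[k] _) =
      aeval (fun i => shr k n m ρ t (MvPolynomial.X i)) := by
    intro t
    apply MvPolynomial.algHom_ext
    intro i; simp
  have c1 : IsHomog (wpt n m wρ) p2 := by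
    rw [hp2, hshr 1]
    exact b1.map_any _ (shr_homog wρ 1)
  have hinv1 : (shr k n m ρ 1).comp (shr k n m ρ (-1)) = AlgHom.id k _ := by
    rw [shr_comp, add_neg_cancel, shr_zero]
  have hinv2 : (shr k n m ρ (-1)).comp (shr k n m ρ 1) = AlgHom.id k _ := by
    rw [shr_comp, neg_add_cancel, shr_zero]
  have c2 : kq (wpt n m wρ) p1 = kq (wpt n m wρ) p2 := by
    refine kq_equiv hpos2.posW hpos2.posW (Equiv.refl _) (fun i => rfl) (shr k n m ρ 1)
      (shr k n m ρ (-1)) hinv1 hinv2 (shr_homog wρ 1) (shr_homog wρ (-1)) b1 c1 ?_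
    intro f
    constructor
    · intro hf; exact Ideal.mem_map_of_mem _ hf
    · intro hf
      rw [hp2, Ideal.mem_map_iff_of_surjective _ (shr_surj 1)] at hf
      obtain ⟨g, hg, hgf⟩ := hf
      have e3 : ∀ h, shr k n m ρ (-1) (shr k n m ρ 1 h) = h := fun h => AlgHom.congr_fun hinv2 h
      rw [← e3 f, ← hgf, e3]
      exact hg
  obtain ⟨d1, d2, d3⟩ := compare_eq hpos2 hpos2 b1 c1 b2 c2
  -- stability and extension
  have s1 : ∀ v : Fin n ⊕ Fin m, ∀ f ∈ p2, pderiv (Sum.inr v) f ∈ p2 := by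
    rintro (a | c)
    · rw [hp2']
      exact stab_map pivU_surj (D1 := pderiv (Sum.inr (Sum.inl a))) (int_row0 a)
        (hrow a.succ 0 (Fin.succ_ne_zero a))
    · rw [hp2']
      exact stab_map pivU_surj (D1 := pderiv (Sum.inr (Sum.inr c))) (int_col c) (hcol c)
  have s2 := extended_of_stable s1
  set q := p2.comap (rename Sum.inl : MvPolynomial (CI n m ρ) k →ₐ[k]
    MvPolynomial (PT n m ρ) k) with hq
  have q1 : IsHomog (wpt n m wρ ∘ Sum.inl) q := c1.comap_rename
  have q1' : IsHomog (cw n m wρ) q := by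
    have := q1.coarsen (prS n X')
    have e : (fun i => prS n X' ((wpt n m wρ ∘ Sum.inl) i)) = cw n m wρ := by
      ext1 i; exact prS_wpt wρ i
    rwa [e] at this
  have q2 : q ≠ ⊤ := by
    intro h
    apply d1
    rw [s2, h, Ideal.map_top]
  obtain ⟨f1, f2, f3, f4⟩ := ext_compare (τ := Fin n ⊕ Fin m) hpos2 q1 q2
  rw [← s2] at f3 f4
  refine ⟨q, q1', q2, ?_, ?_, ?_, ?_⟩
  · rw [a3, b3, d2, f3]
  · intro a b hab
    have h1 : Stab (rowD2 k n m ρ a b : MvPolynomial (PT n m ρ) k →ₗ[k] _) p2 := by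
      rw [hp2']
      exact stab_map pivU_surj (int_row a b) (hrow a.succ b.succ (by simpa using hab))
    refine stab_comap ?_ h1
    rintro (⟨a', c'⟩ | r)
    · rw [rename_X, rowD_inl]
      simp only [rowD2, vf_X, Sum.elim_inl]
      split_ifs
      · rw [rename_X]
      · rw [map_zero]
    · rw [rename_X, rowD_inr]
      simp [rowD2, vf_X]
  · intro D hD
    have h1 : Stab (spD2 n m D : MvPolynomial (PT n m ρ) k →ₗ[k] _) p2 := by
      rw [hp2']
      exact stab_map pivU_surj (int_sp D) (hG D hD)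
    refine stab_comap ?_ h1
    rintro (⟨a', c'⟩ | r)
    · rw [rename_X, spD_inl]
      simp [spD2, vf_X]
    · rw [rename_X, spD_inr]
      simp only [spD2, vf_X, Sum.elim_inl, Sum.elim_inr]
      rw [rename_rename]
  · intro R _ _ x L
    have g1 := a4 R ((evL x L).comp (phi0 n X'))
    have g2 := b4 R (evL x L)
    have g3 := d3 R (evL x L)
    have g4 := f4 R (evL x L)
    have v1 : (fun i => ((evL x L).comp (phi0 n X')) (cwj (n + 1) m wρ i)) =
        bv m x (x 0) (fun r => L (wρ r)) := by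
      ext i
      rcases i with ⟨a, c⟩ | r
      · simp only [AddMonoidHom.comp_apply, phi0, cwj, cw, cj, Sum.elim_inl, bv,
          AddMonoidHom.coe_mk, ZeroHom.coe_mk]
        have e : ((Pi.single a 1 - (if c = 0 then (1:ℤ) else 0) • Pi.single 0 1, 0) :
            CX (n + 1) X') = (Pi.single a 1, 0) -
            (if c = 0 then (1:ℤ) else 0) • ((Pi.single 0 1, 0) : CX (n + 1) X') := by
          split_ifs <;> simp
        rw [e, map_sub, map_zsmul, evL_inl, evL_inl]
        split_ifs <;> simp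
      · simp only [AddMonoidHom.comp_apply, phi0, cwj, cw, cj, Sum.elim_inr, bv,
          AddMonoidHom.coe_mk, ZeroHom.coe_mk, zero_smul, sub_zero]
        rw [evL_inr]
    have v2 : (fun i => (evL x L) (wpt n m wρ (Sum.inl i))) =
        bv0 m (fun a => x a.succ) (fun r => L (wρ r)) := by
      ext i
      rcases i with ⟨a, c⟩ | r
      · simp only [wpt, Sum.elim_inl, bv0]
        rw [evL_inl]
      · simp only [wpt, Sum.elim_inl, Sum.elim_inr, bv0]
        rw [evL_inr]
    rw [← v1, ← v2, g1, g4, ← g3]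
    simp only [AddMonoidHom.comp_apply]
    have g2' := g2
    simp only [Function.comp_apply, phi0_epiv] at g2'
    rw [← g2']

end CaseTwo

section CaseOne

variable {k : Type} [Field k] {n m : ℕ} {ρ : Type} [Fintype ρ] {X' : Type} [AddCommGroup X']

def ekill (n m : ℕ) (ρ : Type) : CI n m ρ ⊕ Fin n ≃ CI n (m + 1) ρ where
  toFun := Sum.elim (Sum.elim (fun q => Sum.inl (q.1, q.2.succ)) Sum.inr)
    (fun a => Sum.inl (a, 0))
  invFun := Sum.elim (fun q => Fin.cases (motive := fun _ => CI n m ρ ⊕ Fin n) (Sum.inr q.1)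
      (fun c => Sum.inl (Sum.inl (q.1, c))) q.2)
    (fun r => Sum.inl (Sum.inr r))
  left_inv := by
    rintro ((⟨a, c⟩ | r) | a) <;> simp
  right_inv := by
    rintro (⟨a, c⟩ | r)
    · refine Fin.cases ?_ ?_ c
      · simp
      · intro c; simp
    · simp

/-- the case in which the first column lies in the prime -/
theorem kill_prime {wρ : ρ → X'} {ℓ' : X' →+ ℤ} (hℓ : PosL ℓ' wρ)
    (𝒢 : Set (Der k ρ)) {p : Ideal (MvPolynomial (CI n (m + 1) ρ) k)}
    (hp : IsHomog (cwj n m wρ) p) (hne : p ≠ ⊤)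
    (hX : ∀ a, MvPolynomial.X (Sum.inl (a, 0)) ∈ p)
    (hrow : ∀ a b : Fin n, a ≠ b →
      Stab (rowD k n (m + 1) ρ a b : MvPolynomial (CI n (m + 1) ρ) k →ₗ[k] _) p)
    (hG : ∀ D ∈ 𝒢, Stab (spD (Fin n × Fin (m + 1)) D :
      MvPolynomial (CI n (m + 1) ρ) k →ₗ[k] _) p) :
    ∃ q : Ideal (MvPolynomial (CI n m ρ) k), IsHomog (cw n m wρ) q ∧ q ≠ ⊤ ∧ ord p = ord q + n ∧
      (∀ a b : Fin n, a ≠ b →
        Stab (rowD k n m ρ a b : MvPolynomial (CI n m ρ) k →ₗ[k] _) q) ∧
      (∀ D ∈ 𝒢, Stab (spD (Fin n × Fin m) D : MvPolynomial (CI n m ρ) k →ₗ[k] _) q) ∧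
      ∀ (R : Type) [CommRing R] [Algebra ℚ R] (x : Fin n → R) (L : X' →+ R),
        cls p (bv m x 0 (fun r => L (wρ r))) =
          (∏ a, x a) * cls q (bv0 m x (fun r => L (wρ r))) := by
  have hpos := posL_cwj (n := n) (m := m) hℓ
  set p0 := p.comap (rename (ekill n m ρ) : MvPolynomial (CI n m ρ ⊕ Fin n) k →ₐ[k]
    MvPolynomial (CI n (m + 1) ρ) k) with hp0
  obtain ⟨a1, a2, a3, a4⟩ := rename_compare hpos (ekill n m ρ) hp hne
  rw [← hp0] at a1 a2 a3 a4
  obtain ⟨b1, b2, b3, b4⟩ := kill_compare (hpos.comp (ekill n m ρ)) a1 a2 (by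
    intro t
    rw [hp0, Ideal.mem_comap, rename_X]
    exact hX t)
  set q := p0.comap (rename Sum.inl : MvPolynomial (CI n m ρ) k →ₐ[k]
    MvPolynomial (CI n m ρ ⊕ Fin n) k) with hq
  have q1 : IsHomog (cw n m wρ) q := by
    have := b1.coarsen (AddMonoidHom.fst (CX n X') ℤ)
    have e : (fun i => AddMonoidHom.fst (CX n X') ℤ
        (((cwj n m wρ ∘ ekill n m ρ) ∘ Sum.inl) i)) = cw n m wρ := by
      ext1 i
      rcases i with ⟨a, c⟩ | r <;> rfl
    rwa [e] at this
  have hqp : q = p.comap (rename ((ekill n m ρ) ∘ Sum.inl) :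
      MvPolynomial (CI n m ρ) k →ₐ[k] MvPolynomial (CI n (m + 1) ρ) k) := by
    ext f
    rw [hq, hp0, Ideal.mem_comap, Ideal.mem_comap, Ideal.mem_comap, rename_rename]
  refine ⟨q, q1, b2, ?_, ?_, ?_, ?_⟩
  · rw [a3, b3, Fintype.card_fin]
  · intro a b hab
    rw [hqp]
    refine stab_comap ?_ (hrow a b hab)
    rintro (⟨a', c'⟩ | r)
    · rw [rename_X, rowD_inl]
      change rowD k n (m + 1) ρ a b (MvPolynomial.X (Sum.inl (a', c'.succ))) = _
      rw [rowD_inl]
      split_ifs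
      · rw [rename_X]; rfl
      · rw [map_zero]
    · rw [rename_X, rowD_inr, map_zero]
      exact rowD_inr _ _ _
  · intro D hD
    rw [hqp]
    refine stab_comap ?_ (hG D hD)
    rintro (⟨a', c'⟩ | r)
    · rw [rename_X, spD_inl, map_zero]
      exact spD_inl _ _
    · rw [rename_X, spD_inr, rename_rename]
      exact spD_inr _ _
  · intro R _ _ x L
    have g1 := a4 R ((evL x L).comp (AddMonoidHom.fst (CX n X') ℤ))
    have g2 := b4 R ((evL x L).comp (AddMonoidHom.fst (CX n X') ℤ))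
    have v1 : (fun i => ((evL x L).comp (AddMonoidHom.fst (CX n X') ℤ)) (cwj n m wρ i)) =
        bv m x 0 (fun r => L (wρ r)) := by
      ext i
      rcases i with ⟨a, c⟩ | r
      · simp only [AddMonoidHom.comp_apply, cwj, cw, Sum.elim_inl, bv, AddMonoidHom.coe_fst,
          ite_self, sub_zero]
        rw [evL_inl]
      · simp only [AddMonoidHom.comp_apply, cwj, cw, Sum.elim_inr, bv, AddMonoidHom.coe_fst]
        rw [evL_inr]
    have v2 : (fun i => ((evL x L).comp (AddMonoidHom.fst (CX n X') ℤ))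
        ((cwj n m wρ ∘ ekill n m ρ) (Sum.inl i))) = bv0 m x (fun r => L (wρ r)) := by
      ext i
      rcases i with ⟨a, c⟩ | r
      · simp only [AddMonoidHom.comp_apply, Function.comp_apply, cwj, cw, Sum.elim_inl, bv0,
          AddMonoidHom.coe_fst, ekill, Equiv.coe_fn_mk]
        rw [evL_inl]
      · simp only [AddMonoidHom.comp_apply, Function.comp_apply, cwj, cw, Sum.elim_inl,
          Sum.elim_inr, bv0, AddMonoidHom.coe_fst, ekill, Equiv.coe_fn_mk]
        rw [evL_inr]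
    have v3 : ∀ t : Fin n, ((evL x L).comp (AddMonoidHom.fst (CX n X') ℤ))
        ((cwj n m wρ ∘ ekill n m ρ) (Sum.inr t)) = x t := by
      intro t
      simp only [AddMonoidHom.comp_apply, Function.comp_apply, cwj, cw, Sum.elim_inl,
        Sum.elim_inr, AddMonoidHom.coe_fst, ekill, Equiv.coe_fn_mk]
      rw [evL_inl]
    rw [← v1, g1]
    simp only [Function.comp_apply] at g2 v2 v3
    rw [g2, v2]
    congr 1
    exact Finset.prod_congr rfl fun t _ => v3 t

end CaseOne

section Symm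

variable {k : Type} [Field k] {n m : ℕ} {ρ : Type} [Fintype ρ] {X' : Type} [AddCommGroup X']

/-- exchange of two rows -/
def rsw (a b : Fin n) : CI n m ρ → CI n m ρ :=
  Sum.elim (fun q => Sum.inl (Equiv.swap a b q.1, q.2)) Sum.inr

def swX (a b : Fin n) (X' : Type) [AddCommGroup X'] : CX n X' →+ CX n X' where
  toFun z := (fun c => z.1 (Equiv.swap a b c), z.2)
  map_zero' := rfl
  map_add' _ _ := rfl

lemma single_swap (a b c : Fin n) : (fun d => (Pi.single c 1 : Fin n → ℤ) (Equiv.swap a b d)) =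
    Pi.single (Equiv.swap a b c) 1 := by
  ext d
  simp only [Pi.single_apply]
  congr 1
  rw [eq_iff_iff]
  constructor
  · intro h; rw [← h, Equiv.swap_apply_self]
  · intro h; rw [h, Equiv.swap_apply_self]

theorem row_sym [CharZero k] {wρ : ρ → X'} {ℓ' : X' →+ ℤ} (hℓ : PosL ℓ' wρ)
    {p : Ideal (MvPolynomial (CI n (m + 1) ρ) k)}
    (hp : IsHomog (cwj n m wρ) p) (hne : p ≠ ⊤) {a b : Fin n} (hab : a ≠ b)
    (h1 : Stab (rowD k n (m + 1) ρ a b : MvPolynomial (CI n (m + 1) ρ) k →ₗ[k] _) p)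
    (h2 : Stab (rowD k n (m + 1) ρ b a : MvPolynomial (CI n (m + 1) ρ) k →ₗ[k] _) p)
    (R : Type) [CommRing R] [Algebra ℚ R] (x : Fin n → R) (y : R) (L : X' →+ R) :
    cls p (bv m (x ∘ Equiv.swap a b) y (fun r => L (wρ r))) =
      cls p (bv m x y (fun r => L (wρ r))) := by
  classical
  have hpos := posL_cwj (n := n) (m := m) hℓ
  let B : CI n (m + 1) ρ → Prop := Sum.elim (fun q => q.1 = a) (fun _ => False)
  have hinv : ∀ i : CI n (m + 1) ρ, rsw a b (rsw a b i) = i := by
    rintro (⟨c, d⟩ | r) <;> simp [rsw]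
  have hB' : ∀ i : CI n (m + 1) ρ, B (rsw a b i) ↔ Sum.elim (fun q => q.1 = b) (fun _ => False) i := by
    rintro (⟨c, d⟩ | r)
    · simp only [rsw, Sum.elim_inl, B]
      constructor
      · intro h
        have := congrArg (Equiv.swap a b) h
        rwa [Equiv.swap_apply_self, Equiv.swap_apply_left] at this
      · intro h
        rw [h, Equiv.swap_apply_right]
    · simp [rsw, B]
  have hd : ∀ i : CI n (m + 1) ρ, B i → ¬ B (rsw a b i) := by
    rintro (⟨c, d⟩ | r) h
    · rw [hB']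
      simp only [Sum.elim_inl, B] at h ⊢
      rw [h]
      exact hab
    · exact absurd h (by simp [B])
  have hfix : ∀ i : CI n (m + 1) ρ, ¬ B i → ¬ B (rsw a b i) → rsw a b i = i := by
    rintro (⟨c, d⟩ | r) h h'
    · rw [hB'] at h'
      simp only [Sum.elim_inl, B] at h h'
      simp only [rsw, Sum.elim_inl]
      rw [Equiv.swap_apply_of_ne_of_ne h h']
    · rfl
  have e1 : swD k (rsw a b) B = rowD k n (m + 1) ρ a b := by
    apply MvPolynomial.derivation_ext
    rintro (⟨c, d⟩ | r)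
    · rw [rowD_inl, swD, vf_X]
      simp only [B, Sum.elim_inl, rsw]
      by_cases h : c = a
      · rw [if_pos h, if_pos h, h, Equiv.swap_apply_left]
      · rw [if_neg h, if_neg h]
    · rw [rowD_inr, swD, vf_X]
      simp [B]
  have e2 : swD k (rsw a b) (fun i => B (rsw a b i)) = rowD k n (m + 1) ρ b a := by
    apply MvPolynomial.derivation_ext
    rintro (⟨c, d⟩ | r)
    · rw [rowD_inl, swD, vf_X]
      have h0 := hB' (Sum.inl (c, d))
      simp only [Sum.elim_inl] at h0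
      by_cases h : c = b
      · rw [if_pos (h0.2 h), if_pos h, h]
        simp [rsw]
      · rw [if_neg (fun h' => h (h0.1 h')), if_neg h]
    · rw [rowD_inr, swD, vf_X]
      simp [B, rsw]
  rw [← e1] at h1
  rw [← e2] at h2
  let s : CX n X' × ℤ →+ CX n X' × ℤ := AddMonoidHom.prodMap (swX a b X') (AddMonoidHom.id ℤ)
  have hs : ∀ i : CI n (m + 1) ρ, s (cwj n m wρ i) = cwj n m wρ (rsw a b i) := by
    rintro (⟨c, d⟩ | r)
    · simp only [s, cwj, cw, cj, rsw, swX, Sum.elim_inl, AddMonoidHom.prodMap, AddMonoidHom.coe_mk,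
        ZeroHom.coe_mk, AddMonoidHom.coe_prodMap, Prod.map_apply, AddMonoidHom.id_apply,
        AddMonoidHom.prod_apply, AddMonoidHom.comp_apply, AddMonoidHom.coe_fst,
        AddMonoidHom.coe_snd]
      rw [single_swap]
    · rfl
  have key := sym_cls hpos hp hne hinv hd hfix s hs h1 h2 R
    (AddMonoidHom.coprod (evL x L) (-(zmultiplesHom R y)))
  have v1 : ∀ i : CI n (m + 1) ρ, (AddMonoidHom.coprod (evL x L) (-(zmultiplesHom R y)))
      (cwj n m wρ i) = bv m x y (fun r => L (wρ r)) i := by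
    rintro (⟨c, d⟩ | r)
    · simp only [AddMonoidHom.coprod_apply, cwj, cw, cj, Sum.elim_inl, bv,
        AddMonoidHom.neg_apply, zmultiplesHom_apply]
      rw [evL_inl]
      split_ifs <;> simp [sub_eq_add_neg]
    · simp only [AddMonoidHom.coprod_apply, cwj, cw, cj, Sum.elim_inr, bv,
        AddMonoidHom.neg_apply, zmultiplesHom_apply]
      rw [evL_inr]
      simp
  simp only [v1] at key
  have v2 : (fun i : CI n (m + 1) ρ => bv m x y (fun r => L (wρ r)) (rsw a b i)) =
      bv m (x ∘ Equiv.swap a b) y (fun r => L (wρ r)) := by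
    ext i
    rcases i with ⟨c, d⟩ | r
    · simp [bv, rsw]
    · simp [bv, rsw]
  rw [v2] at key
  exact key

end Symm

section Deg

variable {k : Type} [Field k] {n m : ℕ} {ρ : Type} [Fintype ρ] {X' : Type} [AddCommGroup X']

/-- degree bound in the column weight -/
theorem deg_bound {wρ : ρ → X'} {ℓ' : X' →+ ℤ} (hℓ : PosL ℓ' wρ)
    {p : Ideal (MvPolynomial (CI (n + 1) (m + 1) ρ) k)}
    (hp : IsHomog (cwj (n + 1) m wρ) p) (hprime : HPrime (cwj (n + 1) m wρ) p)
    (hX : MvPolynomial.X (Sum.inl (0, 0)) ∉ p)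
    (R : Type) [CommRing R] [Algebra ℚ R] (x : Fin (n + 1) → R) (L : X' →+ R) :
    (cls p (bv m (fun a => Polynomial.C (x a)) Polynomial.X
      (fun r => Polynomial.C (L (wρ r))))).natDegree ≤ n := by
  have hpos := posL_cwj (n := n + 1) (m := m) hℓ
  set p0 := p.comap (rename (epiv n m ρ) : MvPolynomial (Option (PT n m ρ)) k →ₐ[k]
    MvPolynomial (CI (n + 1) (m + 1) ρ) k) with hp0
  obtain ⟨a1, a2, a3, a4⟩ := rename_compare hpos (epiv n m ρ) hp hprime.1
  rw [← hp0] at a1 a2 a3 a4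
  have hc : colonE p0 (MvPolynomial.X none) = p0 := by
    refine le_antisymm ?_ (le_colonE _ _)
    intro f hf
    rw [mem_colonE, hp0, Ideal.mem_comap, map_mul, rename_X, epiv_none] at hf
    have h1 : rename (epiv n m ρ) f ∈ colonE p (MvPolynomial.X (Sum.inl (0, 0))) := hf
    rw [hprime.colonE_eq hp (isWeightedHomogeneous_X k _ _) hX] at h1
    exact h1
  have hpos0 := hpos.comp (epiv n m ρ)
  have hkq := kq_elim hpos0.posW a1 hc
  obtain ⟨c1, c2, c3⟩ := compare_eq hpos0 (hpos0.comp some) a1 (map_ev0_homog a1) a2 hkq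
  set LL : CX (n + 1) X' × ℤ →+ Polynomial R := AddMonoidHom.coprod
    (evL (fun a => Polynomial.C (x a)) ((Polynomial.C : R →+* Polynomial R).toAddMonoidHom.comp L))
    (-(zmultiplesHom (Polynomial R) Polynomial.X)) with hLL
  have v1 : ∀ i : CI (n + 1) (m + 1) ρ, LL (cwj (n + 1) m wρ i) =
      bv m (fun a => Polynomial.C (x a)) Polynomial.X (fun r => Polynomial.C (L (wρ r))) i := by
    rintro (⟨c, d⟩ | r)
    · simp only [hLL, AddMonoidHom.coprod_apply, cwj, cw, cj, Sum.elim_inl, bv,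
        AddMonoidHom.neg_apply, zmultiplesHom_apply]
      rw [evL_inl]
      split_ifs <;> simp [sub_eq_add_neg]
    · simp only [hLL, AddMonoidHom.coprod_apply, cwj, cw, cj, Sum.elim_inr, bv,
        AddMonoidHom.neg_apply, zmultiplesHom_apply]
      rw [evL_inr]
      simp
  have g1 := a4 (Polynomial R) LL
  have g2 := c3 (Polynomial R) LL
  have v2 : (fun i => LL (cwj (n + 1) m wρ i)) =
      bv m (fun a => Polynomial.C (x a)) Polynomial.X (fun r => Polynomial.C (L (wρ r))) := by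
    ext1 i; exact v1 i
  rw [← v2, g1]
  simp only [Function.comp_apply] at g2
  rw [g2]
  refine (natDegree_cls_le _ _).trans ?_
  simp only [v1]
  rw [Fintype.sum_sum_type, Fintype.sum_sum_type, Fintype.sum_sum_type]
  have t1 : ∑ q : Fin n × Fin m, (bv m (fun a => Polynomial.C (x a)) (Polynomial.X : Polynomial R)
      (fun r => Polynomial.C (L (wρ r)))
      (epiv n m ρ (some (Sum.inl (Sum.inl q))))).natDegree = 0 := by
    apply Finset.sum_eq_zero
    rintro ⟨a, c⟩ _
    rw [epiv_ac]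
    simp [bv, Fin.succ_ne_zero]
  have t2 : ∑ r : ρ, (bv m (fun a => Polynomial.C (x a)) (Polynomial.X : Polynomial R)
      (fun r => Polynomial.C (L (wρ r)))
      (epiv n m ρ (some (Sum.inl (Sum.inr r))))).natDegree = 0 := by
    apply Finset.sum_eq_zero
    intro r _
    rw [epiv_r]
    simp [bv]
  have t3 : ∑ c : Fin m, (bv m (fun a => Polynomial.C (x a)) (Polynomial.X : Polynomial R)
      (fun r => Polynomial.C (L (wρ r)))
      (epiv n m ρ (some (Sum.inr (Sum.inr c))))).natDegree = 0 := by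
    apply Finset.sum_eq_zero
    intro c _
    rw [epiv_h]
    simp [bv, Fin.succ_ne_zero]
  have t4 : ∑ a : Fin n, (bv m (fun a => Polynomial.C (x a)) (Polynomial.X : Polynomial R)
      (fun r => Polynomial.C (L (wρ r)))
      (epiv n m ρ (some (Sum.inr (Sum.inl a))))).natDegree ≤ n := by
    refine (Finset.sum_le_card_nsmul _ _ 1 ?_).trans ?_
    · intro a _
      rw [epiv_v]
      simp only [bv, Sum.elim_inl, if_true]
      refine (Polynomial.natDegree_sub_le _ _).trans ?_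
      rw [Polynomial.natDegree_C]
      exact max_le (Nat.zero_le _) Polynomial.natDegree_X_le
    · simp
  rw [t1, t2, t3]
  simpa using t4

end Deg

end

end Pool.Agent.Helper38
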