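import Mathlib
import Pool.Agent.Helper38.KCT

open MvPolynomial Module

namespace Pool.Agent.Helper38

noncomputable section

section Lagrange

variable {k : Type} [Field k] {n m : ℕ} {ρ : Type} [Fintype ρ] {X' : Type} [AddCommGroup X']

/-- perturbed values -/
def xeps {R : Type} [CommRing R] (x : Fin n → R) : Fin n → Polynomial R :=
  fun a => Polynomial.C (x a) + Polynomial.C ((a : ℕ) : R) * Polynomial.X

lemma xeps_inj {R : Type} [CommRing R] [IsDomain R] [Algebra ℚ R] (x : Fin n → R) :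
    Function.Injective (xeps x) := by
  intro a b h
  have h1 := congrArg (fun p => Polynomial.coeff p 1) h
  simp only [xeps, Polynomial.coeff_add, Polynomial.coeff_C_mul, Polynomial.coeff_X_one, mul_one,
    Polynomial.coeff_C_succ, zero_add] at h1
  have : CharZero R := algebraRat.charZero R
  exact Fin.ext (Nat.cast_injective h1)

lemma xeps_eval {R : Type} [CommRing R] (x : Fin n → R) (a : Fin n) :
    (xeps x a).eval 0 = x a := by
  simp [xeps]

lemma bv_map {R R' : Type} [CommRing R] [CommRing R'] (f : R →+* R') (x : Fin n → R) (y : R)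
    (b : ρ → R) (i : CI n (m + 1) ρ) :
    f (bv m x y b i) = bv m (fun a => f (x a)) (f y) (fun r => f (b r)) i := by
  rcases i with ⟨a, c⟩ | r
  · simp only [bv, Sum.elim_inl, map_sub]
    split_ifs <;> simp
  · simp [bv]

lemma list_sum_map_hom {R R' ι : Type} [CommRing R] [CommRing R'] (f : R →+* R') (l : List ι)
    (g : ι → R) : f ((l.map g).sum) = (l.map fun z => f (g z)).sum := by
  rw [map_list_sum, List.map_map]
  rfl

lemma natDegree_list_sum_le {R ι : Type} [CommRing R] (l : List ι) (g : ι → Polynomial R) (N : ℕ)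
    (h : ∀ z ∈ l, (g z).natDegree ≤ N) : ((l.map g).sum).natDegree ≤ N := by
  induction l with
  | nil => simp
  | cons z l ih =>
    rw [List.map_cons, List.sum_cons]
    refine (Polynomial.natDegree_add_le _ _).trans (max_le ?_ ?_)
    · exact h z (by simp)
    · exact ih (fun z hz => h z (by simp [hz]))

omit [Fintype ρ] in
lemma ser_slice {R : Type} [CommRing R] (x : Fin (n + 1) → R) :
    ser x (fun _ : Unit => x 0) = ser (fun i : Fin n => x i.succ) (fun e : Empty => e.elim) := by
  have e3 := ser_cancel (x ∘ (finSuccEquiv n).symm)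
  rw [ser_equiv] at e3
  have e4 : (x ∘ (finSuccEquiv n).symm) none = x 0 := by simp
  have e5 : ((x ∘ (finSuccEquiv n).symm) ∘ some) = (fun i : Fin n => x i.succ) := by
    ext i; simp
  rw [e4, e5] at e3
  exact e3

omit [Fintype ρ] in
lemma ser_slice_swap {R : Type} [CommRing R] (x : Fin (n + 1) → R) (a : Fin (n + 1)) :
    ser x (fun _ : Unit => x a) =
      ser (fun i : Fin n => (x ∘ Equiv.swap 0 a) i.succ) (fun e : Empty => e.elim) := by
  rw [← ser_slice, ser_equiv]
  simp

/-- the Lagrange interpolation argument in abstract form -/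
lemma lagrange_abs {S : Type} [CommRing S] [IsDomain S] (xe : Fin (n + 1) → S)
    (hinj : Function.Injective xe) (P Q : Polynomial S) (dP : P.natDegree ≤ n)
    (dQ : Q.natDegree ≤ n) (h : ∀ a, P.eval (xe a) = Q.eval (xe a)) : P = Q := by
  have hPQ : P - Q = 0 := by
    apply Polynomial.eq_zero_of_natDegree_lt_card_of_eval_eq_zero (P - Q) (f := xe) hinj
    · intro a
      rw [Polynomial.eval_sub, sub_eq_zero, h]
    · rw [Fintype.card_fin]
      have h1 := Polynomial.natDegree_sub_le P Q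
      have h2 := max_le dP dQ
      omega
  exact sub_eq_zero.1 hPQ

lemma eval_cls {S : Type} [CommRing S] {p : Ideal (MvPolynomial (CI (n + 1) (m + 1) ρ) k)}
    (xe : Fin (n + 1) → S) (b : ρ → S) (y : S) :
    (cls p (bv m (fun a => Polynomial.C (xe a)) Polynomial.X
      (fun r => Polynomial.C (b r)))).eval y = cls p (bv m xe y b) := by
  have h1 := cls_map (Polynomial.evalRingHom y) p (bv m (fun a => Polynomial.C (xe a))
    Polynomial.X (fun r => Polynomial.C (b r)))
  rw [Polynomial.coe_evalRingHom] at h1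
  rw [h1]
  congr 1
  ext1 i
  rw [← Polynomial.coe_evalRingHom, bv_map]
  simp

/-- the right hand side polynomial -/
def rhsP {S : Type} [CommRing S] (l : List ((Fin n → ℕ) × Ideal (MvPolynomial ρ k)))
    (xe : Fin (n + 1) → S) (b : ρ → S) : Polynomial S :=
  (l.map fun z =>
    dl (ser (fun a => Polynomial.C (xe a)) (fun _ : Unit => (Polynomial.X : Polynomial S))) z.1 *
      Polynomial.C (cls z.2 b)).sum

lemma natDegree_rhsP {S : Type} [CommRing S] (l : List ((Fin n → ℕ) × Ideal (MvPolynomial ρ k)))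
    (xe : Fin (n + 1) → S) (b : ρ → S) : (rhsP l xe b).natDegree ≤ n := by
  rw [rhsP]
  apply natDegree_list_sum_le
  intro z _
  refine Polynomial.natDegree_mul_le.trans ?_
  rw [Polynomial.natDegree_C, add_zero]
  exact natDegree_dl_le xe z.1

lemma eval_rhsP {S : Type} [CommRing S] (l : List ((Fin n → ℕ) × Ideal (MvPolynomial ρ k)))
    (xe : Fin (n + 1) → S) (b : ρ → S) (y : S) :
    (rhsP l xe b).eval y = (l.map fun z => dl (ser xe (fun _ : Unit => y)) z.1 * cls z.2 b).sum := by
  rw [rhsP, ← Polynomial.coe_evalRingHom, list_sum_map_hom]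
  congr 1
  apply List.map_congr_left
  intro z _
  rw [map_mul, dl_map, ser_map]
  simp

/-- From the slice formula to the formula at vanishing column weight. -/
theorem lagrange_step [CharZero k] {wρ : ρ → X'} {ℓ' : X' →+ ℤ} (hℓ : PosL ℓ' wρ)
    {p : Ideal (MvPolynomial (CI (n + 1) (m + 1) ρ) k)}
    (hp : IsHomog (cwj (n + 1) m wρ) p) (hprime : HPrime (cwj (n + 1) m wρ) p)
    (hX : MvPolynomial.X (Sum.inl (0, 0)) ∉ p)
    (hrow : ∀ a b : Fin (n + 1), a ≠ b →
      Stab (rowD k (n + 1) (m + 1) ρ a b : MvPolynomial (CI (n + 1) (m + 1) ρ) k →ₗ[k] _) p)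
    (l : List ((Fin n → ℕ) × Ideal (MvPolynomial ρ k)))
    (hl : ∀ (R : Type) [CommRing R] [IsDomain R] [Algebra ℚ R] (x : Fin (n + 1) → R)
      (L : X' →+ R), cls p (bv m x (x 0) (fun r => L (wρ r))) =
        (l.map fun z => dl (ser (fun a : Fin n => x a.succ) (fun e : Empty => e.elim)) z.1 *
          cls z.2 (fun r => L (wρ r))).sum)
    (R : Type) [CommRing R] [IsDomain R] [Algebra ℚ R] (x : Fin (n + 1) → R) (L : X' →+ R) :
    cls p (bv m x 0 (fun r => L (wρ r))) =
      (l.map fun z => dl (ser x (fun e : Empty => e.elim)) z.1 *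
        cls z.2 (fun r => L (wρ r))).sum := by
  obtain ⟨L1, hL1v⟩ : ∃ L1 : X' →+ Polynomial R, ∀ ξ, L1 ξ = Polynomial.C (L ξ) :=
    ⟨(Polynomial.C : R →+* Polynomial R).toAddMonoidHom.comp L, fun ξ => rfl⟩
  have e5 : cls p (bv m (fun a => Polynomial.C (xeps x a)) Polynomial.X
      (fun r => Polynomial.C (L1 (wρ r)))) = rhsP l (xeps x) (fun r => L1 (wρ r)) := by
    apply lagrange_abs (xeps x) (xeps_inj x) _ _ (deg_bound hℓ hp hprime hX _ (xeps x) L1)
      (natDegree_rhsP l _ _)
    intro a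
    rw [eval_cls, eval_rhsP, ser_slice_swap]
    rw [← hl (Polynomial R) (xeps x ∘ Equiv.swap 0 a) L1]
    have e0 : (xeps x ∘ Equiv.swap 0 a) 0 = xeps x a := by simp
    rw [e0]
    by_cases h : (0 : Fin (n + 1)) = a
    · subst h
      simp
    · exact (row_sym hℓ hp hprime.1 h (hrow _ _ h) (hrow _ _ (Ne.symm h)) _ (xeps x)
        (xeps x a) L1).symm
  have e6 := congrArg (fun P => Polynomial.eval (0 : Polynomial R) P) e5
  simp only [eval_cls, eval_rhsP] at e6
  rw [ser_zero] at e6
  have e7 := congrArg (Polynomial.evalRingHom (0 : R)) e6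
  rw [cls_map, list_sum_map_hom] at e7
  have e8 : (fun i => Polynomial.evalRingHom (0 : R)
      (bv m (xeps x) 0 (fun r => L1 (wρ r)) i)) = bv m x 0 (fun r => L (wρ r)) := by
    ext1 i
    rw [bv_map]
    simp only [Polynomial.coe_evalRingHom, xeps_eval, hL1v, Polynomial.eval_C,
      Polynomial.eval_zero]
  rw [e8] at e7
  rw [e7]
  congr 1
  apply List.map_congr_left
  intro z _
  rw [map_mul, dl_map, ser_map, cls_map]
  simp only [Polynomial.coe_evalRingHom, xeps_eval, hL1v, Polynomial.eval_C]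
  congr 3
  ext e
  exact e.elim

end Lagrange

section Main

variable {k : Type} [Field k] {ρ : Type} [Fintype ρ] {X' : Type} [AddCommGroup X']

/-- positive expansion of the multidegree with respect to the rows -/
def CTP (wρ : ρ → X') (𝒢 : Set (Der k ρ)) {σ : Type} [Fintype σ] (n : ℕ)
    (I : Ideal (MvPolynomial σ k)) (bb : ∀ (R : Type) [CommRing R], (Fin n → R) → (ρ → R) → σ → R) :
    Prop :=
  ∃ l : List ((Fin n → ℕ) × Ideal (MvPolynomial ρ k)),
    (∀ z ∈ l, Antitone z.1 ∧ IsHomog wρ z.2 ∧ z.2 ≠ ⊤ ∧ (∑ a, z.1 a) + ord z.2 = ord I ∧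
      ∀ D ∈ 𝒢, Stab (D : MvPolynomial ρ k →ₗ[k] _) z.2) ∧
    ∀ (R : Type) [CommRing R] [IsDomain R] [Algebra ℚ R] (x : Fin n → R) (L : X' →+ R),
      cls I (bb R x (fun r => L (wρ r))) =
        (l.map fun z => dl (ser x (fun e : Empty => e.elim)) z.1 *
          cls z.2 (fun r => L (wρ r))).sum

/-- contribution of one prime -/
theorem prime_step [CharZero k] {n m : ℕ} {wρ : ρ → X'} {ℓ' : X' →+ ℤ} (hℓ : PosL ℓ' wρ)
    (𝒢 : Set (Der k ρ))
    (IH : ∀ (n : ℕ) (I : Ideal (MvPolynomial (CI n m ρ) k)), IsHomog (cw n m wρ) I → I ≠ ⊤ →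
      (∀ a b : Fin n, a ≠ b → Stab (rowD k n m ρ a b : MvPolynomial (CI n m ρ) k →ₗ[k] _) I) →
      (∀ D ∈ 𝒢, Stab (spD (Fin n × Fin m) D : MvPolynomial (CI n m ρ) k →ₗ[k] _) I) →
      CTP wρ 𝒢 n I (fun R _ x b => bv0 m x b))
    {p : Ideal (MvPolynomial (CI n (m + 1) ρ) k)}
    (hp : IsHomog (cwj n m wρ) p) (hprime : HPrime (cwj n m wρ) p)
    (hrow : ∀ a b : Fin n, a ≠ b →
      Stab (rowD k n (m + 1) ρ a b : MvPolynomial (CI n (m + 1) ρ) k →ₗ[k] _) p)
    (hcol : ∀ c : Fin m,
      Stab (colD k n m ρ c : MvPolynomial (CI n (m + 1) ρ) k →ₗ[k] _) p)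
    (hG : ∀ D ∈ 𝒢, Stab (spD (Fin n × Fin (m + 1)) D :
      MvPolynomial (CI n (m + 1) ρ) k →ₗ[k] _) p) :
    CTP wρ 𝒢 n p (fun R _ x b => bv m x 0 b) := by
  by_cases hall : ∀ a, MvPolynomial.X (Sum.inl (a, 0)) ∈ p
  · obtain ⟨q, q1, q2, q3, q4, q5, q6⟩ := kill_prime hℓ 𝒢 hp hprime.1 hall hrow hG
    obtain ⟨l, l1, l2⟩ := IH n q q1 q2 q4 q5
    refine ⟨l.map (fun z => (fun s => z.1 s + 1, z.2)), ?_, ?_⟩
    · intro z hz
      rw [List.mem_map] at hz
      obtain ⟨z', hz', rfl⟩ := hz
      obtain ⟨g1, g2, g3, g4, g5⟩ := l1 z' hz'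
      refine ⟨?_, g2, g3, ?_, g5⟩
      · intro i j hij
        exact Nat.add_le_add_right (g1 hij) 1
      · rw [q3, ← g4]
        simp only [Finset.sum_add_distrib, Finset.sum_const, Finset.card_univ, Fintype.card_fin,
          smul_eq_mul, mul_one]
        ring
    · intro R _ _ _ x L
      change cls p (bv m x 0 (fun r => L (wρ r))) = _
      rw [q6, l2 R x L, List.map_map, ← List.sum_map_mul_left]
      congr 1
      apply List.map_congr_left
      intro z _
      simp only [Function.comp_apply]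
      rw [← mul_assoc, dl_add_one (Fintype.card_fin n)]
  · push Not at hall
    obtain ⟨a, ha⟩ := hall
    obtain ⟨n', rfl⟩ : ∃ n', n = n' + 1 := by
      rcases n with _ | n
      · exact a.elim0
      · exact ⟨n, rfl⟩
    have hX : MvPolynomial.X (Sum.inl (0, 0)) ∉ p := by
      intro h0
      by_cases h : a = 0
      · exact ha (h ▸ h0)
      · have h1 := hrow 0 a (Ne.symm h) _ h0
        change rowD k (n' + 1) (m + 1) ρ 0 a _ ∈ p at h1
        rw [rowD_inl, if_pos rfl] at h1
        exact ha h1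
    obtain ⟨q, q1, q2, q3, q4, q5, q6⟩ := slice_prime hℓ 𝒢 hp hprime hX hrow hcol hG
    obtain ⟨l, l1, l2⟩ := IH n' q q1 q2 q4 q5
    have key := lagrange_step hℓ hp hprime hX hrow l (by
      intro R _ _ _ x L
      rw [q6]
      exact l2 R (fun a => x a.succ) L)
    refine ⟨l.map (fun z => (Fin.snoc z.1 0, z.2)), ?_, ?_⟩
    · intro z hz
      rw [List.mem_map] at hz
      obtain ⟨z', hz', rfl⟩ := hz
      obtain ⟨g1, g2, g3, g4, g5⟩ := l1 z' hz'
      refine ⟨?_, g2, g3, ?_, g5⟩
      · intro i j hij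
        dsimp only
        refine Fin.lastCases ?_ ?_ j (motive := fun j => i ≤ j →
          (Fin.snoc z'.1 0 : Fin (n' + 1) → ℕ) j ≤ (Fin.snoc z'.1 0 : Fin (n' + 1) → ℕ) i) hij
        · intro _
          rw [Fin.snoc_last]
          exact Nat.zero_le _
        · intro j
          refine Fin.lastCases ?_ ?_ i (motive := fun i => i ≤ Fin.castSucc j →
            (Fin.snoc z'.1 0 : Fin (n' + 1) → ℕ) (Fin.castSucc j) ≤
              (Fin.snoc z'.1 0 : Fin (n' + 1) → ℕ) i)
          · intro h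
            exact absurd (Fin.castSucc_lt_last j) (not_lt_of_ge h)
          · intro i h
            rw [Fin.snoc_castSucc, Fin.snoc_castSucc]
            exact g1 (Fin.castSucc_le_castSucc_iff.1 h)
      · rw [q3, ← g4, Fin.sum_univ_castSucc]
        simp
    · intro R _ _ _ x L
      change cls p (bv m x 0 (fun r => L (wρ r))) = _
      rw [key R x L, List.map_map]
      congr 1
      apply List.map_congr_left
      intro z _
      simp only [Function.comp_apply]
      rw [dl_snoc _ (constCoeff_ser _ _)]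

lemma ctp_list {n : ℕ} {σ : Type} [Fintype σ] {wρ : ρ → X'} {𝒢 : Set (Der k ρ)}
    (bb : ∀ (R : Type) [CommRing R], (Fin n → R) → (ρ → R) → σ → R) (c : ℕ)
    (lp : List (Ideal (MvPolynomial σ k))) (h : ∀ p ∈ lp, ord p = c ∧ CTP wρ 𝒢 n p bb) :
    ∃ l : List ((Fin n → ℕ) × Ideal (MvPolynomial ρ k)),
    (∀ z ∈ l, Antitone z.1 ∧ IsHomog wρ z.2 ∧ z.2 ≠ ⊤ ∧ (∑ a, z.1 a) + ord z.2 = c ∧
      ∀ D ∈ 𝒢, Stab (D : MvPolynomial ρ k →ₗ[k] _) z.2) ∧
    ∀ (R : Type) [CommRing R] [IsDomain R] [Algebra ℚ R] (x : Fin n → R) (L : X' →+ R),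
      (lp.map fun p => cls p (bb R x (fun r => L (wρ r)))).sum =
        (l.map fun z => dl (ser x (fun e : Empty => e.elim)) z.1 *
          cls z.2 (fun r => L (wρ r))).sum := by
  induction lp with
  | nil => exact ⟨[], by simp, by intros; simp⟩
  | cons p lp ih =>
    obtain ⟨l, l1, l2⟩ := ih (fun q hq => h q (by simp [hq]))
    obtain ⟨hc, l', l1', l2'⟩ := h p (by simp)
    refine ⟨l' ++ l, ?_, ?_⟩
    · intro z hz
      rw [List.mem_append] at hz
      rcases hz with hz | hz
      · rw [← hc]; exact l1' z hz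
      · exact l1 z hz
    · intro R _ _ _ x L
      rw [List.map_cons, List.sum_cons, l2 R x L, l2' R x L, List.map_append, List.sum_append]

/-- The column theorem. -/
theorem column_theorem [CharZero k] {wρ : ρ → X'} {ℓ' : X' →+ ℤ} (hℓ : PosL ℓ' wρ)
    (𝒢 : Set (Der k ρ)) (h𝒢 : ∀ D ∈ 𝒢, ∃ e, ShiftBy wρ (D : MvPolynomial ρ k →ₗ[k] _) e) (m : ℕ) :
    ∀ (n : ℕ) (I : Ideal (MvPolynomial (CI n m ρ) k)), IsHomog (cw n m wρ) I → I ≠ ⊤ →
      (∀ a b : Fin n, a ≠ b → Stab (rowD k n m ρ a b : MvPolynomial (CI n m ρ) k →ₗ[k] _) I) →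
      (∀ D ∈ 𝒢, Stab (spD (Fin n × Fin m) D : MvPolynomial (CI n m ρ) k →ₗ[k] _) I) →
      CTP wρ 𝒢 n I (fun R _ x b => bv0 m x b) := by
  induction m with
  | zero =>
    intro n I hI hne _ hG
    let E : ρ ≃ CI n 0 ρ := (Equiv.emptySum (Fin n × Fin 0) ρ).symm
    have hE : ∀ r, E r = Sum.inr r := fun r => rfl
    obtain ⟨a1, a2, a3, a4⟩ := rename_compare (posL_cl (n := n) (m := 0) hℓ) E hI hne
    set W := I.comap (rename E : MvPolynomial ρ k →ₐ[k] MvPolynomial (CI n 0 ρ) k) with hW
    refine ⟨[(fun _ => 0, W)], ?_, ?_⟩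
    · intro z hz
      rw [List.mem_singleton] at hz
      subst hz
      refine ⟨fun _ _ _ => le_refl _, ?_, a2, ?_, ?_⟩
      · have := a1.coarsen (AddMonoidHom.snd (Fin n → ℤ) X')
        exact this
      · simp [a3]
      · intro D hD
        refine stab_comap ?_ (hG D hD)
        intro r
        rw [rename_X, hE, spD_inr]
        rfl
    · intro R _ _ _ x L
      have g := a4 R (evL x L)
      have v1 : (fun i => (evL x L) (cw n 0 wρ i)) = bv0 0 x (fun r => L (wρ r)) := by
        ext i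
        rcases i with ⟨a, c⟩ | r
        · exact c.elim0
        · simp only [cw, Sum.elim_inr, bv0]
          rw [evL_inr]
      have v2 : (fun i => (evL x L) (cw n 0 wρ (E i))) = (fun r => L (wρ r)) := by
        ext i
        rw [hE]
        simp only [cw, Sum.elim_inr]
        rw [evL_inr]
      rw [v1, v2] at g
      simp only [List.map_cons, List.map_nil, List.sum_cons, List.sum_nil, add_zero]
      rw [dl_zero _ (constCoeff_ser _ _), one_mul]
      exact g
  | succ m ih =>
    intro n I hI hne hrow hG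
    obtain ⟨I', b1, b2, b3, b4, b5, b6, b7⟩ := degen_col hℓ 𝒢 hI hne hrow hG
    have hpos := posL_cwj (n := n) (m := m) hℓ
    obtain ⟨lp, c1, c2⟩ := devissage hpos (show IsHomog (cwj n m wρ) I' from b1)
    -- shifts of the derivations in the finer grading
    have sh1 : ∀ a b : Fin n, ∃ e, ShiftBy (cwj n m wρ)
        (rowD k n (m + 1) ρ a b : MvPolynomial (CI n (m + 1) ρ) k →ₗ[k] _) e := by
      intro a b
      refine ⟨((Pi.single b 1 - Pi.single a 1, 0), 0), ?_⟩
      apply shiftBy_of_X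
      intro i
      rcases i with ⟨a', d⟩ | r
      · rw [rowD_inl]
        split_ifs with h
        · have h1 := isWeightedHomogeneous_X k (cwj n m wρ) (Sum.inl (b, d))
          have h2 : cwj n m wρ (Sum.inl (b, d)) =
              cwj n m wρ (Sum.inl (a', d)) + ((Pi.single b 1 - Pi.single a 1, 0), 0) := by
            rw [h]
            simp [cwj, cw, cj]
          rwa [h2] at h1
        · exact isWeightedHomogeneous_zero k _ _
      · rw [rowD_inr]
        exact isWeightedHomogeneous_zero k _ _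
    have sh2 : ∀ c : Fin m, ∃ e, ShiftBy (cwj n m wρ)
        (colD k n m ρ c : MvPolynomial (CI n (m + 1) ρ) k →ₗ[k] _) e := by
      intro c
      refine ⟨(0, 1), ?_⟩
      apply shiftBy_of_X
      intro i
      rcases i with ⟨a', d⟩ | r
      · rw [colD_inl]
        split_ifs with h
        · have h1 := isWeightedHomogeneous_X k (cwj n m wρ) (Sum.inl (a', 0))
          have h2 : cwj n m wρ (Sum.inl (a', 0)) = cwj n m wρ (Sum.inl (a', d)) + (0, 1) := by
            rw [h]
            simp [cwj, cw, cj, Fin.succ_ne_zero]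
          rwa [h2] at h1
        · exact isWeightedHomogeneous_zero k _ _
      · rw [colD_inr]
        exact isWeightedHomogeneous_zero k _ _
    have sh3 : ∀ D ∈ 𝒢, ∃ e, ShiftBy (cwj n m wρ)
        (spD (Fin n × Fin (m + 1)) D : MvPolynomial (CI n (m + 1) ρ) k →ₗ[k] _) e := by
      intro D hD
      obtain ⟨e, he⟩ := h𝒢 D hD
      refine ⟨((0, e), 0), ?_⟩
      apply shiftBy_of_X
      intro i
      rcases i with q | r
      · rw [spD_inl]
        exact isWeightedHomogeneous_zero k _ _
      · rw [spD_inr]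
        have h1 : IsWeightedHomogeneous wρ (D (MvPolynomial.X r)) (wρ r + e) :=
          he.homog (isWeightedHomogeneous_X k wρ r)
        let inc : X' →+ CX n X' × ℤ :=
          { toFun := fun ξ => ((0, ξ), 0)
            map_zero' := rfl
            map_add' := by intro a b; simp }
        have h2 := homog_map_group inc h1
        have h3 : (fun r => inc (wρ r)) = cwj n m wρ ∘ Sum.inr := by
          ext1 r
          simp [inc, cwj, cw, cj]
        rw [h3] at h2
        have h4 := homog_rename (w' := cwj n m wρ) Sum.inr h2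
        have h5 : inc (wρ r + e) = cwj n m wρ (Sum.inr r) + ((0, e), 0) := by
          simp [inc, cwj, cw, cj]
        rwa [h5] at h4
    have hall : ∀ p ∈ lp, ord p = ord I ∧ CTP wρ 𝒢 n p (fun R _ x b => bv m x 0 b) := by
      intro p hp
      obtain ⟨d1, d2, d3, d4, d5⟩ := c1 p hp
      refine ⟨by rw [d4, b3], prime_step hℓ 𝒢 ih d1 d2 ?_ ?_ ?_⟩
      · intro a b hab
        obtain ⟨e, he⟩ := sh1 a b
        exact d5 _ e he (b5 a b hab)
      · intro c
        obtain ⟨e, he⟩ := sh2 c
        exact d5 _ e he (b6 c)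
      · intro D hD
        obtain ⟨e, he⟩ := sh3 D hD
        exact d5 _ e he (b7 D hD)
    obtain ⟨l, l1, l2⟩ := ctp_list _ (ord I) lp hall
    refine ⟨l, l1, ?_⟩
    intro R _ _ _ x L
    have g1 := b4 R (evL x L)
    have g2 := c2 R ((evL x L).comp (AddMonoidHom.fst (CX n X') ℤ))
    have v1 : (fun i => (evL x L) (cw n (m + 1) wρ i)) =
        bv0 (m + 1) x (fun r => L (wρ r)) := by
      ext i
      rcases i with ⟨a, c⟩ | r
      · simp only [cw, Sum.elim_inl, bv0]
        rw [evL_inl]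
      · simp only [cw, Sum.elim_inr, bv0]
        rw [evL_inr]
    have v2 : (fun i => ((evL x L).comp (AddMonoidHom.fst (CX n X') ℤ)) (cwj n m wρ i)) =
        bv m x 0 (fun r => L (wρ r)) := by
      ext i
      rcases i with ⟨a, c⟩ | r
      · simp only [AddMonoidHom.comp_apply, cwj, cw, Sum.elim_inl, bv, AddMonoidHom.coe_fst,
          ite_self, sub_zero]
        rw [evL_inl]
      · simp only [AddMonoidHom.comp_apply, cwj, cw, Sum.elim_inr, bv, AddMonoidHom.coe_fst]
        rw [evL_inr]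
    have v3 : (fun i => ((evL x L).comp (AddMonoidHom.fst (CX n X') ℤ)) (cwj n m wρ i)) =
        (fun i => (evL x L) (cw n (m + 1) wρ i)) := rfl
    change cls I (bv0 (m + 1) x (fun r => L (wρ r))) = _
    rw [← v1, g1, ← v3, g2, ← l2 R x L]
    simp only [v2]

end Main

end

end Pool.Agent.Helper38
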