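import Mathlib
import Pool.Agent.Helper38.KBS3
import Pool.Agent.Helper38.KCT2

open MvPolynomial Module

namespace Pool.Agent.Helper38

noncomputable section

section General

variable {k : Type} [Field k]

/-- replacing the row `a` by the row `b` -/
def rowG (k : Type) [Field k] (A κ ρ : Type) [DecidableEq A] (a b : A) : Der k ((A × κ) ⊕ ρ) :=
  vf (Sum.elim (fun q => if q.1 = a then MvPolynomial.X (Sum.inl (b, q.2)) else 0) (fun _ => 0))

variable {A κ ρ : Type} [DecidableEq A]

lemma rowG_inl (a b a' : A) (c : κ) :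
    rowG k A κ ρ a b (MvPolynomial.X (Sum.inl (a', c))) =
      if a' = a then MvPolynomial.X (Sum.inl (b, c)) else 0 := by
  simp [rowG, vf_X]

lemma rowG_inr (a b : A) (r : ρ) :
    rowG k A κ ρ a b (MvPolynomial.X (Sum.inr r)) = 0 := by
  simp [rowG, vf_X]

lemma stab_map_gen {σ τ : Type} {u : MvPolynomial σ k →ₐ[k] MvPolynomial τ k} {D : Der k τ}
    {I : Ideal (MvPolynomial σ k)} (h : ∀ f ∈ I, D (u f) ∈ I.map u) :
    Stab (D : MvPolynomial τ k →ₗ[k] MvPolynomial τ k) (I.map u) := by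
  intro f hf
  change D f ∈ _
  rw [Ideal.map] at hf
  induction hf using Submodule.span_induction with
  | mem x hx =>
    obtain ⟨g, hg, rfl⟩ := hx
    exact h g hg
  | zero => rw [map_zero]; exact zero_mem _
  | add x y _ _ hx hy => rw [map_add]; exact add_mem hx hy
  | smul c x hx' hx =>
    rw [smul_eq_mul, D.leibniz]
    exact add_mem (Ideal.mul_mem_left _ _ hx) (Ideal.mul_mem_right _ _ hx')

/-- a derivation intertwined with one preserving the ideal -/
lemma stab_map_of {σ τ : Type} {u : MvPolynomial σ k →ₐ[k] MvPolynomial τ k} {D : Der k τ}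
    {D0 : Der k σ} {I : Ideal (MvPolynomial σ k)}
    (h : ∀ i, D (u (MvPolynomial.X i)) = u (D0 (MvPolynomial.X i)))
    (hI : Stab (D0 : MvPolynomial σ k →ₗ[k] MvPolynomial σ k) I) :
    Stab (D : MvPolynomial τ k →ₗ[k] MvPolynomial τ k) (I.map u) := by
  apply stab_map_gen
  intro f hf
  rw [intertwine D0 D u h]
  exact Ideal.mem_map_of_mem _ (hI f hf)

/-- a derivation killing the image of all variables -/
lemma stab_map_zero {σ τ : Type} {u : MvPolynomial σ k →ₐ[k] MvPolynomial τ k} {D : Der k τ}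
    {I : Ideal (MvPolynomial σ k)} (h : ∀ i, D (u (MvPolynomial.X i)) = 0) :
    Stab (D : MvPolynomial τ k →ₗ[k] MvPolynomial τ k) (I.map u) := by
  apply stab_map_of (D0 := 0)
  · intro i
    rw [h i]
    simp
  · intro f _
    exact I.zero_mem

/-- the column theorem for an arbitrary index type of columns -/
theorem column_theorem' [CharZero k] {ρ : Type} [Fintype ρ] {X' : Type} [AddCommGroup X']
    {wρ : ρ → X'} {ℓ' : X' →+ ℤ} (hℓ : PosL ℓ' wρ)
    (𝒢 : Set (Der k ρ)) (h𝒢 : ∀ D ∈ 𝒢, ∃ e, ShiftBy wρ (D : MvPolynomial ρ k →ₗ[k] _) e)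
    (κ : Type) [Fintype κ] (n : ℕ) (I : Ideal (MvPolynomial ((Fin n × κ) ⊕ ρ) k))
    (hI : IsHomog (Sum.elim (fun q => ((Pi.single q.1 1, 0) : CX n X')) (fun r => (0, wρ r))) I)
    (hne : I ≠ ⊤)
    (hrow : ∀ a b : Fin n, a ≠ b →
      Stab (rowG k (Fin n) κ ρ a b : MvPolynomial ((Fin n × κ) ⊕ ρ) k →ₗ[k] _) I)
    (hG : ∀ D ∈ 𝒢, Stab (spD (Fin n × κ) D : MvPolynomial ((Fin n × κ) ⊕ ρ) k →ₗ[k] _) I) :
    CTP wρ 𝒢 n I (fun R _ x b => Sum.elim (fun q : Fin n × κ => x q.1) b) := by
  classical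
  let eκ : Fin (Fintype.card κ) ≃ κ := (Fintype.equivFin κ).symm
  let e : CI n (Fintype.card κ) ρ ≃ (Fin n × κ) ⊕ ρ :=
    Equiv.sumCongr (Equiv.prodCongr (Equiv.refl _) eκ) (Equiv.refl ρ)
  have he1 : ∀ a c, e (Sum.inl (a, c)) = Sum.inl (a, eκ c) := fun a c => rfl
  have he2 : ∀ r, e (Sum.inr r) = Sum.inr r := fun r => rfl
  set w : (Fin n × κ) ⊕ ρ → CX n X' :=
    Sum.elim (fun q => ((Pi.single q.1 1, 0) : CX n X')) (fun r => (0, wρ r)) with hw
  have hwe : w ∘ e = cw n (Fintype.card κ) wρ := by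
    ext1 i
    rcases i with ⟨a, c⟩ | r <;> rfl
  have hpos : PosL (cl n ℓ') w := by
    intro i
    have := posL_cl (n := n) (m := Fintype.card κ) hℓ (e.symm i)
    rw [← hwe] at this
    simpa using this
  obtain ⟨a1, a2, a3, a4⟩ := rename_compare hpos e hI hne
  set J := I.comap (rename e : MvPolynomial (CI n (Fintype.card κ) ρ) k →ₐ[k] _) with hJ
  rw [hwe] at a1
  obtain ⟨l, l1, l2⟩ := column_theorem hℓ 𝒢 h𝒢 (Fintype.card κ) n J a1 a2 (by
    intro a b hab
    refine stab_comap ?_ (hrow a b hab)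
    rintro (⟨a', c⟩ | r)
    · rw [rename_X, he1, rowG_inl, rowD_inl]
      split_ifs
      · rw [rename_X, he1]
      · rw [map_zero]
    · rw [rename_X, he2, rowG_inr, rowD_inr, map_zero]) (by
    intro D hD
    refine stab_comap ?_ (hG D hD)
    rintro (⟨a', c⟩ | r)
    · rw [rename_X, he1, spD_inl, spD_inl, map_zero]
    · rw [rename_X, he2, spD_inr, spD_inr, rename_rename]
      rfl)
  refine ⟨l, ?_, ?_⟩
  · intro z hz
    rw [a3]
    exact l1 z hz
  · intro R _ _ _ x L
    rw [← l2 R x L]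
    have g := a4 R (evL x L)
    have v1 : (fun i => (evL x L) (w i)) =
        Sum.elim (fun q : Fin n × κ => x q.1) (fun r => L (wρ r)) := by
      ext1 i
      rcases i with ⟨a, c⟩ | r
      · change evL x L (Pi.single a 1, 0) = x a
        rw [evL_inl]
      · change evL x L (0, wρ r) = L (wρ r)
        rw [evL_inr]
    have v2 : (fun i => (evL x L) (w (e i))) =
        bv0 (Fintype.card κ) x (fun r => L (wρ r)) := by
      ext1 i
      rcases i with ⟨a, c⟩ | r
      · change evL x L (Pi.single a 1, 0) = x a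
        rw [evL_inl]
      · change evL x L (0, wρ r) = L (wρ r)
        rw [evL_inr]
    rw [v1, v2] at g
    exact g

end General

section Stab

variable {k : Type} [Field k] {E : Type} [DecidableEq E] {k0 N : ℕ} {Q ρ : Type}

/-- inclusion of the original variables -/
def jI (E : Type) (k0 N : ℕ) (Q ρ : Type) : SI E k0 Q ρ → SI E (k0 + N) Q ρ :=
  Sum.map (Prod.map id (Sum.map (Fin.castAdd N) id)) id

/-- adding dummy columns -/
def addC (N : ℕ) (I : Ideal (MvPolynomial (SI E k0 Q ρ) k)) :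
    Ideal (MvPolynomial (SI E (k0 + N) Q ρ) k) :=
  I.map (rename (jI E k0 N Q ρ) : MvPolynomial (SI E k0 Q ρ) k →ₐ[k] _)

/-- inclusion of the original ring in the auxiliary ring -/
def uI (k : Type) [Field k] (E : Type) (k0 N : ℕ) (Q ρ : Type) :
    MvPolynomial (SI E k0 Q ρ) k →ₐ[k] MvPolynomial (TI E (k0 + N) Q ρ) k :=
  rename (Sum.inl ∘ jI E k0 N Q ρ)

omit [DecidableEq E] in
lemma map_uI (I : Ideal (MvPolynomial (SI E k0 Q ρ) k)) :
    (addC N I).map (rename Sum.inl : MvPolynomial (SI E (k0 + N) Q ρ) k →ₐ[k]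
      MvPolynomial (TI E (k0 + N) Q ρ) k) = I.map (uI k E k0 N Q ρ) := by
  rw [addC, Ideal.map_mapₐ, uI]
  congr 1
  apply MvPolynomial.algHom_ext
  intro i; simp

omit [DecidableEq E] in
lemma stab_dbl {I : Ideal (MvPolynomial (SI E k0 Q ρ) k)} {D : Der k (SR E (k0 + N) Q ρ)}
    (DT : Der k (TI E (k0 + N) Q ρ))
    (h : ∀ i, DT (psi k E (k0 + N) Q ρ (MvPolynomial.X i)) =
      psi k E (k0 + N) Q ρ (D (MvPolynomial.X i)))
    (hT : Stab (DT : MvPolynomial (TI E (k0 + N) Q ρ) k →ₗ[k] _) (I.map (uI k E k0 N Q ρ))) :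
    Stab (D : MvPolynomial (SR E (k0 + N) Q ρ) k →ₗ[k] _) (dbl (addC N I)) := by
  refine stab_comap h ?_
  rw [map_uI]
  exact hT

omit [DecidableEq E] in
lemma uI_x (s : E) (c : Fin k0 ⊕ Q) : uI k E k0 N Q ρ (MvPolynomial.X (Sum.inl (s, c))) =
    MvPolynomial.X (Sum.inl (Sum.inl (s, Sum.map (Fin.castAdd N) id c))) := by
  simp [uI, jI]
omit [DecidableEq E] in
lemma uI_r (r : ρ) : uI k E k0 N Q ρ (MvPolynomial.X (Sum.inr r)) =
    MvPolynomial.X (Sum.inl (Sum.inr r)) := by
  simp [uI, jI]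

omit [DecidableEq E] in
lemma vf_gam {s : E} {c : Fin (k0 + N) ⊕ Q} {F : TI E (k0 + N) Q ρ → MvPolynomial _ k}
    {G : Q → MvPolynomial (TI E (k0 + N) Q ρ) k}
    (h : ∀ q, F (Sum.inl (Sum.inl (s, Sum.inr q))) = G q) :
    vf F (gam k E (k0 + N) Q ρ s c) = Sum.elim (fun _ => 0) G c := by
  rcases c with b | q
  · simp [gam]
  · simp only [gam, Sum.elim_inr, vf_X]
    exact h q

/-- rows of `E` among themselves -/
lemma stab_R1 {I : Ideal (MvPolynomial (SI E k0 Q ρ) k)} (s s' : E)
    (hI : Stab (rowG k E (Fin k0 ⊕ Q) ρ s s' : MvPolynomial (SI E k0 Q ρ) k →ₗ[k] _) I) :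
    Stab (rowG k (E ⊕ Fin (k0 + N)) (Fin (k0 + N) ⊕ Q) ρ (Sum.inl s) (Sum.inl s') :
      MvPolynomial (SR E (k0 + N) Q ρ) k →ₗ[k] _) (dbl (addC N I)) := by
  classical
  let F : TI E (k0 + N) Q ρ → MvPolynomial (TI E (k0 + N) Q ρ) k :=
    Sum.elim (Sum.elim (fun x => if x.1 = s then MvPolynomial.X (Sum.inl (Sum.inl (s', x.2))) else 0)
      (fun _ => 0)) (fun _ => 0)
  apply stab_dbl (vf F)
  · rintro (⟨r | l, c⟩ | r)
    · rw [psi_E, rowG_inl, map_sub, vf_gam (G := fun q => if r = s then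
        MvPolynomial.X (Sum.inl (Sum.inl (s', Sum.inr q))) else 0) (fun q => rfl), map_sum]
      simp only [Derivation.leibniz, vf_X, F, Sum.elim_inl, Sum.elim_inr, smul_eq_mul, mul_zero,
        zero_add, Sum.inl.injEq]
      split_ifs with h
      · rw [psi_E]
        congr 1
        apply Finset.sum_congr rfl
        intro l _; ring
      · rcases c with b | q <;> simp
    · rw [psi_P, rowG_inl, if_neg (by simp), map_zero]
      simp [vf_X, F]
    · rw [psi_r, rowG_inr, map_zero]
      simp [vf_X, F]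
  · refine stab_map_of ?_ hI
    rintro (⟨r, c⟩ | r)
    · rw [uI_x, rowG_inl, vf_X]
      simp only [F, Sum.elim_inl]
      split_ifs
      · rw [uI_x]
      · rw [map_zero]
    · rw [uI_r, rowG_inr, map_zero]
      simp [vf_X, F]

/-- rows of `C` among themselves -/
lemma stab_R2 {I : Ideal (MvPolynomial (SI E k0 Q ρ) k)} (c1 c2 : Fin N) (hne : c1 ≠ c2) :
    Stab (rowG k (E ⊕ Fin (k0 + N)) (Fin (k0 + N) ⊕ Q) ρ (Sum.inr (Fin.natAdd k0 c1))
      (Sum.inr (Fin.natAdd k0 c2)) :
      MvPolynomial (SR E (k0 + N) Q ρ) k →ₗ[k] _) (dbl (addC N I)) := by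
  classical
  let F : TI E (k0 + N) Q ρ → MvPolynomial (TI E (k0 + N) Q ρ) k :=
    Sum.elim (Sum.elim (fun x => if x.2 = Sum.inl (Fin.natAdd k0 c2) then
      - MvPolynomial.X (Sum.inl (Sum.inl (x.1, Sum.inl (Fin.natAdd k0 c1)))) else 0)
      (fun _ => 0)) (fun x => if x.1 = Fin.natAdd k0 c1 then
        MvPolynomial.X (Sum.inr (Fin.natAdd k0 c2, x.2)) else 0)
  have hne' : Fin.natAdd k0 c1 ≠ Fin.natAdd k0 c2 := by
    intro h; exact hne (by simpa using h)
  apply stab_dbl (vf F)
  · rintro (⟨r | l, c⟩ | r)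
    · rw [psi_E, rowG_inl, if_neg (by simp), map_zero, map_sub,
        vf_gam (G := fun q => 0) (fun q => by simp [F]), map_sum]
      have e1 : Sum.elim (fun _ : Fin (k0 + N) => (0 : MvPolynomial (TI E (k0 + N) Q ρ) k))
          (fun _ : Q => 0) c = 0 := by
        rcases c with b | q <;> rfl
      rw [e1]
      simp only [Derivation.leibniz, vf_X, F, Sum.elim_inl, Sum.elim_inr, smul_eq_mul,
        Sum.inl.injEq]
      rw [Finset.sum_add_distrib]
      rw [Finset.sum_eq_single (Fin.natAdd k0 c1), Finset.sum_eq_single (Fin.natAdd k0 c2)]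
      · simp only [if_true]
        ring
      · intro b _ hb
        simp [hb]
      · simp
      · intro b _ hb
        simp [hb]
      · simp
    · rw [psi_P, rowG_inl, vf_X]
      simp only [F, Sum.elim_inr, Sum.inr.injEq]
      split_ifs
      · rw [psi_P]
      · rw [map_zero]
    · rw [psi_r, rowG_inr, map_zero]
      simp [vf_X, F]
  · apply stab_map_zero
    rintro (⟨r, c⟩ | r)
    · rw [uI_x, vf_X]
      simp only [F, Sum.elim_inl]
      rw [if_neg]
      rcases c with m | q
      · simp only [Sum.map_inl, Sum.inl.injEq]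
        intro h
        have := congrArg Fin.val h
        simp at this
        omega
      · simp
    · rw [uI_r]
      simp [vf_X, F]

/-- adding rows of `C` to rows of `E` -/
lemma stab_R3 {I : Ideal (MvPolynomial (SI E k0 Q ρ) k)} (s : E) (c1 : Fin N) :
    Stab (rowG k (E ⊕ Fin (k0 + N)) (Fin (k0 + N) ⊕ Q) ρ (Sum.inl s)
      (Sum.inr (Fin.natAdd k0 c1)) :
      MvPolynomial (SR E (k0 + N) Q ρ) k →ₗ[k] _) (dbl (addC N I)) := by
  classical
  let F : TI E (k0 + N) Q ρ → MvPolynomial (TI E (k0 + N) Q ρ) k :=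
    Sum.elim (Sum.elim (fun x => if x.1 = s ∧ x.2 = Sum.inl (Fin.natAdd k0 c1) then
      - 1 else 0) (fun _ => 0)) (fun _ => 0)
  apply stab_dbl (vf F)
  · rintro (⟨r | l, c⟩ | r)
    · rw [psi_E, rowG_inl, map_sub,
        vf_gam (G := fun q => 0) (fun q => by simp [F]), map_sum]
      have e1 : Sum.elim (fun _ : Fin (k0 + N) => (0 : MvPolynomial (TI E (k0 + N) Q ρ) k))
          (fun _ : Q => 0) c = 0 := by
        rcases c with b | q <;> rfl
      rw [e1]
      simp only [Derivation.leibniz, vf_X, F, Sum.elim_inl, Sum.elim_inr, smul_eq_mul,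
        Sum.inl.injEq, mul_zero, zero_add]
      by_cases h : r = s
      · rw [if_pos h, psi_P, Finset.sum_eq_single (Fin.natAdd k0 c1)]
        · rw [if_pos ⟨h, rfl⟩]
          ring
        · intro b _ hb
          rw [if_neg (by rintro ⟨_, h'⟩; exact hb h'), mul_zero]
        · simp
      · rw [if_neg h, map_zero, Finset.sum_eq_zero]
        · simp
        · intro b _
          rw [if_neg (by rintro ⟨h', _⟩; exact h h'), mul_zero]
    · rw [psi_P, rowG_inl, if_neg (by simp), map_zero]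
      simp [vf_X, F]
    · rw [psi_r, rowG_inr, map_zero]
      simp [vf_X, F]
  · apply stab_map_zero
    rintro (⟨r, c⟩ | r)
    · rw [uI_x, vf_X]
      simp only [F, Sum.elim_inl]
      rw [if_neg]
      rintro ⟨_, h⟩
      rcases c with m | q
      · simp only [Sum.map_inl, Sum.inl.injEq] at h
        have := congrArg Fin.val h
        simp at this
        omega
      · simp at h
    · rw [uI_r]
      simp [vf_X, F]

/-- adding rows of `E` to rows of `C` -/
lemma stab_R4 [Fintype E] {I : Ideal (MvPolynomial (SI E k0 Q ρ) k)} (s : E) (c1 : Fin N)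
    (hI : ∀ s' : E,
      Stab (rowG k E (Fin k0 ⊕ Q) ρ s' s : MvPolynomial (SI E k0 Q ρ) k →ₗ[k] _) I) :
    Stab (rowG k (E ⊕ Fin (k0 + N)) (Fin (k0 + N) ⊕ Q) ρ (Sum.inr (Fin.natAdd k0 c1))
      (Sum.inl s) :
      MvPolynomial (SR E (k0 + N) Q ρ) k →ₗ[k] _) (dbl (addC N I)) := by
  classical
  let F : TI E (k0 + N) Q ρ → MvPolynomial (TI E (k0 + N) Q ρ) k :=
    Sum.elim (Sum.elim (fun x =>
      MvPolynomial.X (Sum.inl (Sum.inl (x.1, Sum.inl (Fin.natAdd k0 c1)))) *
        MvPolynomial.X (Sum.inl (Sum.inl (s, x.2)))) (fun _ => 0))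
      (fun x => if x.1 = Fin.natAdd k0 c1 then
        psi k E (k0 + N) Q ρ (MvPolynomial.X (Sum.inl (Sum.inl s, x.2))) else 0)
  apply stab_dbl (vf F)
  · rintro (⟨r | l, c⟩ | r)
    · rw [psi_E, rowG_inl, if_neg (by simp), map_zero, map_sub,
        vf_gam (G := fun q => MvPolynomial.X (Sum.inl (Sum.inl (r, Sum.inl (Fin.natAdd k0 c1)))) *
          MvPolynomial.X (Sum.inl (Sum.inl (s, Sum.inr q)))) (fun q => by simp [F]), map_sum]
      have e1 : Sum.elim (fun _ : Fin (k0 + N) => (0 : MvPolynomial (TI E (k0 + N) Q ρ) k))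
          (fun q : Q => MvPolynomial.X (Sum.inl (Sum.inl (r, Sum.inl (Fin.natAdd k0 c1)))) *
          MvPolynomial.X (Sum.inl (Sum.inl (s, Sum.inr q)))) c =
          MvPolynomial.X (Sum.inl (Sum.inl (r, Sum.inl (Fin.natAdd k0 c1)))) *
            gam k E (k0 + N) Q ρ s c := by
        rcases c with b | q
        · simp [gam]
        · simp [gam]
      rw [e1]
      simp only [Derivation.leibniz, vf_X, F, Sum.elim_inl, Sum.elim_inr, smul_eq_mul]
      rw [Finset.sum_add_distrib, Finset.sum_eq_single (Fin.natAdd k0 c1)]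
      · rw [if_pos rfl, psi_E]
        have e2 : ∑ x : Fin (k0 + N), (MvPolynomial.X (Sum.inr (x, c)) :
            MvPolynomial (TI E (k0 + N) Q ρ) k) *
            (MvPolynomial.X (Sum.inl (Sum.inl (r, Sum.inl (Fin.natAdd k0 c1)))) *
            MvPolynomial.X (Sum.inl (Sum.inl (s, Sum.inl x)))) =
            MvPolynomial.X (Sum.inl (Sum.inl (r, Sum.inl (Fin.natAdd k0 c1)))) *
            ∑ x : Fin (k0 + N), MvPolynomial.X (Sum.inl (Sum.inl (s, Sum.inl x))) *
              MvPolynomial.X (Sum.inr (x, c)) := by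
          rw [Finset.mul_sum]
          apply Finset.sum_congr rfl
          intro x _; ring
        rw [e2]
        ring
      · intro b _ hb
        rw [if_neg hb, mul_zero]
      · simp
    · rw [psi_P, rowG_inl, vf_X]
      simp only [F, Sum.elim_inr, Sum.inr.injEq]
      split_ifs
      · rfl
      · rw [map_zero]
    · rw [psi_r, rowG_inr, map_zero]
      simp [vf_X, F]
  · apply stab_map_gen
    intro f hf
    have key : ∀ f : MvPolynomial (SI E k0 Q ρ) k, vf F (uI k E k0 N Q ρ f) =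
        ∑ s' : E, MvPolynomial.X (Sum.inl (Sum.inl (s', Sum.inl (Fin.natAdd k0 c1)))) *
          uI k E k0 N Q ρ (rowG k E (Fin k0 ⊕ Q) ρ s' s f) := by
      intro f
      induction f using MvPolynomial.induction_on with
      | C a =>
        have h1 : ∀ D : Der k (SI E k0 Q ρ), D (C a : MvPolynomial (SI E k0 Q ρ) k) = 0 := by
          intro D
          have := D.map_algebraMap a
          rwa [MvPolynomial.algebraMap_eq] at this
        have h2 : vf F (C a : MvPolynomial (TI E (k0 + N) Q ρ) k) = 0 := by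
          have := (vf F).map_algebraMap a
          rwa [MvPolynomial.algebraMap_eq] at this
        rw [algHom_C, MvPolynomial.algebraMap_eq, h2]
        simp [h1]
      | add f g hf hg =>
        rw [map_add, map_add, hf, hg, ← Finset.sum_add_distrib]
        apply Finset.sum_congr rfl
        intro s' _
        rw [map_add, map_add, mul_add]
      | mul_X f i hf =>
        rw [map_mul, Derivation.leibniz, hf]
        have e3 : vf F (uI k E k0 N Q ρ (MvPolynomial.X i)) =
            ∑ s' : E, MvPolynomial.X (Sum.inl (Sum.inl (s', Sum.inl (Fin.natAdd k0 c1)))) *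
              uI k E k0 N Q ρ (rowG k E (Fin k0 ⊕ Q) ρ s' s (MvPolynomial.X i)) := by
          rcases i with ⟨r, c⟩ | r
          · rw [uI_x, vf_X]
            simp only [F, Sum.elim_inl, rowG_inl]
            rw [Finset.sum_eq_single r]
            · rw [if_pos rfl, uI_x]
            · intro b _ hb
              rw [if_neg (Ne.symm hb), map_zero, mul_zero]
            · simp
          · rw [uI_r, vf_X]
            simp only [F, Sum.elim_inl, Sum.elim_inr, rowG_inr, map_zero, mul_zero,
              Finset.sum_const_zero]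
        rw [e3]
        simp only [smul_eq_mul]
        rw [Finset.mul_sum, Finset.mul_sum, ← Finset.sum_add_distrib]
        apply Finset.sum_congr rfl
        intro s' _
        rw [Derivation.leibniz, map_add]
        simp only [smul_eq_mul, map_mul]
        ring
    rw [key]
    apply Ideal.sum_mem
    intro s' _
    exact Ideal.mul_mem_left _ _ (Ideal.mem_map_of_mem _ (hI s' f hf))

end Stab

end

end Pool.Agent.Helper38
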