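import Mathlib
import Pool.Agent.Helper38.KStab

open MvPolynomial Module

namespace Pool.Agent.Helper38

noncomputable section

section Stab2

variable {k : Type} [Field k] {E : Type} {k0 N p : ℕ} {Q ρ : Type}

/-- replacing the new column `b` by the new column `b'` -/
def colG (k : Type) [Field k] (E : Type) (p : ℕ) (Q ρ : Type) (b b' : Fin p) :
    Der k (SR E p Q ρ) :=
  vf (Sum.elim (fun x => Sum.elim (fun b'' => if b'' = b then
    MvPolynomial.X (Sum.inl (x.1, Sum.inl b')) else 0) (fun _ => 0) x.2) (fun _ => 0))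

lemma colG_inl (b b' b'' : Fin p) (r : E ⊕ Fin p) :
    colG k E p Q ρ b b' (MvPolynomial.X (Sum.inl (r, Sum.inl b''))) =
      if b'' = b then MvPolynomial.X (Sum.inl (r, Sum.inl b')) else 0 := by
  simp [colG, vf_X]

lemma colG_inr (b b' : Fin p) (r : E ⊕ Fin p) (q : Q) :
    colG k E p Q ρ b b' (MvPolynomial.X (Sum.inl (r, Sum.inr q))) = 0 := by
  simp [colG, vf_X]

lemma colG_r (b b' : Fin p) (r : ρ) :
    colG k E p Q ρ b b' (MvPolynomial.X (Sum.inr r)) = 0 := by
  simp [colG, vf_X]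

lemma stab_colG {I : Ideal (MvPolynomial (SI E k0 Q ρ) k)} (b b' : Fin (k0 + N)) :
    Stab (colG k E (k0 + N) Q ρ b b' : MvPolynomial (SR E (k0 + N) Q ρ) k →ₗ[k] _)
      (dbl (addC N I)) := by
  classical
  let F : TI E (k0 + N) Q ρ → MvPolynomial (TI E (k0 + N) Q ρ) k :=
    Sum.elim (fun _ => 0) (fun x => Sum.elim (fun b'' => if b'' = b then
      MvPolynomial.X (Sum.inr (x.1, Sum.inl b')) else 0) (fun _ => 0) x.2)
  apply stab_dbl (vf F)
  · rintro (⟨r | l, c⟩ | r)
    · rw [psi_E, map_sub, vf_gam (G := fun q => 0) (fun q => by simp [F]), map_sum]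
      rcases c with b'' | q
      · rw [colG_inl]
        simp only [Derivation.leibniz, vf_X, F, Sum.elim_inl, Sum.elim_inr, smul_eq_mul, mul_zero,
          add_zero]
        split_ifs with h
        · rw [psi_E]
          simp [gam]
        · simp
      · rw [colG_inr]
        simp [Derivation.leibniz, vf_X, F]
    · rw [psi_P]
      rcases c with b'' | q
      · rw [colG_inl, vf_X]
        simp only [F, Sum.elim_inl, Sum.elim_inr]
        split_ifs
        · rw [psi_P]
        · rw [map_zero]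
      · rw [colG_inr]
        simp [vf_X, F]
    · rw [psi_r, colG_r, map_zero]
      simp [vf_X, F]
  · apply stab_map_zero
    rintro (⟨r, c⟩ | r)
    · rw [uI_x, vf_X]
      simp [F]
    · rw [uI_r]
      simp [vf_X, F]

/-- symmetry acting on the columns of the original matrix -/
def dI (E : Type) (Q : Type) {ρ : Type} (g : Der k ρ × (Fin k0 → Fin k0 → k)) :
    Der k (SI E k0 Q ρ) :=
  vf (Sum.elim (fun x => Sum.elim (fun m' => - ∑ m, C (g.2 m m') *
      MvPolynomial.X (Sum.inl (x.1, Sum.inl m))) (fun _ => 0) x.2)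
    (fun r => rename Sum.inr (g.1 (MvPolynomial.X r))))

/-- the same symmetry acting on rows -/
def dW (κ : Type) {ρ : Type} (g : Der k ρ × (Fin k0 → Fin k0 → k)) :
    Der k ((Fin k0 × κ) ⊕ ρ) :=
  vf (Sum.elim (fun x => ∑ m', C (g.2 x.1 m') * MvPolynomial.X (Sum.inl (m', x.2)))
    (fun r => rename Sum.inr (g.1 (MvPolynomial.X r))))

/-- the same symmetry acting on the enlarged matrix -/
def dR (E : Type) (N : ℕ) (Q : Type) {ρ : Type} (g : Der k ρ × (Fin k0 → Fin k0 → k)) :
    Der k (SR E (k0 + N) Q ρ) :=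
  vf (Sum.elim (fun x => Sum.elim (fun _ => 0)
      (fun l => Fin.addCases (motive := fun _ => MvPolynomial (SR E (k0 + N) Q ρ) k)
        (fun m => ∑ m', C (g.2 m m') *
          MvPolynomial.X (Sum.inl (Sum.inr (Fin.castAdd N m'), x.2))) (fun _ => 0) l) x.1)
    (fun r => rename Sum.inr (g.1 (MvPolynomial.X r))))

lemma dR_E (g : Der k ρ × (Fin k0 → Fin k0 → k)) (s : E) (c : Fin (k0 + N) ⊕ Q) :
    dR E N Q g (MvPolynomial.X (Sum.inl (Sum.inl s, c))) = 0 := by
  simp [dR, vf_X]
lemma dR_M (g : Der k ρ × (Fin k0 → Fin k0 → k)) (m : Fin k0) (c : Fin (k0 + N) ⊕ Q) :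
    dR E N Q g (MvPolynomial.X (Sum.inl (Sum.inr (Fin.castAdd N m), c))) =
      ∑ m', C (g.2 m m') * MvPolynomial.X (Sum.inl (Sum.inr (Fin.castAdd N m'), c)) := by
  simp [dR, vf_X]
lemma dR_C (g : Der k ρ × (Fin k0 → Fin k0 → k)) (m : Fin N) (c : Fin (k0 + N) ⊕ Q) :
    dR E N Q g (MvPolynomial.X (Sum.inl (Sum.inr (Fin.natAdd k0 m), c))) = 0 := by
  simp [dR, vf_X]
lemma dR_r (g : Der k ρ × (Fin k0 → Fin k0 → k)) (r : ρ) :
    dR E N Q g (MvPolynomial.X (Sum.inr r)) = rename Sum.inr (g.1 (MvPolynomial.X r)) := by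
  simp [dR, vf_X]

lemma stab_dR {I : Ideal (MvPolynomial (SI E k0 Q ρ) k)} (g : Der k ρ × (Fin k0 → Fin k0 → k))
    (hI : Stab (dI E Q g : MvPolynomial (SI E k0 Q ρ) k →ₗ[k] _) I) :
    Stab (dR E N Q g : MvPolynomial (SR E (k0 + N) Q ρ) k →ₗ[k] _) (dbl (addC N I)) := by
  classical
  let F : TI E (k0 + N) Q ρ → MvPolynomial (TI E (k0 + N) Q ρ) k :=
    Sum.elim (Sum.elim (fun x => Sum.elim
      (fun l => Fin.addCases (motive := fun _ => MvPolynomial (TI E (k0 + N) Q ρ) k)
        (fun m' => - ∑ m, C (g.2 m m') *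
          MvPolynomial.X (Sum.inl (Sum.inl (x.1, Sum.inl (Fin.castAdd N m))))) (fun _ => 0) l)
        (fun _ => 0) x.2)
      (fun r => rename (Sum.inl ∘ Sum.inr) (g.1 (MvPolynomial.X r))))
      (fun x => Fin.addCases (motive := fun _ => MvPolynomial (TI E (k0 + N) Q ρ) k)
        (fun m => ∑ m', C (g.2 m m') * MvPolynomial.X (Sum.inr (Fin.castAdd N m', x.2)))
        (fun _ => 0) x.1)
  have F1 : ∀ (s : E) (m' : Fin k0), vf F (MvPolynomial.X (Sum.inl (Sum.inl (s,
      Sum.inl (Fin.castAdd N m'))))) = - ∑ m, C (g.2 m m') *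
          MvPolynomial.X (Sum.inl (Sum.inl (s, Sum.inl (Fin.castAdd N m)))) := by
    intro s m'; simp [vf_X, F]
  have F2 : ∀ (s : E) (m' : Fin N), vf F (MvPolynomial.X (Sum.inl (Sum.inl (s,
      Sum.inl (Fin.natAdd k0 m'))))) = 0 := by
    intro s m'; simp [vf_X, F]
  have F3 : ∀ (m : Fin k0) (c : Fin (k0 + N) ⊕ Q), vf F (MvPolynomial.X (Sum.inr
      (Fin.castAdd N m, c))) = ∑ m', C (g.2 m m') *
          MvPolynomial.X (Sum.inr (Fin.castAdd N m', c)) := by
    intro s m'; simp [vf_X, F]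
  have F4 : ∀ (m : Fin N) (c : Fin (k0 + N) ⊕ Q), vf F (MvPolynomial.X (Sum.inr
      (Fin.natAdd k0 m, c))) = 0 := by
    intro s m'; simp [vf_X, F]
  have F5 : ∀ r : ρ, vf F (MvPolynomial.X (Sum.inl (Sum.inr r))) =
      rename (Sum.inl ∘ Sum.inr) (g.1 (MvPolynomial.X r)) := by
    intro r; simp [vf_X, F]
  have psiR : ∀ f : MvPolynomial ρ k, psi k E (k0 + N) Q ρ (rename Sum.inr f) =
      rename (Sum.inl ∘ Sum.inr) f := by
    intro f
    have : (psi k E (k0 + N) Q ρ).comp (rename Sum.inr) = rename (Sum.inl ∘ Sum.inr) := by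
      apply MvPolynomial.algHom_ext
      intro r
      rw [AlgHom.comp_apply, rename_X, psi_r, rename_X]
      rfl
    exact AlgHom.congr_fun this f
  apply stab_dbl (vf F)
  · rintro (⟨s | l, c⟩ | r)
    · rw [psi_E, dR_E, map_zero, map_sub, vf_gam (G := fun q => 0) (fun q => by simp [F]), map_sum,
        Fin.sum_univ_add]
      simp only [Derivation.leibniz, F1, F2, F3, F4, smul_eq_mul, mul_zero, add_zero,
        Finset.sum_const_zero]
      have e1 : Sum.elim (fun _ : Fin (k0 + N) => (0 : MvPolynomial (TI E (k0 + N) Q ρ) k))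
          (fun _ : Q => 0) c = 0 := by
        rcases c with b | q <;> rfl
      rw [e1, Finset.sum_add_distrib]
      simp only [Finset.mul_sum, mul_neg, Finset.sum_neg_distrib]
      rw [Finset.sum_comm]
      have e2 : ∑ y : Fin k0, ∑ x : Fin k0, (MvPolynomial.X (Sum.inl (Sum.inl (s,
          Sum.inl (Fin.castAdd N x)))) : MvPolynomial (TI E (k0 + N) Q ρ) k) * (C (g.2 x y) *
          MvPolynomial.X (Sum.inr (Fin.castAdd N y, c))) = ∑ x : Fin k0, ∑ i : Fin k0,
          MvPolynomial.X (Sum.inr (Fin.castAdd N x, c)) * (C (g.2 i x) *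
          MvPolynomial.X (Sum.inl (Sum.inl (s, Sum.inl (Fin.castAdd N i))))) := by
        apply Finset.sum_congr rfl
        intro x _
        apply Finset.sum_congr rfl
        intro y _
        ring
      rw [e2]
      ring
    · rw [psi_P]
      refine Fin.addCases ?_ ?_ l
      · intro m
        rw [F3, dR_M, map_sum]
        apply Finset.sum_congr rfl
        intro m' _
        rw [map_mul, psi_P, algHom_C, MvPolynomial.algebraMap_eq]
      · intro m
        rw [F4, dR_C, map_zero]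
    · rw [psi_r, dR_r, psiR, F5]
  · refine stab_map_of ?_ hI
    rintro (⟨s, m | q⟩ | r)
    · rw [uI_x]
      change vf F (MvPolynomial.X (Sum.inl (Sum.inl (s, Sum.inl (Fin.castAdd N m))))) = _
      rw [F1, dI, vf_X]
      simp only [Sum.elim_inl, map_neg, map_sum, map_mul, uI_x, Sum.map_inl]
      congr 1
      apply Finset.sum_congr rfl
      intro m' _
      rw [algHom_C, MvPolynomial.algebraMap_eq]
    · rw [uI_x]
      simp [vf_X, F, dI]
    · rw [uI_r, F5, dI, vf_X]
      simp only [Sum.elim_inr, uI]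
      rw [rename_rename]
      rfl

end Stab2

end

end Pool.Agent.Helper38
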