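import Mathlib
import Pool.Agent.Helper38.KStab2

open MvPolynomial Module

namespace Pool.Agent.Helper38

noncomputable section

section Pre

variable {k : Type} [Field k]

/-- comparison along an injection of variables -/
theorem inj_compare {σ τ : Type} [Fintype σ] [Fintype τ] {X : Type} [AddCommGroup X]
    {ℓ : X →+ ℤ} {w : τ → X} (hw : PosL ℓ w) (g : σ → τ) (hg : Function.Injective g)
    {I : Ideal (MvPolynomial σ k)} (hI : IsHomog (w ∘ g) I) (hne : I ≠ ⊤) :
    IsHomog w (I.map (rename g : MvPolynomial σ k →ₐ[k] MvPolynomial τ k)) ∧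
      I.map (rename g : MvPolynomial σ k →ₐ[k] MvPolynomial τ k) ≠ ⊤ ∧
      ord I = ord (I.map (rename g : MvPolynomial σ k →ₐ[k] MvPolynomial τ k)) ∧
      ∀ (R : Type) [CommRing R] [Algebra ℚ R] (L : X →+ R),
        cls I (fun i => L (w (g i))) =
          cls (I.map (rename g : MvPolynomial σ k →ₐ[k] MvPolynomial τ k))
            (fun i => L (w i)) := by
  classical
  let υ : Type := {x : τ // x ∉ Set.range g}
  let e : σ ⊕ υ ≃ τ :=
    (Equiv.sumCongr (Equiv.ofInjective g hg) (Equiv.refl υ)).trans (Equiv.Set.sumCompl (Set.range g))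
  have he : ∀ i, e (Sum.inl i) = g i := fun i => rfl
  have hpos : PosL ℓ (w ∘ e) := hw.comp e
  have h0 : (w ∘ e) ∘ Sum.inl = w ∘ g := rfl
  obtain ⟨a1, a2, a3, a4⟩ := ext_compare (τ := υ) hpos (show IsHomog ((w ∘ e) ∘ Sum.inl) I from hI)
    hne
  set J := I.map (rename Sum.inl : MvPolynomial σ k →ₐ[k] MvPolynomial (σ ⊕ υ) k) with hJ
  have hJe : I.map (rename g : MvPolynomial σ k →ₐ[k] MvPolynomial τ k) =
      J.map (rename e : MvPolynomial (σ ⊕ υ) k →ₐ[k] MvPolynomial τ k) := by
    rw [hJ, Ideal.map_mapₐ]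
    congr 1
    apply MvPolynomial.algHom_ext
    intro i
    rw [AlgHom.comp_apply, rename_X, rename_X, rename_X, he]
  have b1 : IsHomog w (J.map (rename e : MvPolynomial (σ ⊕ υ) k →ₐ[k] MvPolynomial τ k)) :=
    a1.map_rename
  have b2 := kq_rename hw.posW e a1
  obtain ⟨c1, c2, c3⟩ := compare_eq hpos hw a1 b1 a2 b2.symm
  rw [← hJe] at b1 c1 c2 c3
  refine ⟨b1, c1, a3.trans c2, ?_⟩
  intro R _ _ L
  rw [← c3 R L]
  exact a4 R L

lemma totalDegree_cls_le {σ B : Type} [Fintype σ] {R : Type} [CommRing R]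
    (I : Ideal (MvPolynomial σ k)) (b : σ → MvPolynomial B R) (hb : ∀ i, (b i).totalDegree ≤ 1) :
    (cls I b).totalDegree ≤ ord I := by
  classical
  rw [cls, mcls, ord]
  have key : ∀ s : Multiset (MvPolynomial B R), (∀ p ∈ s, p.totalDegree ≤ mord (fam I)) →
      s.sum.totalDegree ≤ mord (fam I) := by
    intro s
    induction s using Multiset.induction_on with
    | empty => intro _; simp
    | cons p s ih =>
      intro h
      rw [Multiset.sum_cons]
      refine (MvPolynomial.totalDegree_add _ _).trans (max_le ?_ ?_)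
      · exact h p (Multiset.mem_cons_self _ _)
      · exact ih (fun q hq => h q (Multiset.mem_cons_of_mem hq))
  apply key
  intro p hp
  rw [Multiset.mem_map] at hp
  obtain ⟨q, _, rfl⟩ := hp
  split_ifs with h
  · refine (MvPolynomial.totalDegree_finsetProd _ _).trans ?_
    rw [← h]
    refine (Finset.sum_le_card_nsmul _ _ 1 (fun i _ => hb i)).trans ?_
    simp
  · simp

lemma prod_mk_mul {R : Type} [CommRing R] {A : Type} [Fintype A] (x : A → R) :
    (∏ a, (1 - PowerSeries.C (x a) * PowerSeries.X)) *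
      (∏ a, (PowerSeries.mk fun n => x a ^ n) : PowerSeries R) = 1 := by
  rw [← Finset.prod_mul_distrib]
  apply Finset.prod_eq_one
  intro a _
  exact one_sub_mul_mk (x a)

/-- passing from auxiliary rows to virtual columns -/
lemma ser_trunc {R : Type} [CommRing R] {e N : ℕ} {M : Type} [Fintype M] (x : Fin e → R)
    (z : Fin N → R) (m : M → R)
    (h : ∀ j, 1 ≤ j → j ≤ N → PowerSeries.coeff j
      ((∏ l, (1 - PowerSeries.C (m l) * PowerSeries.X)) *
        (∏ c, (1 - PowerSeries.C (z c) * PowerSeries.X)) : PowerSeries R) = 0) (j : ℕ)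
    (hj : j ≤ N) :
    PowerSeries.coeff j (ser (Fin.addCases x z : Fin (e + N) → R) (fun e : Empty => e.elim)) =
      PowerSeries.coeff j (ser x m) := by
  set Mm : PowerSeries R := ∏ l, (1 - PowerSeries.C (m l) * PowerSeries.X) with hMm
  set Zi : PowerSeries R := ∏ c, (1 - PowerSeries.C (z c) * PowerSeries.X) with hZi
  set S : PowerSeries R := ∏ a, (PowerSeries.mk fun n => x a ^ n) with hS
  set Z : PowerSeries R := ∏ a, (PowerSeries.mk fun n => z a ^ n) with hZ
  have hZZ : Zi * Z = 1 := prod_mk_mul z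
  have h1 : ser (Fin.addCases x z : Fin (e + N) → R) (fun e : Empty => e.elim) = S * Z := by
    rw [ser, Fin.prod_univ_add]
    simp [hS, hZ]
  have h2 : ser x m = Mm * S := rfl
  have h3 : PowerSeries.X ^ (N + 1) ∣ Mm * Zi - 1 := by
    rw [PowerSeries.X_pow_dvd_iff]
    intro i hi
    rw [map_sub]
    rcases Nat.eq_zero_or_pos i with rfl | hi'
    · rw [PowerSeries.coeff_zero_eq_constantCoeff_apply, PowerSeries.coeff_zero_eq_constantCoeff_apply,
        map_mul, hMm, hZi, map_prod, map_prod]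
      simp
    · rw [h i hi' (by omega), PowerSeries.coeff_one, if_neg (by omega), sub_zero]
  obtain ⟨r, hr⟩ := h3
  have h4 : Mm * S - S * Z = PowerSeries.X ^ (N + 1) * (S * Z * r) := by
    have : Mm * S - S * Z = S * Z * (Mm * Zi - 1) := by
      have e1 : S * Z * (Mm * Zi - 1) = Mm * S * (Zi * Z) - S * Z := by ring
      rw [e1, hZZ, mul_one]
    rw [this, hr]
    ring
  have h5 : PowerSeries.coeff j (Mm * S - S * Z) = 0 := by
    rw [h4]
    exact PowerSeries.X_pow_dvd_iff.1 (dvd_mul_right _ _) j (by omega)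
  rw [h1, h2]
  rw [map_sub, sub_eq_zero] at h5
  exact h5.symm

end Pre

section Sym

variable {k : Type} [Field k] {E : Type} {k0 N : ℕ} {Q ρ : Type}
  {X : Type} [AddCommGroup X]

/-- weights with indeterminate column weights -/
def LP {p : ℕ} (L : X →+ ℂ) : X × (Fin p → ℤ) →+ MvPolynomial (Fin p) ℂ where
  toFun z := C (L z.1) + ∑ b, z.2 b • MvPolynomial.X b
  map_zero' := by simp
  map_add' a b := by
    simp only [Prod.fst_add, Prod.snd_add, map_add, Pi.add_apply, add_smul,
      Finset.sum_add_distrib]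
    ring

lemma eval_LP {p : ℕ} (L : X →+ ℂ) (η : Fin p → ℂ) (z : X × (Fin p → ℤ)) :
    eval η (LP L z) = L z.1 + ∑ b, z.2 b • η b := by
  simp only [LP, AddMonoidHom.coe_mk, ZeroHom.coe_mk, map_add, eval_C, map_sum]
  congr 1
  apply Finset.sum_congr rfl
  intro b _
  rw [map_zsmul, eval_X]

/-- exchange of two coordinates -/
def swG {p : ℕ} (b b' : Fin p) (X : Type) [AddCommGroup X] :
    X × (Fin p → ℤ) →+ X × (Fin p → ℤ) where
  toFun z := (z.1, fun c => z.2 (Equiv.swap b b' c))
  map_zero' := rfl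
  map_add' _ _ := rfl

def csw {p : ℕ} (b b' : Fin p) : SR E p Q ρ → SR E p Q ρ :=
  Sum.elim (fun x => Sum.inl (x.1, Sum.map (Equiv.swap b b') id x.2)) Sum.inr

lemma cwt_swap {p : ℕ} (b b' : Fin p) (c : Fin p ⊕ Q) :
    (fun d => cwt p Q c (Equiv.swap b b' d)) = cwt p Q (Sum.map (Equiv.swap b b') id c) := by
  rcases c with b'' | q
  · ext d
    simp only [cwt, Sum.elim_inl, Sum.map_inl, Pi.neg_apply, Pi.single_apply]
    congr 2
    rw [eq_iff_iff]
    constructor
    · intro h; rw [← h, Equiv.swap_apply_self]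
    · intro h; rw [h, Equiv.swap_apply_self]
  · ext d
    simp [cwt]

/-- symmetry of the multidegree in the column weights -/
theorem col_sym [CharZero k] [Fintype E] [Fintype Q] [Fintype ρ]
    {ℓ : X × (Fin (k0 + N) → ℤ) →+ ℤ} {a : E → X}
    {π : Fin (k0 + N) → X} {wρ : ρ → X} (hpos : PosL ℓ (wR (Q := Q) a π wρ))
    {I : Ideal (MvPolynomial (SI E k0 Q ρ) k)} (hI : IsHomog (wR a π wρ) (dbl (addC N I)))
    (hne : dbl (addC N I) ≠ ⊤) {b b' : Fin (k0 + N)} (hbb : b ≠ b')
    (R : Type) [CommRing R] [Algebra ℚ R] (L : X × (Fin (k0 + N) → ℤ) →+ R) :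
    cls (dbl (addC N I)) (fun i => L (swG b b' X (wR a π wρ i))) =
      cls (dbl (addC N I)) (fun i => L (wR a π wρ i)) := by
  classical
  let B : SR E (k0 + N) Q ρ → Prop := Sum.elim (fun x => x.2 = Sum.inl b) (fun _ => False)
  have hinv : ∀ i : SR E (k0 + N) Q ρ, csw b b' (csw b b' i) = i := by
    rintro (⟨r, b'' | q⟩ | r) <;> simp [csw]
  have hB' : ∀ i : SR E (k0 + N) Q ρ, B (csw b b' i) ↔
      Sum.elim (fun x => x.2 = Sum.inl b') (fun _ => False) i := by
    rintro (⟨r, b'' | q⟩ | r)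
    · simp only [csw, Sum.elim_inl, B, Sum.map_inl, Sum.inl.injEq]
      constructor
      · intro h
        have := congrArg (Equiv.swap b b') h
        rwa [Equiv.swap_apply_self, Equiv.swap_apply_left] at this
      · intro h
        rw [h, Equiv.swap_apply_right]
    · simp [csw, B]
    · simp [csw, B]
  have hd : ∀ i : SR E (k0 + N) Q ρ, B i → ¬ B (csw b b' i) := by
    rintro (⟨r, c⟩ | r) h
    · rw [hB']
      simp only [Sum.elim_inl, B] at h ⊢
      rw [h]
      intro h'
      exact hbb (by simpa using h')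
    · exact absurd h (by simp [B])
  have hfix : ∀ i : SR E (k0 + N) Q ρ, ¬ B i → ¬ B (csw b b' i) → csw b b' i = i := by
    rintro (⟨r, b'' | q⟩ | r) h h'
    · rw [hB'] at h'
      simp only [Sum.elim_inl, B, Sum.inl.injEq] at h h'
      simp only [csw, Sum.elim_inl, Sum.map_inl]
      rw [Equiv.swap_apply_of_ne_of_ne h h']
    · rfl
    · rfl
  have e1 : swD k (csw b b') B = colG k E (k0 + N) Q ρ b b' := by
    apply MvPolynomial.derivation_ext
    rintro (⟨r, b'' | q⟩ | r)
    · rw [colG_inl, swD, vf_X]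
      simp only [B, Sum.elim_inl, csw, Sum.map_inl, Sum.inl.injEq]
      by_cases h : b'' = b
      · rw [if_pos h, if_pos h, h, Equiv.swap_apply_left]
      · rw [if_neg h, if_neg h]
    · rw [colG_inr, swD, vf_X]
      simp [B]
    · rw [colG_r, swD, vf_X]
      simp [B]
  have e2 : swD k (csw b b') (fun i => B (csw b b' i)) = colG k E (k0 + N) Q ρ b' b := by
    apply MvPolynomial.derivation_ext
    rintro (⟨r, b'' | q⟩ | r)
    · rw [colG_inl, swD, vf_X]
      have h0 := hB' (Sum.inl (r, Sum.inl b''))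
      simp only [Sum.elim_inl, Sum.inl.injEq] at h0
      by_cases h : b'' = b'
      · rw [if_pos (h0.2 h), if_pos h, h]
        simp [csw]
      · rw [if_neg (fun h' => h (h0.1 h')), if_neg h]
    · rw [colG_inr, swD, vf_X]
      simp [B, csw]
    · rw [colG_r, swD, vf_X]
      simp [B, csw]
  have h1 := stab_colG (I := I) (N := N) b b'
  have h2 := stab_colG (I := I) (N := N) b' b
  rw [← e1] at h1
  rw [← e2] at h2
  have hs : ∀ i : SR E (k0 + N) Q ρ, swG b b' X (wR a π wρ i) = wR a π wρ (csw b b' i) := by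
    rintro (⟨r, c⟩ | r)
    · simp only [swG, wR, csw, Sum.elim_inl, AddMonoidHom.coe_mk, ZeroHom.coe_mk]
      rw [cwt_swap]
    · rfl
  have key := sym_cls hpos hI hne hinv hd hfix (swG b b' X) hs h1 h2 R L
  rw [← key]
  congr 1
  ext1 i
  rw [hs]

/-- the multidegree as a polynomial in the column weights is symmetric -/
theorem col_isSymmetric [CharZero k] [Fintype E] [Fintype Q] [Fintype ρ]
    {ℓ : X × (Fin (k0 + N) → ℤ) →+ ℤ} {a : E → X}
    {π : Fin (k0 + N) → X} {wρ : ρ → X} (hpos : PosL ℓ (wR (Q := Q) a π wρ))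
    {I : Ideal (MvPolynomial (SI E k0 Q ρ) k)} (hI : IsHomog (wR a π wρ) (dbl (addC N I)))
    (hne : dbl (addC N I) ≠ ⊤) (L : X →+ ℂ) :
    (cls (dbl (addC N I)) (fun i => LP L (wR a π wρ i))).IsSymmetric := by
  classical
  have hswap : ∀ b b' : Fin (k0 + N), rename (Equiv.swap b b')
      (cls (dbl (addC N I)) (fun i => LP L (wR a π wρ i))) =
        cls (dbl (addC N I)) (fun i => LP L (wR a π wρ i)) := by
    intro b b'
    by_cases hbb : b = b'
    · subst hbb
      simp
    · have h1 := cls_map (RingHomClass.toRingHom (rename (Equiv.swap b b') :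
        MvPolynomial (Fin (k0 + N)) ℂ →ₐ[ℂ] MvPolynomial (Fin (k0 + N)) ℂ))
        (dbl (addC N I)) (fun i => LP L (wR a π wρ i))
      have h2 := col_sym hpos hI hne hbb (MvPolynomial (Fin (k0 + N)) ℂ) (LP L)
      refine Eq.trans (Eq.trans h1 ?_) h2
      congr 1
      ext1 i
      set z := wR a π wρ i with hz
      change rename (Equiv.swap b b') (LP L z) = LP L (swG b b' X z)
      simp only [LP, swG, AddMonoidHom.coe_mk, ZeroHom.coe_mk, map_add, rename_C, map_sum]
      congr 1
      rw [← Equiv.sum_comp (Equiv.swap b b') (fun c => z.2 (Equiv.swap b b' c) •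
        (MvPolynomial.X c : MvPolynomial (Fin (k0 + N)) ℂ))]
      apply Finset.sum_congr rfl
      intro c _
      rw [map_zsmul, rename_X, Equiv.swap_apply_self]
  intro e
  induction e using Equiv.Perm.swap_induction_on with
  | one => simp
  | swap_mul f x y _ hf =>
    rw [Equiv.Perm.coe_mul, ← rename_rename, hf]
    exact hswap x y

end Sym

end

end Pool.Agent.Helper38
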