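import Mathlib
import Pool.Agent.Helper38.KVS1

open MvPolynomial Module

namespace Pool.Agent.Helper38

noncomputable section

section Defs

variable {X' : Type} [AddCommGroup X'] {k0 : ℕ} {Q ρ : Type}

def vA (e N : ℕ) (X' : Type) [AddCommGroup X'] (s : Fin e) : CX (e + N) X' :=
  (Pi.single (Fin.castAdd N s) 1, 0)

def vP (e N : ℕ) (μ : Fin k0 → X') (l : Fin (k0 + N)) : CX (e + N) X' :=
  Fin.addCases (motive := fun _ => CX (e + N) X') (fun m => (0, μ m))
    (fun c => (Pi.single (Fin.natAdd e c) 1, 0)) l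

def vR (n : ℕ) (wρ : ρ → X') (r : ρ) : CX n X' := (0, wρ r)

lemma vP_cast (e N : ℕ) (μ : Fin k0 → X') (m : Fin k0) :
    vP e N μ (Fin.castAdd N m) = (0, μ m) := by simp [vP]

lemma vP_nat (e N : ℕ) (μ : Fin k0 → X') (c : Fin N) :
    vP e N μ (Fin.natAdd k0 c) = (Pi.single (Fin.natAdd e c) 1, 0) := by simp [vP]

/-- weights of the original ring -/
def vW0 (e : ℕ) (μ : Fin k0 → X') (wρ : ρ → X') : SI (Fin e) k0 Q ρ → CX e X' :=
  wI (fun s => (Pi.single s 1, 0)) (fun m => (0, μ m)) (vR e wρ)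

/-- weights of the enlarged family -/
def wW {κ : Type} (μ : Fin k0 → X') (wρ : ρ → X') : (Fin k0 × κ) ⊕ ρ → X' :=
  Sum.elim (fun x => μ x.1) wρ

/-- extension by zero -/
def ezX (e N : ℕ) (X' : Type) [AddCommGroup X'] : CX e X' →+ CX (e + N) X' where
  toFun z := (Fin.addCases (motive := fun _ => ℤ) z.1 (fun _ => 0), z.2)
  map_zero' := by
    ext i
    · refine Fin.addCases ?_ ?_ i <;> intro j <;> simp
    · rfl
  map_add' z z' := by
    ext i
    · refine Fin.addCases ?_ ?_ i <;> intro j <;> simp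
    · rfl

lemma ezX_single (e N : ℕ) (s : Fin e) :
    ezX e N X' (Pi.single s 1, 0) = (Pi.single (Fin.castAdd N s) 1, 0) := by
  ext i
  · refine Fin.addCases ?_ ?_ i
    · intro j
      simp only [ezX, AddMonoidHom.coe_mk, ZeroHom.coe_mk, Fin.addCases_left, Pi.single_apply]
      congr 1
      simp
    · intro j
      simp only [ezX, AddMonoidHom.coe_mk, ZeroHom.coe_mk, Fin.addCases_right, Pi.single_apply]
      rw [if_neg]
      intro h
      have := congrArg Fin.val h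
      simp at this
      omega
  · rfl

lemma ezX_zero (e N : ℕ) (ξ : X') : ezX e N X' (0, ξ) = (0, ξ) := by
  ext i
  · refine Fin.addCases ?_ ?_ i <;> intro j <;> simp [ezX]
  · rfl

lemma ezX_wI (e N : ℕ) (μ : Fin k0 → X') (wρ : ρ → X') (i : SI (Fin e) k0 Q ρ) :
    ezX e N X' (vW0 e μ wρ i) =
      wI (vA e N X') (vP e N μ) (vR (e + N) wρ) (jI (Fin e) k0 N Q ρ i) := by
  rcases i with ⟨s, m | q⟩ | r
  · change ezX e N X' ((Pi.single s 1, 0) - (0, μ m)) = vA e N X' s - vP e N μ (Fin.castAdd N m)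
    rw [map_sub, ezX_single, ezX_zero, vP_cast, vA]
  · change ezX e N X' ((Pi.single s 1, 0) - 0) = vA e N X' s - 0
    rw [map_sub, ezX_single, map_zero, vA]
  · change ezX e N X' (0, wρ r) = (0, wρ r)
    rw [ezX_zero]

lemma evL_ezX (e N : ℕ) {R : Type} [CommRing R] (x : Fin e → R) (z : Fin N → R) (L : X' →+ R)
    (ξ : CX e X') :
    evL (Fin.addCases x z : Fin (e + N) → R) L (ezX e N X' ξ) = evL x L ξ := by
  simp only [evL, AddMonoidHom.coe_mk, ZeroHom.coe_mk, ezX]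
  rw [Fin.sum_univ_add]
  simp

lemma jI_injective (E : Type) (k0 N : ℕ) (Q ρ : Type) : Function.Injective (jI E k0 N Q ρ) := by
  unfold jI
  apply Function.Injective.sumMap
  · apply Function.Injective.prodMap Function.injective_id
    apply Function.Injective.sumMap (Fin.castAdd_injective _ _) Function.injective_id
  · exact Function.injective_id

/-- reindexing of the enlarged matrix -/
def eV (e k0 N : ℕ) (Q ρ : Type) :
    (Fin (e + N) × (Fin (k0 + N) ⊕ Q)) ⊕ ((Fin k0 × (Fin (k0 + N) ⊕ Q)) ⊕ ρ) ≃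
      SR (Fin e) (k0 + N) Q ρ where
  toFun := Sum.elim (fun x => Sum.inl (Fin.addCases (motive := fun _ => Fin e ⊕ Fin (k0 + N))
      Sum.inl (fun c => Sum.inr (Fin.natAdd k0 c)) x.1, x.2))
    (Sum.elim (fun x => Sum.inl (Sum.inr (Fin.castAdd N x.1), x.2)) Sum.inr)
  invFun := Sum.elim (fun x => Sum.elim (fun s => Sum.inl (Fin.castAdd N s, x.2))
      (fun l => Fin.addCases (motive := fun _ => (Fin (e + N) × (Fin (k0 + N) ⊕ Q)) ⊕
        ((Fin k0 × (Fin (k0 + N) ⊕ Q)) ⊕ ρ)) (fun m => Sum.inr (Sum.inl (m, x.2)))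
        (fun c => Sum.inl (Fin.natAdd e c, x.2)) l) x.1)
    (fun r => Sum.inr (Sum.inr r))
  left_inv := by
    rintro (⟨a, c⟩ | (⟨m, c⟩ | r))
    · refine Fin.addCases ?_ ?_ a <;> intro j <;> simp
    · simp
    · rfl
  right_inv := by
    rintro (⟨s | l, c⟩ | r)
    · simp
    · refine Fin.addCases ?_ ?_ l <;> intro j <;> simp
    · rfl

lemma eV_E (e k0 N : ℕ) (Q ρ : Type) (s : Fin e) (c : Fin (k0 + N) ⊕ Q) :
    eV e k0 N Q ρ (Sum.inl (Fin.castAdd N s, c)) = Sum.inl (Sum.inl s, c) := by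
  simp [eV]
lemma eV_C (e k0 N : ℕ) (Q ρ : Type) (d : Fin N) (c : Fin (k0 + N) ⊕ Q) :
    eV e k0 N Q ρ (Sum.inl (Fin.natAdd e d, c)) = Sum.inl (Sum.inr (Fin.natAdd k0 d), c) := by
  simp [eV]
lemma eV_M (e k0 N : ℕ) (Q ρ : Type) (m : Fin k0) (c : Fin (k0 + N) ⊕ Q) :
    eV e k0 N Q ρ (Sum.inr (Sum.inl (m, c))) = Sum.inl (Sum.inr (Fin.castAdd N m), c) := rfl
lemma eV_r (e k0 N : ℕ) (Q ρ : Type) (r : ρ) :
    eV e k0 N Q ρ (Sum.inr (Sum.inr r)) = Sum.inr r := rfl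

lemma fst_wR_eV (e N : ℕ) (μ : Fin k0 → X') (wρ : ρ → X')
    (i : (Fin (e + N) × (Fin (k0 + N) ⊕ Q)) ⊕ ((Fin k0 × (Fin (k0 + N) ⊕ Q)) ⊕ ρ)) :
    (wR (vA e N X') (vP e N μ) (vR (e + N) wρ) (eV e k0 N Q ρ i)).1 =
      Sum.elim (fun q => ((Pi.single q.1 1, 0) : CX (e + N) X'))
        (fun r => (0, wW μ wρ r)) i := by
  rcases i with ⟨a, c⟩ | (⟨m, c⟩ | r)
  · refine Fin.addCases ?_ ?_ a
    · intro j
      rw [eV_E]
      rfl
    · intro j
      rw [eV_C]
      change vP e N μ (Fin.natAdd k0 j) = _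
      rw [vP_nat]
      rfl
  · rw [eV_M]
    change vP e N μ (Fin.castAdd N m) = _
    rw [vP_cast]
    rfl
  · rfl

end Defs

section Stabs

variable {k : Type} [Field k] {e k0 N : ℕ} {Q ρ : Type}

/-- the reindexed enlarged ideal -/
def vJ (N : ℕ) (I : Ideal (MvPolynomial (SI (Fin e) k0 Q ρ) k)) :
    Ideal (MvPolynomial ((Fin (e + N) × (Fin (k0 + N) ⊕ Q)) ⊕
      ((Fin k0 × (Fin (k0 + N) ⊕ Q)) ⊕ ρ)) k) :=
  (dbl (addC N I)).comap (rename (eV e k0 N Q ρ) : MvPolynomial _ k →ₐ[k] MvPolynomial _ k)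

lemma rowG_self_euler {A κ : Type} [DecidableEq A] (s : A) :
    rowG k A κ ρ s s = euler (Sum.elim (fun x => if x.1 = s then 1 else 0) (fun _ => 0)) := by
  apply MvPolynomial.derivation_ext
  rintro (⟨a, c⟩ | r)
  · rw [rowG_inl, euler, vf_X]
    simp only [Sum.elim_inl]
    split_ifs with h
    · simp [h]
    · simp
  · rw [rowG_inr, euler, vf_X]
    simp

lemma rowG_self_stab {X' : Type} [AddCommGroup X'] {μ : Fin k0 → X'} {wρ : ρ → X'}
    {I : Ideal (MvPolynomial (SI (Fin e) k0 Q ρ) k)} (hI : IsHomog (vW0 e μ wρ) I) (s : Fin e) :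
    Stab (rowG k (Fin e) (Fin k0 ⊕ Q) ρ s s : MvPolynomial (SI (Fin e) k0 Q ρ) k →ₗ[k] _) I := by
  rw [rowG_self_euler]
  apply IsHomog.stab_euler
  have h := hI.coarsen ((Pi.evalAddMonoidHom (fun _ : Fin e => ℤ) s).comp
    (AddMonoidHom.fst (Fin e → ℤ) X'))
  have h2 : (fun i => ((Pi.evalAddMonoidHom (fun _ : Fin e => ℤ) s).comp
    (AddMonoidHom.fst (Fin e → ℤ) X')) (vW0 (Q := Q) e μ wρ i)) =
    Sum.elim (fun x => if x.1 = s then 1 else 0) (fun _ => 0) := by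
    ext1 i
    rcases i with ⟨s', m | q⟩ | r
    · simp [vW0, wI, Pi.single_apply, eq_comm]
    · simp [vW0, wI, Pi.single_apply, eq_comm]
    · simp [vW0, wI, vR]
  rwa [h2] at h

lemma vJ_row {X' : Type} [AddCommGroup X'] {μ : Fin k0 → X'} {wρ : ρ → X'}
    {I : Ideal (MvPolynomial (SI (Fin e) k0 Q ρ) k)} (hI : IsHomog (vW0 e μ wρ) I)
    (hrow : ∀ s s' : Fin e, s ≠ s' →
      Stab (rowG k (Fin e) (Fin k0 ⊕ Q) ρ s s' : MvPolynomial (SI (Fin e) k0 Q ρ) k →ₗ[k] _) I)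
    (a b : Fin (e + N)) (hab : a ≠ b) :
    Stab (rowG k (Fin (e + N)) (Fin (k0 + N) ⊕ Q) ((Fin k0 × (Fin (k0 + N) ⊕ Q)) ⊕ ρ) a b :
      MvPolynomial ((Fin (e + N) × (Fin (k0 + N) ⊕ Q)) ⊕
      ((Fin k0 × (Fin (k0 + N) ⊕ Q)) ⊕ ρ)) k →ₗ[k] _) (vJ N I) := by
  classical
  let tr : Fin (e + N) → Fin e ⊕ Fin (k0 + N) := Fin.addCases
    (motive := fun _ => Fin e ⊕ Fin (k0 + N)) Sum.inl (fun c => Sum.inr (Fin.natAdd k0 c))
  have htr : ∀ (a : Fin (e + N)) (c : Fin (k0 + N) ⊕ Q), eV e k0 N Q ρ (Sum.inl (a, c)) =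
      Sum.inl (tr a, c) := fun a c => rfl
  have tr1 : ∀ s : Fin e, tr (Fin.castAdd N s) = Sum.inl s := by
    intro s; simp [tr]
  have tr2 : ∀ c : Fin N, tr (Fin.natAdd e c) = Sum.inr (Fin.natAdd k0 c) := by
    intro s; simp [tr]
  have trinj : ∀ a b, tr a = tr b → a = b := by
    intro a b
    refine Fin.addCases ?_ ?_ a
    · intro s
      refine Fin.addCases ?_ ?_ b
      · intro s' h
        rw [tr1, tr1] at h
        rw [Sum.inl.inj h]
      · intro c h
        rw [tr1, tr2] at h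
        exact absurd h (by simp)
    · intro c
      refine Fin.addCases ?_ ?_ b
      · intro s' h
        rw [tr1, tr2] at h
        exact absurd h (by simp)
      · intro c' h
        rw [tr2, tr2] at h
        have h1 := congrArg Fin.val (Sum.inr.inj h)
        simp only [Fin.val_natAdd] at h1
        apply Fin.ext
        simp only [Fin.val_natAdd]
        omega
  have trM : ∀ (a : Fin (e + N)) (m : Fin k0), Sum.inr (Fin.castAdd N m) ≠ tr a := by
    intro a m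
    refine Fin.addCases ?_ ?_ a
    · intro s h
      rw [tr1] at h
      exact absurd h (by simp)
    · intro c h
      rw [tr2] at h
      have h1 := congrArg Fin.val (Sum.inr.inj h)
      simp only [Fin.val_natAdd, Fin.val_castAdd] at h1
      omega
  have key : Stab (rowG k (Fin e ⊕ Fin (k0 + N)) (Fin (k0 + N) ⊕ Q) ρ (tr a) (tr b) :
      MvPolynomial (SR (Fin e) (k0 + N) Q ρ) k →ₗ[k] _) (dbl (addC N I)) := by
    revert hab
    refine Fin.addCases ?_ ?_ a
    · intro s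
      refine Fin.addCases ?_ ?_ b
      · intro s' hab
        rw [tr1, tr1]
        apply stab_R1
        apply hrow
        intro h
        apply hab
        rw [h]
      · intro c _
        rw [tr1, tr2]
        exact stab_R3 s c
    · intro c
      refine Fin.addCases ?_ ?_ b
      · intro s _
        rw [tr1, tr2]
        apply stab_R4
        intro s'
        by_cases h : s' = s
        · rw [h]
          exact rowG_self_stab hI s
        · exact hrow s' s h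
      · intro c' hab
        rw [tr2, tr2]
        apply stab_R2
        intro h
        apply hab
        rw [h]
  refine stab_comap ?_ key
  rintro (⟨a', c⟩ | (⟨m, c⟩ | r))
  · rw [rename_X, htr, rowG_inl, rowG_inl]
    by_cases h : a' = a
    · rw [if_pos (by rw [h]), if_pos h, rename_X, htr]
    · rw [if_neg (fun h' => h (trinj _ _ h')), if_neg h, map_zero]
  · rw [rename_X, eV_M, rowG_inl, if_neg (trM a m), rowG_inr, map_zero]
  · rw [rename_X, eV_r, rowG_inr, rowG_inr, map_zero]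

lemma vJ_G {I : Ideal (MvPolynomial (SI (Fin e) k0 Q ρ) k)}
    (g : Der k ρ × (Fin k0 → Fin k0 → k))
    (hG : Stab (dI (Fin e) Q g : MvPolynomial (SI (Fin e) k0 Q ρ) k →ₗ[k] _) I) :
    Stab (spD (Fin (e + N) × (Fin (k0 + N) ⊕ Q)) (dW (Fin (k0 + N) ⊕ Q) g) :
      MvPolynomial ((Fin (e + N) × (Fin (k0 + N) ⊕ Q)) ⊕
      ((Fin k0 × (Fin (k0 + N) ⊕ Q)) ⊕ ρ)) k →ₗ[k] _) (vJ N I) := by
  refine stab_comap ?_ (stab_dR (N := N) g hG)
  rintro (⟨a, c⟩ | (⟨m, c⟩ | r))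
  · rw [rename_X, spD_inl, map_zero]
    refine Fin.addCases ?_ ?_ a
    · intro s
      rw [eV_E, dR_E]
    · intro d
      rw [eV_C, dR_C]
  · rw [rename_X, eV_M, dR_M, spD_inr, rename_rename, dW, vf_X]
    simp only [Sum.elim_inl, map_sum, map_mul, rename_C, rename_X]
    apply Finset.sum_congr rfl
    intro m' _
    rfl
  · rw [rename_X, eV_r, dR_r, spD_inr, rename_rename, dW, vf_X]
    simp only [Sum.elim_inr]
    rw [rename_rename]
    rfl

end Stabs

section Step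

variable {k : Type} [Field k] {e k0 : ℕ} {Q ρ : Type} {X' : Type} [AddCommGroup X']

/-- functional on the enlarged weight group -/
lemma vStep_pos [CharZero k] [Fintype Q] [Fintype ρ] (N : ℕ) {ℓ' : X' →+ ℤ} {wρ : ρ → X'}
    {μ : Fin k0 → X'} (hℓ : PosL ℓ' wρ) (hμ : ∀ m, 0 < ℓ' (μ m))
    (hmono : StrictMono fun m => ℓ' (μ m)) :
    ∃ ℓ : CX (e + N) X' →+ ℤ, (∀ s, 0 < ℓ (vA e N X' s)) ∧ (∀ l, 0 < ℓ (vP e N μ l)) ∧
      (∀ s l, ℓ (vP e N μ l) < ℓ (vA e N X' s)) ∧ (StrictMono fun l => ℓ (vP e N μ l)) ∧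
      PosL ℓ (vR (e + N) wρ) := by
  let B : ℤ := ∑ m, ℓ' (μ m)
  have hB : ∀ m, ℓ' (μ m) ≤ B := fun m =>
    Finset.single_le_sum (f := fun m => ℓ' (μ m)) (fun i _ => (hμ i).le) (Finset.mem_univ m)
  have hB0 : 0 ≤ B := Finset.sum_nonneg fun i _ => (hμ i).le
  let y : Fin (e + N) → ℤ := Fin.addCases (fun _ => B + N + 1) (fun c => B + 1 + c)
  have y1 : ∀ s : Fin e, y (Fin.castAdd N s) = B + N + 1 := by intro s; simp [y]
  have y2 : ∀ c : Fin N, y (Fin.natAdd e c) = B + 1 + c := by intro s; simp [y]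
  let ℓ : CX (e + N) X' →+ ℤ := evL y ℓ'
  have a1 : ∀ s, ℓ (vA e N X' s) = B + N + 1 := by
    intro s; rw [vA]; change evL y ℓ' _ = _; rw [evL_inl, y1]
  have a2 : ∀ m, ℓ (vP e N μ (Fin.castAdd N m)) = ℓ' (μ m) := by
    intro m; rw [vP_cast]; change evL y ℓ' _ = _; rw [evL_inr]
  have a3 : ∀ c, ℓ (vP e N μ (Fin.natAdd k0 c)) = B + 1 + c := by
    intro m; rw [vP_nat]; change evL y ℓ' _ = _; rw [evL_inl, y2]
  refine ⟨ℓ, ?_, ?_, ?_, ?_, ?_⟩
  · intro s; rw [a1]; omega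
  · intro l
    refine Fin.addCases ?_ ?_ l
    · intro m; rw [a2]; exact hμ m
    · intro c; rw [a3]; omega
  · intro s l
    rw [a1]
    refine Fin.addCases ?_ ?_ l
    · intro m; rw [a2]
      have := hB m
      omega
    · intro c; rw [a3]
      have := c.2
      omega
  · intro l l'
    refine Fin.addCases ?_ ?_ l
    · intro m
      refine Fin.addCases ?_ ?_ l'
      · intro m' h
        simp only
        rw [a2, a2]
        apply hmono
        exact h
      · intro c _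
        simp only
        rw [a2, a3]
        have := hB m
        omega
    · intro c
      refine Fin.addCases ?_ ?_ l'
      · intro m h
        exfalso
        have h1 : (Fin.natAdd k0 c : Fin (k0 + N)).val < (Fin.castAdd N m).val := h
        simp only [Fin.val_natAdd, Fin.val_castAdd] at h1
        omega
      · intro c' h
        simp only
        rw [a3, a3]
        have h1 : (Fin.natAdd k0 c : Fin (k0 + N)).val < (Fin.natAdd k0 c').val := h
        simp only [Fin.val_natAdd] at h1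
        omega
  · intro r
    change 0 < evL y ℓ' (0, wρ r)
    rw [evL_inr]
    exact hℓ r

/-- value of the multidegree through the enlarged ideal -/
lemma vStep_value [CharZero k] [Fintype Q] [Fintype ρ] (N : ℕ) {ℓ' : X' →+ ℤ} {wρ : ρ → X'}
    {μ : Fin k0 → X'} (hℓ : PosL ℓ' wρ) (hμ : ∀ m, 0 < ℓ' (μ m))
    (hmono : StrictMono fun m => ℓ' (μ m)) {I : Ideal (MvPolynomial (SI (Fin e) k0 Q ρ) k)}
    (hI : IsHomog (vW0 e μ wρ) I) (hne : I ≠ ⊤) (hN : ord I ≤ N) :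
    IsHomog (Sum.elim (fun q => ((Pi.single q.1 1, 0) : CX (e + N) X'))
        (fun r => (0, wW μ wρ r))) (vJ N I) ∧ vJ N I ≠ ⊤ ∧ ord (vJ N I) = ord I ∧
      ∀ (x : Fin e → ℂ) (z : Fin N → ℂ) (L : X' →+ ℂ),
        (∀ j, 1 ≤ j → j ≤ N → PowerSeries.coeff j
          ((∏ l, (1 - PowerSeries.C (L (μ l)) * PowerSeries.X)) *
          (∏ c, (1 - PowerSeries.C (z c) * PowerSeries.X)) : PowerSeries ℂ) = 0) →
        cls I (fun i => evL x L (vW0 e μ wρ i)) =
          cls (vJ N I) (Sum.elim (fun q => (Fin.addCases x z : Fin (e + N) → ℂ) q.1)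
            (fun r => L (wW μ wρ r))) := by
  classical
  obtain ⟨ℓ, H1, H2, H3, H4, H5⟩ := vStep_pos (k := k) (e := e) (Q := Q) N hℓ hμ hmono
  set wN := wI (Q := Q) (vA e N X') (vP e N μ) (vR (e + N) wρ) with hwN
  have hposN : PosL ℓ wN := posL_wI H1 H3 H5
  have hI1 : IsHomog (wN ∘ jI (Fin e) k0 N Q ρ) I := by
    have := hI.coarsen (ezX e N X')
    have h : (fun i => ezX e N X' (vW0 e μ wρ i)) = wN ∘ jI (Fin e) k0 N Q ρ := by
      ext1 i
      exact ezX_wI e N μ wρ i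
    rwa [h] at this
  obtain ⟨b1, b2, b3, b4⟩ := inj_compare hposN (jI (Fin e) k0 N Q ρ) (jI_injective _ _ _ _ _) hI1
    hne
  change IsHomog wN (addC N I) at b1
  change addC N I ≠ ⊤ at b2
  change ord I = ord (addC N I) at b3
  obtain ⟨c1, c2⟩ := block_slice H1 (k0 + N) ρ (vP e N μ) (vR (e + N) wρ) H2 H3 H4 H5
    (addC N I) b1 b2
  have d1 : IsHomog (wR (vA e N X') (vP e N μ) (vR (e + N) wρ)) (dbl (addC N I)) := dbl_homog b1
  have d2 : dbl (addC N I) ≠ ⊤ := dbl_ne_top b2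
  set wr := wR (Q := Q) (vA e N X') (vP e N μ) (vR (e + N) wρ) with hwr
  have hposR : PosL (ℓ.comp (AddMonoidHom.fst (CX (e + N) X') (Fin (k0 + N) → ℤ))) wr :=
    posL_wR H1 H2 H5
  have d3 : IsHomog (fun i => (wr i).1) (dbl (addC N I)) :=
    d1.coarsen (AddMonoidHom.fst (CX (e + N) X') (Fin (k0 + N) → ℤ))
  have hposF : PosL ℓ (fun i => (wr i).1) := hposR
  obtain ⟨e1, e2, e3, e4⟩ := rename_compare hposF (eV e k0 N Q ρ) d3 d2
  have hw : (fun i => (wr i).1) ∘ eV e k0 N Q ρ =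
      Sum.elim (fun q => ((Pi.single q.1 1, 0) : CX (e + N) X'))
        (fun r => (0, wW μ wρ r)) := by
    ext1 i
    exact fst_wR_eV e N μ wρ i
  rw [hw] at e1
  refine ⟨e1, e2, ?_, ?_⟩
  · rw [b3, ← c1]
    exact e3.symm
  · intro x z L hz
    set y : Fin (e + N) → ℂ := Fin.addCases x z with hy
    set 𝓛 : CX (e + N) X' →+ ℂ := evL y L with h𝓛
    have s1 : cls I (fun i => evL x L (vW0 e μ wρ i)) = cls (addC N I) (fun i => 𝓛 (wN i)) := by
      rw [show cls (addC N I) (fun i => 𝓛 (wN i)) =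
        cls I (fun i => 𝓛 (wN (jI (Fin e) k0 N Q ρ i))) from (b4 ℂ 𝓛).symm]
      congr 1
      ext1 i
      rw [hwN, ← ezX_wI, h𝓛, hy, evL_ezX]
    set η : Fin (k0 + N) → ℂ := fun b => 𝓛 (vP e N μ b) with hη
    set P := cls (dbl (addC N I)) (fun i => LP 𝓛 (wr i)) with hP
    have s2 : ∀ η : Fin (k0 + N) → ℂ, eval η P =
        cls (dbl (addC N I)) (fun i => 𝓛 (wr i).1 + ∑ b, (wr i).2 b • η b) := by
      intro η
      rw [hP, cls_map]
      congr 1
      ext1 i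
      exact eval_LP 𝓛 η (wr i)
    have s3 : cls (addC N I) (fun i => 𝓛 (wN i)) = eval η P := by
      rw [s2, ← c2 ℂ 𝓛]
      congr 1
      ext1 i
      simp only [colp, AddMonoidHom.coe_mk, ZeroHom.coe_mk, map_add, map_sum]
      congr 1
      apply Finset.sum_congr rfl
      intro b _
      rw [map_zsmul]
    have s4 : P.IsSymmetric := col_isSymmetric hposR d1 d2 𝓛
    have s5 : P.totalDegree ≤ N := by
      refine (totalDegree_cls_le _ _ ?_).trans ?_
      · intro i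
        simp only [LP, AddMonoidHom.coe_mk, ZeroHom.coe_mk]
        refine (MvPolynomial.totalDegree_add _ _).trans (max_le ?_ ?_)
        · rw [MvPolynomial.totalDegree_C]
          exact Nat.zero_le _
        · refine (MvPolynomial.totalDegree_finsetSum _ _).trans ?_
          apply Finset.sup_le
          intro b _
          rw [zsmul_eq_mul]
          refine (MvPolynomial.totalDegree_mul _ _).trans ?_
          rw [MvPolynomial.totalDegree_X, ← map_intCast (MvPolynomial.C :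
            ℂ →+* MvPolynomial (Fin (k0 + N)) ℂ), MvPolynomial.totalDegree_C]
      · rw [c1, ← b3]
        exact hN
    have s6 : eval η P = eval 0 P := by
      apply sym_eval_eq P s4 N s5 η
      intro j hj1 hj2
      rw [← hz j hj1 hj2, Fin.prod_univ_add]
      congr 2
      · apply Finset.prod_congr rfl
        intro m _
        rw [hη]
        simp only
        rw [vP_cast, h𝓛, evL_inr]
      · apply Finset.prod_congr rfl
        intro c _
        rw [hη]
        simp only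
        rw [vP_nat, h𝓛, evL_inl, hy]
        simp
    rw [s1, s3, s6, s2]
    have s7 : (fun i => 𝓛 (wr i).1 + ∑ b, (wr i).2 b • (0 : Fin (k0 + N) → ℂ) b) =
        fun i => 𝓛 (wr i).1 := by
      ext1 i
      simp
    rw [s7, e4 ℂ 𝓛]
    congr 1
    ext1 i
    rw [fst_wR_eV, h𝓛]
    rcases i with q | r
    · simp only [Sum.elim_inl]
      rw [evL_inl]
    · simp only [Sum.elim_inr]
      rw [evL_inr]

lemma dW_shift {κ : Type} {wρ : ρ → X'} {μ : Fin k0 → X'} {g : Der k ρ × (Fin k0 → Fin k0 → k)}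
    {δ : X'} (h1 : ShiftBy wρ (g.1 : MvPolynomial ρ k →ₗ[k] _) δ)
    (h2 : ∀ m m', g.2 m m' ≠ 0 → μ m' = μ m + δ) :
    ShiftBy (wW (κ := κ) μ wρ) (dW κ g : MvPolynomial ((Fin k0 × κ) ⊕ ρ) k →ₗ[k] _) δ := by
  classical
  apply shiftBy_of_X
  rintro (⟨m, c⟩ | r)
  · rw [dW, vf_X]
    simp only [Sum.elim_inl]
    apply IsWeightedHomogeneous.sum
    intro m' _
    by_cases h : g.2 m m' = 0
    · rw [h, C_0, zero_mul]
      exact isWeightedHomogeneous_zero k _ _
    · have h3 := (isWeightedHomogeneous_C (wW (κ := κ) μ wρ) (g.2 m m')).mul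
        (isWeightedHomogeneous_X k (wW (κ := κ) μ wρ) (Sum.inl (m', c)))
      have h4 : 0 + wW (κ := κ) μ wρ (Sum.inl (m', c)) = wW (κ := κ) μ wρ (Sum.inl (m, c)) + δ := by
        rw [zero_add]
        exact h2 m m' h
      rwa [h4] at h3
  · rw [dW, vf_X]
    simp only [Sum.elim_inr]
    apply homog_rename
    have h3 := h1 (MvPolynomial.X r) (wρ r)
    rw [(isWeightedHomogeneous_X k wρ r).weightedHomogeneousComponent_same] at h3
    change IsWeightedHomogeneous wρ (g.1 (MvPolynomial.X r)) (wρ r + δ)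
    have h5 : g.1 (MvPolynomial.X r) = weightedHomogeneousComponent wρ (wρ r + δ)
      (g.1 (MvPolynomial.X r)) := h3.symm
    rw [h5]
    exact weightedHomogeneousComponent_isWeightedHomogeneous _ _

/-- The vertex step. -/
theorem vertex_step [CharZero k] [Fintype Q] [Fintype ρ] (N : ℕ) {ℓ' : X' →+ ℤ} {wρ : ρ → X'}
    {μ : Fin k0 → X'} (hℓ : PosL ℓ' wρ) (hμ : ∀ m, 0 < ℓ' (μ m))
    (hmono : StrictMono fun m => ℓ' (μ m)) (𝒢 : Set (Der k ρ × (Fin k0 → Fin k0 → k)))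
    (h𝒢 : ∀ g ∈ 𝒢, ∃ δ, ShiftBy wρ (g.1 : MvPolynomial ρ k →ₗ[k] _) δ ∧
      ∀ m m', g.2 m m' ≠ 0 → μ m' = μ m + δ)
    {I : Ideal (MvPolynomial (SI (Fin e) k0 Q ρ) k)}
    (hI : IsHomog (vW0 e μ wρ) I) (hne : I ≠ ⊤)
    (hrow : ∀ s s' : Fin e, s ≠ s' →
      Stab (rowG k (Fin e) (Fin k0 ⊕ Q) ρ s s' : MvPolynomial (SI (Fin e) k0 Q ρ) k →ₗ[k] _) I)
    (hG : ∀ g ∈ 𝒢, Stab (dI (Fin e) Q g : MvPolynomial (SI (Fin e) k0 Q ρ) k →ₗ[k] _) I)
    (hN : ord I ≤ N) :
    ∃ l : List ((Fin (e + N) → ℕ) ×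
        Ideal (MvPolynomial ((Fin k0 × (Fin (k0 + N) ⊕ Q)) ⊕ ρ) k)),
      (∀ z ∈ l, Antitone z.1 ∧ IsHomog (wW μ wρ) z.2 ∧ z.2 ≠ ⊤ ∧ (∑ a, z.1 a) + ord z.2 = ord I ∧
        ∀ g ∈ 𝒢, Stab (dW (Fin (k0 + N) ⊕ Q) g : MvPolynomial _ k →ₗ[k] _) z.2) ∧
      ∀ (x : Fin e → ℂ) (L : X' →+ ℂ), cls I (fun i => evL x L (vW0 e μ wρ i)) =
        (l.map fun z => dl (ser x (fun m => L (μ m))) z.1 *
          cls z.2 (fun i => L (wW μ wρ i))).sum := by
  classical
  obtain ⟨a1, a2, a3, a4⟩ := vStep_value N hℓ hμ hmono hI hne hN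
  have hposW : PosL ℓ' (wW (κ := Fin (k0 + N) ⊕ Q) μ wρ) := by
    rintro (⟨m, c⟩ | r)
    · exact hμ m
    · exact hℓ r
  obtain ⟨l, l1, l2⟩ := column_theorem' hposW
    {D | ∃ g ∈ 𝒢, D = dW (Fin (k0 + N) ⊕ Q) g} (by
      rintro D ⟨g, hg, rfl⟩
      obtain ⟨δ, h1, h2⟩ := h𝒢 g hg
      exact ⟨δ, dW_shift h1 h2⟩) (Fin (k0 + N) ⊕ Q) (e + N) (vJ N I) a1 a2
      (fun a b hab => vJ_row hI hrow a b hab) (by
      rintro D ⟨g, hg, rfl⟩
      exact vJ_G g (hG g hg))
  refine ⟨l, ?_, ?_⟩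
  · intro z hz
    obtain ⟨b1, b2, b3, b4, b5⟩ := l1 z hz
    refine ⟨b1, b2, b3, ?_, ?_⟩
    · rw [b4, a3]
    · intro g hg
      exact b5 _ ⟨g, hg, rfl⟩
  · intro x L
    obtain ⟨zz, hzz⟩ := exists_aux (fun m => L (μ m)) N
    rw [a4 x zz L hzz]
    refine (l2 ℂ (Fin.addCases x zz) L).trans ?_
    congr 1
    apply List.map_congr_left
    intro z hz
    obtain ⟨b1, b2, b3, b4, b5⟩ := l1 z hz
    congr 1
    apply dl_trunc _ _ _ N
    · rw [a3] at b4
      omega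
    · intro j hj
      exact ser_trunc x zz (fun m => L (μ m)) hzz j hj

end Step

end

end Pool.Agent.Helper38
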