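import Mathlib
import Pool.Agent.Helper38.KVS2

open MvPolynomial Module

namespace Pool.Agent.Helper38

noncomputable section

section Basic

variable {k : Type} [Field k]

/-- with no variables the multidegree is a natural number -/
lemma cls_isEmpty {σ : Type} [Fintype σ] [IsEmpty σ] (I : Ideal (MvPolynomial σ k)) :
    ∃ m : ℕ, ∀ b : σ → ℂ, cls I b = m := by
  refine ⟨((fam I).map fun p => if p.2.card = mord (fam I) then 1 else 0).sum, ?_⟩
  intro b
  rw [cls, mcls, Nat.cast_multiset_sum, Multiset.map_map]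
  congr 1
  apply Multiset.map_congr rfl
  intro p _
  simp only [Function.comp_apply]
  have h : p.2 = ∅ := Finset.eq_empty_of_isEmpty _
  rw [h, Finset.prod_empty]
  split_ifs <;> simp

lemma ser_equiv2 {R : Type} [CommRing R] {A A' M M' : Type} [Fintype A] [Fintype A'] [Fintype M]
    [Fintype M'] (eA : A' ≃ A) (eM : M' ≃ M) (x : A → R) (m : M → R) :
    ser (fun a => x (eA a)) (fun l => m (eM l)) = ser x m := by
  unfold ser
  congr 1
  · exact Equiv.prod_comp eM (fun l => 1 - PowerSeries.C (m l) * PowerSeries.X)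
  · exact Equiv.prod_comp eA (fun a => PowerSeries.mk fun n => x a ^ n)

lemma exists_sorted {M : Type} [Fintype M] (f : M → ℤ) (hf : Function.Injective f) :
    ∃ e : Fin (Fintype.card M) ≃ M, StrictMono (fun i => f (e i)) := by
  classical
  letI : LinearOrder M := LinearOrder.lift' f hf
  let e := monoEquivOfFin M rfl
  refine ⟨e.toEquiv, ?_⟩
  intro i j hij
  have h := e.strictMono hij
  exact h

end Basic

section Defs

variable {Y F : Type}

/-- variables satisfying a predicate -/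
structure GS (P : Y × (Y ⊕ F) → Prop) where
  val : Y × (Y ⊕ F)
  prop : P val

lemma GS.ext' {P : Y × (Y ⊕ F) → Prop} {x y : GS P} (h : x.val = y.val) : x = y := by
  cases x; cases y; cases h; rfl

instance {P : Y × (Y ⊕ F) → Prop} [Finite Y] [Finite F] : Finite (GS P) :=
  Finite.of_injective GS.val fun _ _ h => GS.ext' h

instance {P : Y × (Y ⊕ F) → Prop} [Fintype Y] [Fintype F] : Fintype (GS P) :=
  Fintype.ofFinite _

open Classical in
/-- the variable at a position, zero if there is none -/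
def gV (k : Type) [Field k] (P : Y × (Y ⊕ F) → Prop) (x : Y × (Y ⊕ F)) : MvPolynomial (GS P) k :=
  if h : P x then MvPolynomial.X ⟨x, h⟩ else 0

lemma gV_pos {k : Type} [Field k] {P : Y × (Y ⊕ F) → Prop} {x : Y × (Y ⊕ F)} (h : P x) :
    gV k P x = MvPolynomial.X ⟨x, h⟩ := by
  rw [gV, dif_pos h]

open Classical in
/-- infinitesimal action of an elementary matrix -/
def gD (k : Type) [Field k] (P : Y × (Y ⊕ F) → Prop) (y y' : Y) : Der k (GS P) :=
  vf (fun x => (if x.val.1 = y then gV k P (y', x.val.2) else 0) -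
    (if x.val.2 = Sum.inl y' then gV k P (x.val.1, Sum.inl y) else 0))

open Classical in
lemma gD_X {k : Type} [Field k] {P : Y × (Y ⊕ F) → Prop} (y y' : Y) (x : GS P) :
    gD k P y y' (MvPolynomial.X x) = (if x.val.1 = y then gV k P (y', x.val.2) else 0) -
    (if x.val.2 = Sum.inl y' then gV k P (x.val.1, Sum.inl y) else 0) := by
  rw [gD, vf_X]

/-- weights of positions -/
def gw [DecidableEq Y] (x : Y × (Y ⊕ F)) : Y → ℤ :=
  Pi.single x.1 1 - Sum.elim (fun q => Pi.single q 1) (fun _ => 0) x.2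

/-- weights -/
def gW [DecidableEq Y] (P : Y × (Y ⊕ F) → Prop) (x : GS P) : Y → ℤ := gw x.val

lemma homog_gV {k : Type} [Field k] [DecidableEq Y] (P : Y × (Y ⊕ F) → Prop) (x : Y × (Y ⊕ F)) :
    IsWeightedHomogeneous (gW P) (gV k P x) (gw x) := by
  unfold gV
  split_ifs with h
  · exact isWeightedHomogeneous_X k (gW P) ⟨x, h⟩
  · exact isWeightedHomogeneous_zero k _ _

lemma gD_shift {k : Type} [Field k] [DecidableEq Y] (P : Y × (Y ⊕ F) → Prop) (y y' : Y) :
    ShiftBy (gW P) (gD k P y y' : MvPolynomial (GS P) k →ₗ[k] _)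
      (Pi.single y' 1 - Pi.single y 1) := by
  classical
  apply shiftBy_of_X
  intro x
  rw [gD_X]
  apply IsWeightedHomogeneous.sub
  · split_ifs with h
    · have h1 := homog_gV (k := k) P (y', x.val.2)
      have h2 : gw (y', x.val.2) = gW P x + (Pi.single y' 1 - Pi.single y 1) := by
        rw [gW, gw, gw, h]
        abel
      rwa [h2] at h1
    · exact isWeightedHomogeneous_zero k _ _
  · split_ifs with h
    · have h1 := homog_gV (k := k) P (x.val.1, Sum.inl y)
      have h2 : gw (x.val.1, (Sum.inl y : Y ⊕ F)) = gW P x + (Pi.single y' 1 - Pi.single y 1) := by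
        rw [gW, gw, gw, h]
        simp only [Sum.elim_inl]
        abel
      rwa [h2] at h1
    · exact isWeightedHomogeneous_zero k _ _

/-- positions of the matrix entries for the vertices below `n` -/
def gok (v : Y → ℕ) (arr : ℕ → ℕ → Prop) (n : ℕ) (fr : ℕ → F → Prop) (x : Y × (Y ⊕ F)) : Prop :=
  v x.1 < n ∧ Sum.elim (fun q => arr (v q) (v x.1)) (fun f => fr (v x.1) f) x.2

/-- new framing -/
def gfr {κ : Type} (arr : ℕ → ℕ → Prop) (n : ℕ) (fr : ℕ → F → Prop) (i : ℕ) : F ⊕ κ → Prop :=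
  Sum.elim (fr i) (fun _ => arr i n)

end Defs

section E1

variable {k : Type} [Field k] {Y F : Type} {v : Y → ℕ} {arr : ℕ → ℕ → Prop}
  (harr : ∀ i j, arr i j → i < j) {n : ℕ} {fr : ℕ → F → Prop} {e k0 : ℕ}
  (eY : Fin e ≃ {y : Y // v y = n}) (eM : Fin k0 ≃ {q : Y // arr (v q) n})

/-- first reindexing -/
def b1 : SI (Fin e) k0 {c : F // fr n c} (GS (gok v arr n fr)) → GS (gok v arr (n + 1) fr) :=
  Sum.elim (fun x => Sum.elim
    (fun m => ⟨((eY x.1).1, Sum.inl (eM m).1), by
      refine ⟨?_, ?_⟩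
      · rw [(eY x.1).2]; exact Nat.lt_succ_self n
      · simp only [Sum.elim_inl]
        rw [(eY x.1).2]; exact (eM m).2⟩)
    (fun c => ⟨((eY x.1).1, Sum.inr c.1), by
      refine ⟨?_, ?_⟩
      · rw [(eY x.1).2]; exact Nat.lt_succ_self n
      · simp only [Sum.elim_inr]
        rw [(eY x.1).2]; exact c.2⟩) x.2)
    (fun r => ⟨r.val, ⟨Nat.lt_succ_of_lt r.prop.1, r.prop.2⟩⟩)

lemma b1_val1 (s : Fin e) (m : Fin k0) :
    (b1 (fr := fr) eY eM (Sum.inl (s, Sum.inl m))).val = ((eY s).1, Sum.inl (eM m).1) := rfl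
lemma b1_val2 (s : Fin e) (c : {c : F // fr n c}) :
    (b1 (fr := fr) eY eM (Sum.inl (s, Sum.inr c))).val = ((eY s).1, Sum.inr c.1) := rfl
lemma b1_val3 (r : GS (gok v arr n fr)) :
    (b1 (fr := fr) eY eM (Sum.inr r)).val = r.val := rfl

lemma b1_bijective : Function.Bijective (b1 (fr := fr) eY eM) := by
  constructor
  · rintro (⟨s, m | c⟩ | r) (⟨s', m' | c'⟩ | r') h
    · have h1 := congrArg GS.val h
      rw [b1_val1, b1_val1, Prod.mk.injEq, Sum.inl.injEq] at h1
      have h2 : s = s' := eY.injective (Subtype.ext h1.1)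
      have h3 : m = m' := eM.injective (Subtype.ext h1.2)
      rw [h2, h3]
    · have h1 := congrArg GS.val h
      rw [b1_val1, b1_val2, Prod.mk.injEq] at h1
      exact absurd h1.2 (by simp)
    · have h1 := congrArg GS.val h
      rw [b1_val1, b1_val3] at h1
      have h2 := r'.prop.1
      rw [← h1] at h2
      simp only at h2
      rw [(eY s).2] at h2
      exact absurd h2 (lt_irrefl _)
    · have h1 := congrArg GS.val h
      rw [b1_val1, b1_val2, Prod.mk.injEq] at h1
      exact absurd h1.2 (by simp)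
    · have h1 := congrArg GS.val h
      rw [b1_val2, b1_val2, Prod.mk.injEq, Sum.inr.injEq] at h1
      have h2 : s = s' := eY.injective (Subtype.ext h1.1)
      have h3 : c = c' := Subtype.ext h1.2
      rw [h2, h3]
    · have h1 := congrArg GS.val h
      rw [b1_val2, b1_val3] at h1
      have h2 := r'.prop.1
      rw [← h1] at h2
      simp only at h2
      rw [(eY s).2] at h2
      exact absurd h2 (lt_irrefl _)
    · have h1 := congrArg GS.val h
      rw [b1_val1, b1_val3] at h1
      have h2 := r.prop.1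
      rw [h1] at h2
      simp only at h2
      rw [(eY s').2] at h2
      exact absurd h2 (lt_irrefl _)
    · have h1 := congrArg GS.val h
      rw [b1_val2, b1_val3] at h1
      have h2 := r.prop.1
      rw [h1] at h2
      simp only at h2
      rw [(eY s').2] at h2
      exact absurd h2 (lt_irrefl _)
    · have h1 := congrArg GS.val h
      rw [b1_val3, b1_val3] at h1
      rw [GS.ext' h1]
  · rintro ⟨⟨p, c⟩, h1, h2⟩
    simp only at h1 h2
    rcases Nat.lt_succ_iff_lt_or_eq.1 h1 with h3 | h3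
    · exact ⟨Sum.inr ⟨(p, c), ⟨h3, h2⟩⟩, rfl⟩
    · rcases c with q | c
      · simp only [Sum.elim_inl] at h2
        refine ⟨Sum.inl (eY.symm ⟨p, h3⟩, Sum.inl (eM.symm ⟨q, by rwa [h3] at h2⟩)), ?_⟩
        apply GS.ext'
        rw [b1_val1, Equiv.apply_symm_apply, Equiv.apply_symm_apply]
      · simp only [Sum.elim_inr] at h2
        refine ⟨Sum.inl (eY.symm ⟨p, h3⟩, Sum.inr ⟨c, by rwa [h3] at h2⟩), ?_⟩
        apply GS.ext'
        rw [b1_val2, Equiv.apply_symm_apply]

def e1 : SI (Fin e) k0 {c : F // fr n c} (GS (gok v arr n fr)) ≃ GS (gok v arr (n + 1) fr) :=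
  Equiv.ofBijective _ (b1_bijective eY eM)

lemma e1_val1 (s : Fin e) (m : Fin k0) :
    (e1 (fr := fr) eY eM (Sum.inl (s, Sum.inl m))).val = ((eY s).1, Sum.inl (eM m).1) := rfl
lemma e1_val2 (s : Fin e) (c : {c : F // fr n c}) :
    (e1 (fr := fr) eY eM (Sum.inl (s, Sum.inr c))).val = ((eY s).1, Sum.inr c.1) := rfl
lemma e1_val3 (r : GS (gok v arr n fr)) :
    (e1 (fr := fr) eY eM (Sum.inr r)).val = r.val := rfl

/-- row of the top vertex in the first reindexing -/
lemma e1_row (s : Fin e) (c : Fin k0 ⊕ {c : F // fr n c}) :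
    (e1 (fr := fr) eY eM (Sum.inl (s, c))).val.1 = (eY s).1 := by
  rcases c with m | c <;> rfl

lemma e1_col (s s' : Fin e) (c : Fin k0 ⊕ {c : F // fr n c}) :
    (e1 (fr := fr) eY eM (Sum.inl (s, c))).val.2 = (e1 (fr := fr) eY eM (Sum.inl (s', c))).val.2 := by
  rcases c with m | c <;> rfl

/-- second reindexing -/
def b2 (κ : Type) : (Fin k0 × κ) ⊕ GS (gok v arr n fr) → GS (gok v arr n (gfr (κ := κ) arr n fr)) :=
  Sum.elim (fun x => ⟨((eM x.1).1, Sum.inr (Sum.inr x.2)), ⟨harr _ _ (eM x.1).2, (eM x.1).2⟩⟩)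
    (fun r => ⟨(r.val.1, Sum.map id Sum.inl r.val.2), by
      refine ⟨r.prop.1, ?_⟩
      have h := r.prop.2
      rcases hc : r.val.2 with q | c
      · rw [hc] at h; exact h
      · rw [hc] at h; exact h⟩)

lemma b2_val1 (κ : Type) (m : Fin k0) (c : κ) :
    (b2 (fr := fr) harr eM κ (Sum.inl (m, c))).val = ((eM m).1, Sum.inr (Sum.inr c)) := rfl
lemma b2_val2 (κ : Type) (r : GS (gok v arr n fr)) :
    (b2 (fr := fr) harr eM κ (Sum.inr r)).val = (r.val.1, Sum.map id Sum.inl r.val.2) := rfl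

lemma b2_bijective (κ : Type) : Function.Bijective (b2 (fr := fr) harr eM κ) := by
  constructor
  · rintro (⟨m, c⟩ | r) (⟨m', c'⟩ | r') h
    · have h1 := congrArg GS.val h
      rw [b2_val1, b2_val1, Prod.mk.injEq, Sum.inr.injEq, Sum.inr.injEq] at h1
      rw [eM.injective (Subtype.ext h1.1), h1.2]
    · have h1 := congrArg GS.val h
      rw [b2_val1, b2_val2, Prod.mk.injEq] at h1
      rcases hc : r'.val.2 with q | c
      · rw [hc] at h1; exact absurd h1.2 (by simp)
      · rw [hc] at h1; exact absurd h1.2 (by simp)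
    · have h1 := congrArg GS.val h
      rw [b2_val1, b2_val2, Prod.mk.injEq] at h1
      rcases hc : r.val.2 with q | c
      · rw [hc] at h1; exact absurd h1.2 (by simp)
      · rw [hc] at h1; exact absurd h1.2 (by simp)
    · have h1 := congrArg GS.val h
      rw [b2_val2, b2_val2, Prod.mk.injEq] at h1
      have h2 : r.val.2 = r'.val.2 :=
        (Function.Injective.sumMap Function.injective_id Sum.inl_injective) h1.2
      rw [GS.ext' (Prod.ext h1.1 h2)]
  · rintro ⟨⟨p, q | (c | c)⟩, h1, h2⟩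
    · exact ⟨Sum.inr ⟨(p, Sum.inl q), ⟨h1, h2⟩⟩, rfl⟩
    · exact ⟨Sum.inr ⟨(p, Sum.inr c), ⟨h1, h2⟩⟩, rfl⟩
    · refine ⟨Sum.inl (eM.symm ⟨p, h2⟩, c), ?_⟩
      apply GS.ext'
      rw [b2_val1, Equiv.apply_symm_apply]

def e2 (κ : Type) : (Fin k0 × κ) ⊕ GS (gok v arr n fr) ≃
    GS (gok v arr n (gfr (κ := κ) arr n fr)) :=
  Equiv.ofBijective _ (b2_bijective harr eM κ)

lemma e2_val1 (κ : Type) (m : Fin k0) (c : κ) :
    (e2 (fr := fr) harr eM κ (Sum.inl (m, c))).val = ((eM m).1, Sum.inr (Sum.inr c)) := rfl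
lemma e2_val2 (κ : Type) (r : GS (gok v arr n fr)) :
    (e2 (fr := fr) harr eM κ (Sum.inr r)).val = (r.val.1, Sum.map id Sum.inl r.val.2) := rfl

end E1

end

end Pool.Agent.Helper38
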