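import Mathlib
import Pool.Agent.Helper38.KGl

open MvPolynomial Module

namespace Pool.Agent.Helper38

noncomputable section

section Stab

variable {k : Type} [Field k] {Y F : Type} {v : Y → ℕ} {arr : ℕ → ℕ → Prop}
  (harr : ∀ i j, arr i j → i < j) {n : ℕ} {fr : ℕ → F → Prop} {e k0 : ℕ}
  (eY : Fin e ≃ {y : Y // v y = n}) (eM : Fin k0 ≃ {q : Y // arr (v q) n})

lemma gV_val {P : Y × (Y ⊕ F) → Prop} (x : GS P) : gV k P x.val = MvPolynomial.X x :=
  gV_pos x.prop

lemma gV_val' {P : Y × (Y ⊕ F) → Prop} (x : GS P) (z : Y × (Y ⊕ F)) (h : z = x.val) :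
    gV k P z = MvPolynomial.X x := by
  rw [h, gV_val]

include harr in
lemma gcol_lt {m : ℕ} (x : GS (gok v arr m fr)) {q : Y} (h : x.val.2 = Sum.inl q) :
    v q < v x.val.1 := by
  have h1 := x.prop.2
  rw [h] at h1
  exact harr _ _ h1

lemma gV_low (x : Y × (Y ⊕ F)) (hx : v x.1 < n) :
    rename (fun r => e1 (fr := fr) eY eM (Sum.inr r)) (gV k (gok v arr n fr) x) =
      gV k (gok v arr (n + 1) fr) x := by
  by_cases h : gok v arr n fr x
  · rw [gV_pos h, rename_X]
    symm
    apply gV_val'
    rfl
  · have h' : ¬ gok v arr (n + 1) fr x := fun h' => h ⟨hx, h'.2⟩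
    rw [gV, dif_neg h, gV, dif_neg h', map_zero]

include harr in
lemma e1_rowG (s s' : Fin e) (i : SI (Fin e) k0 {c : F // fr n c} (GS (gok v arr n fr))) :
    gD k (gok v arr (n + 1) fr) (eY s).1 (eY s').1
      (rename (e1 (fr := fr) eY eM) (MvPolynomial.X i)) =
    rename (e1 (fr := fr) eY eM)
      (rowG k (Fin e) (Fin k0 ⊕ {c : F // fr n c}) (GS (gok v arr n fr)) s s'
        (MvPolynomial.X i)) := by
  classical
  rw [rename_X, gD_X]
  have h2 : ¬ (e1 (fr := fr) eY eM i).val.2 = Sum.inl (eY s').1 := by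
    intro h
    have h3 := gcol_lt harr _ h
    rw [(eY s').2] at h3
    have h4 := (e1 (fr := fr) eY eM i).prop.1
    omega
  rw [if_neg h2, sub_zero]
  rcases i with ⟨s'', c⟩ | r
  · rw [rowG_inl, e1_row]
    by_cases h : s'' = s
    · rw [if_pos (by rw [h]), if_pos h, rename_X]
      apply gV_val'
      rw [Prod.ext_iff]
      exact ⟨(e1_row eY eM s' c).symm, e1_col eY eM s'' s' c⟩
    · rw [if_neg (fun h' => h (eY.injective (Subtype.ext h'))), if_neg h, map_zero]
  · rw [rowG_inr, map_zero, if_neg]
    intro h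
    have h1 := r.prop.1
    rw [e1_val3] at h
    rw [h, (eY s).2] at h1
    exact lt_irrefl _ h1

open Classical in
/-- the matrix of an elementary operation on the columns of the top vertex -/
def gmat (k : Type) [Field k] {Y : Type} {v : Y → ℕ} {arr : ℕ → ℕ → Prop} {n k0 : ℕ}
    (eM : Fin k0 ≃ {q : Y // arr (v q) n}) (y y' : Y) :
    Fin k0 → Fin k0 → k := fun m m' => if (eM m).1 = y ∧ (eM m').1 = y' then 1 else 0

lemma e1_dI {y y' : Y} (hy : v y < n) (hyy : v y = v y')
    (i : SI (Fin e) k0 {c : F // fr n c} (GS (gok v arr n fr))) :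
    gD k (gok v arr (n + 1) fr) y y'
      (rename (e1 (fr := fr) eY eM) (MvPolynomial.X i)) =
    rename (e1 (fr := fr) eY eM)
      (dI (Fin e) {c : F // fr n c} (gD k (gok v arr n fr) y y', gmat k eM y y')
        (MvPolynomial.X i)) := by
  classical
  rw [rename_X, gD_X, dI, vf_X]
  rcases i with ⟨s, m' | c⟩ | r
  · have h1 : ¬ (e1 (fr := fr) eY eM (Sum.inl (s, Sum.inl m'))).val.1 = y := by
      intro h
      rw [e1_val1] at h
      simp only at h
      rw [← h, (eY s).2] at hy
      exact lt_irrefl _ hy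
    rw [if_neg h1, zero_sub]
    simp only [Sum.elim_inl, map_neg, map_sum, map_mul, rename_C, rename_X]
    congr 1
    rw [e1_val1]
    simp only [Sum.inl.injEq]
    by_cases h2 : (eM m').1 = y'
    · rw [if_pos h2]
      have h3 : arr (v y) n := by
        rw [hyy, ← h2]; exact (eM m').2
      rw [Finset.sum_eq_single (eM.symm ⟨y, h3⟩)]
      · have h4 : gmat k eM y y' (eM.symm ⟨y, h3⟩) m' = 1 := by
          rw [gmat, if_pos]
          rw [Equiv.apply_symm_apply]
          exact ⟨rfl, h2⟩
        rw [h4, C_1, one_mul]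
        apply gV_val'
        rw [e1_val1, Equiv.apply_symm_apply]
      · intro m _ hm
        have h4 : gmat k eM y y' m m' = 0 := by
          rw [gmat, if_neg]
          rintro ⟨h5, _⟩
          apply hm
          rw [Equiv.eq_symm_apply]
          exact Subtype.ext h5
        rw [h4, C_0, zero_mul]
      · intro h; exact absurd (Finset.mem_univ _) h
    · rw [if_neg h2]
      symm
      apply Finset.sum_eq_zero
      intro m _
      have h4 : gmat k eM y y' m m' = 0 := by
        rw [gmat, if_neg]
        rintro ⟨_, h5⟩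
        exact h2 h5
      rw [h4, C_0, zero_mul]
  · have h1 : ¬ (e1 (fr := fr) eY eM (Sum.inl (s, Sum.inr c))).val.1 = y := by
      intro h
      rw [e1_val2] at h
      simp only at h
      rw [← h, (eY s).2] at hy
      exact lt_irrefl _ hy
    rw [if_neg h1, zero_sub, if_neg (by rw [e1_val2]; simp)]
    simp
  · simp only [Sum.elim_inr]
    rw [gD_X, rename_rename, map_sub, e1_val3]
    congr 1
    · by_cases h : r.val.1 = y
      · rw [if_pos h, if_pos h]
        exact (gV_low (k := k) (fr := fr) eY eM _ (by simp only; omega)).symm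
      · rw [if_neg h, if_neg h, map_zero]
    · by_cases h : r.val.2 = Sum.inl y'
      · rw [if_pos h, if_pos h]
        exact (gV_low (k := k) (fr := fr) eY eM _ (by simpa using r.prop.1)).symm
      · rw [if_neg h, if_neg h, map_zero]

lemma gV_map (κ : Type) (x : Y × (Y ⊕ F)) :
    rename (fun r => e2 (fr := fr) harr eM κ (Sum.inr r)) (gV k (gok v arr n fr) x) =
      gV k (gok v arr n (gfr (κ := κ) arr n fr)) (x.1, Sum.map id Sum.inl x.2) := by
  by_cases h : gok v arr n fr x
  · rw [gV_pos h, rename_X]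
    symm
    apply gV_val'
    rfl
  · have h' : ¬ gok v arr n (gfr (κ := κ) arr n fr) (x.1, Sum.map id Sum.inl x.2) := by
      intro h'
      apply h
      refine ⟨h'.1, ?_⟩
      have h2 := h'.2
      rcases hc : x.2 with q | c
      · rw [hc] at h2; exact h2
      · rw [hc] at h2; exact h2
    rw [gV, dif_neg h, gV, dif_neg h', map_zero]

lemma e2_dW (κ : Type) {y y' : Y} (hyy : v y = v y')
    (j : (Fin k0 × κ) ⊕ GS (gok v arr n fr)) :
    rename (e2 (fr := fr) harr eM κ)
      (dW κ (gD k (gok v arr n fr) y y', gmat k eM y y') (MvPolynomial.X j)) =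
    gD k (gok v arr n (gfr (κ := κ) arr n fr)) y y'
      (MvPolynomial.X (e2 (fr := fr) harr eM κ j)) := by
  classical
  rw [gD_X, dW, vf_X]
  rcases j with ⟨m, c⟩ | r
  · rw [e2_val1]
    simp only [Sum.elim_inl, map_sum, map_mul, rename_C, rename_X]
    have h0 : ¬ (Sum.inr (Sum.inr c) : Y ⊕ (F ⊕ κ)) = Sum.inl y' := by simp
    rw [if_neg h0, sub_zero]
    by_cases h : (eM m).1 = y
    · rw [if_pos h]
      have h3 : arr (v y') n := by
        rw [← hyy, ← h]; exact (eM m).2
      rw [Finset.sum_eq_single (eM.symm ⟨y', h3⟩)]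
      · have h4 : gmat k eM y y' m (eM.symm ⟨y', h3⟩) = 1 := by
          rw [gmat, if_pos]
          rw [Equiv.apply_symm_apply]
          exact ⟨h, rfl⟩
        rw [h4, C_1, one_mul]
        symm
        apply gV_val'
        rw [e2_val1, Equiv.apply_symm_apply]
      · intro m' _ hm
        have h4 : gmat k eM y y' m m' = 0 := by
          rw [gmat, if_neg]
          rintro ⟨_, h5⟩
          apply hm
          rw [Equiv.eq_symm_apply]
          exact Subtype.ext h5
        rw [h4, C_0, zero_mul]
      · intro h; exact absurd (Finset.mem_univ _) h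
    · rw [if_neg h]
      apply Finset.sum_eq_zero
      intro m' _
      have h4 : gmat k eM y y' m m' = 0 := by
        rw [gmat, if_neg]
        rintro ⟨h5, _⟩
        exact h h5
      rw [h4, C_0, zero_mul]
  · simp only [Sum.elim_inr]
    rw [gD_X, rename_rename, map_sub, e2_val2]
    congr 1
    · by_cases h : r.val.1 = y
      · rw [if_pos h, if_pos h]
        exact gV_map harr eM κ _
      · rw [if_neg h, if_neg h, map_zero]
    · by_cases h : r.val.2 = Sum.inl y'
      · rw [if_pos h, if_pos (by rw [h]; rfl)]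
        exact gV_map harr eM κ _
      · rw [if_neg h, if_neg, map_zero]
        intro h'
        apply h
        rcases hc : r.val.2 with q | c
        · rw [hc] at h'
          exact congrArg Sum.inl (Sum.inl.inj h')
        · rw [hc] at h'
          exact absurd h' (by simp)

end Stab

section Weights

variable {Y F : Type} [DecidableEq Y] {v : Y → ℕ} {arr : ℕ → ℕ → Prop}
  (harr : ∀ i j, arr i j → i < j) {n : ℕ} {fr : ℕ → F → Prop} {e k0 : ℕ}
  (eY : Fin e ≃ {y : Y // v y = n}) (eM : Fin k0 ≃ {q : Y // arr (v q) n})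

/-- splitting of the weights of the top vertex -/
def gphi : (Y → ℤ) →+ CX e (Y → ℤ) where
  toFun z := (fun s => z (eY s).1, fun y => if v y = n then 0 else z y)
  map_zero' := by
    ext s
    · rfl
    · simp
  map_add' z z' := by
    ext s
    · rfl
    · simp only [Pi.add_apply, Prod.snd_add]
      split_ifs <;> simp

lemma gphi_top (s : Fin e) : gphi eY (Pi.single (eY s).1 1) = (Pi.single s 1, 0) := by
  ext s'
  · simp only [gphi, AddMonoidHom.coe_mk, ZeroHom.coe_mk, Pi.single_apply]
    congr 1
    rw [eq_iff_iff]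
    constructor
    · intro h; exact eY.injective (Subtype.ext h)
    · intro h; rw [h]
  · simp only [gphi, AddMonoidHom.coe_mk, ZeroHom.coe_mk, Pi.single_apply, Pi.zero_apply]
    split_ifs with h1 h2
    · rfl
    · exfalso
      apply h1
      rw [h2]
      exact (eY s).2
    · rfl

lemma gphi_low {y : Y} (hy : v y ≠ n) : gphi eY (Pi.single y 1) = (0, Pi.single y 1) := by
  ext s'
  · simp only [gphi, AddMonoidHom.coe_mk, ZeroHom.coe_mk, Pi.single_apply, Pi.zero_apply]
    rw [if_neg]
    intro h
    apply hy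
    rw [← h]
    exact (eY s').2
  · simp only [gphi, AddMonoidHom.coe_mk, ZeroHom.coe_mk, Pi.single_apply]
    split_ifs with h1 h2
    · exfalso
      apply hy
      rw [← h2]
      exact h1
    · rfl
    · rfl
    · rfl

include harr in
lemma gphi_e1 (i : SI (Fin e) k0 {c : F // fr n c} (GS (gok v arr n fr))) :
    gphi eY (gW (gok v arr (n + 1) fr) (e1 (fr := fr) eY eM i)) =
      vW0 e (fun m => Pi.single (eM m).1 1) (gW (gok v arr n fr)) i := by
  rcases i with ⟨s, m | c⟩ | r
  · rw [gW, e1_val1, gw]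
    simp only [Sum.elim_inl, map_sub]
    rw [gphi_top, gphi_low]
    · rfl
    · have := harr _ _ (eM m).2
      omega
  · rw [gW, e1_val2, gw]
    simp only [Sum.elim_inr, sub_zero]
    rw [gphi_top]
    change _ = ((Pi.single s 1, 0) : CX e (Y → ℤ)) - 0
    rw [sub_zero]
  · rw [gW, e1_val3, gw, map_sub, gphi_low eY (ne_of_lt r.prop.1)]
    have h2 : gphi eY (Sum.elim (fun q : Y => (Pi.single q 1 : Y → ℤ)) (fun _ : F => 0) r.val.2) =
        (0, Sum.elim (fun q : Y => (Pi.single q 1 : Y → ℤ)) (fun _ : F => 0) r.val.2) := by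
      rcases hc : r.val.2 with q | c
      · simp only [Sum.elim_inl]
        apply gphi_low
        have h1 := gcol_lt harr r hc
        have h3 := r.prop.1
        omega
      · simp only [Sum.elim_inr, map_zero]
        rfl
    rw [h2]
    change ((0 : Fin e → ℤ), (Pi.single r.val.1 1 : Y → ℤ)) - _ = _
    rw [Prod.mk_sub_mk, sub_zero]
    rfl

lemma evL_gphi [Fintype Y] {R : Type} [CommRing R] (L : (Y → ℤ) →+ R) (z : Y → ℤ) :
    evL (fun s => L (Pi.single (eY s).1 1)) L (gphi eY z) = L z := by
  have h : (evL (fun s => L (Pi.single (eY s).1 1)) L).comp (gphi eY) = L := by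
    apply AddMonoidHom.functions_ext
    intro y c
    have h1 : (Pi.single y c : Y → ℤ) = c • Pi.single y 1 := by
      rw [← Pi.single_smul]
      simp
    rw [h1, map_zsmul, map_zsmul]
    congr 1
    rw [AddMonoidHom.comp_apply]
    by_cases hy : v y = n
    · have h2 : y = (eY (eY.symm ⟨y, hy⟩)).1 := by rw [Equiv.apply_symm_apply]
      rw [h2, gphi_top, evL_inl]
    · rw [gphi_low eY hy, evL_inr]
  exact DFunLike.congr_fun h z

lemma gW_e2 (κ : Type) (j : (Fin k0 × κ) ⊕ GS (gok v arr n fr)) :
    gW (gok v arr n (gfr (κ := κ) arr n fr)) (e2 (fr := fr) harr eM κ j) =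
      wW (fun m => Pi.single (eM m).1 1) (gW (gok v arr n fr)) j := by
  rcases j with ⟨m, c⟩ | r
  · rw [gW, e2_val1, gw]
    simp only [Sum.elim_inr, sub_zero]
    rfl
  · rw [gW, e2_val2, gw]
    change _ = gw r.val
    rw [gw]
    congr 1
    rcases hc : r.val.2 with q | c <;> rfl

end Weights

end

end Pool.Agent.Helper38
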