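import Mathlib

open MvPolynomial

namespace Pool.Agent.Helper38

noncomputable section

/-! Multidegree (lowest degree part of the K-polynomial) of an ideal stable under a torus. -/

section KPolynomial

variable {σ Y : Type} [Fintype σ] [Fintype Y] (w : σ → (Y → ℤ)) (I : Ideal (MvPolynomial σ ℂ))

omit [Fintype σ] [Fintype Y] in
/-- The quotient map `ℂ[σ] → ℂ[σ] / I`. -/
def quotMap : MvPolynomial σ ℂ →ₗ[ℂ] (MvPolynomial σ ℂ ⧸ I) :=
  (Ideal.Quotient.mkₐ ℂ I).toLinearMap

omit [Fintype σ] [Fintype Y] in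
/-- The weight `μ` part of the coordinate ring `ℂ[σ] / I`, where the variable `i` has weight
`w i`. -/
def weightPart (μ : Y → ℤ) : Submodule ℂ (MvPolynomial σ ℂ ⧸ I) :=
  (weightedHomogeneousSubmodule ℂ w μ).map (quotMap I)

/-- Dimension of the weight `μ` part of the coordinate ring `ℂ[σ] / I`. -/
def weightDim (μ : Y → ℤ) : ℕ := Module.finrank ℂ (weightPart w I μ)

/-- Coefficient of `t^μ` in the K-polynomial, i.e. in
`(∏ i, (1 - t ^ w i)) * ∑ μ, weightDim μ * t^μ`. -/
def kCoeff (μ : Y → ℤ) : ℤ :=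
  ∑ A : Finset σ, (-1) ^ A.card * (weightDim w I (μ - ∑ i ∈ A, w i) : ℤ)

/-- The linear form `∑ y, μ y * x_y`. -/
def linForm (μ : Y → ℤ) : MvPolynomial Y ℚ := ∑ y, C (μ y : ℚ) * X y

/-- Degree `n` part of the K-polynomial after the substitution `t^μ = exp (- ∑ y, μ y * x_y)`. -/
def kPart (n : ℕ) : MvPolynomial Y ℚ :=
  ∑ᶠ μ : Y → ℤ, C ((kCoeff w I μ : ℚ) * (-1) ^ n / n.factorial) * linForm μ ^ n

/-- The multidegree: the lowest nonvanishing homogeneous part of the K-polynomial. -/
def multidegree : MvPolynomial Y ℚ := kPart w I (sInf {n | kPart w I n ≠ 0})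

end KPolynomial

section Quiver

variable {V A : Type} (tail head : A → V) (e : V → ℕ)

/-- Matrix entries of a representation with dimension vector `e`. -/
abbrev Coord : Type := Σ a : A, Fin (e (head a)) × Fin (e (tail a))

/-- Chern roots: `x_{i,s}` for a vertex `i` and `s < e i`. -/
abbrev Root : Type := Σ i : V, Fin (e i)

/-- The representation space `⨁ Hom (E_{t(a)}, E_{h(a)})`. -/
abbrev Rep : Type := (a : A) → Matrix (Fin (e (head a))) (Fin (e (tail a))) ℂ

/-- The action of `∏ GL (E_i)`. -/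
def actRep (g : (i : V) → GL (Fin (e i)) ℂ) (φ : Rep tail head e) : Rep tail head e :=
  fun a => (g (head a) : Matrix (Fin (e (head a))) (Fin (e (head a))) ℂ) * φ a *
    (((g (tail a))⁻¹ : GL (Fin (e (tail a))) ℂ) : Matrix (Fin (e (tail a))) (Fin (e (tail a))) ℂ)

/-- Polynomials vanishing on the orbit (equivalently on the orbit closure) of `φ`. -/
def orbitIdeal (φ : Rep tail head e) : Ideal (MvPolynomial (Coord tail head e) ℂ) where
  carrier := {f | ∀ g : (i : V) → GL (Fin (e i)) ℂ,
    eval (fun x : Coord tail head e => actRep tail head e g φ x.1 x.2.1 x.2.2) f = 0}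
  add_mem' := by
    intro a b ha hb g
    rw [map_add, ha g, hb g, add_zero]
  zero_mem' := by
    intro g
    rw [map_zero]
  smul_mem' := by
    intro c a ha g
    rw [smul_eq_mul, map_mul, ha g, mul_zero]

variable [DecidableEq V]

/-- The weight `x_{h(a),s} - x_{t(a),t}` of the matrix entry `(s,t)` of the arrow `a`. -/
def coordWeight (x : Coord tail head e) : Root e → ℤ :=
  Pi.single ⟨head x.1, x.2.1⟩ 1 - Pi.single ⟨tail x.1, x.2.2⟩ 1

end Quiver

section Statement

/-- The coefficient `c_n` of a power series for `n : ℤ`, with `c_n = 0` for `n < 0`. -/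
def coefZ {R : Type} [CommRing R] (c : PowerSeries R) (n : ℤ) : R :=
  if 0 ≤ n then PowerSeries.coeff n.toNat c else 0

/-- `Δ_λ(c) = det (c_{λ_s + t - s})` for `λ ∈ ℤ^r`. -/
def Delta {R : Type} [CommRing R] (c : PowerSeries R) {r : ℕ} (lam : Fin r → ℤ) : R :=
  (Matrix.of fun s t : Fin r => coefZ c (lam s + (t : ℤ) - (s : ℤ))).det

open Classical in
/-- The series `∑ c_n ξ^n = ∏_{j ∈ T(i)} ∏_t (1 - x_{j,t} ξ) / ∏_s (1 - x_{i,s} ξ)` with
`T(i) = {t(a) : h(a) = i}`; here `1 / (1 - x ξ)` is written as `∑ x^n ξ^n`. -/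
def KSer {V A : Type} [Fintype V] (tail head : A → V) (e : V → ℕ) (i : V) :
    PowerSeries (MvPolynomial (Root e) ℚ) :=
  (∏ j ∈ Finset.univ.filter (fun j => ∃ a, tail a = j ∧ head a = i), ∏ t : Fin (e j),
      (1 - PowerSeries.C (X (⟨j, t⟩ : Root e)) * PowerSeries.X)) *
    ∏ s : Fin (e i), PowerSeries.mk fun n => X (⟨i, s⟩ : Root e) ^ n

/-- The operation `Δ` for the alphabets of sizes `r i`: linear in `f`, it sends the monomial with
exponents `lam` to `∏ i, Δ_{lam i}(K_i)`. Here `f` is a Laurent polynomial with integer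
coefficients, given by its coefficient function. -/
def DeltaOp {V A : Type} [Fintype V] (tail head : A → V) (e : V → ℕ) {r : V → ℕ}
    (f : ((i : V) → Fin (r i) → ℤ) →₀ ℤ) : MvPolynomial (Root e) ℚ :=
  f.sum fun lam c => c • ∏ i, Delta (KSer tail head e i) (lam i)

/-- All coefficients of `f` are nonnegative integers, and all exponents occurring in `f` are tuples
of partitions, i.e. of weakly decreasing integer sequences. -/
def PartitionPositive {V : Type} {r : V → ℕ} (f : ((i : V) → Fin (r i) → ℤ) →₀ ℤ) : Prop :=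
  (∀ lam, 0 ≤ f lam) ∧ ∀ lam ∈ f.support, ∀ i, Antitone (lam i)

/-- The class of the closure of the orbit of `φ`: the multidegree of its vanishing ideal. -/
def orbitClass {V A : Type} [Fintype V] [DecidableEq V] [Fintype A] (tail head : A → V)
    (e : V → ℕ) (φ : Rep tail head e) : MvPolynomial (Root e) ℚ :=
  multidegree (coordWeight tail head e) (orbitIdeal tail head e φ)

/-- All weight spaces of the coordinate ring are finite dimensional. -/
def FiniteParts {σ Y : Type} (w : σ → (Y → ℤ)) (I : Ideal (MvPolynomial σ ℂ)) : Prop :=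
  ∀ μ, Module.Finite ℂ (weightPart w I μ)

/-- The K-polynomial is a well defined nonzero Laurent polynomial: weight spaces are finite
dimensional, it has finitely many terms, and some homogeneous part is nonzero. -/
def HasKPolynomial {σ Y : Type} [Fintype σ] [Fintype Y] (w : σ → (Y → ℤ))
    (I : Ideal (MvPolynomial σ ℂ)) : Prop :=
  FiniteParts w I ∧ {μ | kCoeff w I μ ≠ 0}.Finite ∧ ∃ n, kPart w I n ≠ 0

/-- The tree with vertices `0, ..., n-1` which is the path `0 - 1 - ... - (n-2)` together with an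
edge joining `n-1` to `b`. -/
def treeGraph (n b : ℕ) : SimpleGraph (Fin n) :=
  SimpleGraph.fromRel fun i j =>
    ((j : ℕ) = i + 1 ∧ (j : ℕ) + 1 < n) ∨ ((i : ℕ) = b ∧ (j : ℕ) + 1 = n)

/-- The underlying graph of the quiver is `A_n` (`b = n - 2`), `D_n` with `n ≥ 4` (`b = n - 3`),
`E_6`, `E_7` or `E_8` (`b = 2`): after numbering the vertices, the arrows correspond bijectively to
the edges of the tree. -/
def IsDynkin {V A : Type} (tail head : A → V) : Prop :=
  ∃ (n b : ℕ) (ν : V ≃ Fin n),
    ((1 ≤ n ∧ b = n - 2) ∨ (4 ≤ n ∧ b = n - 3) ∨ ((n = 6 ∨ n = 7 ∨ n = 8) ∧ b = 2)) ∧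
    (∀ a, (treeGraph n b).Adj (ν (tail a)) (ν (head a))) ∧
    ∀ i j, (treeGraph n b).Adj (ν i) (ν j) →
      ∃! a, (tail a = i ∧ head a = j) ∨ (tail a = j ∧ head a = i)

end Statement

end

end Pool.Agent.Helper38
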