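import Mathlib
import Pool.Agent.Helper38.KGl3
import Pool.Agent.Helper38.QT3
import Pool.Agent.Helper90.QT1
import Pool.Agent.Helper90.QT2

open MvPolynomial Module

namespace Pool.Agent.Helper38

noncomputable section

section Coord

variable {V A : Type} {tail head : A → V} {e : V → ℕ} {rk : V → ℕ}

/-- arrows in terms of the labels -/
def garr (tail head : A → V) (rk : V → ℕ) (i j : ℕ) : Prop :=
  ∃ a, rk (tail a) = i ∧ rk (head a) = j

def noFr (_ : ℕ) (_ : Empty) : Prop := False

/-- positions of the coordinates -/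
abbrev PC (tail head : A → V) (e : V → ℕ) (rk : V → ℕ) (n : ℕ) :
    Root e × (Root e ⊕ Empty) → Prop :=
  gok (fun y : Root e => rk y.1) (garr tail head rk) n noFr

def b3 (tail head : A → V) (e : V → ℕ) {n : ℕ} (hn : ∀ v, rk v < n) (x : Coord tail head e) :
    GS (PC tail head e rk n) :=
  ⟨(rw' tail head e x, Sum.inl (cl' tail head e x)), ⟨hn _, ⟨x.1, rfl, rfl⟩⟩⟩

lemma b3_bijective (hrk : Function.Injective rk)
    (hinj : Function.Injective fun a => (tail a, head a)) {n : ℕ} (hn : ∀ v, rk v < n) :
    Function.Bijective (b3 tail head e hn) := by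
  constructor
  · rintro ⟨a, r, c⟩ ⟨a', r', c'⟩ h
    have h1 := congrArg GS.val h
    simp only [b3, rw', cl', Prod.mk.injEq, Sum.inl.injEq, Sigma.mk.injEq] at h1
    obtain ⟨⟨h2, h3⟩, h4, h5⟩ := h1
    have h6 : a = a' := hinj (Prod.ext h4 h2)
    subst h6
    rw [eq_of_heq h3, eq_of_heq h5]
  · rintro ⟨⟨⟨p, s⟩, (⟨q, t⟩ | c)⟩, h1, h2⟩
    · obtain ⟨a, h3, h4⟩ := h2
      have h5 : tail a = q := hrk h3
      have h6 : head a = p := hrk h4
      subst h5
      subst h6
      exact ⟨⟨a, s, t⟩, rfl⟩
    · exact c.elim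

/-- reindexing of the coordinates -/
def e3 (hrk : Function.Injective rk)
    (hinj : Function.Injective fun a => (tail a, head a)) {n : ℕ} (hn : ∀ v, rk v < n) :
    Coord tail head e ≃ GS (PC tail head e rk n) :=
  Equiv.ofBijective _ (b3_bijective hrk hinj hn)

lemma e3_val (hrk : Function.Injective rk)
    (hinj : Function.Injective fun a => (tail a, head a)) {n : ℕ} (hn : ∀ v, rk v < n)
    (x : Coord tail head e) :
    (e3 hrk hinj hn x).val = (rw' tail head e x, Sum.inl (cl' tail head e x)) := rfl

lemma coord_ext (hinj : Function.Injective fun a => (tail a, head a)) {x y : Coord tail head e}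
    (h1 : rw' tail head e x = rw' tail head e y) (h2 : cl' tail head e x = cl' tail head e y) :
    x = y := by
  obtain ⟨a, r, c⟩ := x
  obtain ⟨a', r', c'⟩ := y
  simp only [rw', cl', Sigma.mk.injEq] at h1 h2
  have h6 : a = a' := hinj (Prod.ext h2.1 h1.1)
  subst h6
  rw [eq_of_heq h1.2, eq_of_heq h2.2]

variable [DecidableEq V] [Fintype A] [DecidableEq A]

lemma glD_e3 (hrk : Function.Injective rk)
    (hinj : Function.Injective fun a => (tail a, head a)) {n : ℕ} (hn : ∀ v, rk v < n)
    {p q : Root e} (hpq : p.1 = q.1) (x : Coord tail head e) :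
    glD tail head e p q (MvPolynomial.X x) =
      rename (e3 (e := e) hrk hinj hn).symm
        (gD ℂ (PC tail head e rk n) p q (MvPolynomial.X (e3 hrk hinj hn x))) := by
  classical
  set E := e3 (e := e) hrk hinj hn with hE
  rw [glD, vf_X, gD_X, map_sub, e3_val]
  congr 1
  · by_cases h : rw' tail head e x = p
    · rw [if_pos h]
      have hp : PC tail head e rk n (q, Sum.inl (cl' tail head e x)) := by
        refine ⟨hn _, ⟨x.1, rfl, ?_⟩⟩
        simp only
        rw [← hpq, ← h]
        rfl
      rw [gV_pos hp, rename_X]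
      set j := E.symm ⟨(q, Sum.inl (cl' tail head e x)), hp⟩ with hj
      have hj' : E j = ⟨(q, Sum.inl (cl' tail head e x)), hp⟩ := by rw [hj, Equiv.apply_symm_apply]
      have h1 := congrArg GS.val hj'
      rw [hE, e3_val] at h1
      have h2 : rw' tail head e j = q := congrArg Prod.fst h1
      have h3 : cl' tail head e j = cl' tail head e x := Sum.inl.inj (congrArg Prod.snd h1)
      have h4 : j.1 = x.1 := by
        apply hinj
        have h5 : tail j.1 = tail x.1 := congrArg Sigma.fst h3
        have h6 : head j.1 = head x.1 := by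
          have h7 : head j.1 = q.1 := congrArg Sigma.fst h2
          rw [h7, ← hpq, ← h]
          rfl
        exact Prod.ext h5 h6
      rw [Finset.sum_eq_single j]
      · rw [if_pos ⟨h4, h, h2, h3⟩]
      · intro y _ hy
        rw [if_neg]
        rintro ⟨_, _, h8, h9⟩
        apply hy
        exact coord_ext hinj (h8.trans h2.symm) (h9.trans h3.symm)
      · intro h; exact absurd (Finset.mem_univ _) h
    · rw [if_neg h, map_zero]
      apply Finset.sum_eq_zero
      intro y _
      rw [if_neg]
      rintro ⟨_, h8, _⟩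
      exact h h8
  · by_cases h : cl' tail head e x = q
    · rw [if_pos (by rw [h])]
      have hp : PC tail head e rk n (rw' tail head e x, Sum.inl p) := by
        refine ⟨hn _, ⟨x.1, ?_, rfl⟩⟩
        simp only
        rw [hpq, ← h]
        rfl
      rw [gV_pos hp, rename_X]
      set j := E.symm ⟨(rw' tail head e x, Sum.inl p), hp⟩ with hj
      have hj' : E j = ⟨(rw' tail head e x, Sum.inl p), hp⟩ := by rw [hj, Equiv.apply_symm_apply]
      have h1 := congrArg GS.val hj'
      rw [hE, e3_val] at h1
      have h2 : rw' tail head e j = rw' tail head e x := congrArg Prod.fst h1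
      have h3 : cl' tail head e j = p := Sum.inl.inj (congrArg Prod.snd h1)
      have h4 : j.1 = x.1 := by
        apply hinj
        have h5 : head j.1 = head x.1 := congrArg Sigma.fst h2
        have h6 : tail j.1 = tail x.1 := by
          have h7 : tail j.1 = p.1 := congrArg Sigma.fst h3
          rw [h7, hpq, ← h]
          rfl
        exact Prod.ext h6 h5
      rw [Finset.sum_eq_single j]
      · rw [if_pos ⟨h4, h2, h, h3⟩]
      · intro y _ hy
        rw [if_neg]
        rintro ⟨_, h8, _, h9⟩
        apply hy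
        exact coord_ext hinj (h8.trans h2.symm) (h9.trans h3.symm)
      · intro h; exact absurd (Finset.mem_univ _) h
    · rw [if_neg (fun h' => h (Sum.inl.inj h')), map_zero]
      apply Finset.sum_eq_zero
      intro y _
      rw [if_neg]
      rintro ⟨_, _, h8, _⟩
      exact h h8

end Coord

section Values

variable {V A : Type} [Fintype V] [DecidableEq V] [Fintype A] {tail head : A → V} {e : V → ℕ}

/-- the functional attached to a point -/
def Lpt {Y : Type} [Fintype Y] (ξ : Y → ℂ) : (Y → ℤ) →+ ℂ where
  toFun z := ∑ y, z y • ξ y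
  map_zero' := by simp
  map_add' a b := by simp [add_smul, Finset.sum_add_distrib]

lemma Lpt_single {Y : Type} [Fintype Y] [DecidableEq Y] (ξ : Y → ℂ) (y : Y) :
    Lpt ξ (Pi.single y 1) = ξ y := by
  simp only [Lpt, AddMonoidHom.coe_mk, ZeroHom.coe_mk]
  rw [Finset.sum_eq_single y]
  · simp
  · intro b _ hb
    simp [hb]
  · intro h; exact absurd (Finset.mem_univ _) h

/-- evaluation at a complex point -/
def evC {Y : Type} (ξ : Y → ℂ) : MvPolynomial Y ℚ →+* ℂ :=
  eval₂Hom (algebraMap ℚ ℂ) ξ

lemma evC_linForm {Y : Type} [Fintype Y] (ξ : Y → ℂ) (μ : Y → ℤ) :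
    evC ξ (linForm μ) = Lpt ξ μ := by
  rw [evC, linForm, map_sum]
  simp only [Lpt, AddMonoidHom.coe_mk, ZeroHom.coe_mk]
  apply Finset.sum_congr rfl
  intro y _
  rw [map_mul]
  simp

lemma evC_ext {Y : Type} {p q : MvPolynomial Y ℚ} (h : ∀ ξ : Y → ℂ, evC ξ p = evC ξ q) :
    p = q := by
  apply MvPolynomial.map_injective (algebraMap ℚ ℂ) (algebraMap ℚ ℂ).injective
  apply MvPolynomial.funext
  intro ξ
  rw [eval_map, eval_map]
  exact h ξ

lemma Delta_eq_dl {R : Type} [CommRing R] (c : PowerSeries R) {r : ℕ} (lam : Fin r → ℕ) :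
    Delta c (fun s => (lam s : ℤ)) = dl c lam := rfl

lemma map_KSer (ξ : Root e → ℂ) {rk : V → ℕ} (hrk : Function.Injective rk) (i : V) :
    PowerSeries.map (evC ξ) (KSer tail head e i) =
      gT (fun y : Root e => rk y.1) (garr tail head rk) (Lpt ξ) (rk i) := by
  classical
  unfold gT ser KSer
  simp only [Lpt_single]
  rw [map_mul, map_prod, map_prod]
  congr 1
  · have h1 : ∏ l : {q : Root e // garr tail head rk (rk q.1) (rk i)},
        (1 - PowerSeries.C (ξ l.1) * PowerSeries.X : PowerSeries ℂ) =
        ∏ q : Root e, if garr tail head rk (rk q.1) (rk i) then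
          (1 - PowerSeries.C (ξ q) * PowerSeries.X) else 1 := by
      rw [← Finset.prod_filter]
      exact (Finset.prod_subtype (Finset.univ.filter fun q : Root e =>
        garr tail head rk (rk q.1) (rk i)) (fun x => by simp)
        (fun q => (1 - PowerSeries.C (ξ q) * PowerSeries.X : PowerSeries ℂ))).symm
    rw [h1, Fintype.prod_sigma, Finset.prod_filter]
    apply Finset.prod_congr rfl
    intro j _
    have h2 : (∃ a, tail a = j ∧ head a = i) ↔ garr tail head rk (rk j) (rk i) := by
      constructor
      · rintro ⟨a, rfl, rfl⟩; exact ⟨a, rfl, rfl⟩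
      · rintro ⟨a, h3, h4⟩; exact ⟨a, hrk h3, hrk h4⟩
    by_cases h3 : ∃ a, tail a = j ∧ head a = i
    · rw [if_pos h3, map_prod]
      apply Finset.prod_congr rfl
      intro t _
      rw [if_pos (h2.1 h3)]
      simp [evC]
    · rw [if_neg h3]
      symm
      apply Finset.prod_eq_one
      intro t _
      rw [if_neg (fun h => h3 (h2.2 h))]
  · let E : Fin (e i) ≃ {y : Root e // rk y.1 = rk i} :=
      { toFun := fun s => ⟨⟨i, s⟩, rfl⟩
        invFun := fun y => Fin.cast (by rw [hrk y.2]) y.1.2
        left_inv := fun s => rfl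
        right_inv := by
          rintro ⟨⟨j, s⟩, h⟩
          have h' : j = i := hrk h
          subst h'
          rfl }
    rw [← Equiv.prod_comp E]
    apply Finset.prod_congr rfl
    intro s _
    ext m
    simp [evC, E]

end Values

end

end Pool.Agent.Helper38
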