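import Mathlib
import Pool.Agent.Helper38.KFin

open MvPolynomial Module

namespace Pool.Agent.Helper38

noncomputable section

section Final

lemma list_finsupp {E M : Type} [AddCommGroup M] (l : List E) (h : E → M) :
    ∃ f : E →₀ ℤ, (∀ z, 0 ≤ f z) ∧ (∀ z ∈ f.support, z ∈ l) ∧
      f.sum (fun z c => c • h z) = (l.map h).sum := by
  classical
  induction l with
  | nil => exact ⟨0, by simp, by simp, by simp⟩
  | cons z l ih =>
    obtain ⟨f, f1, f2, f3⟩ := ih
    refine ⟨f + Finsupp.single z 1, ?_, ?_, ?_⟩
    · intro y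
      rw [Finsupp.add_apply, Finsupp.single_apply]
      have := f1 y
      split_ifs <;> omega
    · intro y hy
      have h1 := Finsupp.support_add hy
      rw [Finset.mem_union] at h1
      rcases h1 with h1 | h1
      · exact List.mem_cons_of_mem _ (f2 y h1)
      · have h2 := Finsupp.support_single_subset h1
        rw [Finset.mem_singleton] at h2
        rw [h2]
        exact List.mem_cons_self
    · rw [Finsupp.sum_add_index', f3, Finsupp.sum_single_index, one_smul, List.map_cons,
        List.sum_cons, add_comm]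
      · rw [zero_smul]
      · intro y; rw [zero_smul]
      · intro y a b; rw [add_smul]

variable {V A : Type} [Fintype V] [DecidableEq V] [Fintype A] {tail head : A → V}

/-- a positive functional compatible with the labels -/
lemma exists_ell {e : V → ℕ} (rk : V → ℕ) :
    ∃ ℓ : (Root e → ℤ) →+ ℤ, (∀ y, 0 < ℓ (Pi.single y 1)) ∧
      (∀ p q : Root e, rk q.1 < rk p.1 → ℓ (Pi.single q 1) < ℓ (Pi.single p 1)) ∧
      Function.Injective fun y : Root e => ℓ (Pi.single y 1) := by
  classical
  let E := Fintype.equivFin (Root e)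
  let c : Root e → ℤ := fun y => (rk y.1 : ℤ) * Fintype.card (Root e) + (E y : ℕ) + 1
  let ℓ : (Root e → ℤ) →+ ℤ :=
    { toFun := fun z => ∑ y, z y * c y
      map_zero' := by simp
      map_add' := fun a b => by simp [add_mul, Finset.sum_add_distrib] }
  have hℓ : ∀ y, ℓ (Pi.single y 1) = c y := by
    intro y
    change ∑ x, (Pi.single y 1 : Root e → ℤ) x * c x = c y
    rw [Finset.sum_eq_single y]
    · simp
    · intro b _ hb
      simp [hb]
    · intro h; exact absurd (Finset.mem_univ _) h
  refine ⟨ℓ, ?_, ?_, ?_⟩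
  · intro y
    rw [hℓ]
    positivity
  · intro p q h
    rw [hℓ, hℓ]
    have h1 := (E q).2
    have h2 : (rk q.1 + 1) * Fintype.card (Root e) ≤ rk p.1 * Fintype.card (Root e) :=
      Nat.mul_le_mul_right _ h
    simp only [c]
    have h3 : ((rk q.1 : ℤ) + 1) * Fintype.card (Root e) ≤ (rk p.1 : ℤ) * Fintype.card (Root e) := by
      exact_mod_cast h2
    have h4 : ((E q : ℕ) : ℤ) < Fintype.card (Root e) := by exact_mod_cast h1
    nlinarith [Int.natCast_nonneg (E p : ℕ)]
  · intro p q h
    simp only [hℓ, c] at h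
    have h1 := (E q).2
    have h2 := (E p).2
    have h3 : rk p.1 * Fintype.card (Root e) + (E p : ℕ) =
        rk q.1 * Fintype.card (Root e) + (E q : ℕ) := by
      have h4 : ((rk p.1 * Fintype.card (Root e) + (E p : ℕ) : ℕ) : ℤ) =
        ((rk q.1 * Fintype.card (Root e) + (E q : ℕ) : ℕ) : ℤ) := by
        push_cast
        linarith
      exact_mod_cast h4
    have h5 : (rk p.1 * Fintype.card (Root e) + (E p : ℕ)) % Fintype.card (Root e) = (E p : ℕ) := by
      rw [Nat.mul_comm, Nat.mul_add_mod, Nat.mod_eq_of_lt h2]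
    have h6 : (rk q.1 * Fintype.card (Root e) + (E q : ℕ)) % Fintype.card (Root e) = (E q : ℕ) := by
      rw [Nat.mul_comm, Nat.mul_add_mod, Nat.mod_eq_of_lt h1]
    rw [h3, h6] at h5
    exact (E.injective (Fin.ext h5)).symm

omit [DecidableEq V] [Fintype A] in
/-- a topological numbering -/
lemma exists_rank
    (hacyc : ∀ v, ¬ Relation.TransGen (fun i j => ∃ a, tail a = i ∧ head a = j) v v) :
    ∃ eV : V ≃ Fin (Fintype.card V), ∀ a, eV (tail a) < eV (head a) := by
  obtain ⟨rk0, h1, h2⟩ := exists_topo _ hacyc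
  obtain ⟨E, hE⟩ := exists_sorted (fun v => (rk0 v : ℤ))
    (fun a b hab => h1 (by simpa using hab))
  refine ⟨E.symm, ?_⟩
  intro a
  rw [← hE.lt_iff_lt]
  simp only [Equiv.apply_symm_apply]
  exact_mod_cast h2 _ _ ⟨a, rfl, rfl⟩

/-- Positivity for quivers without oriented cycles and without multiple arrows. -/
theorem positivity_general (hinj : Function.Injective fun a => (tail a, head a))
    (hacyc : ∀ v, ¬ Relation.TransGen (fun i j => ∃ a, tail a = i ∧ head a = j) v v)
    (e : V → ℕ) (φ : Rep tail head e) :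
    HasKPolynomial (coordWeight tail head e) (orbitIdeal tail head e φ) ∧
    ∃ (r : V → ℕ) (f : ((i : V) → Fin (r i) → ℤ) →₀ ℤ),
      PartitionPositive f ∧ orbitClass tail head e φ = DeltaOp tail head e f := by
  classical
  obtain ⟨eV, heV⟩ := exists_rank hacyc
  let rk : V → ℕ := fun v => (eV v : ℕ)
  have hrk : Function.Injective rk := fun a b hab => eV.injective (Fin.ext hab)
  have hn : ∀ v, rk v < Fintype.card V := fun v => (eV v).2
  have harr : ∀ i j, garr tail head rk i j → i < j := by
    rintro i j ⟨a, rfl, rfl⟩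
    exact heV a
  obtain ⟨ℓ, l0, l1, l2⟩ := exists_ell (e := e) rk
  have hpos : PosL ℓ (coordWeight tail head e) := by
    intro x
    rw [coordWeight, map_sub]
    have := l1 (rw' tail head e x) (cl' tail head e x) (heV x.1)
    simp only [rw', cl'] at this
    omega
  set I := orbitIdeal tail head e φ with hI
  have hIh : IsHomog (coordWeight tail head e) I := orbit_homog tail head e φ
  have hne : I ≠ ⊤ := orbit_ne_top tail head e φ
  obtain ⟨m1, m2, m3⟩ := multidegree_eq hpos hIh hne
  refine ⟨⟨?_, m1, m2⟩, ?_⟩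
  · intro μ
    have h1 := finite_whs (k := ℂ) hpos.posW μ
    have h2 : Module.Finite ℂ (weightedHomogeneousSubmodule ℂ (coordWeight tail head e) μ) := h1
    unfold weightPart
    infer_instance
  set E := e3 (e := e) hrk hinj hn with hE
  obtain ⟨a1, a2, a3, a4⟩ := rename_compare hpos E.symm hIh hne
  set J := I.comap (rename E.symm : MvPolynomial (GS (PC tail head e rk (Fintype.card V))) ℂ →ₐ[ℂ]
    MvPolynomial (Coord tail head e) ℂ) with hJ
  have hw : coordWeight tail head e ∘ E.symm = gW (PC tail head e rk (Fintype.card V)) := by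
    ext1 y
    obtain ⟨x, rfl⟩ := E.surjective y
    rw [Function.comp_apply, Equiv.symm_apply_apply, gW, hE, e3_val]
    rfl
  rw [hw] at a1
  obtain ⟨l, c1, c2⟩ := glue (v := fun y : Root e => rk y.1) harr (ord J) l0 l1 l2
    (Fintype.card V) Empty noFr J a1 a2 (by
      intro y y' hyy hv
      refine stab_comap ?_ (orbit_stab tail head e φ y y' hyy (hrk hv))
      intro z
      obtain ⟨x, rfl⟩ := E.surjective z
      rw [rename_X, Equiv.symm_apply_apply]
      exact glD_e3 hrk hinj hn (hrk hv) x) le_rfl
  obtain ⟨f, f1, f2, f3⟩ := list_finsupp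
    (l.map fun z => ((fun i s => ((z (rk i) s : ℕ) : ℤ)) :
      (i : V) → Fin (vc (fun y : Root e => rk y.1) (rk i) + ord J) → ℤ))
    (fun lam => ∏ i, Delta (KSer tail head e i) (lam i))
  refine ⟨fun i => vc (fun y : Root e => rk y.1) (rk i) + ord J, f, ⟨f1, ?_⟩, ?_⟩
  · intro lam hlam i
    have h1 := f2 lam hlam
    rw [List.mem_map] at h1
    obtain ⟨z, hz, rfl⟩ := h1
    intro s t hst
    have h2 := c1 z hz (rk i) hst
    simp only
    exact_mod_cast h2
  · rw [DeltaOp, f3, orbitClass, m3]
    apply evC_ext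
    intro ξ
    rw [cls_map]
    have h1 : (fun i => evC ξ (linForm (coordWeight tail head e i))) =
        fun i => Lpt ξ (coordWeight tail head e i) := by
      ext1 i
      exact evC_linForm ξ _
    rw [h1, a4 ℂ (Lpt ξ)]
    have h2 : (fun i => Lpt ξ (coordWeight tail head e (E.symm i))) =
        fun i => Lpt ξ (gW (PC tail head e rk (Fintype.card V)) i) := by
      ext1 i
      have := congrFun hw i
      rw [Function.comp_apply] at this
      rw [this]
    rw [h2]
    refine (c2 (Lpt ξ)).trans ?_
    rw [map_list_sum, List.map_map, List.map_map]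
    congr 1
    apply List.map_congr_left
    intro z _
    simp only [Function.comp_apply]
    rw [map_prod, Finset.prod_range, ← Equiv.prod_comp eV]
    apply Finset.prod_congr rfl
    intro i _
    rw [Delta_eq_dl, dl_map, map_KSer ξ hrk i]

/-- Dynkin quivers have no oriented cycles and no multiple arrows. -/
lemma dynkin_good {V A : Type} {tail head : A → V} (h : IsDynkin tail head) :
    (Function.Injective fun a => (tail a, head a)) ∧
    ∀ v, ¬ Relation.TransGen (fun i j => ∃ a, tail a = i ∧ head a = j) v v := by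
  obtain ⟨n, b, ν, hb, h1, h2⟩ := h
  constructor
  · intro a a' haa
    simp only [Prod.mk.injEq] at haa
    obtain ⟨c, _, hc⟩ := h2 (tail a) (head a) (h1 a)
    rw [hc a (Or.inl ⟨rfl, rfl⟩), hc a' (Or.inl ⟨haa.1.symm, haa.2.symm⟩)]
  · have hG : (treeGraph n b).IsAcyclic := by
      by_cases hn : n = 1
      · subst hn
        intro v c hc
        have h3 := hc.not_nil
        have h4 := c.adj_snd h3
        exact h4.ne (Subsingleton.elim _ _)
      · have : b + 1 < n := by omega
        exact branchGraph_acyclic n b this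
    intro v hv
    apply forest_acyclic (treeGraph n b) hG
      (fun p q => ∃ a, ν (tail a) = p ∧ ν (head a) = q) ?_ ?_ (ν v)
    · refine Relation.TransGen.lift (p := fun p q => ∃ a, ν (tail a) = p ∧ ν (head a) = q) ν ?_ v v hv
      rintro i j ⟨a, ha1, ha2⟩
      exact ⟨a, by rw [ha1], by rw [ha2]⟩
    · rintro p q ⟨a, rfl, rfl⟩
      exact h1 a
    · rintro p q ⟨a, rfl, rfl⟩ ⟨a', h3, h4⟩
      have h5 := ν.injective h3
      have h6 := ν.injective h4
      obtain ⟨c, _, hc⟩ := h2 (tail a) (head a) (h1 a)
      have h7 := hc a (Or.inl ⟨rfl, rfl⟩)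
      have h8 := hc a' (Or.inr ⟨h5, h6⟩)
      have h9 : a = a' := by rw [h7, h8]
      rw [← h9] at h5
      have h10 := h1 a
      rw [h5] at h10
      exact (treeGraph n b).loopless.irrefl _ h10

end Final

end

end Pool.Agent.Helper38
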