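import Mathlib
import Pool.Agent.Helper23.JT

open MvPolynomial Module

namespace Pool.Agent.Helper38

noncomputable section

section TOp

variable {R : Type} [CommRing R] {e : ℕ}

/-- staircase -/
def stc (e : ℕ) (j : Fin e) : ℤ := (e : ℤ) - 1 - (j : ℤ)

/-- staircase as natural numbers -/
def stn (e : ℕ) (j : Fin e) : ℕ := e - 1 - (j : ℕ)

lemma stn_cast (j : Fin e) : ((stn e j : ℕ) : ℤ) = stc e j := by
  have := j.2
  simp only [stn, stc]
  omega

/-- determinant with a sequence for each row -/
def DD (c : Fin e → ℤ → R) (d : Fin e → ℕ) : R :=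
  (Matrix.of fun i j : Fin e => c i ((d i : ℤ) - stc e j)).det

/-- linear functional sending the monomial with exponent `d` to `DD c d` -/
def Psi (c : Fin e → ℤ → R) : MvPolynomial (Fin e) R →ₗ[R] R :=
  (MvPolynomial.basisMonomials (Fin e) R).constr R (fun d => DD c d)

lemma Psi_monomial (c : Fin e → ℤ → R) (d : Fin e →₀ ℕ) (a : R) :
    Psi c (monomial d a) = a * DD c d := by
  have h1 : monomial d a = a • (MvPolynomial.basisMonomials (Fin e) R) d := by
    rw [MvPolynomial.coe_basisMonomials]
    simp [smul_monomial]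
  rw [h1, map_smul, Psi, Basis.constr_basis, smul_eq_mul]

lemma Psi_map {R' : Type} [CommRing R'] (φ : R →+* R') (c : Fin e → ℤ → R)
    (g : MvPolynomial (Fin e) R) :
    φ (Psi c g) = Psi (fun i n => φ (c i n)) (MvPolynomial.map φ g) := by
  induction g using MvPolynomial.induction_on' with
  | monomial d a =>
    rw [Psi_monomial, map_monomial, Psi_monomial, map_mul, DD, DD, RingHom.map_det]
    rfl
  | add p q hp hq => rw [map_add, map_add, map_add, map_add, hp, hq]

/-- shifted sequence -/
def shq (z : R) (c : ℤ → R) : ℤ → R := fun n => c (n + 1) - z * c n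

lemma DD_update (c : Fin e → ℤ → R) (s : Fin e) (z : R) (d : Fin e →₀ ℕ) :
    DD (Function.update c s (shq z (c s))) d = DD c (d + Finsupp.single s 1 : Fin e →₀ ℕ) -
      z * DD c d := by
  classical
  set M : Matrix (Fin e) (Fin e) R := Matrix.of fun i j : Fin e => c i ((d i : ℤ) - stc e j)
    with hM
  set u : Fin e → R := fun j => c s ((d s : ℤ) + 1 - stc e j) with hu
  have h1 : DD c (d + Finsupp.single s 1 : Fin e →₀ ℕ) = (M.updateRow s u).det := by
    rw [DD]
    congr 1
    ext i j
    rw [Matrix.updateRow_apply]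
    simp only [Matrix.of_apply, Finsupp.add_apply]
    by_cases h : i = s
    · subst h
      rw [if_pos rfl, Finsupp.single_eq_same, hu]
      push_cast
      rfl
    · rw [if_neg h, Finsupp.single_eq_of_ne h, add_zero, hM]
      rfl
  have h2 : DD (Function.update c s (shq z (c s))) d = (M.updateRow s (u + (-z) • M s)).det := by
    rw [DD]
    congr 1
    ext i j
    rw [Matrix.updateRow_apply]
    simp only [Matrix.of_apply]
    by_cases h : i = s
    · subst h
      rw [if_pos rfl, Function.update_self]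
      simp only [shq, Pi.add_apply, Pi.smul_apply, smul_eq_mul, hu, hM, Matrix.of_apply]
      have : (d i : ℤ) - stc e j + 1 = (d i : ℤ) + 1 - stc e j := by ring
      rw [this]
      ring
    · rw [if_neg h, Function.update_of_ne h, hM]
      rfl
  rw [h1, h2, Matrix.det_updateRow_add, Matrix.det_updateRow_smul, Matrix.updateRow_eq_self]
  rw [DD, ← hM]
  ring

lemma Psi_mul_one (c : Fin e → ℤ → R) (s : Fin e) (z : R) (g : MvPolynomial (Fin e) R) :
    Psi c (g * (X s - C z)) = Psi (Function.update c s (shq z (c s))) g := by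
  induction g using MvPolynomial.induction_on' with
  | monomial d a =>
    have h1 : monomial d a * (X s - C z) = monomial (d + Finsupp.single s 1) a -
        monomial d (a * z) := by
      rw [mul_sub]
      congr 1
      · rw [X, monomial_mul, mul_one]
      · rw [mul_comm, C_mul_monomial, mul_comm]
    rw [h1, map_sub, Psi_monomial, Psi_monomial, Psi_monomial, DD_update]
    ring
  | add p q hp hq => rw [add_mul, map_add, map_add, hp, hq]

lemma Psi_mul_prod (c : Fin e → ℤ → R) (z : R) (S : Finset (Fin e))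
    (g : MvPolynomial (Fin e) R) :
    Psi c (g * ∏ s ∈ S, (X s - C z)) = Psi (fun s => if s ∈ S then shq z (c s) else c s) g := by
  classical
  induction S using Finset.induction_on generalizing g with
  | empty => simp
  | insert a S ha ih =>
    rw [Finset.prod_insert ha, ← mul_assoc, ih, Psi_mul_one]
    congr 2
    ext1 s
    by_cases h : s = a
    · subst h
      rw [Function.update_self, if_neg ha, if_pos (Finset.mem_insert_self _ _)]
    · rw [Function.update_of_ne h]
      simp [h]

lemma cz_mul (z : R) (S : PowerSeries R) (n : ℤ) :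
    cz ((1 - PowerSeries.C z * PowerSeries.X) * S) n = cz S n - z * cz S (n - 1) := by
  rcases lt_or_ge n 0 with hn | hn
  · rw [cz_neg _ hn, cz_neg _ hn, cz_neg _ (by omega)]
    simp
  · obtain ⟨n', rfl⟩ : ∃ n' : ℕ, n = n' := ⟨n.toNat, by omega⟩
    have e1 : ∀ (d : PowerSeries R) (k : ℕ), cz d (k : ℤ) = PowerSeries.coeff k d := by
      intro d k
      unfold cz
      rw [if_pos (by omega), Int.toNat_natCast]
    rw [e1, e1, sub_mul, one_mul, map_sub, mul_assoc, PowerSeries.coeff_C_mul]
    rcases n' with _ | n'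
    · rw [cz_neg _ (by simp)]
      simp
    · have e2 : ((n' + 1 : ℕ) : ℤ) - 1 = (n' : ℤ) := by push_cast; ring
      rw [e2, e1, PowerSeries.coeff_succ_X_mul]

lemma Psi_prod (N : ℕ) (z : Fin N → R) (S : PowerSeries R) (g : MvPolynomial (Fin e) R) :
    Psi (fun _ n => cz S (n - N)) (g * ∏ c : Fin N, ∏ s, (X s - C (z c))) =
      Psi (fun _ => cz ((∏ c, (1 - PowerSeries.C (z c) * PowerSeries.X)) * S)) g := by
  induction N generalizing S g with
  | zero => simp
  | succ N ih =>
    rw [Fin.prod_univ_succ, mul_comm (∏ s, (X s - C (z 0))), ← mul_assoc, Psi_mul_prod]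
    simp only [Finset.mem_univ, if_true]
    have h1 : (fun (_ : Fin e) => shq (z 0) (fun n : ℤ => cz S (n - ((N + 1 : ℕ) : ℤ)))) =
        fun _ n => cz ((1 - PowerSeries.C (z 0) * PowerSeries.X) * S) (n - N) := by
      ext1 s
      ext1 n
      rw [cz_mul, shq]
      have a1 : n + 1 - ((N + 1 : ℕ) : ℤ) = n - N := by push_cast; ring
      have a2 : n - ((N + 1 : ℕ) : ℤ) = n - N - 1 := by push_cast; ring
      rw [a1, a2]
    rw [h1, ih (fun c => z c.succ)]
    congr 2
    ext1 _
    congr 1
    rw [Fin.prod_univ_succ]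
    ring

/-- only low coefficients matter -/
lemma DD_trunc (S S' : PowerSeries R) (d : Fin e → ℕ) (M : ℕ)
    (hd : ∑ i, (d i : ℤ) ≤ M + ∑ j, stc e j)
    (h : ∀ k ≤ M, PowerSeries.coeff k S = PowerSeries.coeff k S') :
    DD (fun _ => cz S) d = DD (fun _ => cz S') d := by
  unfold DD
  rw [← Matrix.det_transpose, ← Matrix.det_transpose (Matrix.of fun i j : Fin e =>
    cz S' ((d i : ℤ) - stc e j)), Matrix.det_apply, Matrix.det_apply]
  apply Finset.sum_congr rfl
  intro σ _
  congr 1
  simp only [Matrix.transpose_apply, Matrix.of_apply]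
  by_cases hneg : ∃ i : Fin e, (d i : ℤ) - stc e (σ i) < 0
  · obtain ⟨i, hi⟩ := hneg
    rw [Finset.prod_eq_zero (Finset.mem_univ i) (cz_neg S hi),
      Finset.prod_eq_zero (Finset.mem_univ i) (cz_neg S' hi)]
  · push Not at hneg
    apply Finset.prod_congr rfl
    intro i _
    have hsum : ∑ j : Fin e, ((d j : ℤ) - stc e (σ j)) = ∑ j, (d j : ℤ) - ∑ j, stc e j := by
      rw [Finset.sum_sub_distrib, Equiv.sum_comp σ (fun j : Fin e => stc e j)]
    have hle : (d i : ℤ) - stc e (σ i) ≤ M := by
      have h1 : (d i : ℤ) - stc e (σ i) ≤ ∑ j : Fin e, ((d j : ℤ) - stc e (σ j)) :=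
        Finset.single_le_sum (f := fun j : Fin e => ((d j : ℤ) - stc e (σ j)))
          (fun j _ => hneg j) (Finset.mem_univ i)
      rw [hsum] at h1
      omega
    unfold cz
    rw [if_pos (hneg i), if_pos (hneg i)]
    apply h
    omega

lemma Psi_congr_support (c c' : Fin e → ℤ → R) (g : MvPolynomial (Fin e) R)
    (h : ∀ d : Fin e →₀ ℕ, coeff d g ≠ 0 → DD c d = DD c' d) : Psi c g = Psi c' g := by
  rw [g.as_sum, map_sum, map_sum]
  apply Finset.sum_congr rfl
  intro d hd
  rw [Psi_monomial, Psi_monomial, h d (mem_support_iff.1 hd)]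

lemma Psi_eq_sum (c : Fin e → ℤ → R) (g : MvPolynomial (Fin e) R) :
    Psi c g = ∑ d ∈ g.support, coeff d g * DD c d := by
  conv_lhs => rw [g.as_sum, map_sum]
  apply Finset.sum_congr rfl
  intro d _
  rw [Psi_monomial]

/-- alternants -/
def alt (R : Type) [CommRing R] (d : Fin e → ℕ) : MvPolynomial (Fin e) R :=
  (Matrix.of fun i j : Fin e => (X j : MvPolynomial (Fin e) R) ^ d i).det

lemma alt_eq (d : Fin e → ℕ) : alt R d =
    ∑ w : Equiv.Perm (Fin e), ((Equiv.Perm.sign w : ℤ) : MvPolynomial (Fin e) R) *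
      ∏ i, X (w i) ^ d i := by
  rw [alt, ← Matrix.det_transpose, Matrix.det_apply']
  rfl

lemma mono_eq (d : Fin e →₀ ℕ) (r : R) :
    (monomial d r : MvPolynomial (Fin e) R) = C r * ∏ i, X i ^ d i := by
  rw [monomial_eq, Finsupp.prod_fintype]
  intro i; simp

lemma DD_perm (c : ℤ → R) (d : Fin e → ℕ) (w : Equiv.Perm (Fin e)) :
    DD (fun _ => c) (fun i => d (w i)) = ((Equiv.Perm.sign w : ℤ) : R) * DD (fun _ => c) d := by
  unfold DD
  rw [← Matrix.det_permute]
  rfl

lemma Psi_alt (c : ℤ → R) (d : Fin e → ℕ) :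
    Psi (fun _ => c) (alt R d) = (e.factorial : R) * DD (fun _ => c) d := by
  classical
  rw [alt_eq, map_sum]
  have h1 : ∀ w : Equiv.Perm (Fin e), Psi (fun _ => c)
      (((Equiv.Perm.sign w : ℤ) : MvPolynomial (Fin e) R) * ∏ i, X (w i) ^ d i) =
      DD (fun _ => c) d := by
    intro w
    have h2 : (((Equiv.Perm.sign w : ℤ) : MvPolynomial (Fin e) R) * ∏ i, X (w i) ^ d i) =
        monomial (Finsupp.equivFunOnFinite.symm fun i => d (w.symm i))
          ((Equiv.Perm.sign w : ℤ) : R) := by
      rw [mono_eq]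
      have h0 : (C ((Equiv.Perm.sign w : ℤ) : R) : MvPolynomial (Fin e) R) =
          ((Equiv.Perm.sign w : ℤ) : MvPolynomial (Fin e) R) := by simp
      rw [h0]
      congr 1
      rw [← Equiv.prod_comp w (fun i => (X i : MvPolynomial (Fin e) R) ^
          (Finsupp.equivFunOnFinite.symm fun i => d (w.symm i)) i)]
      apply Finset.prod_congr rfl
      intro i _
      simp
    rw [h2, Psi_monomial]
    have h3 := DD_perm c d w.symm
    have h4 : DD (fun _ => c) (Finsupp.equivFunOnFinite.symm fun i => d (w.symm i) : Fin e →₀ ℕ) =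
        DD (fun _ => c) (fun i => d (w.symm i)) := rfl
    rw [h4, h3, Equiv.Perm.sign_symm, ← mul_assoc]
    have h5 : ((Equiv.Perm.sign w : ℤ) : R) * ((Equiv.Perm.sign w : ℤ) : R) = 1 := by
      rw [← Int.cast_mul, ← Units.val_mul, Int.units_mul_self]
      simp
    rw [h5, one_mul]
  rw [Finset.sum_congr rfl (fun w _ => h1 w), Finset.sum_const, Finset.card_univ,
    Fintype.card_perm, Fintype.card_fin, nsmul_eq_mul]

lemma rename_alt (d : Fin e → ℕ) (w : Equiv.Perm (Fin e)) :
    rename w (alt R d) = ((Equiv.Perm.sign w : ℤ) : MvPolynomial (Fin e) R) * alt R d := by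
  rw [alt, ← Matrix.det_permute']
  have : (rename w : MvPolynomial (Fin e) R →ₐ[R] _) (Matrix.det (Matrix.of fun i j : Fin e =>
    (X j : MvPolynomial (Fin e) R) ^ d i)) = (Matrix.det (((rename w : MvPolynomial (Fin e) R →ₐ[R]
      MvPolynomial (Fin e) R)).mapMatrix (Matrix.of fun i j : Fin e =>
    (X j : MvPolynomial (Fin e) R) ^ d i))) := AlgHom.map_det _ _
  rw [this]
  congr 1
  ext i j
  simp

/-- antisymmetrisation -/
lemma antisym (g : MvPolynomial (Fin e) R) :
    ∑ w : Equiv.Perm (Fin e), ((Equiv.Perm.sign w : ℤ) : MvPolynomial (Fin e) R) * rename w g =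
      ∑ d ∈ g.support, C (coeff d g) * alt R d := by
  classical
  conv_lhs => rw [g.as_sum]
  simp only [map_sum, Finset.mul_sum]
  rw [Finset.sum_comm]
  apply Finset.sum_congr rfl
  intro d _
  rw [alt_eq, Finset.mul_sum]
  apply Finset.sum_congr rfl
  intro w _
  rw [mono_eq, map_mul, rename_C, map_prod]
  simp only [map_pow, rename_X]
  ring

lemma ser_erase (x : Fin e → R) (j : Fin e) :
    (PowerSeries.mk fun n => x j ^ n) = ser x (fun l : Empty => l.elim) *
      ∏ i ∈ Finset.univ.erase j, (1 - PowerSeries.C (x i) * PowerSeries.X) := by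
  classical
  unfold ser
  simp only [Finset.univ_eq_empty, Finset.prod_empty, one_mul]
  rw [← Finset.mul_prod_erase Finset.univ (fun a => (PowerSeries.mk fun n => x a ^ n :
    PowerSeries R)) (Finset.mem_univ j), mul_assoc, ← Finset.prod_mul_distrib]
  rw [Finset.prod_eq_one, mul_one]
  intro i _
  rw [mul_comm]
  exact one_sub_mul_mk (x i)

lemma coeff_erase (x : Fin e → R) (j : Fin e) (b : ℕ) (hb : e ≤ b) :
    PowerSeries.coeff b (∏ i ∈ Finset.univ.erase j,
      (1 - PowerSeries.C (x i) * PowerSeries.X) : PowerSeries R) = 0 := by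
  classical
  have h : (∏ i ∈ Finset.univ.erase j, (1 - PowerSeries.C (x i) * PowerSeries.X) :
      PowerSeries R) = ((∏ i ∈ Finset.univ.erase j,
      (1 - Polynomial.C (x i) * Polynomial.X) : Polynomial R) : PowerSeries R) := by
    have h0 := map_prod (Polynomial.coeToPowerSeries.ringHom (R := R))
      (fun i => (1 - Polynomial.C (x i) * Polynomial.X : Polynomial R)) (Finset.univ.erase j)
    simp only [Polynomial.coeToPowerSeries.ringHom_apply] at h0
    rw [h0]
    apply Finset.prod_congr rfl
    intro i _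
    simp
  rw [h, Polynomial.coeff_coe]
  apply Polynomial.coeff_eq_zero_of_natDegree_lt
  refine lt_of_le_of_lt (Polynomial.natDegree_prod_le _ _) ?_
  have h1 : ∑ i ∈ Finset.univ.erase j, (1 - Polynomial.C (x i) * Polynomial.X).natDegree ≤
      ∑ i ∈ Finset.univ.erase j, 1 := by
    apply Finset.sum_le_sum
    intro i _
    refine (Polynomial.natDegree_sub_le _ _).trans ?_
    simp only [Polynomial.natDegree_one, zero_le, sup_of_le_right]
    refine (Polynomial.natDegree_C_mul_le _ _).trans ?_
    exact Polynomial.natDegree_X_le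
  refine lt_of_le_of_lt h1 ?_
  rw [Finset.sum_const, smul_eq_mul, mul_one, Finset.card_erase_of_mem (Finset.mem_univ j),
    Finset.card_univ, Fintype.card_fin]
  have := j.2
  omega

lemma coeff_mul_cz (H E : PowerSeries R) (hE : ∀ b, e ≤ b → PowerSeries.coeff b E = 0) (m : ℕ) :
    PowerSeries.coeff m (H * E) =
      ∑ b ∈ Finset.range e, cz H ((m : ℤ) - b) * PowerSeries.coeff b E := by
  rw [mul_comm, PowerSeries.coeff_mul, Finset.Nat.sum_antidiagonal_eq_sum_range_succ_mk]
  have h2 : ∑ b ∈ Finset.range (m + 1), cz H ((m : ℤ) - b) * PowerSeries.coeff b E =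
      ∑ k ∈ Finset.range m.succ, PowerSeries.coeff k E * PowerSeries.coeff (m - k) H := by
    apply Finset.sum_congr rfl
    intro j hj
    rw [Finset.mem_range] at hj
    unfold cz
    rw [if_pos (by omega)]
    have h3 : ((m : ℤ) - (j : ℤ)).toNat = m - j := by omega
    rw [h3, mul_comm]
  rw [← h2]
  have h4 : ∀ a b : ℕ, a ≤ b → (∀ j, a ≤ j → cz H ((m : ℤ) - j) * PowerSeries.coeff j E = 0) →
      ∑ j ∈ Finset.range a, cz H ((m : ℤ) - j) * PowerSeries.coeff j E =
      ∑ j ∈ Finset.range b, cz H ((m : ℤ) - j) * PowerSeries.coeff j E := by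
    intro a b hab h
    apply Finset.sum_subset (Finset.range_mono hab)
    intro j _ hj
    rw [Finset.mem_range, not_lt] at hj
    exact h j hj
  rw [h4 (m + 1) (max (m + 1) e) (le_max_left _ _) (by
    intro j hj
    rw [cz_neg _ (by omega), zero_mul]), h4 e (max (m + 1) e) (le_max_right _ _) (by
    intro j hj
    rw [hE j hj, mul_zero])]

/-- the bialternant formula -/
lemma bialt (d : Fin e → ℕ) :
    alt R d = DD (fun _ => cz (ser (fun j : Fin e => (X j : MvPolynomial (Fin e) R))
      (fun l : Empty => l.elim))) d * alt R (stn e) := by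
  classical
  set H := ser (fun j : Fin e => (X j : MvPolynomial (Fin e) R)) (fun l : Empty => l.elim) with hH
  set E : Fin e → PowerSeries (MvPolynomial (Fin e) R) := fun j => ∏ i ∈ Finset.univ.erase j,
    (1 - PowerSeries.C (X i : MvPolynomial (Fin e) R) * PowerSeries.X) with hE
  set M : Matrix (Fin e) (Fin e) (MvPolynomial (Fin e) R) :=
    Matrix.of fun k j => PowerSeries.coeff (stn e k) (E j) with hM
  have key : ∀ d : Fin e → ℕ, alt R d = DD (fun _ => cz H) d * M.det := by
    intro d
    rw [alt, DD, ← Matrix.det_mul]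
    congr 1
    ext1 i j
    rw [Matrix.of_apply, Matrix.mul_apply]
    have h1 := congrArg (PowerSeries.coeff (d i)) (ser_erase (fun j : Fin e =>
      (X j : MvPolynomial (Fin e) R)) j)
    rw [PowerSeries.coeff_mk] at h1
    rw [h1, coeff_mul_cz _ _ (fun b hb => coeff_erase _ j b hb), ← Fin.sum_univ_eq_sum_range
      (fun b : ℕ => cz H ((d i : ℤ) - b) * PowerSeries.coeff b (E j)) e,
      ← Equiv.sum_comp Fin.revPerm]
    apply Finset.sum_congr rfl
    intro k _
    simp only [Fin.revPerm_apply, Fin.val_rev, Matrix.of_apply, hM]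
    have hk := k.2
    have h2 : e - ((k : ℕ) + 1) = stn e k := by
      simp only [stn]
      omega
    rw [h2, stn_cast]
  have h0 : DD (fun _ => cz H) (stn e) = 1 := by
    rw [← dl_zero H (constCoeff_ser _ _) e, DD, dl]
    congr 1
    ext1 i j
    rw [Matrix.of_apply, Matrix.of_apply, stn_cast]
    congr 1
    simp only [stc]
    push_cast
    ring
  rw [key d, key (stn e), h0, one_mul]

lemma alt_ne_zero : alt ℂ (stn e) ≠ 0 := by
  intro h
  set x : Fin e → ℂ := fun j => ((j : ℕ) : ℂ) with hx
  have h1 := congrArg (eval x) h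
  rw [map_zero, alt, RingHom.map_det] at h1
  have h2 : ((eval x).mapMatrix (Matrix.of fun i j : Fin e => (X j : MvPolynomial (Fin e) ℂ) ^
      stn e i)) = (Matrix.vandermonde x).transpose.submatrix Fin.revPerm id := by
    ext i j
    have hi := i.2
    simp only [RingHom.mapMatrix_apply, Matrix.map_apply, Matrix.of_apply, map_pow, eval_X,
      Matrix.submatrix_apply, Matrix.transpose_apply, Matrix.vandermonde_apply, id,
      Fin.revPerm_apply, Fin.val_rev, stn]
    congr 1
    omega
  rw [h2, Matrix.det_permute, Matrix.det_transpose] at h1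
  have h3 : (Matrix.vandermonde x).det ≠ 0 := by
    rw [Matrix.det_vandermonde_ne_zero_iff]
    intro i j hij
    simp only [hx, Nat.cast_inj] at hij
    exact Fin.ext hij
  rcases mul_eq_zero.1 h1 with h4 | h4
  · have h5 : ((Equiv.Perm.sign (Fin.revPerm : Equiv.Perm (Fin e)) : ℤ) : ℂ) ≠ 0 := by
      rw [Int.cast_ne_zero]
      exact Units.ne_zero _
    exact h5 h4
  · exact h3 h4

/-- evaluation of symmetric polynomials through determinants -/
lemma Psi_eval (f : MvPolynomial (Fin e) ℂ) (hf : f.IsSymmetric) (x : Fin e → ℂ) :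
    Psi (fun _ => cz (ser x (fun l : Empty => l.elim))) (f * alt ℂ (stn e)) =
      (e.factorial : ℂ) * eval x f := by
  classical
  set g := f * alt ℂ (stn e) with hg
  set H := ser (fun j : Fin e => (X j : MvPolynomial (Fin e) ℂ)) (fun l : Empty => l.elim) with hH
  have h1 : ∀ w : Equiv.Perm (Fin e), ((Equiv.Perm.sign w : ℤ) : MvPolynomial (Fin e) ℂ) *
      rename w g = g := by
    intro w
    rw [hg, map_mul, hf w, rename_alt]
    have h5 : ((Equiv.Perm.sign w : ℤ) : MvPolynomial (Fin e) ℂ) *
        ((Equiv.Perm.sign w : ℤ) : MvPolynomial (Fin e) ℂ) = 1 := by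
      rw [← Int.cast_mul, ← Units.val_mul, Int.units_mul_self]
      simp
    calc _ = (((Equiv.Perm.sign w : ℤ) : MvPolynomial (Fin e) ℂ) *
        ((Equiv.Perm.sign w : ℤ) : MvPolynomial (Fin e) ℂ)) * (f * alt ℂ (stn e)) := by ring
      _ = _ := by rw [h5, one_mul]
  have h2 := antisym g
  rw [Finset.sum_congr rfl (fun w _ => h1 w), Finset.sum_const, Finset.card_univ,
    Fintype.card_perm, Fintype.card_fin] at h2
  have h3 : ∑ d ∈ g.support, C (coeff d g) * alt ℂ d =
      (Psi (fun _ => cz H) (MvPolynomial.map C g)) * alt ℂ (stn e) := by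
    rw [Psi_eq_sum, Finset.sum_mul]
    have h6 : (MvPolynomial.map (C : ℂ →+* MvPolynomial (Fin e) ℂ) g).support = g.support :=
      support_map_of_injective _ (C_injective _ _)
    rw [h6]
    apply Finset.sum_congr rfl
    intro d _
    rw [bialt d, coeff_map]
    ring
  rw [h3, nsmul_eq_mul, hg, ← mul_assoc, ← hg] at h2
  have h4 := mul_right_cancel₀ (alt_ne_zero (e := e)) h2
  have h5 := congrArg (eval x) h4
  rw [map_mul, map_natCast, Psi_map] at h5
  rw [h5]
  congr 1
  · congr 1
    ext1 _
    ext1 n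
    rw [cz_map, hH, ser_map]
    congr 2
    · ext j; simp
    · ext l; exact l.elim
  · rw [MvPolynomial.map_map]
    have : (eval x).comp (C : ℂ →+* MvPolynomial (Fin e) ℂ) = RingHom.id ℂ := by
      ext a; simp
    rw [this, MvPolynomial.map_id]

lemma dl_eq_DD (S : PowerSeries R) (lam : Fin e → ℕ) :
    dl S lam = DD (fun _ => cz S) (fun i => lam i + stn e i) := by
  rw [dl, DD]
  congr 1
  ext1 i j
  rw [Matrix.of_apply, Matrix.of_apply]
  push_cast
  rw [stn_cast]
  congr 1
  simp only [stc]
  ring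

/-- value on a Schur polynomial -/
lemma Psi_schur (S : PowerSeries R) (N : ℕ) (lam : Fin e → ℕ) (hlam : Antitone lam) :
    Psi (fun _ n => cz S (n - N)) (dl (ser (fun j : Fin e => (X j : MvPolynomial (Fin e) R))
      (fun l : Empty => l.elim)) lam * alt R (stn e)) =
      (e.factorial : R) * (if ∀ i, N ≤ lam i then dl S (fun i => lam i - N) else 0) := by
  classical
  rw [dl_eq_DD, ← bialt, Psi_alt]
  congr 1
  split_ifs with h
  · rw [DD, dl]
    congr 1
    ext1 i j
    rw [Matrix.of_apply, Matrix.of_apply]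
    push_cast [Nat.cast_sub (h i)]
    rw [stn_cast]
    congr 1
    simp only [stc]
    ring
  · push Not at h
    obtain ⟨i, hi⟩ := h
    have hi2 := i.2
    rw [DD]
    apply Matrix.det_eq_zero_of_row_eq_zero (⟨e - 1, by omega⟩ : Fin e)
    intro j
    rw [Matrix.of_apply]
    apply cz_neg
    have h1 : lam (⟨e - 1, by omega⟩ : Fin e) ≤ lam i := by
      apply hlam
      rw [Fin.le_def]
      simp only
      omega
    have hj := j.2
    push_cast
    rw [stn_cast]
    simp only [stc]
    omega

end TOp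

end

end Pool.Agent.Helper38
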