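import Mathlib
import Pool.Agent.Helper38.KZ1

open MvPolynomial Module

namespace Pool.Agent.Helper38

noncomputable section

section Bd

variable {e : ℕ} {B : Type}

/-- bound of the degree in all variables -/
def Bd (D : ℕ) (g : MvPolynomial (Fin e) (MvPolynomial B ℂ)) : Prop :=
  ∀ d : Fin e →₀ ℕ, coeff d g ≠ 0 → (coeff d g).totalDegree + ∑ i, d i ≤ D

lemma Bd.mono {D D' : ℕ} {g : MvPolynomial (Fin e) (MvPolynomial B ℂ)} (h : Bd D g)
    (hD : D ≤ D') : Bd D' g := fun d hd => (h d hd).trans hD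

lemma bd_zero (D : ℕ) : Bd D (0 : MvPolynomial (Fin e) (MvPolynomial B ℂ)) := by
  intro d hd
  simp at hd

lemma Bd.add {D : ℕ} {g h : MvPolynomial (Fin e) (MvPolynomial B ℂ)} (hg : Bd D g)
    (hh : Bd D h) : Bd D (g + h) := by
  intro d hd
  rw [coeff_add] at hd ⊢
  by_cases h1 : coeff d g = 0
  · rw [h1, zero_add] at hd ⊢
    exact hh d hd
  · by_cases h2 : coeff d h = 0
    · rw [h2, add_zero] at hd ⊢
      exact hg d hd
    · have a1 := hg d h1
      have a2 := hh d h2
      have a3 := totalDegree_add (coeff d g) (coeff d h)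
      have a4 := a3.trans (max_le (le_max_left _ (coeff d h).totalDegree) (le_max_right _ _))
      rcases le_total (coeff d g).totalDegree (coeff d h).totalDegree with h5 | h5
      · rw [max_eq_right h5] at a4
        omega
      · rw [max_eq_left h5] at a4
        omega

lemma bd_sum {ι : Type} (s : Finset ι) {D : ℕ} {g : ι → MvPolynomial (Fin e) (MvPolynomial B ℂ)}
    (h : ∀ i ∈ s, Bd D (g i)) : Bd D (∑ i ∈ s, g i) := by
  classical
  induction s using Finset.induction_on with
  | empty => simpa using bd_zero D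
  | insert a s ha ih =>
    rw [Finset.sum_insert ha]
    exact (h a (Finset.mem_insert_self _ _)).add
      (ih (fun i hi => h i (Finset.mem_insert_of_mem hi)))

lemma bd_msum (s : Multiset (MvPolynomial (Fin e) (MvPolynomial B ℂ))) {D : ℕ}
    (h : ∀ g ∈ s, Bd D g) : Bd D s.sum := by
  induction s using Multiset.induction_on with
  | empty => simpa using bd_zero D
  | cons a s ih =>
    rw [Multiset.sum_cons]
    exact (h a (Multiset.mem_cons_self _ _)).add
      (ih (fun i hi => h i (Multiset.mem_cons_of_mem hi)))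

lemma Bd.mul {D D' : ℕ} {g h : MvPolynomial (Fin e) (MvPolynomial B ℂ)} (hg : Bd D g)
    (hh : Bd D' h) : Bd (D + D') (g * h) := by
  classical
  intro d hd
  rw [coeff_mul] at hd ⊢
  have key : ∀ x ∈ Finset.HasAntidiagonal.antidiagonal d, coeff x.1 g * coeff x.2 h ≠ 0 →
      (coeff x.1 g * coeff x.2 h).totalDegree + ∑ i, d i ≤ D + D' := by
    intro x hx hne
    rw [Finset.HasAntidiagonal.mem_antidiagonal] at hx
    have h1 := hg x.1 (left_ne_zero_of_mul hne)
    have h2 := hh x.2 (right_ne_zero_of_mul hne)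
    have h3 := totalDegree_mul (coeff x.1 g) (coeff x.2 h)
    have h4 : ∑ i, d i = ∑ i, x.1 i + ∑ i, x.2 i := by
      rw [← hx, ← Finset.sum_add_distrib]
      rfl
    omega
  obtain ⟨x, hx, hne⟩ := Finset.exists_ne_zero_of_sum_ne_zero hd
  have h0 := key x hx hne
  have h5 : (∑ x ∈ Finset.HasAntidiagonal.antidiagonal d, coeff x.1 g * coeff x.2 h).totalDegree ≤
      D + D' - ∑ i, d i := by
    refine (totalDegree_finsetSum _ _).trans ?_
    apply Finset.sup_le
    intro y hy
    by_cases hy0 : coeff y.1 g * coeff y.2 h = 0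
    · rw [hy0, totalDegree_zero]
      exact Nat.zero_le _
    · have := key y hy hy0
      omega
  omega

lemma bd_C (z : MvPolynomial B ℂ) : Bd z.totalDegree (C z : MvPolynomial (Fin e) _) := by
  classical
  intro d hd
  rw [coeff_C] at hd ⊢
  split_ifs at hd ⊢ with h
  · rw [← h]
    simp
  · exact absurd rfl hd

lemma bd_one : Bd 0 (1 : MvPolynomial (Fin e) (MvPolynomial B ℂ)) := by
  have := bd_C (e := e) (B := B) 1
  rw [totalDegree_one] at this
  simpa using this

lemma bd_X (s : Fin e) : Bd 1 (X s : MvPolynomial (Fin e) (MvPolynomial B ℂ)) := by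
  classical
  intro d hd
  rw [coeff_X] at hd ⊢
  split_ifs at hd ⊢ with h
  · rw [← h, totalDegree_one, Finset.sum_eq_single s]
    · simp
    · intro b _ hb
      rw [Finsupp.single_eq_of_ne hb]
    · simp
  · exact absurd rfl hd

lemma bd_prod {ι : Type} (s : Finset ι) {D : ι → ℕ}
    {g : ι → MvPolynomial (Fin e) (MvPolynomial B ℂ)}
    (h : ∀ i ∈ s, Bd (D i) (g i)) : Bd (∑ i ∈ s, D i) (∏ i ∈ s, g i) := by
  classical
  induction s using Finset.induction_on with
  | empty => simpa using bd_one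
  | insert a s ha ih =>
    rw [Finset.prod_insert ha, Finset.sum_insert ha]
    exact (h a (Finset.mem_insert_self _ _)).mul
      (ih (fun i hi => h i (Finset.mem_insert_of_mem hi)))

lemma bd_pow {D : ℕ} {g : MvPolynomial (Fin e) (MvPolynomial B ℂ)} (h : Bd D g) (n : ℕ) :
    Bd (n * D) (g ^ n) := by
  induction n with
  | zero => simpa using bd_one
  | succ n ih =>
    rw [pow_succ, Nat.add_mul, one_mul]
    exact ih.mul h

lemma bd_alt (d : Fin e → ℕ) : Bd (∑ i, d i) (alt (MvPolynomial B ℂ) d) := by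
  rw [alt_eq]
  apply bd_sum
  intro w _
  have h1 : (((Equiv.Perm.sign w : ℤ) : MvPolynomial (Fin e) (MvPolynomial B ℂ))) =
      C (C (((Equiv.Perm.sign w : ℤ) : ℂ))) := by simp
  have h2 := bd_C (e := e) (C (((Equiv.Perm.sign w : ℤ) : ℂ)) : MvPolynomial B ℂ)
  rw [totalDegree_C] at h2
  rw [h1]
  have h3 : Bd (∑ i, d i) (∏ i, (X (w i) : MvPolynomial (Fin e) (MvPolynomial B ℂ)) ^ d i) := by
    apply bd_prod
    intro i _
    have := bd_pow (bd_X (B := B) (w i)) (d i)
    rwa [mul_one] at this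
  have h4 := h2.mul h3
  rwa [zero_add] at h4

lemma DD_ne_zero {c0 : ℤ → ℂ} {N : ℕ} (hc : ∀ n : ℤ, n < N → c0 n = 0) {d : Fin e → ℕ}
    (h : DD (fun _ => c0) d ≠ 0) : e * N + ∑ i, stn e i ≤ ∑ i, d i := by
  rw [DD, ← Matrix.det_transpose, Matrix.det_apply] at h
  obtain ⟨σ, _, hσ⟩ := Finset.exists_ne_zero_of_sum_ne_zero h
  have h1 : ∀ i : Fin e, (N : ℤ) + stc e (σ i) ≤ d i := by
    intro i
    by_contra hcon
    push Not at hcon
    apply hσ
    rw [Finset.prod_eq_zero (Finset.mem_univ i), smul_zero]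
    rw [Matrix.transpose_apply, Matrix.of_apply]
    apply hc
    omega
  have h2 : ∑ i : Fin e, ((N : ℤ) + stc e (σ i)) ≤ ∑ i : Fin e, (d i : ℤ) :=
    Finset.sum_le_sum (fun i _ => h1 i)
  rw [Finset.sum_add_distrib, Finset.sum_const, Finset.card_univ, Fintype.card_fin,
    nsmul_eq_mul, Equiv.sum_comp σ (fun j : Fin e => stc e j)] at h2
  have h3 : ∑ i : Fin e, stc e i = ((∑ i, stn e i : ℕ) : ℤ) := by
    rw [Nat.cast_sum]
    apply Finset.sum_congr rfl
    intro i _
    rw [stn_cast]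
  have h4 : ∑ i : Fin e, (d i : ℤ) = ((∑ i, d i : ℕ) : ℤ) := by
    rw [Nat.cast_sum]
  rw [h3, h4] at h2
  exact_mod_cast h2

lemma totalDegree_Psi {c0 : ℤ → ℂ} {N D M : ℕ} (hc : ∀ n : ℤ, n < N → c0 n = 0)
    {g : MvPolynomial (Fin e) (MvPolynomial B ℂ)} (hg : Bd D g)
    (hD : D ≤ M + (e * N + ∑ i, stn e i)) :
    (Psi (fun _ n => (C (c0 n) : MvPolynomial B ℂ)) g).totalDegree ≤ M := by
  rw [Psi_eq_sum]
  refine (totalDegree_finsetSum _ _).trans ?_
  apply Finset.sup_le
  intro d hd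
  have h1 : DD (fun _ n => (C (c0 n) : MvPolynomial B ℂ)) d = C (DD (fun _ => c0) d) := by
    rw [DD, DD, RingHom.map_det]
    rfl
  rw [h1]
  by_cases h2 : DD (fun _ => c0) d = 0
  · rw [h2, C_0, mul_zero, totalDegree_zero]
    exact Nat.zero_le _
  · have h3 := DD_ne_zero hc h2
    have h4 := hg d (mem_support_iff.1 hd)
    have h5 := totalDegree_mul (coeff d g) (C (DD (fun _ => c0) d))
    rw [totalDegree_C] at h5
    omega

end Bd

end

end Pool.Agent.Helper38
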