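import Mathlib
import Pool.Agent.Helper38.KVS2
import Pool.Agent.Helper38.KZ2

open MvPolynomial Module

namespace Pool.Agent.Helper38

noncomputable section

section Kill

variable {k : Type} [Field k] {E : Type} {k0 N : ℕ} {Q ρ : Type}

/-- images of the variables under killing the extra columns -/
def killF (k : Type) [Field k] (E : Type) (k0 N : ℕ) (Q ρ : Type) :
    SI E (k0 + N) Q ρ → MvPolynomial (SI E k0 Q ρ) k :=
  Sum.elim (fun x => Sum.elim (fun l => Fin.addCases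
      (motive := fun _ => MvPolynomial (SI E k0 Q ρ) k)
      (fun m => MvPolynomial.X (Sum.inl (x.1, Sum.inl m))) (fun _ => 0) l)
      (fun q => MvPolynomial.X (Sum.inl (x.1, Sum.inr q))) x.2)
    (fun r => MvPolynomial.X (Sum.inr r))

/-- killing the extra columns -/
def killC (k : Type) [Field k] (E : Type) (k0 N : ℕ) (Q ρ : Type) :
    MvPolynomial (SI E (k0 + N) Q ρ) k →ₐ[k] MvPolynomial (SI E k0 Q ρ) k :=
  aeval (killF k E k0 N Q ρ)

lemma killC_m (s : E) (m : Fin k0) : killC k E k0 N Q ρ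
    (MvPolynomial.X (Sum.inl (s, Sum.inl (Fin.castAdd N m)))) =
      MvPolynomial.X (Sum.inl (s, Sum.inl m)) := by
  simp [killC, killF]
lemma killC_c (s : E) (c : Fin N) : killC k E k0 N Q ρ
    (MvPolynomial.X (Sum.inl (s, Sum.inl (Fin.natAdd k0 c)))) = 0 := by
  simp [killC, killF]
lemma killC_q (s : E) (q : Q) : killC k E k0 N Q ρ
    (MvPolynomial.X (Sum.inl (s, Sum.inr q))) = MvPolynomial.X (Sum.inl (s, Sum.inr q)) := by
  simp [killC, killF]
lemma killC_r (r : ρ) : killC k E k0 N Q ρ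
    (MvPolynomial.X (Sum.inr r)) = MvPolynomial.X (Sum.inr r) := by
  simp [killC, killF]

lemma killC_jI (f : MvPolynomial (SI E k0 Q ρ) k) :
    killC k E k0 N Q ρ (rename (jI E k0 N Q ρ) f) = f := by
  have : (killC k E k0 N Q ρ).comp (rename (jI E k0 N Q ρ)) = AlgHom.id k _ := by
    apply MvPolynomial.algHom_ext
    rintro (⟨s, m | q⟩ | r)
    · rw [AlgHom.comp_apply, rename_X]
      exact killC_m s m
    · rw [AlgHom.comp_apply, rename_X]
      exact killC_q s q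
    · rw [AlgHom.comp_apply, rename_X]
      exact killC_r r
  exact AlgHom.congr_fun this f

/-- the ideal where the extra columns vanish -/
def addZ (N : ℕ) (I : Ideal (MvPolynomial (SI E k0 Q ρ) k)) :
    Ideal (MvPolynomial (SI E (k0 + N) Q ρ) k) :=
  I.comap (killC k E k0 N Q ρ)

lemma addZ_homog {X : Type} [AddCommGroup X] {w : SI E (k0 + N) Q ρ → X}
    {I : Ideal (MvPolynomial (SI E k0 Q ρ) k)} (hI : IsHomog (w ∘ jI E k0 N Q ρ) I) :
    IsHomog w (addZ N I) := by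
  refine hI.comap_aeval (killF k E k0 N Q ρ) ?_
  rintro (⟨s, l | q⟩ | r)
  · refine Fin.addCases ?_ ?_ l
    · intro m
      have h : killF k E k0 N Q ρ (Sum.inl (s, Sum.inl (Fin.castAdd N m))) =
          MvPolynomial.X (Sum.inl (s, Sum.inl m)) := by simp [killF]
      rw [h]
      exact isWeightedHomogeneous_X k (w ∘ jI E k0 N Q ρ) (Sum.inl (s, Sum.inl m))
    · intro c
      have h : killF k E k0 N Q ρ (Sum.inl (s, Sum.inl (Fin.natAdd k0 c))) = 0 := by simp [killF]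
      rw [h]
      exact isWeightedHomogeneous_zero k _ _
  · exact isWeightedHomogeneous_X k (w ∘ jI E k0 N Q ρ) (Sum.inl (s, Sum.inr q))
  · exact isWeightedHomogeneous_X k (w ∘ jI E k0 N Q ρ) (Sum.inr r)

lemma addZ_ne_top {I : Ideal (MvPolynomial (SI E k0 Q ρ) k)} (hne : I ≠ ⊤) : addZ N I ≠ ⊤ := by
  intro h
  apply hne
  rw [Ideal.eq_top_iff_one] at h ⊢
  rw [addZ, Ideal.mem_comap, map_one] at h
  exact h

/-- reindexing -/
def eK (E : Type) (k0 N : ℕ) (Q ρ : Type) : SI E k0 Q ρ ⊕ (E × Fin N) ≃ SI E (k0 + N) Q ρ where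
  toFun := Sum.elim (jI E k0 N Q ρ) (fun x => Sum.inl (x.1, Sum.inl (Fin.natAdd k0 x.2)))
  invFun := Sum.elim (fun x => Sum.elim (fun l => Fin.addCases
      (motive := fun _ => SI E k0 Q ρ ⊕ (E × Fin N))
      (fun m => Sum.inl (Sum.inl (x.1, Sum.inl m))) (fun c => Sum.inr (x.1, c)) l)
      (fun q => Sum.inl (Sum.inl (x.1, Sum.inr q))) x.2)
    (fun r => Sum.inl (Sum.inr r))
  left_inv := by
    rintro ((⟨s, m | q⟩ | r) | ⟨s, c⟩)
    · simp [jI]
    · simp [jI]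
    · simp [jI]
    · simp
  right_inv := by
    rintro (⟨s, l | q⟩ | r)
    · refine Fin.addCases ?_ ?_ l
      · intro m; simp [jI]
      · intro c; simp
    · simp [jI]
    · simp [jI]

lemma addZ_compare [Fintype E] [Fintype Q] [Fintype ρ] {X : Type} [AddCommGroup X]
    {ℓ : X →+ ℤ} {w : SI E (k0 + N) Q ρ → X} (hw : PosL ℓ w)
    {I : Ideal (MvPolynomial (SI E k0 Q ρ) k)} (hI : IsHomog (w ∘ jI E k0 N Q ρ) I)
    (hne : I ≠ ⊤) :
    ord (addZ N I) = ord I + Fintype.card E * N ∧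
      ∀ (R : Type) [CommRing R] [Algebra ℚ R] (L : X →+ R),
        cls (addZ N I) (fun i => L (w i)) =
          (∏ x : E × Fin N, L (w (Sum.inl (x.1, Sum.inl (Fin.natAdd k0 x.2))))) *
          cls I (fun i => L (w (jI E k0 N Q ρ i))) := by
  have h1 := addZ_homog (N := N) hI
  have h2 := addZ_ne_top (N := N) hne
  obtain ⟨a1, a2, a3, a4⟩ := rename_compare hw (eK E k0 N Q ρ) h1 h2
  set J := (addZ N I).comap (rename (eK E k0 N Q ρ) : MvPolynomial (SI E k0 Q ρ ⊕ (E × Fin N)) k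
    →ₐ[k] _) with hJ
  have hX : ∀ t : E × Fin N, MvPolynomial.X (Sum.inr t) ∈ J := by
    rintro ⟨s, c⟩
    rw [hJ, Ideal.mem_comap, addZ, Ideal.mem_comap]
    rw [rename_X]
    change killC k E k0 N Q ρ (MvPolynomial.X (Sum.inl (s, Sum.inl (Fin.natAdd k0 c)))) ∈ I
    rw [killC_c]
    exact I.zero_mem
  obtain ⟨b1, b2, b3, b4⟩ := kill_compare (hw.comp (eK E k0 N Q ρ)) a1 a2 hX
  have h3 : J.comap (rename Sum.inl : MvPolynomial (SI E k0 Q ρ) k →ₐ[k]
      MvPolynomial (SI E k0 Q ρ ⊕ (E × Fin N)) k) = I := by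
    ext f
    rw [Ideal.mem_comap, hJ, Ideal.mem_comap, addZ, Ideal.mem_comap]
    rw [rename_rename]
    have h4 : (⇑(eK E k0 N Q ρ) ∘ Sum.inl) = jI E k0 N Q ρ := rfl
    rw [h4, killC_jI]
  rw [h3] at b3 b4
  refine ⟨?_, ?_⟩
  · rw [a3, b3, Fintype.card_prod, Fintype.card_fin]
  · intro R _ _ L
    rw [a4 R L]
    exact b4 R L

end Kill

section PsiZ

variable {k : Type} [Field k] {E : Type} {k0 N : ℕ} {Q ρ : Type}

/-- the reduced parametrisation -/
def psiZ (k : Type) [Field k] (E : Type) (k0 N : ℕ) (Q ρ : Type) :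
    MvPolynomial (SR E (k0 + N) Q ρ) k →ₐ[k]
      MvPolynomial (SI E k0 Q ρ ⊕ (Fin (k0 + N) × (Fin (k0 + N) ⊕ Q))) k :=
  (extHom (Fin (k0 + N) × (Fin (k0 + N) ⊕ Q)) (killC k E k0 N Q ρ)).comp (psi k E (k0 + N) Q ρ)

/-- framing columns -/
def gamZ (k : Type) [Field k] (E : Type) (k0 N : ℕ) (Q ρ : Type) (s : E) :
    Fin (k0 + N) ⊕ Q → MvPolynomial (SI E k0 Q ρ ⊕ (Fin (k0 + N) × (Fin (k0 + N) ⊕ Q))) k :=
  Sum.elim (fun _ => 0) (fun q => MvPolynomial.X (Sum.inl (Sum.inl (s, Sum.inr q))))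

lemma psiZ_E (s : E) (c : Fin (k0 + N) ⊕ Q) :
    psiZ k E k0 N Q ρ (MvPolynomial.X (Sum.inl (Sum.inl s, c))) = gamZ k E k0 N Q ρ s c -
      ∑ m : Fin k0, MvPolynomial.X (Sum.inl (Sum.inl (s, Sum.inl m))) *
        MvPolynomial.X (Sum.inr (Fin.castAdd N m, c)) := by
  rw [psiZ, AlgHom.comp_apply, psi_E, map_sub, map_sum, Fin.sum_univ_add]
  simp only [map_mul, extHom_inl, extHom_inr, killC_m, killC_c, map_zero, zero_mul,
    Finset.sum_const_zero, add_zero, rename_X]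
  congr 1
  rcases c with b | q
  · simp [gam, gamZ]
  · simp only [gam, gamZ, Sum.elim_inr, extHom_inl, killC_q, rename_X]

lemma psiZ_P (l : Fin (k0 + N)) (c : Fin (k0 + N) ⊕ Q) :
    psiZ k E k0 N Q ρ (MvPolynomial.X (Sum.inl (Sum.inr l, c))) =
      MvPolynomial.X (Sum.inr (l, c)) := by
  rw [psiZ, AlgHom.comp_apply, psi_P, extHom_inr]

lemma psiZ_r (r : ρ) : psiZ k E k0 N Q ρ (MvPolynomial.X (Sum.inr r)) =
    MvPolynomial.X (Sum.inl (Sum.inr r)) := by
  rw [psiZ, AlgHom.comp_apply, psi_r, extHom_inl, killC_r, rename_X]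

lemma dbl_addZ [CharZero k] (I : Ideal (MvPolynomial (SI E k0 Q ρ) k)) [Fintype Q] :
    dbl (addZ N I) = (I.map (rename Sum.inl : MvPolynomial (SI E k0 Q ρ) k →ₐ[k]
      MvPolynomial (SI E k0 Q ρ ⊕ (Fin (k0 + N) × (Fin (k0 + N) ⊕ Q))) k)).comap
      (psiZ k E k0 N Q ρ) := by
  rw [dbl, addZ, ← comap_extHom]
  rfl

lemma stab_dblZ [CharZero k] [Fintype Q] {I : Ideal (MvPolynomial (SI E k0 Q ρ) k)}
    {D : Der k (SR E (k0 + N) Q ρ)}
    (DT : Der k (SI E k0 Q ρ ⊕ (Fin (k0 + N) × (Fin (k0 + N) ⊕ Q))))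
    (h : ∀ i, DT (psiZ k E k0 N Q ρ (MvPolynomial.X i)) =
      psiZ k E k0 N Q ρ (D (MvPolynomial.X i)))
    (hT : Stab (DT : MvPolynomial (SI E k0 Q ρ ⊕ (Fin (k0 + N) × (Fin (k0 + N) ⊕ Q))) k →ₗ[k] _)
      (I.map (rename Sum.inl : MvPolynomial (SI E k0 Q ρ) k →ₐ[k]
      MvPolynomial (SI E k0 Q ρ ⊕ (Fin (k0 + N) × (Fin (k0 + N) ⊕ Q))) k))) :
    Stab (D : MvPolynomial (SR E (k0 + N) Q ρ) k →ₗ[k] _) (dbl (addZ N I)) := by
  rw [dbl_addZ]
  exact stab_comap h hT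

lemma vf_gamZ {s : E} {c : Fin (k0 + N) ⊕ Q}
    {F : SI E k0 Q ρ ⊕ (Fin (k0 + N) × (Fin (k0 + N) ⊕ Q)) → MvPolynomial _ k}
    {G : Q → MvPolynomial (SI E k0 Q ρ ⊕ (Fin (k0 + N) × (Fin (k0 + N) ⊕ Q))) k}
    (h : ∀ q, F (Sum.inl (Sum.inl (s, Sum.inr q))) = G q) :
    vf F (gamZ k E k0 N Q ρ s c) = Sum.elim (fun _ => 0) G c := by
  rcases c with b | q
  · simp [gamZ]
  · simp only [gamZ, Sum.elim_inr, vf_X]
    exact h q

/-- rows of `E` among themselves -/
lemma stabZ_R1 [CharZero k] [Fintype Q] [DecidableEq E]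
    {I : Ideal (MvPolynomial (SI E k0 Q ρ) k)} (s s' : E)
    (hI : Stab (rowG k E (Fin k0 ⊕ Q) ρ s s' : MvPolynomial (SI E k0 Q ρ) k →ₗ[k] _) I) :
    Stab (rowG k (E ⊕ Fin (k0 + N)) (Fin (k0 + N) ⊕ Q) ρ (Sum.inl s) (Sum.inl s') :
      MvPolynomial (SR E (k0 + N) Q ρ) k →ₗ[k] _) (dbl (addZ N I)) := by
  classical
  let F : SI E k0 Q ρ ⊕ (Fin (k0 + N) × (Fin (k0 + N) ⊕ Q)) →
      MvPolynomial (SI E k0 Q ρ ⊕ (Fin (k0 + N) × (Fin (k0 + N) ⊕ Q))) k :=
    Sum.elim (Sum.elim (fun x => if x.1 = s then MvPolynomial.X (Sum.inl (Sum.inl (s', x.2))) else 0)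
      (fun _ => 0)) (fun _ => 0)
  apply stab_dblZ (vf F)
  · rintro (⟨r | l, c⟩ | r)
    · rw [psiZ_E, rowG_inl, map_sub, vf_gamZ (G := fun q => if r = s then
        MvPolynomial.X (Sum.inl (Sum.inl (s', Sum.inr q))) else 0) (fun q => rfl), map_sum]
      simp only [Derivation.leibniz, vf_X, F, Sum.elim_inl, Sum.elim_inr, smul_eq_mul, mul_zero,
        zero_add, Sum.inl.injEq]
      split_ifs with h
      · rw [psiZ_E]
        congr 1
        apply Finset.sum_congr rfl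
        intro l _; ring
      · rcases c with b | q <;> simp
    · rw [psiZ_P, rowG_inl, if_neg (by simp), map_zero]
      simp [vf_X, F]
    · rw [psiZ_r, rowG_inr, map_zero]
      simp [vf_X, F]
  · refine stab_map_of ?_ hI
    rintro (⟨r, c⟩ | r)
    · rw [rename_X, rowG_inl, vf_X]
      simp only [F, Sum.elim_inl]
      split_ifs
      · rw [rename_X]
      · rw [map_zero]
    · rw [rename_X, rowG_inr, map_zero]
      simp [vf_X, F]

lemma stabZ_colG [CharZero k] [Fintype Q] {I : Ideal (MvPolynomial (SI E k0 Q ρ) k)}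
    (b b' : Fin (k0 + N)) :
    Stab (colG k E (k0 + N) Q ρ b b' : MvPolynomial (SR E (k0 + N) Q ρ) k →ₗ[k] _)
      (dbl (addZ N I)) := by
  classical
  let F : SI E k0 Q ρ ⊕ (Fin (k0 + N) × (Fin (k0 + N) ⊕ Q)) →
      MvPolynomial (SI E k0 Q ρ ⊕ (Fin (k0 + N) × (Fin (k0 + N) ⊕ Q))) k :=
    Sum.elim (fun _ => 0) (fun x => Sum.elim (fun b'' => if b'' = b then
      MvPolynomial.X (Sum.inr (x.1, Sum.inl b')) else 0) (fun _ => 0) x.2)
  apply stab_dblZ (vf F)
  · rintro (⟨r | l, c⟩ | r)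
    · rw [psiZ_E, map_sub, vf_gamZ (G := fun q => 0) (fun q => by simp [F]), map_sum]
      rcases c with b'' | q
      · rw [colG_inl]
        simp only [Derivation.leibniz, vf_X, F, Sum.elim_inl, Sum.elim_inr, smul_eq_mul, mul_zero,
          add_zero]
        split_ifs with h
        · rw [psiZ_E]
          simp [gamZ]
        · simp
      · rw [colG_inr]
        simp [Derivation.leibniz, vf_X, F]
    · rw [psiZ_P]
      rcases c with b'' | q
      · rw [colG_inl, vf_X]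
        simp only [F, Sum.elim_inl, Sum.elim_inr]
        split_ifs
        · rw [psiZ_P]
        · rw [map_zero]
      · rw [colG_inr]
        simp [vf_X, F]
    · rw [psiZ_r, colG_r, map_zero]
      simp [vf_X, F]
  · apply stab_map_zero
    rintro (⟨r, c⟩ | r)
    · rw [rename_X, vf_X]
      simp [F]
    · rw [rename_X]
      simp [vf_X, F]

lemma stabZ_dR [CharZero k] [Fintype Q] {I : Ideal (MvPolynomial (SI E k0 Q ρ) k)}
    (g : Der k ρ × (Fin k0 → Fin k0 → k))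
    (hI : Stab (dI E Q g : MvPolynomial (SI E k0 Q ρ) k →ₗ[k] _) I) :
    Stab (dR E N Q g : MvPolynomial (SR E (k0 + N) Q ρ) k →ₗ[k] _) (dbl (addZ N I)) := by
  classical
  let F : SI E k0 Q ρ ⊕ (Fin (k0 + N) × (Fin (k0 + N) ⊕ Q)) →
      MvPolynomial (SI E k0 Q ρ ⊕ (Fin (k0 + N) × (Fin (k0 + N) ⊕ Q))) k :=
    Sum.elim (Sum.elim (fun x => Sum.elim
      (fun m' => - ∑ m, C (g.2 m m') *
          MvPolynomial.X (Sum.inl (Sum.inl (x.1, Sum.inl m))))
        (fun _ => 0) x.2)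
      (fun r => rename (Sum.inl ∘ Sum.inr) (g.1 (MvPolynomial.X r))))
      (fun x => Fin.addCases (motive := fun _ =>
        MvPolynomial (SI E k0 Q ρ ⊕ (Fin (k0 + N) × (Fin (k0 + N) ⊕ Q))) k)
        (fun m => ∑ m', C (g.2 m m') * MvPolynomial.X (Sum.inr (Fin.castAdd N m', x.2)))
        (fun _ => 0) x.1)
  have F1 : ∀ (s : E) (m' : Fin k0), vf F (MvPolynomial.X (Sum.inl (Sum.inl (s,
      Sum.inl m')))) = - ∑ m, C (g.2 m m') *
          MvPolynomial.X (Sum.inl (Sum.inl (s, Sum.inl m))) := by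
    intro s m'; simp [vf_X, F]
  have F3 : ∀ (m : Fin k0) (c : Fin (k0 + N) ⊕ Q), vf F (MvPolynomial.X (Sum.inr
      (Fin.castAdd N m, c))) = ∑ m', C (g.2 m m') *
          MvPolynomial.X (Sum.inr (Fin.castAdd N m', c)) := by
    intro s m'; simp [vf_X, F]
  have F4 : ∀ (m : Fin N) (c : Fin (k0 + N) ⊕ Q), vf F (MvPolynomial.X (Sum.inr
      (Fin.natAdd k0 m, c))) = 0 := by
    intro s m'; simp [vf_X, F]
  have F5 : ∀ r : ρ, vf F (MvPolynomial.X (Sum.inl (Sum.inr r))) =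
      rename (Sum.inl ∘ Sum.inr) (g.1 (MvPolynomial.X r)) := by
    intro r; simp [vf_X, F]
  have psiR : ∀ f : MvPolynomial ρ k, psiZ k E k0 N Q ρ (rename Sum.inr f) =
      rename (Sum.inl ∘ Sum.inr) f := by
    intro f
    have : (psiZ k E k0 N Q ρ).comp (rename Sum.inr) = rename (Sum.inl ∘ Sum.inr) := by
      apply MvPolynomial.algHom_ext
      intro r
      rw [AlgHom.comp_apply, rename_X, psiZ_r, rename_X]
      rfl
    exact AlgHom.congr_fun this f
  apply stab_dblZ (vf F)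
  · rintro (⟨s | l, c⟩ | r)
    · rw [psiZ_E, dR_E, map_zero, map_sub, vf_gamZ (G := fun q => 0) (fun q => by simp [F]),
        map_sum]
      simp only [Derivation.leibniz, F1, F3, smul_eq_mul]
      have e1 : Sum.elim (fun _ : Fin (k0 + N) =>
          (0 : MvPolynomial (SI E k0 Q ρ ⊕ (Fin (k0 + N) × (Fin (k0 + N) ⊕ Q))) k))
          (fun _ : Q => 0) c = 0 := by
        rcases c with b | q <;> rfl
      rw [e1, Finset.sum_add_distrib]
      simp only [Finset.mul_sum, mul_neg, Finset.sum_neg_distrib]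
      rw [Finset.sum_comm]
      have e2 : ∑ y : Fin k0, ∑ x : Fin k0, (MvPolynomial.X (Sum.inl (Sum.inl (s,
          Sum.inl x))) : MvPolynomial (SI E k0 Q ρ ⊕ (Fin (k0 + N) × (Fin (k0 + N) ⊕ Q))) k) *
          (C (g.2 x y) *
          MvPolynomial.X (Sum.inr (Fin.castAdd N y, c))) = ∑ x : Fin k0, ∑ i : Fin k0,
          MvPolynomial.X (Sum.inr (Fin.castAdd N x, c)) * (C (g.2 i x) *
          MvPolynomial.X (Sum.inl (Sum.inl (s, Sum.inl i)))) := by
        apply Finset.sum_congr rfl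
        intro x _
        apply Finset.sum_congr rfl
        intro y _
        ring
      rw [e2]
      ring
    · rw [psiZ_P]
      refine Fin.addCases ?_ ?_ l
      · intro m
        rw [F3, dR_M, map_sum]
        apply Finset.sum_congr rfl
        intro m' _
        rw [map_mul, psiZ_P, algHom_C, MvPolynomial.algebraMap_eq]
      · intro m
        rw [F4, dR_C, map_zero]
    · rw [psiZ_r, dR_r, psiR, F5]
  · refine stab_map_of ?_ hI
    rintro (⟨s, m | q⟩ | r)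
    · rw [rename_X, F1, dI, vf_X]
      simp only [Sum.elim_inl, map_neg, map_sum, map_mul, rename_X, rename_C]
    · rw [rename_X]
      simp [vf_X, F, dI]
    · rw [rename_X, F5, dI, vf_X]
      simp only [Sum.elim_inr]
      rw [rename_rename]

lemma stabZ_pderiv [CharZero k] [Fintype Q] {I : Ideal (MvPolynomial (SI E k0 Q ρ) k)}
    (c0 : Fin N) (b0 : Fin (k0 + N) ⊕ Q) :
    Stab ((pderiv (Sum.inl (Sum.inr (Fin.natAdd k0 c0), b0)) : Der k (SR E (k0 + N) Q ρ)) :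
      MvPolynomial (SR E (k0 + N) Q ρ) k →ₗ[k] _) (dbl (addZ N I)) := by
  classical
  have hcm : ∀ m : Fin k0, Fin.castAdd N m ≠ Fin.natAdd k0 c0 := by
    intro m h
    have := congrArg Fin.val h
    simp at this
    omega
  apply stab_dblZ (pderiv (Sum.inr (Fin.natAdd k0 c0, b0)))
  · rintro (⟨s | l, c⟩ | r)
    · rw [psiZ_E, pderiv_X_of_ne (by simp), map_zero, map_sub, map_sum]
      have e1 : pderiv (Sum.inr (Fin.natAdd k0 c0, b0)) (gamZ k E k0 N Q ρ s c) = 0 := by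
        rcases c with b | q
        · simp [gamZ]
        · simp only [gamZ, Sum.elim_inr]
          exact pderiv_X_of_ne (by simp)
      rw [e1, zero_sub, neg_eq_zero]
      apply Finset.sum_eq_zero
      intro m _
      rw [pderiv_mul, pderiv_X_of_ne (by simp), pderiv_X_of_ne (by
        intro h
        have h2 := Sum.inr.inj h
        exact hcm m (congrArg Prod.fst h2))]
      ring
    · rw [psiZ_P]
      by_cases h : (l, c) = (Fin.natAdd k0 c0, b0)
      · have h1 : l = Fin.natAdd k0 c0 := congrArg Prod.fst h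
        have h2 : c = b0 := congrArg Prod.snd h
        subst h2
        subst h1
        rw [pderiv_X_self, pderiv_X_self, map_one]
      · rw [pderiv_X_of_ne (by
          intro h'
          exact h (Sum.inr.inj h')), pderiv_X_of_ne (by
          intro h'
          apply h
          have h3 := Sum.inl.inj h'
          have h4 : (Sum.inr l : E ⊕ Fin (k0 + N)) = Sum.inr (Fin.natAdd k0 c0) :=
            congrArg Prod.fst h3
          have h5 : c = b0 := congrArg Prod.snd h3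
          rw [Sum.inr.inj h4, h5]), map_zero]
    · rw [psiZ_r, pderiv_X_of_ne (by simp), pderiv_X_of_ne (by simp), map_zero]
  · apply stab_map_zero
    intro i
    rw [rename_X]
    exact pderiv_X_of_ne (by simp)

end PsiZ

section VZ

variable {k : Type} [Field k] {e k0 N : ℕ} {Q ρ : Type}

/-- core variables -/
abbrev coreT (e k0 N : ℕ) (Q ρ : Type) : Type :=
  (Fin e × (Fin (k0 + N) ⊕ Q)) ⊕ ((Fin k0 × (Fin (k0 + N) ⊕ Q)) ⊕ ρ)

/-- inclusion of the core variables -/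
def gZv (e k0 N : ℕ) (Q ρ : Type) : coreT e k0 N Q ρ → SR (Fin e) (k0 + N) Q ρ :=
  Sum.elim (fun x => Sum.inl (Sum.inl x.1, x.2))
    (Sum.elim (fun x => Sum.inl (Sum.inr (Fin.castAdd N x.1), x.2)) Sum.inr)

/-- core and spectators -/
def eZ (e k0 N : ℕ) (Q ρ : Type) :
    coreT e k0 N Q ρ ⊕ (Fin N × (Fin (k0 + N) ⊕ Q)) ≃ SR (Fin e) (k0 + N) Q ρ where
  toFun := Sum.elim (gZv e k0 N Q ρ) (fun x => Sum.inl (Sum.inr (Fin.natAdd k0 x.1), x.2))
  invFun := Sum.elim (fun x => Sum.elim (fun s => Sum.inl (Sum.inl (s, x.2)))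
      (fun l => Fin.addCases (motive := fun _ => coreT e k0 N Q ρ ⊕ (Fin N × (Fin (k0 + N) ⊕ Q)))
        (fun m => Sum.inl (Sum.inr (Sum.inl (m, x.2))))
        (fun c => Sum.inr (c, x.2)) l) x.1)
    (fun r => Sum.inl (Sum.inr (Sum.inr r)))
  left_inv := by
    rintro ((⟨a, c⟩ | (⟨m, c⟩ | r)) | ⟨c, d⟩) <;> simp [gZv]
  right_inv := by
    rintro (⟨s | l, c⟩ | r)
    · simp [gZv]
    · refine Fin.addCases ?_ ?_ l <;> intro j <;> simp [gZv]
    · simp [gZv]

lemma gZv_injective : Function.Injective (gZv e k0 N Q ρ) := by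
  have : gZv e k0 N Q ρ = ⇑(eZ e k0 N Q ρ) ∘ Sum.inl := rfl
  rw [this]
  exact (eZ e k0 N Q ρ).injective.comp Sum.inl_injective

/-- the reduced enlarged ideal -/
def vZ (N : ℕ) (I : Ideal (MvPolynomial (SI (Fin e) k0 Q ρ) k)) :
    Ideal (MvPolynomial (coreT e k0 N Q ρ) k) :=
  (dbl (addZ N I)).comap (rename (gZv e k0 N Q ρ) : MvPolynomial _ k →ₐ[k] MvPolynomial _ k)

lemma vZ_ext [CharZero k] [Fintype Q] (I : Ideal (MvPolynomial (SI (Fin e) k0 Q ρ) k)) :
    dbl (addZ N I) = (vZ N I).map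
      (rename (gZv e k0 N Q ρ) : MvPolynomial _ k →ₐ[k] MvPolynomial _ k) := by
  set J := (dbl (addZ N I)).comap (rename (eZ e k0 N Q ρ) : MvPolynomial
    (coreT e k0 N Q ρ ⊕ (Fin N × (Fin (k0 + N) ⊕ Q))) k →ₐ[k] MvPolynomial _ k) with hJ
  have h1 : ∀ t : Fin N × (Fin (k0 + N) ⊕ Q), ∀ f ∈ J, pderiv (Sum.inr t) f ∈ J := by
    rintro ⟨c0, b0⟩
    have h2 : Stab ((pderiv (Sum.inr (c0, b0)) :
        Der k (coreT e k0 N Q ρ ⊕ (Fin N × (Fin (k0 + N) ⊕ Q)))) : MvPolynomial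
        (coreT e k0 N Q ρ ⊕ (Fin N × (Fin (k0 + N) ⊕ Q))) k →ₗ[k] _) J := by
      refine stab_comap ?_ (stabZ_pderiv (I := I) c0 b0)
      classical
      intro i
      rw [rename_X]
      have h3 : (Sum.inl (Sum.inr (Fin.natAdd k0 c0), b0) : SR (Fin e) (k0 + N) Q ρ) =
          eZ e k0 N Q ρ (Sum.inr (c0, b0)) := rfl
      rw [h3]
      by_cases h : i = Sum.inr (c0, b0)
      · rw [h, pderiv_X_self, pderiv_X_self, map_one]
      · rw [pderiv_X_of_ne (fun h' => h ((eZ e k0 N Q ρ).injective h')), pderiv_X_of_ne h,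
          map_zero]
    exact h2
  have h4 := extended_of_stable h1
  have h5 : J.comap (rename Sum.inl : MvPolynomial (coreT e k0 N Q ρ) k →ₐ[k]
      MvPolynomial (coreT e k0 N Q ρ ⊕ (Fin N × (Fin (k0 + N) ⊕ Q))) k) = vZ N I := by
    ext f
    rw [Ideal.mem_comap, hJ, Ideal.mem_comap, vZ, Ideal.mem_comap]
    change rename (eZ e k0 N Q ρ) (rename Sum.inl f) ∈ _ ↔ _
    rw [rename_rename]
    rfl
  rw [h5] at h4
  have h6 : J.map (rename (eZ e k0 N Q ρ) : MvPolynomial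
    (coreT e k0 N Q ρ ⊕ (Fin N × (Fin (k0 + N) ⊕ Q))) k →ₐ[k] MvPolynomial _ k) =
      dbl (addZ N I) := map_comap_rename _ _
  rw [← h6, h4, Ideal.map_mapₐ]
  congr 1
  apply MvPolynomial.algHom_ext
  intro i
  rw [AlgHom.comp_apply, rename_X, rename_X, rename_X]
  rfl

lemma vZ_row [CharZero k] [Fintype Q] {I : Ideal (MvPolynomial (SI (Fin e) k0 Q ρ) k)}
    (a b : Fin e)
    (hrow : Stab (rowG k (Fin e) (Fin k0 ⊕ Q) ρ a b :
      MvPolynomial (SI (Fin e) k0 Q ρ) k →ₗ[k] _) I) :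
    Stab (rowG k (Fin e) (Fin (k0 + N) ⊕ Q) ((Fin k0 × (Fin (k0 + N) ⊕ Q)) ⊕ ρ) a b :
      MvPolynomial (coreT e k0 N Q ρ) k →ₗ[k] _) (vZ N I) := by
  classical
  refine stab_comap ?_ (stabZ_R1 a b hrow)
  rintro (⟨a', c⟩ | (⟨m, c⟩ | r))
  · rw [rename_X, rowG_inl]
    change rowG k _ _ _ _ _ (MvPolynomial.X (Sum.inl (Sum.inl a', c))) = _
    rw [rowG_inl]
    by_cases h : a' = a
    · rw [if_pos (by rw [h]), if_pos h, rename_X]
      rfl
    · rw [if_neg (fun h' => h (Sum.inl.inj h')), if_neg h, map_zero]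
  · rw [rename_X, rowG_inr, map_zero]
    change rowG k _ _ _ _ _ (MvPolynomial.X (Sum.inl (Sum.inr (Fin.castAdd N m), c))) = _
    rw [rowG_inl, if_neg (by simp)]
  · rw [rename_X, rowG_inr, map_zero]
    change rowG k _ _ _ _ _ (MvPolynomial.X (Sum.inr r)) = _
    rw [rowG_inr]

lemma vZ_G [CharZero k] [Fintype Q] {I : Ideal (MvPolynomial (SI (Fin e) k0 Q ρ) k)}
    (g : Der k ρ × (Fin k0 → Fin k0 → k))
    (hG : Stab (dI (Fin e) Q g : MvPolynomial (SI (Fin e) k0 Q ρ) k →ₗ[k] _) I) :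
    Stab (spD (Fin e × (Fin (k0 + N) ⊕ Q)) (dW (Fin (k0 + N) ⊕ Q) g) :
      MvPolynomial (coreT e k0 N Q ρ) k →ₗ[k] _) (vZ N I) := by
  refine stab_comap ?_ (stabZ_dR (N := N) g hG)
  rintro (⟨a, c⟩ | (⟨m, c⟩ | r))
  · rw [rename_X, spD_inl, map_zero]
    exact dR_E g a c
  · rw [rename_X, spD_inr, rename_rename, dW, vf_X]
    have h1 := dR_M (E := Fin e) (N := N) g m c
    refine Eq.trans h1 ?_
    simp only [Sum.elim_inl, map_sum, map_mul, rename_C, rename_X]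
    apply Finset.sum_congr rfl
    intro m' _
    rfl
  · rw [rename_X, spD_inr, rename_rename, dW, vf_X]
    have h1 := dR_r (E := Fin e) (N := N) (Q := Q) g r
    refine Eq.trans h1 ?_
    simp only [Sum.elim_inr]
    rw [rename_rename]
    rfl

end VZ

end

end Pool.Agent.Helper38
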