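import Mathlib
import Pool.Agent.Helper38.KZ3

open MvPolynomial Module

namespace Pool.Agent.Helper38

noncomputable section

section SymJ

variable {k : Type} [Field k] {E : Type} {p : ℕ} {Q ρ : Type} {X : Type} [AddCommGroup X]

/-- symmetry of the multidegree in the column weights -/
theorem col_symJ [CharZero k] [Fintype E] [Fintype Q] [Fintype ρ]
    {ℓ : X × (Fin p → ℤ) →+ ℤ} {a : E → X}
    {π : Fin p → X} {wρ : ρ → X} (hpos : PosL ℓ (wR (Q := Q) a π wρ))
    {J : Ideal (MvPolynomial (SR E p Q ρ) k)} (hI : IsHomog (wR a π wρ) J)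
    (hne : J ≠ ⊤) (hst : ∀ b b' : Fin p, Stab (colG k E p Q ρ b b' :
      MvPolynomial (SR E p Q ρ) k →ₗ[k] _) J) {b b' : Fin p} (hbb : b ≠ b')
    (R : Type) [CommRing R] [Algebra ℚ R] (L : X × (Fin p → ℤ) →+ R) :
    cls J (fun i => L (swG b b' X (wR a π wρ i))) = cls J (fun i => L (wR a π wρ i)) := by
  classical
  let B : SR E p Q ρ → Prop := Sum.elim (fun x => x.2 = Sum.inl b) (fun _ => False)
  have hinv : ∀ i : SR E p Q ρ, csw b b' (csw b b' i) = i := by
    rintro (⟨r, b'' | q⟩ | r) <;> simp [csw]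
  have hB' : ∀ i : SR E p Q ρ, B (csw b b' i) ↔
      Sum.elim (fun x => x.2 = Sum.inl b') (fun _ => False) i := by
    rintro (⟨r, b'' | q⟩ | r)
    · simp only [csw, Sum.elim_inl, B, Sum.map_inl, Sum.inl.injEq]
      constructor
      · intro h
        have := congrArg (Equiv.swap b b') h
        rwa [Equiv.swap_apply_self, Equiv.swap_apply_left] at this
      · intro h
        rw [h, Equiv.swap_apply_right]
    · simp [csw, B]
    · simp [csw, B]
  have hd : ∀ i : SR E p Q ρ, B i → ¬ B (csw b b' i) := by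
    rintro (⟨r, c⟩ | r) h
    · rw [hB']
      simp only [Sum.elim_inl, B] at h ⊢
      rw [h]
      intro h'
      exact hbb (by simpa using h')
    · exact absurd h (by simp [B])
  have hfix : ∀ i : SR E p Q ρ, ¬ B i → ¬ B (csw b b' i) → csw b b' i = i := by
    rintro (⟨r, b'' | q⟩ | r) h h'
    · rw [hB'] at h'
      simp only [Sum.elim_inl, B, Sum.inl.injEq] at h h'
      simp only [csw, Sum.elim_inl, Sum.map_inl]
      rw [Equiv.swap_apply_of_ne_of_ne h h']
    · rfl
    · rfl
  have e1 : swD k (csw b b') B = colG k E p Q ρ b b' := by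
    apply MvPolynomial.derivation_ext
    rintro (⟨r, b'' | q⟩ | r)
    · rw [colG_inl, swD, vf_X]
      simp only [B, Sum.elim_inl, csw, Sum.map_inl, Sum.inl.injEq]
      by_cases h : b'' = b
      · rw [if_pos h, if_pos h, h, Equiv.swap_apply_left]
      · rw [if_neg h, if_neg h]
    · rw [colG_inr, swD, vf_X]
      simp [B]
    · rw [colG_r, swD, vf_X]
      simp [B]
  have e2 : swD k (csw b b') (fun i => B (csw b b' i)) = colG k E p Q ρ b' b := by
    apply MvPolynomial.derivation_ext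
    rintro (⟨r, b'' | q⟩ | r)
    · rw [colG_inl, swD, vf_X]
      have h0 := hB' (Sum.inl (r, Sum.inl b''))
      simp only [Sum.elim_inl, Sum.inl.injEq] at h0
      by_cases h : b'' = b'
      · rw [if_pos (h0.2 h), if_pos h, h]
        simp [csw]
      · rw [if_neg (fun h' => h (h0.1 h')), if_neg h]
    · rw [colG_inr, swD, vf_X]
      simp [B, csw]
    · rw [colG_r, swD, vf_X]
      simp [B, csw]
  have h1 := hst b b'
  have h2 := hst b' b
  rw [← e1] at h1
  rw [← e2] at h2
  have hs : ∀ i : SR E p Q ρ, swG b b' X (wR a π wρ i) = wR a π wρ (csw b b' i) := by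
    rintro (⟨r, c⟩ | r)
    · simp only [swG, wR, csw, Sum.elim_inl, AddMonoidHom.coe_mk, ZeroHom.coe_mk]
      rw [cwt_swap]
    · rfl
  have key := sym_cls hpos hI hne hinv hd hfix (swG b b' X) hs h1 h2 R L
  rw [← key]
  congr 1
  ext1 i
  rw [hs]

end SymJ

section RowSym

variable {k : Type} [Field k] {e k0 : ℕ} {Q ρ : Type} {X' : Type} [AddCommGroup X']

/-- exchange of two rows -/
def rswI {e : ℕ} (s s' : Fin e) : SI (Fin e) k0 Q ρ → SI (Fin e) k0 Q ρ :=
  Sum.map (fun x => (Equiv.swap s s' x.1, x.2)) id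

/-- exchange of two coordinates -/
def swR {e : ℕ} (s s' : Fin e) (X' : Type) [AddCommGroup X'] : CX e X' →+ CX e X' where
  toFun z := (fun c => z.1 (Equiv.swap s s' c), z.2)
  map_zero' := rfl
  map_add' _ _ := rfl

lemma swR_single (s s' r : Fin e) : swR s s' X' (Pi.single r 1, 0) =
    (Pi.single (Equiv.swap s s' r) 1, 0) := by
  simp only [swR, AddMonoidHom.coe_mk, ZeroHom.coe_mk]
  congr 1
  ext c
  rw [Pi.single_apply, Pi.single_apply]
  congr 1
  rw [eq_iff_iff]
  constructor
  · intro h; rw [← h, Equiv.swap_apply_self]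
  · intro h; rw [h, Equiv.swap_apply_self]

lemma swR_zero (s s' : Fin e) (ξ : X') : swR s s' X' (0, ξ) = (0, ξ) := rfl

/-- symmetry of the multidegree in the rows -/
theorem row_symI [CharZero k] [Fintype Q] [Fintype ρ]
    {ℓ : CX e X' →+ ℤ} {μ : Fin k0 → X'} {wρ : ρ → X'} (hpos : PosL ℓ (vW0 (Q := Q) e μ wρ))
    {I : Ideal (MvPolynomial (SI (Fin e) k0 Q ρ) k)} (hI : IsHomog (vW0 e μ wρ) I) (hne : I ≠ ⊤)
    (hrow : ∀ s s' : Fin e, s ≠ s' →
      Stab (rowG k (Fin e) (Fin k0 ⊕ Q) ρ s s' : MvPolynomial (SI (Fin e) k0 Q ρ) k →ₗ[k] _) I)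
    {s s' : Fin e} (hss : s ≠ s')
    (R : Type) [CommRing R] [Algebra ℚ R] (L : CX e X' →+ R) :
    cls I (fun i => L (swR s s' X' (vW0 e μ wρ i))) = cls I (fun i => L (vW0 e μ wρ i)) := by
  classical
  let B : SI (Fin e) k0 Q ρ → Prop := Sum.elim (fun x => x.1 = s) (fun _ => False)
  have hinv : ∀ i : SI (Fin e) k0 Q ρ, rswI s s' (rswI s s' i) = i := by
    rintro (⟨r, c⟩ | r) <;> simp [rswI]
  have hB' : ∀ i : SI (Fin e) k0 Q ρ, B (rswI s s' i) ↔
      Sum.elim (fun x => x.1 = s') (fun _ => False) i := by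
    rintro (⟨r, c⟩ | r)
    · simp only [rswI, Sum.elim_inl, B, Sum.map_inl]
      constructor
      · intro h
        have := congrArg (Equiv.swap s s') h
        rwa [Equiv.swap_apply_self, Equiv.swap_apply_left] at this
      · intro h
        rw [h, Equiv.swap_apply_right]
    · simp [rswI, B]
  have hd : ∀ i : SI (Fin e) k0 Q ρ, B i → ¬ B (rswI s s' i) := by
    rintro (⟨r, c⟩ | r) h
    · rw [hB']
      simp only [Sum.elim_inl, B] at h ⊢
      rw [h]
      exact hss
    · exact absurd h (by simp [B])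
  have hfix : ∀ i : SI (Fin e) k0 Q ρ, ¬ B i → ¬ B (rswI s s' i) → rswI s s' i = i := by
    rintro (⟨r, c⟩ | r) h h'
    · rw [hB'] at h'
      simp only [Sum.elim_inl, B] at h h'
      simp only [rswI, Sum.map_inl]
      rw [Equiv.swap_apply_of_ne_of_ne h h']
    · rfl
  have e1 : swD k (rswI s s') B = rowG k (Fin e) (Fin k0 ⊕ Q) ρ s s' := by
    apply MvPolynomial.derivation_ext
    rintro (⟨r, c⟩ | r)
    · rw [rowG_inl, swD, vf_X]
      simp only [B, Sum.elim_inl, rswI, Sum.map_inl]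
      by_cases h : r = s
      · rw [if_pos h, if_pos h, h, Equiv.swap_apply_left]
      · rw [if_neg h, if_neg h]
    · rw [rowG_inr, swD, vf_X]
      simp [B]
  have e2 : swD k (rswI s s') (fun i => B (rswI s s' i)) =
      rowG k (Fin e) (Fin k0 ⊕ Q) ρ s' s := by
    apply MvPolynomial.derivation_ext
    rintro (⟨r, c⟩ | r)
    · rw [rowG_inl, swD, vf_X]
      have h0 := hB' (Sum.inl (r, c))
      simp only [Sum.elim_inl] at h0
      by_cases h : r = s'
      · rw [if_pos (h0.2 h), if_pos h, h]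
        simp [rswI]
      · rw [if_neg (fun h' => h (h0.1 h')), if_neg h]
    · rw [rowG_inr, swD, vf_X]
      simp [B, rswI]
  have h1 := hrow s s' hss
  have h2 := hrow s' s hss.symm
  rw [← e1] at h1
  rw [← e2] at h2
  have hs : ∀ i : SI (Fin e) k0 Q ρ, swR s s' X' (vW0 e μ wρ i) = vW0 e μ wρ (rswI s s' i) := by
    rintro (⟨r, m | q⟩ | r)
    · change swR s s' X' ((Pi.single r 1, 0) - (0, μ m)) =
        (Pi.single (Equiv.swap s s' r) 1, 0) - (0, μ m)
      rw [map_sub, swR_single, swR_zero]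
    · change swR s s' X' ((Pi.single r 1, 0) - 0) = (Pi.single (Equiv.swap s s' r) 1, 0) - 0
      rw [map_sub, swR_single, map_zero]
    · rfl
  have key := sym_cls hpos hI hne hinv hd hfix (swR s s' X') hs h1 h2 R L
  rw [← key]
  congr 1
  ext1 i
  rw [hs]

/-- functional with indeterminate rows -/
def LX (e : ℕ) (L : X' →+ ℂ) : CX e X' →+ MvPolynomial (Fin e) ℂ :=
  evL (fun s => MvPolynomial.X s) ((C : ℂ →+* MvPolynomial (Fin e) ℂ).toAddMonoidHom.comp L)

lemma eval_evL {n : ℕ} (x : Fin e → ℂ) (y : Fin n → MvPolynomial (Fin e) ℂ) (L : X' →+ ℂ)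
    (z : CX n X') :
    eval x (evL y ((C : ℂ →+* MvPolynomial (Fin e) ℂ).toAddMonoidHom.comp L) z) =
      evL (fun a => eval x (y a)) L z := by
  simp only [evL, AddMonoidHom.coe_mk, ZeroHom.coe_mk, map_add, map_sum, AddMonoidHom.comp_apply]
  congr 1
  · apply Finset.sum_congr rfl
    intro a _
    rw [map_zsmul]
  · exact eval_C _

theorem row_isSymmetric [CharZero k] [Fintype Q] [Fintype ρ]
    {ℓ : CX e X' →+ ℤ} {μ : Fin k0 → X'} {wρ : ρ → X'} (hpos : PosL ℓ (vW0 (Q := Q) e μ wρ))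
    {I : Ideal (MvPolynomial (SI (Fin e) k0 Q ρ) k)} (hI : IsHomog (vW0 e μ wρ) I) (hne : I ≠ ⊤)
    (hrow : ∀ s s' : Fin e, s ≠ s' →
      Stab (rowG k (Fin e) (Fin k0 ⊕ Q) ρ s s' : MvPolynomial (SI (Fin e) k0 Q ρ) k →ₗ[k] _) I)
    (L : X' →+ ℂ) :
    (cls I (fun i => LX e L (vW0 e μ wρ i))).IsSymmetric := by
  classical
  have hswap : ∀ b b' : Fin e, rename (Equiv.swap b b')
      (cls I (fun i => LX e L (vW0 e μ wρ i))) = cls I (fun i => LX e L (vW0 e μ wρ i)) := by
    intro b b'
    by_cases hbb : b = b'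
    · subst hbb
      simp
    · have h1 := cls_map (RingHomClass.toRingHom (rename (Equiv.swap b b') :
        MvPolynomial (Fin e) ℂ →ₐ[ℂ] MvPolynomial (Fin e) ℂ))
        I (fun i => LX e L (vW0 e μ wρ i))
      have h2 := row_symI hpos hI hne hrow hbb (MvPolynomial (Fin e) ℂ) (LX e L)
      refine Eq.trans (Eq.trans h1 ?_) h2
      congr 1
      ext1 i
      set z := vW0 e μ wρ i with hz
      change rename (Equiv.swap b b') (LX e L z) = LX e L (swR b b' X' z)
      simp only [LX, evL, swR, AddMonoidHom.coe_mk, ZeroHom.coe_mk, map_add, map_sum,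
        AddMonoidHom.comp_apply]
      congr 1
      · rw [← Equiv.sum_comp (Equiv.swap b b') (fun c => z.1 (Equiv.swap b b' c) •
          (MvPolynomial.X c : MvPolynomial (Fin e) ℂ))]
        apply Finset.sum_congr rfl
        intro c _
        rw [map_zsmul, rename_X, Equiv.swap_apply_self]
      · exact rename_C _ _
  intro f
  induction f using Equiv.Perm.swap_induction_on with
  | one => simp
  | swap_mul f x y _ hf =>
    rw [Equiv.Perm.coe_mul, ← rename_rename, hf]
    exact hswap x y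

end RowSym

section Step

variable {k : Type} [Field k] {e k0 : ℕ} {Q ρ : Type} {X' : Type} [AddCommGroup X']

/-- weights with indeterminate column weights -/
def LQ {X : Type} [AddCommGroup X] {e p : ℕ} (𝓛 : X →+ MvPolynomial (Fin e) ℂ) :
    X × (Fin p → ℤ) →+ MvPolynomial (Fin e) (MvPolynomial (Fin p) ℂ) where
  toFun z := MvPolynomial.map C (𝓛 z.1) + ∑ b, z.2 b • C (MvPolynomial.X b)
  map_zero' := by simp
  map_add' a b := by
    simp only [Prod.fst_add, Prod.snd_add, map_add, Pi.add_apply, add_smul,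
      Finset.sum_add_distrib]
    ring

lemma map_LQ {X : Type} [AddCommGroup X] {e p : ℕ} (𝓛 : X →+ MvPolynomial (Fin e) ℂ)
    (η : Fin p → ℂ) (z : X × (Fin p → ℤ)) :
    MvPolynomial.map (eval η) (LQ 𝓛 z) = 𝓛 z.1 + ∑ b, z.2 b • C (η b) := by
  simp only [LQ, AddMonoidHom.coe_mk, ZeroHom.coe_mk, map_add, map_sum]
  congr 1
  · rw [MvPolynomial.map_map]
    have : (eval η).comp (C : ℂ →+* MvPolynomial (Fin p) ℂ) = RingHom.id ℂ := by
      ext a; simp
    rw [this, MvPolynomial.map_id]
  · apply Finset.sum_congr rfl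
    intro b _
    rw [map_zsmul, map_C, eval_X]

lemma map_alt {R R' : Type} [CommRing R] [CommRing R'] (φ : R →+* R') (d : Fin e → ℕ) :
    MvPolynomial.map φ (alt R d) = alt R' d := by
  rw [alt, alt, RingHom.map_det]
  congr 1
  ext1 i j
  simp

lemma eval_Psi {p : ℕ} (c0 : ℤ → ℂ) (η : Fin p → ℂ)
    (P : MvPolynomial (Fin e) (MvPolynomial (Fin p) ℂ)) :
    eval η (Psi (fun _ n => (C (c0 n) : MvPolynomial (Fin p) ℂ)) (P * alt _ (stn e))) =
      Psi (fun _ => c0) (MvPolynomial.map (eval η) P * alt ℂ (stn e)) := by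
  rw [Psi_map, map_mul, map_alt]
  congr 2
  ext1 _
  ext1 n
  exact eval_C _

lemma totalDegree_alt (d : Fin e → ℕ) : (alt ℂ d).totalDegree ≤ ∑ i, d i := by
  rw [alt_eq]
  refine (MvPolynomial.totalDegree_finsetSum _ _).trans ?_
  apply Finset.sup_le
  intro w _
  refine (MvPolynomial.totalDegree_mul _ _).trans ?_
  have h1 : (((Equiv.Perm.sign w : ℤ) : MvPolynomial (Fin e) ℂ)).totalDegree = 0 := by
    rw [← map_intCast (MvPolynomial.C : ℂ →+* MvPolynomial (Fin e) ℂ), MvPolynomial.totalDegree_C]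
  rw [h1, zero_add]
  refine (MvPolynomial.totalDegree_finsetProd _ _).trans ?_
  apply Finset.sum_le_sum
  intro i _
  refine (MvPolynomial.totalDegree_pow _ _).trans ?_
  rw [MvPolynomial.totalDegree_X, mul_one]

/-- combination of the two preceding steps -/
lemma Psi_value {N : ℕ} {M : Type} [Fintype M] (x : Fin e → ℂ) (m : M → ℂ) (z : Fin N → ℂ)
    (h : ∀ j, 1 ≤ j → j ≤ N → PowerSeries.coeff j
      ((∏ l, (1 - PowerSeries.C (m l) * PowerSeries.X)) *
        (∏ c, (1 - PowerSeries.C (z c) * PowerSeries.X)) : PowerSeries ℂ) = 0)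
    (f : MvPolynomial (Fin e) ℂ) (hf : f.IsSymmetric) (hdeg : f.totalDegree ≤ N) :
    Psi (fun _ n => cz (ser x m) (n - N))
      ((∏ s, ∏ c, (MvPolynomial.X s - C (z c))) * f * alt ℂ (stn e)) =
      (e.factorial : ℂ) * eval x f := by
  have h1 : (∏ s, ∏ c, (MvPolynomial.X s - C (z c))) * f * alt ℂ (stn e) =
      (f * alt ℂ (stn e)) * ∏ c : Fin N, ∏ s, (MvPolynomial.X s - C (z c)) := by
    rw [Finset.prod_comm]
    ring
  rw [h1, Psi_prod, ← Psi_eval f hf x]
  apply Psi_congr_support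
  intro d hd
  apply DD_trunc _ _ _ N
  · have h2 := MvPolynomial.le_totalDegree (mem_support_iff.2 hd)
    have h3 := (MvPolynomial.totalDegree_mul f (alt ℂ (stn e)))
    have h4 := totalDegree_alt (e := e) (stn e)
    have h5 : (d.sum fun _ n => n) = ∑ i, d i := by
      rw [Finsupp.sum_fintype]
      intro i; rfl
    rw [h5] at h2
    have h6 : ∑ i : Fin e, stc e i = ((∑ i, stn e i : ℕ) : ℤ) := by
      rw [Nat.cast_sum]
      apply Finset.sum_congr rfl
      intro i _
      rw [stn_cast]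
    have h7 : ∑ i : Fin e, (d i : ℤ) = ((∑ i, d i : ℕ) : ℤ) := by
      rw [Nat.cast_sum]
    rw [h6, h7]
    have h8 : ∑ i, d i ≤ N + ∑ i, stn e i := by omega
    exact_mod_cast h8
  · intro j hj
    set Mm : PowerSeries ℂ := ∏ l, (1 - PowerSeries.C (m l) * PowerSeries.X) with hMm
    set Zi : PowerSeries ℂ := ∏ c, (1 - PowerSeries.C (z c) * PowerSeries.X) with hZi
    set T : PowerSeries ℂ := ser x (fun l : Empty => l.elim) with hT
    have g1 : ser x m = Mm * T := by
      rw [hT, hMm]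
      unfold ser
      simp
    have g3 : PowerSeries.X ^ (N + 1) ∣ Mm * Zi - 1 := by
      rw [PowerSeries.X_pow_dvd_iff]
      intro i hi
      rw [map_sub]
      rcases Nat.eq_zero_or_pos i with rfl | hi'
      · rw [PowerSeries.coeff_zero_eq_constantCoeff_apply,
          PowerSeries.coeff_zero_eq_constantCoeff_apply,
          map_mul, hMm, hZi, map_prod, map_prod]
        simp
      · rw [h i hi' (by omega), PowerSeries.coeff_one, if_neg (by omega), sub_zero]
    obtain ⟨r, hr⟩ := g3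
    have g4 : Zi * (Mm * T) - T = PowerSeries.X ^ (N + 1) * (T * r) := by
      have : Zi * (Mm * T) - T = T * (Mm * Zi - 1) := by ring
      rw [this, hr]
      ring
    have g5 : PowerSeries.coeff j (Zi * (Mm * T) - T) = 0 := by
      rw [g4]
      exact PowerSeries.X_pow_dvd_iff.1 (dvd_mul_right _ _) j (by omega)
    rw [g1]
    rw [map_sub, sub_eq_zero] at g5
    exact g5

lemma bd_cls {σ B : Type} [Fintype σ] (J : Ideal (MvPolynomial σ k))
    (b : σ → MvPolynomial (Fin e) (MvPolynomial B ℂ)) (hb : ∀ i, Bd 1 (b i)) :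
    Bd (ord J) (cls J b) := by
  classical
  rw [cls, mcls, ord]
  apply bd_msum
  intro p hp
  rw [Multiset.mem_map] at hp
  obtain ⟨q, _, rfl⟩ := hp
  split_ifs with h
  · rw [← h]
    have := bd_prod q.2 (D := fun _ => 1) (g := b) (fun i _ => hb i)
    simpa using this
  · exact bd_zero _

lemma bd_int_smul {B : Type} {D : ℕ} {g : MvPolynomial (Fin e) (MvPolynomial B ℂ)} (h : Bd D g)
    (n : ℤ) : Bd D (n • g) := by
  have h1 : n • g = C (C (n : ℂ)) * g := by
    rw [zsmul_eq_mul]
    simp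
  have h2 := bd_C (e := e) (C (n : ℂ) : MvPolynomial B ℂ)
  rw [totalDegree_C] at h2
  rw [h1]
  have h3 := h2.mul h
  rwa [zero_add] at h3

lemma bd_map_C {B : Type} {f : MvPolynomial (Fin e) ℂ} {D : ℕ} (h : f.totalDegree ≤ D) :
    Bd D (MvPolynomial.map (C : ℂ →+* MvPolynomial B ℂ) f) := by
  intro d hd
  rw [coeff_map] at hd ⊢
  rw [totalDegree_C, zero_add]
  have h1 : coeff d f ≠ 0 := by
    intro h0
    apply hd
    rw [h0, C_0]
  have h2 := MvPolynomial.le_totalDegree (mem_support_iff.2 h1)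
  have h5 : (d.sum fun _ n => n) = ∑ i, d i := by
    rw [Finsupp.sum_fintype]
    intro i; rfl
  rw [h5] at h2
  exact h2.trans h

lemma totalDegree_evL {n : ℕ} (y : Fin n → MvPolynomial (Fin e) ℂ)
    (hy : ∀ a, (y a).totalDegree ≤ 1) (L : X' →+ ℂ) (z : CX n X') :
    (evL y ((C : ℂ →+* MvPolynomial (Fin e) ℂ).toAddMonoidHom.comp L) z).totalDegree ≤ 1 := by
  simp only [evL, AddMonoidHom.coe_mk, ZeroHom.coe_mk]
  refine (MvPolynomial.totalDegree_add _ _).trans (max_le ?_ ?_)
  · refine (MvPolynomial.totalDegree_finsetSum _ _).trans ?_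
    apply Finset.sup_le
    intro b _
    rw [zsmul_eq_mul]
    refine (MvPolynomial.totalDegree_mul _ _).trans ?_
    rw [← map_intCast (MvPolynomial.C : ℂ →+* MvPolynomial (Fin e) ℂ),
      MvPolynomial.totalDegree_C, zero_add]
    exact hy b
  · have : (((C : ℂ →+* MvPolynomial (Fin e) ℂ).toAddMonoidHom.comp L) z.2).totalDegree = 0 :=
      MvPolynomial.totalDegree_C _
    rw [this]
    exact Nat.zero_le _

lemma sum_filter_list {α : Type} (l : List α) (p : α → Prop) [DecidablePred p] (g : α → ℂ) :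
    (l.map fun z => if p z then g z else 0).sum = ((l.filter (fun z => p z)).map g).sum := by
  induction l with
  | nil => simp
  | cons a l ih =>
    rw [List.map_cons, List.sum_cons, ih]
    by_cases h : p a
    · simp [h]
    · simp [h]

lemma Psi_list (c : Fin e → ℤ → ℂ) (g : MvPolynomial (Fin e) ℂ) {α : Type} (l : List α)
    (u : α → MvPolynomial (Fin e) ℂ) (v : α → ℂ) :
    Psi c ((l.map fun z => u z * C (v z)).sum * g) =
      (l.map fun z => Psi c (u z * g) * v z).sum := by
  induction l with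
  | nil => simp
  | cons a l ih =>
    rw [List.map_cons, List.sum_cons, add_mul, map_add, ih, List.map_cons, List.sum_cons]
    congr 1
    have : u a * C (v a) * g = (v a) • (u a * g) := by
      rw [MvPolynomial.smul_eq_C_mul]
      ring
    rw [this, map_smul, smul_eq_mul, mul_comm]

end Step

end

end Pool.Agent.Helper38
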