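import Mathlib
import Pool.Agent.Helper38.KZ4

open MvPolynomial Module

namespace Pool.Agent.Helper38

noncomputable section

section Step

variable {k : Type} [Field k] {e k0 : ℕ} {Q ρ : Type} {X' : Type} [AddCommGroup X']

/-- geometry of the reduced enlarged ideal -/
lemma zStep_geom [CharZero k] [Fintype Q] [Fintype ρ] (N : ℕ) {ℓ' : X' →+ ℤ} {wρ : ρ → X'}
    {μ : Fin k0 → X'} (hℓ : PosL ℓ' wρ) (hμ : ∀ m, 0 < ℓ' (μ m))
    (hmono : StrictMono fun m => ℓ' (μ m)) {I : Ideal (MvPolynomial (SI (Fin e) k0 Q ρ) k)}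
    (hI : IsHomog (vW0 e μ wρ) I) (hne : I ≠ ⊤)
    (hrow : ∀ s s' : Fin e, s ≠ s' →
      Stab (rowG k (Fin e) (Fin k0 ⊕ Q) ρ s s' : MvPolynomial (SI (Fin e) k0 Q ρ) k →ₗ[k] _) I)
    (hN : ord I ≤ N) :
    IsHomog (Sum.elim (fun q => ((Pi.single q.1 1, 0) : CX e X'))
        (fun r => (0, wW μ wρ r))) (vZ N I) ∧ vZ N I ≠ ⊤ ∧ ord (vZ N I) = ord I + e * N ∧
      ∀ (x : Fin e → ℂ) (L : X' →+ ℂ),
        Psi (fun _ n => cz (ser x (fun m => L (μ m))) (n - N))
          (cls (vZ N I) (Sum.elim (fun q => (MvPolynomial.X q.1 : MvPolynomial (Fin e) ℂ))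
            (fun r => C (L (wW μ wρ r)))) * alt ℂ (stn e)) =
          (e.factorial : ℂ) * cls I (fun i => evL x L (vW0 e μ wρ i)) := by
  classical
  obtain ⟨ℓ, H1, H2, H3, H4, H5⟩ := vStep_pos (k := k) (e := e) (Q := Q) N hℓ hμ hmono
  set wN := wI (Q := Q) (vA e N X') (vP e N μ) (vR (e + N) wρ) with hwN
  have hposN : PosL ℓ wN := posL_wI H1 H3 H5
  have hI1 : IsHomog (wN ∘ jI (Fin e) k0 N Q ρ) I := by
    have := hI.coarsen (ezX e N X')
    have h : (fun i => ezX e N X' (vW0 e μ wρ i)) = wN ∘ jI (Fin e) k0 N Q ρ := by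
      ext1 i
      exact ezX_wI e N μ wρ i
    rwa [h] at this
  have hposI : PosL (ℓ.comp (ezX e N X')) (vW0 (Q := Q) e μ wρ) := by
    intro i
    have := hposN (jI (Fin e) k0 N Q ρ i)
    rw [hwN, ← ezX_wI] at this
    exact this
  have b1 : IsHomog wN (addZ N I) := addZ_homog hI1
  have b2 : addZ N I ≠ ⊤ := addZ_ne_top hne
  obtain ⟨b3, b4⟩ := addZ_compare hposN hI1 hne
  obtain ⟨c1, c2⟩ := block_slice H1 (k0 + N) ρ (vP e N μ) (vR (e + N) wρ) H2 H3 H4 H5
    (addZ N I) b1 b2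
  have d1 : IsHomog (wR (vA e N X') (vP e N μ) (vR (e + N) wρ)) (dbl (addZ N I)) := dbl_homog b1
  have d2 : dbl (addZ N I) ≠ ⊤ := dbl_ne_top b2
  set wr := wR (Q := Q) (vA e N X') (vP e N μ) (vR (e + N) wρ) with hwr
  have hposR : PosL (ℓ.comp (AddMonoidHom.fst (CX (e + N) X') (Fin (k0 + N) → ℤ))) wr :=
    posL_wR H1 H2 H5
  -- comparison with the reduced ideal
  have hfst : ∀ i : coreT e k0 N Q ρ, (wr (gZv e k0 N Q ρ i)).1 =
      ezX e N X' (Sum.elim (fun q => ((Pi.single q.1 1, 0) : CX e X'))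
        (fun r => (0, wW μ wρ r)) i) := by
    rintro (⟨s, c⟩ | (⟨m, c⟩ | r))
    · change vA e N X' s = ezX e N X' (Pi.single s 1, 0)
      rw [ezX_single, vA]
    · change vP e N μ (Fin.castAdd N m) = ezX e N X' (0, μ m)
      rw [vP_cast, ezX_zero]
    · change vR (e + N) wρ r = ezX e N X' (0, wρ r)
      rw [ezX_zero, vR]
  have hposF : PosL ℓ (fun i => (wr i).1) := hposR
  have d3 : IsHomog (fun i => (wr i).1) (dbl (addZ N I)) :=
    d1.coarsen (AddMonoidHom.fst (CX (e + N) X') (Fin (k0 + N) → ℤ))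
  -- homogeneity of the reduced ideal
  have hred : ∀ (Y : Type) [AddCommGroup Y] (φ : CX (e + N) X' →+ Y),
      IsHomog (fun i => φ ((wr (gZv e k0 N Q ρ i)).1)) (vZ N I) := by
    intro Y _ φ
    have h1 : IsHomog (fun i => φ ((wr i).1)) (dbl (addZ N I)) := d3.coarsen φ
    exact h1.comap_rename
  let pr : CX (e + N) X' →+ CX e X' :=
    { toFun := fun z => (fun a => z.1 (Fin.castAdd N a), z.2)
      map_zero' := rfl
      map_add' := fun _ _ => rfl }
  have hpr : ∀ z : CX e X', pr (ezX e N X' z) = z := by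
    intro z
    apply Prod.ext
    · ext a
      change Fin.addCases (motive := fun _ => ℤ) z.1 (fun _ => 0) (Fin.castAdd N a) = z.1 a
      rw [Fin.addCases_left]
    · rfl
  have e1 : IsHomog (Sum.elim (fun q => ((Pi.single q.1 1, 0) : CX e X'))
      (fun r => (0, wW μ wρ r))) (vZ N I) := by
    have h1 := hred (CX e X') pr
    have h2 : (fun i : coreT e k0 N Q ρ => pr ((wr (gZv e k0 N Q ρ i)).1)) =
        Sum.elim (fun q => ((Pi.single q.1 1, 0) : CX e X')) (fun r => (0, wW μ wρ r)) := by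
      ext1 i
      rw [hfst, hpr]
    rwa [h2] at h1
  have e2 : vZ N I ≠ ⊤ := by
    intro h
    apply d2
    rw [vZ_ext, h, Ideal.map_top]
  have e0 : IsHomog ((fun i => (wr i).1) ∘ gZv e k0 N Q ρ) (vZ N I) := by
    exact hred _ (AddMonoidHom.id _)
  obtain ⟨f1, f2, f3, f4⟩ := inj_compare hposF (gZv e k0 N Q ρ) gZv_injective e0 e2
  rw [← vZ_ext] at f1 f2 f3 f4
  have hordZ : ord (dbl (addZ N I)) = ord I + e * N := by
    rw [c1, b3, Fintype.card_fin]
  refine ⟨e1, e2, by rw [f3, hordZ], ?_⟩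
  intro x L
  obtain ⟨zz, hzz⟩ := exists_aux (fun m => L (μ m)) N
  set S := ser x (fun m => L (μ m)) with hS
  set CL : X' →+ MvPolynomial (Fin e) ℂ :=
    (C : ℂ →+* MvPolynomial (Fin e) ℂ).toAddMonoidHom.comp L with hCL
  set y : Fin (e + N) → MvPolynomial (Fin e) ℂ :=
    Fin.addCases (fun s => MvPolynomial.X s) (fun c => C (zz c)) with hy
  have y1 : ∀ s : Fin e, y (Fin.castAdd N s) = MvPolynomial.X s := by intro s; simp [hy]
  have y2 : ∀ c : Fin N, y (Fin.natAdd e c) = C (zz c) := by intro s; simp [hy]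
  set 𝓛 : CX (e + N) X' →+ MvPolynomial (Fin e) ℂ := evL y CL with h𝓛
  have l1 : ∀ s, 𝓛 (vA e N X' s) = MvPolynomial.X s := by
    intro s; rw [vA, h𝓛, evL_inl, y1]
  have l2 : ∀ m, 𝓛 (vP e N μ (Fin.castAdd N m)) = C (L (μ m)) := by
    intro m; rw [vP_cast, h𝓛, evL_inr]; rfl
  have l3 : ∀ c, 𝓛 (vP e N μ (Fin.natAdd k0 c)) = C (zz c) := by
    intro c; rw [vP_nat, h𝓛, evL_inl, y2]
  set P := cls (dbl (addZ N I)) (fun i => LQ 𝓛 (wr i)) with hP
  have s2 : ∀ η : Fin (k0 + N) → ℂ, MvPolynomial.map (eval η) P =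
      cls (dbl (addZ N I)) (fun i => 𝓛 (wr i).1 + ∑ b, (wr i).2 b • C (η b)) := by
    intro η
    rw [hP, cls_map]
    congr 1
    ext1 i
    exact map_LQ 𝓛 η (wr i)
  -- the two special values
  set η : Fin (k0 + N) → ℂ := Fin.addCases (fun m => L (μ m)) zz with hη
  have η1 : ∀ m : Fin k0, η (Fin.castAdd N m) = L (μ m) := by intro s; simp [hη]
  have η2 : ∀ c : Fin N, η (Fin.natAdd k0 c) = zz c := by intro s; simp [hη]
  have hηP : ∀ b, C (η b) = 𝓛 (vP e N μ b) := by
    intro b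
    refine Fin.addCases ?_ ?_ b
    · intro m; rw [η1, l2]
    · intro c; rw [η2, l3]
  set f : MvPolynomial (Fin e) ℂ := cls I (fun i => LX e L (vW0 e μ wρ i)) with hf
  have v1 : MvPolynomial.map (eval η) P = (∏ s : Fin e, ∏ c : Fin N,
      (MvPolynomial.X s - C (zz c))) * f := by
    rw [s2]
    have g1 : (fun i => 𝓛 (wr i).1 + ∑ b, (wr i).2 b • (C (η b) : MvPolynomial (Fin e) ℂ)) =
        fun i => 𝓛 (colp (vP e N μ) (wr i)) := by
      ext1 i
      simp only [colp, AddMonoidHom.coe_mk, ZeroHom.coe_mk, map_add, map_sum]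
      congr 1
      apply Finset.sum_congr rfl
      intro b _
      rw [map_zsmul, hηP]
    rw [g1, c2 (MvPolynomial (Fin e) ℂ) 𝓛, b4 (MvPolynomial (Fin e) ℂ) 𝓛]
    congr 1
    · rw [Fintype.prod_prod_type]
      apply Finset.prod_congr rfl
      intro s _
      apply Finset.prod_congr rfl
      intro c _
      change 𝓛 (vA e N X' s - vP e N μ (Fin.natAdd k0 c)) = _
      rw [map_sub, l1, l3]
    · rw [hf]
      congr 1
      ext1 i
      rw [hwN, ← ezX_wI, h𝓛, hy]
      exact evL_ezX e N (fun s => MvPolynomial.X s) (fun c => C (zz c)) CL _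
  have v0 : MvPolynomial.map (eval 0) P = cls (vZ N I)
      (Sum.elim (fun q => (MvPolynomial.X q.1 : MvPolynomial (Fin e) ℂ))
            (fun r => C (L (wW μ wρ r)))) := by
    rw [s2]
    have g1 : (fun i => 𝓛 (wr i).1 + ∑ b, (wr i).2 b •
        (C ((0 : Fin (k0 + N) → ℂ) b) : MvPolynomial (Fin e) ℂ)) = fun i => 𝓛 (wr i).1 := by
      ext1 i
      simp
    rw [g1, ← f4 (MvPolynomial (Fin e) ℂ) 𝓛]
    congr 1
    ext1 i
    rw [hfst, h𝓛, hy]
    refine (evL_ezX e N (fun s => MvPolynomial.X s) (fun c => C (zz c)) CL _).trans ?_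
    rcases i with q | r
    · simp only [Sum.elim_inl]
      rw [evL_inl]
    · simp only [Sum.elim_inr]
      rw [evL_inr]
      rfl
  -- the polynomial in the column weights
  set G : MvPolynomial (Fin (k0 + N)) ℂ :=
    Psi (fun _ n => (C (cz S (n - N)) : MvPolynomial (Fin (k0 + N)) ℂ)) (P * alt _ (stn e)) with hG
  have G1 : eval η G = (e.factorial : ℂ) * eval x f := by
    rw [hG, eval_Psi (fun n => cz S (n - N)), v1, hS]
    apply Psi_value x (fun m => L (μ m)) zz hzz f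
    · exact row_isSymmetric hposI hI hne hrow L
    · refine (totalDegree_cls_le _ _ ?_).trans hN
      intro i
      exact totalDegree_evL _ (fun a => (MvPolynomial.totalDegree_X a).le) L _
  have G0 : eval 0 G = Psi (fun _ n => cz S (n - N))
      (cls (vZ N I) (Sum.elim (fun q => (MvPolynomial.X q.1 : MvPolynomial (Fin e) ℂ))
            (fun r => C (L (wW μ wρ r)))) * alt ℂ (stn e)) := by
    rw [hG, eval_Psi (fun n => cz S (n - N)), v0]
  -- symmetry
  have hswap : ∀ b b' : Fin (k0 + N), rename (Equiv.swap b b') G = G := by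
    intro b b'
    by_cases hbb : b = b'
    · subst hbb
      simp
    · have h0 : MvPolynomial.map (RingHomClass.toRingHom (rename (Equiv.swap b b') :
          MvPolynomial (Fin (k0 + N)) ℂ →ₐ[ℂ] MvPolynomial (Fin (k0 + N)) ℂ)) P = P := by
        rw [hP]
        refine (cls_map _ _ _).trans ?_
        have h2 := col_symJ hposR d1 d2 (fun b b' => stabZ_colG (I := I) (N := N) b b') hbb
          (MvPolynomial (Fin e) (MvPolynomial (Fin (k0 + N)) ℂ)) (LQ 𝓛)
        refine Eq.trans ?_ h2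
        congr 1
        ext1 i
        set z := wr i with hz
        change MvPolynomial.map _ (LQ 𝓛 z) = LQ 𝓛 (swG b b' _ z)
        simp only [LQ, swG, AddMonoidHom.coe_mk, ZeroHom.coe_mk, map_add, map_sum]
        congr 1
        · rw [MvPolynomial.map_map]
          congr 1
          congr 1
          ext a
          simp
        · rw [← Equiv.sum_comp (Equiv.swap b b') (fun c => z.2 (Equiv.swap b b' c) •
            (C (MvPolynomial.X c) : MvPolynomial (Fin e) (MvPolynomial (Fin (k0 + N)) ℂ)))]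
          apply Finset.sum_congr rfl
          intro c _
          rw [map_zsmul, map_C, Equiv.swap_apply_self]
          congr 2
          exact rename_X _ _
      have h1 : rename (Equiv.swap b b') G = (RingHomClass.toRingHom (rename (Equiv.swap b b') :
          MvPolynomial (Fin (k0 + N)) ℂ →ₐ[ℂ] MvPolynomial (Fin (k0 + N)) ℂ)) G := rfl
      rw [h1, hG, Psi_map, map_mul, map_alt, h0]
      congr 1
      congr 1
      ext1 _
      ext1 n
      exact rename_C _ _
  have G2 : G.IsSymmetric := by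
    intro g
    induction g using Equiv.Perm.swap_induction_on with
    | one => simp
    | swap_mul f x y _ hf =>
      rw [Equiv.Perm.coe_mul, ← rename_rename, hf]
      exact hswap x y
  have G3 : G.totalDegree ≤ N := by
    rw [hG]
    have hb : Bd (ord (dbl (addZ N I))) P := by
      rw [hP]
      apply bd_cls
      intro i
      simp only [LQ, AddMonoidHom.coe_mk, ZeroHom.coe_mk]
      apply Bd.add
      · apply bd_map_C
        rw [h𝓛, hCL]
        apply totalDegree_evL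
        intro a
        refine Fin.addCases ?_ ?_ a
        · intro s
          rw [y1, MvPolynomial.totalDegree_X]
        · intro c
          rw [y2, MvPolynomial.totalDegree_C]
          exact Nat.zero_le _
      · apply bd_sum
        intro b _
        apply bd_int_smul
        have := bd_C (e := e) (MvPolynomial.X b : MvPolynomial (Fin (k0 + N)) ℂ)
        rwa [MvPolynomial.totalDegree_X] at this
    have hb2 := hb.mul (bd_alt (e := e) (B := Fin (k0 + N)) (stn e))
    apply totalDegree_Psi (c0 := fun n => cz S (n - N)) (N := N) (fun n hn => cz_neg _ (by omega))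
      hb2
    rw [hordZ]
    omega
  have G4 : eval η G = eval 0 G := by
    apply sym_eval_eq G G2 N G3 η
    intro j hj1 hj2
    rw [← hzz j hj1 hj2, Fin.prod_univ_add]
    congr 2
    · apply Finset.prod_congr rfl
      intro m _
      rw [η1]
    · apply Finset.prod_congr rfl
      intro c _
      rw [η2]
  rw [← G0, ← G4, G1]
  congr 1
  rw [hf, cls_map]
  congr 1
  ext1 i
  rw [LX]
  refine (eval_evL x (fun s => MvPolynomial.X s) L _).trans ?_
  congr 2
  ext1 a
  exact eval_X _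

/-- The vertex step with at most `e` rows. -/
theorem vertex_stepZ [CharZero k] [Fintype Q] [Fintype ρ] (N : ℕ) {ℓ' : X' →+ ℤ} {wρ : ρ → X'}
    {μ : Fin k0 → X'} (hℓ : PosL ℓ' wρ) (hμ : ∀ m, 0 < ℓ' (μ m))
    (hmono : StrictMono fun m => ℓ' (μ m)) (𝒢 : Set (Der k ρ × (Fin k0 → Fin k0 → k)))
    (h𝒢 : ∀ g ∈ 𝒢, ∃ δ, ShiftBy wρ (g.1 : MvPolynomial ρ k →ₗ[k] _) δ ∧
      ∀ m m', g.2 m m' ≠ 0 → μ m' = μ m + δ)
    {I : Ideal (MvPolynomial (SI (Fin e) k0 Q ρ) k)}
    (hI : IsHomog (vW0 e μ wρ) I) (hne : I ≠ ⊤)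
    (hrow : ∀ s s' : Fin e, s ≠ s' →
      Stab (rowG k (Fin e) (Fin k0 ⊕ Q) ρ s s' : MvPolynomial (SI (Fin e) k0 Q ρ) k →ₗ[k] _) I)
    (hG : ∀ g ∈ 𝒢, Stab (dI (Fin e) Q g : MvPolynomial (SI (Fin e) k0 Q ρ) k →ₗ[k] _) I)
    (hN : ord I ≤ N) :
    ∃ l : List ((Fin e → ℕ) ×
        Ideal (MvPolynomial ((Fin k0 × (Fin (k0 + N) ⊕ Q)) ⊕ ρ) k)),
      (∀ z ∈ l, Antitone z.1 ∧ IsHomog (wW μ wρ) z.2 ∧ z.2 ≠ ⊤ ∧ (∑ a, z.1 a) + ord z.2 = ord I ∧
        ∀ g ∈ 𝒢, Stab (dW (Fin (k0 + N) ⊕ Q) g : MvPolynomial _ k →ₗ[k] _) z.2) ∧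
      ∀ (x : Fin e → ℂ) (L : X' →+ ℂ), cls I (fun i => evL x L (vW0 e μ wρ i)) =
        (l.map fun z => dl (ser x (fun m => L (μ m))) z.1 *
          cls z.2 (fun i => L (wW μ wρ i))).sum := by
  classical
  obtain ⟨a1, a2, a3, a4⟩ := zStep_geom N hℓ hμ hmono hI hne hrow hN
  have hposW : PosL ℓ' (wW (κ := Fin (k0 + N) ⊕ Q) μ wρ) := by
    rintro (⟨m, c⟩ | r)
    · exact hμ m
    · exact hℓ r
  obtain ⟨l, l1, l2⟩ := column_theorem' hposW
    {D | ∃ g ∈ 𝒢, D = dW (Fin (k0 + N) ⊕ Q) g} (by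
      rintro D ⟨g, hg, rfl⟩
      obtain ⟨δ, h1, h2⟩ := h𝒢 g hg
      exact ⟨δ, dW_shift h1 h2⟩) (Fin (k0 + N) ⊕ Q) e (vZ N I) a1 a2
      (fun a b hab => vZ_row a b (hrow a b hab)) (by
      rintro D ⟨g, hg, rfl⟩
      exact vZ_G g (hG g hg))
  refine ⟨(l.filter (fun z => ∀ i, N ≤ z.1 i)).map (fun z => (fun i => z.1 i - N, z.2)), ?_, ?_⟩
  · intro z' hz'
    rw [List.mem_map] at hz'
    obtain ⟨z, hz, rfl⟩ := hz'
    rw [List.mem_filter] at hz
    obtain ⟨hz, hzN⟩ := hz
    have hzN' : ∀ i, N ≤ z.1 i := by simpa using hzN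
    obtain ⟨b1, b2, b3, b4, b5⟩ := l1 z hz
    refine ⟨?_, b2, b3, ?_, ?_⟩
    · intro i j hij
      have := b1 hij
      simp only
      omega
    · simp only
      have h1 : ∑ a, (z.1 a - N) + e * N = ∑ a, z.1 a := by
        have h2 : ∑ a : Fin e, N = e * N := by simp
        rw [← h2, ← Finset.sum_add_distrib]
        apply Finset.sum_congr rfl
        intro a _
        have := hzN' a
        omega
      omega
    · intro g hg
      exact b5 _ ⟨g, hg, rfl⟩
  · intro x L
    have h0 : (e.factorial : ℂ) ≠ 0 := by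
      exact_mod_cast Nat.factorial_ne_zero e
    apply mul_left_cancel₀ h0
    rw [← a4 x L]
    have h1 := l2 (MvPolynomial (Fin e) ℂ) (fun s => MvPolynomial.X s)
      ((C : ℂ →+* MvPolynomial (Fin e) ℂ).toAddMonoidHom.comp L)
    have h2 : ∀ z : (Fin e → ℕ) × Ideal (MvPolynomial ((Fin k0 × (Fin (k0 + N) ⊕ Q)) ⊕ ρ) k),
        cls z.2 (fun r => ((C : ℂ →+* MvPolynomial (Fin e) ℂ).toAddMonoidHom.comp L)
          (wW μ wρ r)) = C (cls z.2 (fun r => L (wW μ wρ r))) := by
      intro z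
      rw [cls_map]
      rfl
    have h3 : cls (vZ N I) (Sum.elim (fun q => (MvPolynomial.X q.1 : MvPolynomial (Fin e) ℂ))
            (fun r => C (L (wW μ wρ r)))) = (l.map fun z =>
          dl (ser (fun s => (MvPolynomial.X s : MvPolynomial (Fin e) ℂ))
            (fun e : Empty => e.elim)) z.1 * C (cls z.2 (fun r => L (wW μ wρ r)))).sum := by
      refine h1.trans ?_
      congr 1
      apply List.map_congr_left
      intro z _
      rw [h2]
    rw [h3, Psi_list]
    have h4 : ∀ z ∈ l, Psi (fun _ n => cz (ser x (fun m => L (μ m))) (n - N))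
        (dl (ser (fun s => (MvPolynomial.X s : MvPolynomial (Fin e) ℂ))
            (fun e : Empty => e.elim)) z.1 * alt ℂ (stn e)) * cls z.2 (fun r => L (wW μ wρ r)) =
        (e.factorial : ℂ) * (if ∀ i, N ≤ z.1 i then
          dl (ser x (fun m => L (μ m))) (fun i => z.1 i - N) * cls z.2 (fun r => L (wW μ wρ r))
          else 0) := by
      intro z hz
      rw [Psi_schur _ N z.1 (l1 z hz).1]
      split_ifs with h
      · ring
      · ring
    rw [List.map_congr_left h4, List.sum_map_mul_left]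
    congr 1
    rw [sum_filter_list, List.map_map]
    rfl

end Step

end

end Pool.Agent.Helper38
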