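import Mathlib
import Pool.Agent.Helper38.KGl3
import Pool.Agent.Helper38.KZ5

open MvPolynomial Module

namespace Pool.Agent.Helper38

noncomputable section

section GlueZ

variable {k : Type} [Field k] {Y : Type} [Fintype Y] [DecidableEq Y]

/-- one term of the induction -/
lemma glue_termZ [CharZero k] {v : Y → ℕ} {arr : ℕ → ℕ → Prop} (harr : ∀ i j, arr i j → i < j)
    (N : ℕ) {ℓ' : (Y → ℤ) →+ ℤ} (h0 : ∀ y, 0 < ℓ' (Pi.single y 1))
    (h1 : ∀ p q, v q < v p → ℓ' (Pi.single q 1) < ℓ' (Pi.single p 1)) (n : ℕ)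
    (IH : ∀ (F : Type) [Fintype F] (fr : ℕ → F → Prop)
      (I : Ideal (MvPolynomial (GS (gok v arr n fr)) k)), IsHomog (gW (gok v arr n fr)) I → I ≠ ⊤ →
      (∀ y y' : Y, y ≠ y' → v y = v y' → Stab (gD k (gok v arr n fr) y y' :
        MvPolynomial (GS (gok v arr n fr)) k →ₗ[k] _) I) → ord I ≤ N →
      ∃ l : List ((i : ℕ) → Fin (vc v i) → ℕ), (∀ z ∈ l, ∀ i, Antitone (z i)) ∧
        ∀ L : (Y → ℤ) →+ ℂ, cls I (fun i => L (gW (gok v arr n fr) i)) =
          (l.map fun z => ∏ i ∈ Finset.range n, dl (gT v arr L i) (z i)).sum)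
    {F : Type} [Fintype F] {fr : ℕ → F → Prop} {k0 : ℕ}
    (eM : Fin k0 ≃ {q : Y // arr (v q) n}) {κ : Type} [Fintype κ]
    (W : Ideal (MvPolynomial ((Fin k0 × κ) ⊕ GS (gok v arr n fr)) k))
    (hW : IsHomog (wW (fun m => Pi.single (eM m).1 1) (gW (gok v arr n fr))) W) (hne : W ≠ ⊤)
    (hord : ord W ≤ N)
    (hG : ∀ y y' : Y, y ≠ y' → v y = v y' → v y < n →
      Stab (dW κ (gD k (gok v arr n fr) y y', gmat k eM y y') :
        MvPolynomial ((Fin k0 × κ) ⊕ GS (gok v arr n fr)) k →ₗ[k] _) W)
    (lam : Fin (vc v n) → ℕ) (hlam : Antitone lam) :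
    ∃ l : List ((i : ℕ) → Fin (vc v i) → ℕ), (∀ z ∈ l, ∀ i, Antitone (z i)) ∧
        ∀ L : (Y → ℤ) →+ ℂ, dl (gT v arr L n) lam *
          cls W (fun i => L (wW (fun m => Pi.single (eM m).1 1) (gW (gok v arr n fr)) i)) =
          (l.map fun z => ∏ i ∈ Finset.range (n + 1), dl (gT v arr L i) (z i)).sum := by
  classical
  set e := e2 (fr := fr) harr eM κ with he
  have hpos' : PosL ℓ' (gW (gok v arr n (gfr (κ := κ) arr n fr))) := posL_gW harr h0 h1 n _
  have hwe : wW (fun m => Pi.single (eM m).1 1) (gW (gok v arr n fr)) =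
      gW (gok v arr n (gfr (κ := κ) arr n fr)) ∘ e := by
    ext1 j
    exact (gW_e2 harr eM κ j).symm
  have hpos : PosL ℓ' (wW (κ := κ) (fun m => Pi.single (eM m).1 1) (gW (gok v arr n fr))) := by
    rw [hwe]
    exact hpos'.comp e
  obtain ⟨a1, a2, a3, a4⟩ := rename_compare hpos e.symm hW hne
  have hwe' : wW (fun m => Pi.single (eM m).1 1) (gW (gok v arr n fr)) ∘ e.symm =
      gW (gok v arr n (gfr (κ := κ) arr n fr)) := by
    rw [hwe]
    ext1 j
    simp
  rw [hwe'] at a1
  obtain ⟨l, l1, l2⟩ := IH (F ⊕ κ) (gfr (κ := κ) arr n fr) _ a1 a2 (by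
    intro y y' hne' hyy
    by_cases hy : v y < n
    · refine stab_comap ?_ (hG y y' hne' hyy hy)
      intro x
      obtain ⟨j, rfl⟩ := e.surjective x
      have h3 := e2_dW (k := k) (fr := fr) harr eM κ hyy j
      rw [← he] at h3
      rw [← h3, rename_X, rename_rename, Equiv.symm_apply_apply]
      have h4 : (e.symm : _ → _) ∘ e = id := by ext1 j; simp
      rw [h4, rename_id]
      rfl
    · have h5 : gD k (gok v arr n (gfr (κ := κ) arr n fr)) y y' = 0 := by
        apply MvPolynomial.derivation_ext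
        intro x
        rw [gD_X, if_neg, if_neg, sub_zero]
        · rfl
        · intro h
          have h6 := gcol_lt harr x h
          have h7 := x.prop.1
          omega
        · intro h
          have h7 := x.prop.1
          rw [h] at h7
          exact hy h7
      rw [h5]
      intro f _
      exact zero_mem _) (by rw [← a3]; exact hord)
  refine ⟨l.map fun z => Function.update z n lam, ?_, ?_⟩
  · intro z hz i
    rw [List.mem_map] at hz
    obtain ⟨z', hz', rfl⟩ := hz
    by_cases hi : i = n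
    · subst hi
      rw [Function.update_self]
      exact hlam
    · rw [Function.update_of_ne hi]
      exact l1 z' hz' i
  · intro L
    have h6 : cls W (fun i => L (wW (fun m => Pi.single (eM m).1 1) (gW (gok v arr n fr)) i)) =
        (l.map fun z => ∏ i ∈ Finset.range n, dl (gT v arr L i) (z i)).sum := by
      rw [← l2 L, a4 ℂ L]
      congr 1
      ext1 i
      have := congrFun hwe' i
      rw [Function.comp_apply] at this
      rw [this]
    rw [h6, List.map_map, ← List.sum_map_mul_left]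
    congr 1
    apply List.map_congr_left
    intro z _
    simp only [Function.comp_apply]
    rw [Finset.prod_range_succ, Function.update_self, mul_comm]
    congr 1
    apply Finset.prod_congr rfl
    intro i hi
    rw [Finset.mem_range] at hi
    rw [Function.update_of_ne (ne_of_lt hi)]

/-- Gluing over the vertices. -/
theorem glueZ [CharZero k] {v : Y → ℕ} {arr : ℕ → ℕ → Prop} (harr : ∀ i j, arr i j → i < j)
    (N : ℕ) {ℓ' : (Y → ℤ) →+ ℤ} (h0 : ∀ y, 0 < ℓ' (Pi.single y 1))
    (h1 : ∀ p q, v q < v p → ℓ' (Pi.single q 1) < ℓ' (Pi.single p 1))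
    (h2 : Function.Injective fun y : Y => ℓ' (Pi.single y 1)) (n : ℕ) :
    ∀ (F : Type) [Fintype F] (fr : ℕ → F → Prop)
      (I : Ideal (MvPolynomial (GS (gok v arr n fr)) k)), IsHomog (gW (gok v arr n fr)) I → I ≠ ⊤ →
      (∀ y y' : Y, y ≠ y' → v y = v y' → Stab (gD k (gok v arr n fr) y y' :
        MvPolynomial (GS (gok v arr n fr)) k →ₗ[k] _) I) → ord I ≤ N →
      ∃ l : List ((i : ℕ) → Fin (vc v i) → ℕ), (∀ z ∈ l, ∀ i, Antitone (z i)) ∧
        ∀ L : (Y → ℤ) →+ ℂ, cls I (fun i => L (gW (gok v arr n fr) i)) =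
          (l.map fun z => ∏ i ∈ Finset.range n, dl (gT v arr L i) (z i)).sum := by
  classical
  induction n with
  | zero =>
    intro F _ fr I hI hne hst hN
    have : IsEmpty (GS (gok v arr 0 fr)) := ⟨fun x => absurd x.prop.1 (Nat.not_lt_zero _)⟩
    obtain ⟨m, hm⟩ := cls_isEmpty I
    refine ⟨List.replicate m fun _ _ => 0, ?_, ?_⟩
    · intro z hz i
      rw [List.eq_of_mem_replicate hz]
      exact fun _ _ _ => le_refl _
    · intro L
      rw [hm, List.map_replicate, List.sum_replicate]
      simp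
  | succ n IH =>
    intro F _ fr I hI hne hst hN
    let eY : Fin (vc v n) ≃ {y : Y // v y = n} := (Fintype.equivFin _).symm
    obtain ⟨eM, hmono⟩ := exists_sorted (fun q : {q : Y // arr (v q) n} => ℓ' (Pi.single q.1 1))
      (fun a b hab => Subtype.ext (h2 hab))
    have hpos := posL_gW harr h0 h1 (n + 1) fr
    obtain ⟨a1, a2, a3, a4⟩ := rename_compare hpos (e1 (fr := fr) eY eM) hI hne
    have a5 := a1.coarsen (gphi eY)
    have h5 : (fun i => gphi eY ((gW (gok v arr (n + 1) fr) ∘ (e1 (fr := fr) eY eM)) i)) =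
        vW0 (vc v n) (fun m => Pi.single (eM m).1 1) (gW (gok v arr n fr)) := by
      ext1 i
      exact gphi_e1 harr eY eM i
    rw [h5] at a5
    obtain ⟨l, l1, l2⟩ := vertex_stepZ N (posL_gW harr h0 h1 n fr)
      (μ := fun m => (Pi.single (eM m).1 1 : Y → ℤ)) (fun m => h0 _) hmono
      {g | ∃ y y' : Y, y ≠ y' ∧ v y = v y' ∧ v y < n ∧
        g = (gD k (gok v arr n fr) y y', gmat k eM y y')} (by
        rintro g ⟨y, y', _, _, _, rfl⟩
        refine ⟨_, gD_shift _ y y', ?_⟩
        intro m m' hm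
        simp only [gmat] at hm
        have hm' : (eM m).1 = y ∧ (eM m').1 = y' := by
          by_contra hcon
          exact hm (if_neg hcon)
        rw [hm'.1, hm'.2]
        abel) a5 a2 (by
        intro s s' hss
        refine stab_comap (e1_rowG harr eY eM s s') (hst _ _ ?_ ?_)
        · intro h
          exact hss (eY.injective (Subtype.ext h))
        · rw [(eY s).2, (eY s').2]) (by
        rintro g ⟨y, y', hne', hyy, hy, rfl⟩
        exact stab_comap (e1_dI eY eM hy hyy) (hst y y' hne' hyy)) (by rw [← a3]; exact hN)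
    have key : ∀ l : List ((Fin (vc v n) → ℕ) × Ideal (MvPolynomial
        ((Fin (Fintype.card {q : Y // arr (v q) n}) ×
          (Fin (Fintype.card {q : Y // arr (v q) n} + N) ⊕ {c : F // fr n c})) ⊕
          GS (gok v arr n fr)) k)), (∀ z ∈ l, Antitone z.1 ∧
          IsHomog (wW (fun m => Pi.single (eM m).1 1) (gW (gok v arr n fr))) z.2 ∧ z.2 ≠ ⊤ ∧
          ord z.2 ≤ N ∧ ∀ y y' : Y, y ≠ y' → v y = v y' → v y < n →
            Stab (dW (Fin (Fintype.card {q : Y // arr (v q) n} + N) ⊕ {c : F // fr n c})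
              (gD k (gok v arr n fr) y y', gmat k eM y y') :
              MvPolynomial ((Fin (Fintype.card {q : Y // arr (v q) n}) ×
          (Fin (Fintype.card {q : Y // arr (v q) n} + N) ⊕ {c : F // fr n c})) ⊕
          GS (gok v arr n fr)) k →ₗ[k] _) z.2) →
        ∃ l' : List ((i : ℕ) → Fin (vc v i) → ℕ), (∀ z ∈ l', ∀ i, Antitone (z i)) ∧
          ∀ L : (Y → ℤ) →+ ℂ, (l.map fun z => dl (gT v arr L n) z.1 *
            cls z.2 (fun i => L (wW (fun m => Pi.single (eM m).1 1)
              (gW (gok v arr n fr)) i))).sum =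
            (l'.map fun z => ∏ i ∈ Finset.range (n + 1), dl (gT v arr L i) (z i)).sum := by
      intro l
      induction l with
      | nil => intro _; exact ⟨[], by simp, by simp⟩
      | cons z l ih =>
        intro hl
        obtain ⟨l', c1, c2⟩ := ih (fun z hz => hl z (List.mem_cons_of_mem _ hz))
        obtain ⟨b1, b2, b3, b4, b5⟩ := hl z List.mem_cons_self
        obtain ⟨l'', d1, d2⟩ := glue_termZ harr N h0 h1 n IH eM z.2 b2 b3 b4 b5 z.1 b1
        refine ⟨l'' ++ l', ?_, ?_⟩
        · intro z hz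
          rw [List.mem_append] at hz
          rcases hz with hz | hz
          · exact d1 z hz
          · exact c1 z hz
        · intro L
          rw [List.map_cons, List.sum_cons, c2, d2, List.map_append, List.sum_append]
    obtain ⟨l', c1, c2⟩ := key l (by
      intro z hz
      obtain ⟨b1, b2, b3, b4, b5⟩ := l1 z hz
      refine ⟨b1, b2, b3, ?_, ?_⟩
      · rw [← a3] at b4
        omega
      · intro y y' hne' hyy hy
        exact b5 _ ⟨y, y', hne', hyy, hy, rfl⟩)
    refine ⟨l', c1, ?_⟩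
    intro L
    rw [← c2 L, a4 ℂ L]
    have h6 := l2 (fun s => L (Pi.single (eY s).1 1)) L
    have h7 : (fun i => evL (fun s => L (Pi.single (eY s).1 1)) L
        (vW0 (vc v n) (fun m => Pi.single (eM m).1 1) (gW (gok v arr n fr)) i)) =
        fun i => L (gW (gok v arr (n + 1) fr) ((e1 (fr := fr) eY eM) i)) := by
      ext1 i
      rw [← gphi_e1 harr eY eM i, evL_gphi]
    rw [h7] at h6
    rw [h6]
    congr 1
    apply List.map_congr_left
    intro z _
    congr 2
    exact ser_equiv2 eY eM (fun y : {y : Y // v y = n} => L (Pi.single y.1 1))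
      (fun q : {q : Y // arr (v q) n} => L (Pi.single q.1 1))

end GlueZ

end

end Pool.Agent.Helper38
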