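import Mathlib
import Pool.Agent.Helper38.KFin2
import Pool.Agent.Helper38.KZ6

open MvPolynomial Module

namespace Pool.Agent.Helper38

noncomputable section

section FinalZ

lemma dl_cast {R : Type} [CommRing R] (c : PowerSeries R) {m n : ℕ} (h : m = n)
    (lam : Fin n → ℕ) : dl c (fun s : Fin m => lam (Fin.cast h s)) = dl c lam := by
  subst h
  rfl

variable {V A : Type} [Fintype V] [DecidableEq V] [Fintype A] {tail head : A → V}

omit [DecidableEq V] in
lemma vc_rk {e : V → ℕ} {rk : V → ℕ} (hrk : Function.Injective rk) (i : V) :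
    e i = vc (fun y : Root e => rk y.1) (rk i) := by
  classical
  let E : Fin (e i) ≃ {y : Root e // rk y.1 = rk i} :=
    { toFun := fun s => ⟨⟨i, s⟩, rfl⟩
      invFun := fun y => Fin.cast (by rw [hrk y.2]) y.1.2
      left_inv := fun s => rfl
      right_inv := by
        rintro ⟨⟨j, s⟩, h⟩
        have h' : j = i := hrk h
        subst h'
        rfl }
  have h := Fintype.card_congr E
  rw [Fintype.card_fin] at h
  exact h

/-- Positivity with at most `e i` rows for quivers without oriented cycles and without multiple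
arrows. -/
theorem positivity_strict (hinj : Function.Injective fun a => (tail a, head a))
    (hacyc : ∀ v, ¬ Relation.TransGen (fun i j => ∃ a, tail a = i ∧ head a = j) v v)
    (e : V → ℕ) (φ : Rep tail head e) :
    HasKPolynomial (coordWeight tail head e) (orbitIdeal tail head e φ) ∧
    ∃ f : ((i : V) → Fin (e i) → ℤ) →₀ ℤ,
      PartitionPositive f ∧ (∀ lam ∈ f.support, ∀ i s, 0 ≤ lam i s) ∧
        orbitClass tail head e φ = DeltaOp tail head e f := by
  classical
  obtain ⟨eV, heV⟩ := exists_rank hacyc
  let rk : V → ℕ := fun v => (eV v : ℕ)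
  have hrk : Function.Injective rk := fun a b hab => eV.injective (Fin.ext hab)
  have hn : ∀ v, rk v < Fintype.card V := fun v => (eV v).2
  have harr : ∀ i j, garr tail head rk i j → i < j := by
    rintro i j ⟨a, rfl, rfl⟩
    exact heV a
  obtain ⟨ℓ, l0, l1, l2⟩ := exists_ell (e := e) rk
  have hpos : PosL ℓ (coordWeight tail head e) := by
    intro x
    rw [coordWeight, map_sub]
    have := l1 (rw' tail head e x) (cl' tail head e x) (heV x.1)
    simp only [rw', cl'] at this
    omega
  set I := orbitIdeal tail head e φ with hI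
  have hIh : IsHomog (coordWeight tail head e) I := orbit_homog tail head e φ
  have hne : I ≠ ⊤ := orbit_ne_top tail head e φ
  obtain ⟨m1, m2, m3⟩ := multidegree_eq hpos hIh hne
  refine ⟨⟨?_, m1, m2⟩, ?_⟩
  · intro μ
    have h1 := finite_whs (k := ℂ) hpos.posW μ
    have h2 : Module.Finite ℂ (weightedHomogeneousSubmodule ℂ (coordWeight tail head e) μ) := h1
    unfold weightPart
    infer_instance
  set E := e3 (e := e) hrk hinj hn with hE
  obtain ⟨a1, a2, a3, a4⟩ := rename_compare hpos E.symm hIh hne
  set J := I.comap (rename E.symm : MvPolynomial (GS (PC tail head e rk (Fintype.card V))) ℂ →ₐ[ℂ]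
    MvPolynomial (Coord tail head e) ℂ) with hJ
  have hw : coordWeight tail head e ∘ E.symm = gW (PC tail head e rk (Fintype.card V)) := by
    ext1 y
    obtain ⟨x, rfl⟩ := E.surjective y
    rw [Function.comp_apply, Equiv.symm_apply_apply, gW, hE, e3_val]
    rfl
  rw [hw] at a1
  obtain ⟨l, c1, c2⟩ := glueZ (v := fun y : Root e => rk y.1) harr (ord J) l0 l1 l2
    (Fintype.card V) Empty noFr J a1 a2 (by
      intro y y' hyy hv
      refine stab_comap ?_ (orbit_stab tail head e φ y y' hyy (hrk hv))
      intro z
      obtain ⟨x, rfl⟩ := E.surjective z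
      rw [rename_X, Equiv.symm_apply_apply]
      exact glD_e3 hrk hinj hn (hrk hv) x) le_rfl
  obtain ⟨f, f1, f2, f3⟩ := list_finsupp
    (l.map fun z => ((fun i s => ((z (rk i) (Fin.cast (vc_rk hrk i) s) : ℕ) : ℤ)) :
      (i : V) → Fin (e i) → ℤ))
    (fun lam => ∏ i, Delta (KSer tail head e i) (lam i))
  refine ⟨f, ⟨f1, ?_⟩, ?_, ?_⟩
  · intro lam hlam i
    have h1 := f2 lam hlam
    rw [List.mem_map] at h1
    obtain ⟨z, hz, rfl⟩ := h1
    intro s t hst
    have h2 := c1 z hz (rk i) (show Fin.cast (vc_rk hrk i) s ≤ Fin.cast (vc_rk hrk i) t from hst)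
    simp only
    exact_mod_cast h2
  · intro lam hlam i s
    have h1 := f2 lam hlam
    rw [List.mem_map] at h1
    obtain ⟨z, hz, rfl⟩ := h1
    exact Int.natCast_nonneg _
  · rw [DeltaOp, f3, orbitClass, m3]
    apply evC_ext
    intro ξ
    rw [cls_map]
    have h1 : (fun i => evC ξ (linForm (coordWeight tail head e i))) =
        fun i => Lpt ξ (coordWeight tail head e i) := by
      ext1 i
      exact evC_linForm ξ _
    rw [h1, a4 ℂ (Lpt ξ)]
    have h2 : (fun i => Lpt ξ (coordWeight tail head e (E.symm i))) =
        fun i => Lpt ξ (gW (PC tail head e rk (Fintype.card V)) i) := by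
      ext1 i
      have := congrFun hw i
      rw [Function.comp_apply] at this
      rw [this]
    rw [h2]
    refine (c2 (Lpt ξ)).trans ?_
    rw [map_list_sum, List.map_map, List.map_map]
    congr 1
    apply List.map_congr_left
    intro z _
    simp only [Function.comp_apply]
    rw [map_prod, Finset.prod_range, ← Equiv.prod_comp eV]
    apply Finset.prod_congr rfl
    intro i _
    rw [Delta_eq_dl (KSer tail head e i) (fun s => z (rk i) (Fin.cast (vc_rk hrk i) s)),
      dl_map, map_KSer ξ hrk i, dl_cast]

end FinalZ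

end

end Pool.Agent.Helper38
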